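import Mathlib
import Pool.Agent.H41.Kc.Chain
import Pool.Agent.H41.Kc.Cross
import Pool.Agent.H41.Kc.Word

set_option autoImplicit false

/-!
Definitions for the exact exponent of `k`-convex point sets.

A node of the complete binary tree is a `List Bool` (`false` = left, `true` = right, read from the
root).  Embeddings of complete binary trees are maps `List Bool → List Bool`.
-/

namespace Pool.Agent.H41.Ex

open Pool.Agent.H41.Kc

/-- `σ` restricted to paths of length `≤ h` is an embedding of the complete binary tree of
height `h`: going to side `s` in the source means going to side `s` in the target. -/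
def Emb (h : ℕ) (σ : List Bool → List Bool) : Prop :=
  ∀ x : List Bool, x.length < h → ∀ s : Bool, (σ x ++ [s]) <+: σ (x ++ [s])

/-- an embedding into the complete binary tree of height `n` -/
def EmbIn (n h : ℕ) (σ : List Bool → List Bool) : Prop :=
  Emb h σ ∧ ∀ x : List Bool, x.length ≤ h → (σ x).length ≤ n

/-- every line has at most `N` changes of side along every `x`-sorted list of points of `P` -/
def LineAlt (N : ℕ) (P : Set (ℝ × ℝ)) : Prop :=
  ∀ W : List (ℝ × ℝ), W.Pairwise (fun p q => p.1 < q.1) → (∀ p ∈ W, p ∈ P) →
    ∀ a b c : ℝ, (a, b) ≠ (0, 0) → altL (W.map (fun p => decide (0 < hf a b c p))) ≤ N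

/-- `φ` places the leaves (paths of length `n`) of the complete binary tree of height `n` in the
plane, from left to right, and the labels `lab` of the nodes (paths of length `< n`) describe the
order of slopes. -/
structure GeoF (n : ℕ) (φ : List Bool → ℝ × ℝ) (lab : List Bool → ℝ) : Prop where
  /-- the leaves are ordered from left to right -/
  sorted : ∀ v a b : List Bool, (v ++ false :: a).length = n → (v ++ true :: b).length = n →
    (φ (v ++ false :: a)).1 < (φ (v ++ true :: b)).1
  /-- comparable nodes have different labels -/
  ne : ∀ (v : List Bool) (s : Bool) (w : List Bool), (v ++ s :: w).length < n →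
    lab v ≠ lab (v ++ s :: w)
  /-- a node `u` in the left subtree of `v`, with a smaller label -/
  left_lt : ∀ v w a b c : List Bool, (v ++ false :: w ++ false :: a).length = n →
    (v ++ false :: w ++ true :: b).length = n → (v ++ true :: c).length = n →
    lab (v ++ false :: w) < lab v →
    0 < mf (φ (v ++ false :: w ++ false :: a)) (φ (v ++ false :: w ++ true :: b))
      (φ (v ++ true :: c))
  left_gt : ∀ v w a b c : List Bool, (v ++ false :: w ++ false :: a).length = n →
    (v ++ false :: w ++ true :: b).length = n → (v ++ true :: c).length = n →
    lab v < lab (v ++ false :: w) →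
    mf (φ (v ++ false :: w ++ false :: a)) (φ (v ++ false :: w ++ true :: b))
      (φ (v ++ true :: c)) < 0
  /-- a node `u` in the right subtree of `v`, with a larger label -/
  right_gt : ∀ v w a b c : List Bool, (v ++ true :: w ++ false :: a).length = n →
    (v ++ true :: w ++ true :: b).length = n → (v ++ false :: c).length = n →
    lab v < lab (v ++ true :: w) →
    0 < mf (φ (v ++ false :: c)) (φ (v ++ true :: w ++ false :: a))
      (φ (v ++ true :: w ++ true :: b))
  right_lt : ∀ v w a b c : List Bool, (v ++ true :: w ++ false :: a).length = n →
    (v ++ true :: w ++ true :: b).length = n → (v ++ false :: c).length = n →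
    lab (v ++ true :: w) < lab v →
    mf (φ (v ++ false :: c)) (φ (v ++ true :: w ++ false :: a))
      (φ (v ++ true :: w ++ true :: b)) < 0

/-- homogeneous labels: the order of the labels of `v` and of a descendant on side `s` depends
only on the two depths and on `s` -/
def HomF (n : ℕ) (lab : List Bool → ℝ) (f : ℕ → ℕ → Bool → Bool) : Prop :=
  ∀ (v : List Bool) (s : Bool) (w : List Bool), (v ++ s :: w).length < n →
    decide (lab v < lab (v ++ s :: w)) = f v.length (v ++ s :: w).length s

/-- first level on which two indices agree, for the mixed radix system `Ms` (finest radix first) -/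
def lvM : List ℕ → ℕ → ℕ → ℕ
  | [], _, _ => 0
  | M :: Ms, x, y => if x / M = y / M then 0 else lvM Ms (x / M) (y / M) + 1

/-- a list of levels (radix, type), finest first -/
abbrev Lev := List (ℕ × (Bool → Bool))

/-- the product of the radices -/
def tot (Λ : Lev) : ℕ := (Λ.map Prod.fst).prod

/-- the relation given by a list of levels -/
def flev : Lev → ℕ → ℕ → Bool → Bool
  | [], _, _, s => s
  | (M, X) :: Λ, x, y, s => if x / M = y / M then X s else flev Λ (x / M) (y / M) s

/-- the types of the levels on side `s`, finest first -/
def tys (Λ : Lev) (s : Bool) : List Bool := Λ.map (fun p => p.2 s)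

/-- the pattern that a line through two leaves shows -/
def Fw (Λ : Lev) (E₁ E₂ : List Bool) : List Bool :=
  (tys Λ true).reverse ++ (tys Λ false).map (!·) ++ E₁ ++ (tys Λ false).reverse ++
    (tys Λ true).map (!·) ++ E₂ ++ (tys Λ true).reverse ++ (tys Λ false).map (!·)

/-- the types are: some levels of one type `Y` with `Y true ≠ Y false`, followed by levels with
constant types `d` that change at most `q - 1` times -/
def Good (q : ℕ) (Λ : Lev) : Prop :=
  ∃ (p : ℕ) (Y : Bool → Bool) (d : List Bool),
    Λ.map Prod.snd = List.replicate p Y ++ d.map (fun c => fun _ => c) ∧ Y true = !Y false ∧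
      altL d + 1 ≤ q

/-- letters of the blocks on the left of the path `z` (the path goes right); `t` says whether the
label of the node is smaller than the label of the base node -/
def RK (t : List Bool → Bool) : List Bool → List Bool
  | [] => []
  | true :: z => t [] :: RK (fun u => t (true :: u)) z
  | false :: z => RK (fun u => t (false :: u)) z

/-- letters of the blocks on the right of the path `z` (the path goes left), from left to right -/
def LK (t : List Bool → Bool) : List Bool → List Bool
  | [] => []
  | true :: z => LK (fun u => t (true :: u)) z
  | false :: z => LK (fun u => t (false :: u)) z ++ [!t []]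

/-- condensed word of the line through the leaves `v ++ false :: a` and `v ++ true :: b` -/
def TW (t : List Bool → Bool) (v a b : List Bool) (e₁ e₂ : Bool) : List Bool :=
  RK t v ++ (RK (fun u => t (v ++ false :: u)) a ++ [e₁] ++ LK (fun u => t (v ++ false :: u)) a) ++
    (RK (fun u => t (v ++ true :: u)) b ++ [e₂] ++ LK (fun u => t (v ++ true :: u)) b) ++ LK t v

/-- depth version of `RK` -/
def RD (g : ℕ → Bool) : ℕ → List Bool → List Bool
  | _, [] => []
  | d, s :: z => if s then g d :: RD g (d + 1) z else RD g (d + 1) z

/-- depth version of `LK` (the letters are the values of `g`) -/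
def LD (g : ℕ → Bool) : ℕ → List Bool → List Bool
  | _, [] => []
  | d, s :: z => if s then LD g (d + 1) z else LD g (d + 1) z ++ [g d]

/-- `TW` for homogeneous labels -/
def TWf (f : ℕ → ℕ → Bool → Bool) (v a b : List Bool) (e₁ e₂ : Bool) : List Bool :=
  RD (fun x => f x v.length true) 0 v ++
    (RD (fun y => !f v.length y false) (v.length + 1) a ++ [e₁] ++
      LD (fun y => f v.length y false) (v.length + 1) a) ++
    (RD (fun y => !f v.length y true) (v.length + 1) b ++ [e₂] ++
      LD (fun y => f v.length y true) (v.length + 1) b) ++
    LD (fun x => !f x v.length false) 0 v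

/-- the labels of the ancestors of kind `s` change side at most `N` times -/
def SignC (n N : ℕ) (lab : List Bool → ℝ) : Prop :=
  ∀ v : List Bool, v.length < n → ∀ s : Bool,
    altL (((List.range v.length).filter (fun d => v.getD d false == s)).map
      (fun d => decide (lab (v.take d) < lab v))) ≤ N

/-- level functions on comparable nodes of the tree of height `h`: an ultrametric along paths -/
def Ultra (h : ℕ) (lv : List Bool → List Bool → ℕ) : Prop :=
  ∀ u v w : List Bool, u <+: v → v <+: w → w.length < h → lv u w = max (lv u v) (lv v w)

/-- the loss in the uniformisation lemma -/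
def ZZ : ℕ → ℕ → ℕ
  | 0, _ => 2
  | B + 1, h => 16 * ZZ B h * (Nat.log 2 h + 1) ^ (B + 2)

/-- the exponent -/
noncomputable def eexp (K q : ℕ) : ℝ :=
  if K ≤ q then 1 else
    if (K - q) % 2 = 1 then 1 / 2 + ((q : ℝ) - 1) / (2 * K)
    else 1 / 2 + ((q : ℝ) - 1) / (2 * (K - 1))

end Pool.Agent.H41.Ex
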