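import Mathlib
import Pool.Agent.H41.Ex.Defs

set_option autoImplicit false

/-!
The choice of the parameters.
-/

namespace Pool.Agent.H41.Ex

open Filter

lemma asym_zz (B m : ℕ) : ZZ B m ≤ 2 * 16 ^ B * (Nat.log 2 m + 1) ^ (B * (B + 3)) := by
  induction B with
  | zero => simp [ZZ]
  | succ B ih =>
    show 16 * ZZ B m * (Nat.log 2 m + 1) ^ (B + 2) ≤ _
    calc 16 * ZZ B m * (Nat.log 2 m + 1) ^ (B + 2)
        ≤ 16 * (2 * 16 ^ B * (Nat.log 2 m + 1) ^ (B * (B + 3))) * (Nat.log 2 m + 1) ^ (B + 2) := by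
          gcongr
      _ = 2 * 16 ^ (B + 1) * (Nat.log 2 m + 1) ^ (B * (B + 3) + (B + 2)) := by
          rw [pow_add, pow_succ]; ring
      _ ≤ 2 * 16 ^ (B + 1) * (Nat.log 2 m + 1) ^ ((B + 1) * (B + 1 + 3)) := by
          apply Nat.mul_le_mul_left
          apply Nat.pow_le_pow_right (by omega)
          nlinarith

lemma asym_pow (K : ℝ) (hK : 0 < K) (q : ℕ) : ∀ᶠ L : ℝ in atTop, K * Real.log L ^ q ≤ L := by
  have h1 : ∀ᶠ x : ℝ in atTop, ‖Real.log x ^ (q : ℝ)‖ ≤ K⁻¹ * ‖x ^ (1 : ℝ)‖ :=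
    (isLittleO_log_rpow_rpow_atTop _ one_pos).def (by positivity)
  filter_upwards [h1, eventually_ge_atTop 1] with L hL1 hL2
  rw [Real.rpow_natCast, Real.rpow_one, Real.norm_of_nonneg (pow_nonneg (Real.log_nonneg hL2) _),
    Real.norm_of_nonneg (by linarith)] at hL1
  calc K * Real.log L ^ q ≤ K * (K⁻¹ * L) := mul_le_mul_of_nonneg_left hL1 hK.le
    _ = L := by field_simp

theorem asym (k : ℕ) {e : ℝ} (he : 0 < e) (he1 : e ≤ 1) :
    ∃ C : ℝ, ∃ n₀ : ℕ, ∀ n ≥ n₀, ∃ h Λ A m : ℕ, 1 ≤ h ∧ (4 * h * (2 * k + 1)) ^ (4 * h) ≤ n ∧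
      2 ≤ Λ ∧ h ≤ Λ ^ A ∧ 1 ≤ A ∧ 1 ≤ m ∧ 4 * A ^ (4 * k) * (m * (2 * Λ) ^ (4 * k)) ≤ h ∧
      ∀ T : ℕ, m ≤ ZZ (4 * k) m * (4 ^ (4 * k + 1) * T) →
        2 ≤ T ∧ Real.exp (Real.log n ^ e / Real.log (Real.log n) ^ C) ≤
          (2 : ℝ) ^ ((T : ℝ) ^ e / 2) := by
  set E : ℕ := 4 * k * (4 * k + 3) with hE
  set p : ℕ := E + 4 * k + 2 with hp
  -- constants
  set C₁ : ℝ := 2 * 16 ^ (4 * k) * 3 ^ E * 4 ^ (4 * k + 1) with hC₁
  set C₂ : ℝ := 4 * 12 ^ (4 * k) with hC₂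
  have hC₁p : 0 < C₁ := by positivity
  have hC₂p : 0 < C₂ := by positivity
  refine ⟨(p : ℝ) + 1, ?_⟩
  have e1 : ∀ᶠ L : ℝ in atTop, (16 * (2 * C₂ + 2)) * Real.log L ^ (4 * k + 1) ≤ L :=
    asym_pow _ (by positivity) _
  have e2 : ∀ᶠ L : ℝ in atTop, 2 * Real.log L ^ p ≤ L := asym_pow _ (by norm_num) _
  have e3 : ∀ᶠ L : ℝ in atTop, 4 + 64 * C₂ * C₁ ≤ Real.log L :=
    Real.tendsto_log_atTop.eventually_ge_atTop _
  have e4 : ∀ᶠ L : ℝ in atTop, 4 * (2 * (k : ℝ) + 1) ≤ L := eventually_ge_atTop _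
  have hlog : Tendsto (fun n : ℕ => Real.log (n : ℝ)) atTop atTop :=
    Real.tendsto_log_atTop.comp tendsto_natCast_atTop_atTop
  obtain ⟨n₀, hn₀⟩ := eventually_atTop.mp
    ((hlog.eventually (e1.and (e2.and (e3.and e4)))).and (eventually_ge_atTop 1))
  refine ⟨n₀, fun n hnn => ?_⟩
  obtain ⟨⟨f1, f2, f3, f4⟩, hn1⟩ := hn₀ n hnn
  set L : ℝ := Real.log n with hL
  set l : ℝ := Real.log L with hl
  have hCC : 0 < 64 * C₂ * C₁ := by positivity
  have hl4 : 4 ≤ l := by linarith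
  have hl0 : 0 < l := by linarith
  have hL0 : 0 < L := by
    have : (0 : ℝ) < 4 * (2 * (k : ℝ) + 1) := by positivity
    linarith
  have hn0 : (0 : ℝ) < n := by exact_mod_cast hn1
  -- parameters
  set h : ℕ := ⌊L / (16 * l)⌋₊ with hh
  have hhle : (h : ℝ) ≤ L / (16 * l) := Nat.floor_le (by positivity)
  have hhlt : L / (16 * l) < h + 1 := Nat.lt_floor_add_one _
  have hhL : (h : ℝ) ≤ L := by
    refine hhle.trans ?_
    rw [div_le_iff₀ (by positivity)]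
    nlinarith
  have hlpow1 : 1 ≤ l ^ (4 * k) := one_le_pow₀ (by linarith)
  have hbig : 2 * C₂ * l ^ (4 * k) + 2 ≤ L / (16 * l) := by
    rw [le_div_iff₀ (by positivity)]
    calc (2 * C₂ * l ^ (4 * k) + 2) * (16 * l)
        ≤ (2 * C₂ * l ^ (4 * k) + 2 * l ^ (4 * k)) * (16 * l) := by gcongr; linarith
      _ = 16 * (2 * C₂ + 2) * l ^ (4 * k + 1) := by rw [pow_succ]; ring
      _ ≤ L := f1
  have hhbig : 2 * C₂ * l ^ (4 * k) + 1 ≤ h := by linarith
  have hh1 : 1 ≤ h := by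
    have h0 : 0 ≤ 2 * C₂ * l ^ (4 * k) := by positivity
    have : (1 : ℝ) ≤ h := by linarith
    exact_mod_cast this
  have hh0 : (0 : ℝ) < h := by exact_mod_cast hh1
  have hlogh : Real.log h ≤ l := Real.log_le_log hh0 hhL
  set A : ℕ := Nat.log 2 h + 1 with hA
  have hAle : (A : ℝ) ≤ 3 * l := by
    have h5 : (2 : ℝ) ^ (Nat.log 2 h) ≤ h := by
      exact_mod_cast Nat.pow_log_le_self 2 (by omega)
    have h6 := Real.log_le_log (by positivity) h5
    rw [Real.log_pow] at h6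
    have h7 : (1 : ℝ) / 2 ≤ Real.log 2 := by
      have := Real.log_two_gt_d9
      linarith
    have h8 : (0 : ℝ) ≤ (Nat.log 2 h : ℕ) := by positivity
    have h9 : ((Nat.log 2 h : ℕ) : ℝ) ≤ 2 * l := by nlinarith
    rw [hA]
    push_cast
    linarith
  set D : ℕ := 4 * A ^ (4 * k) * 4 ^ (4 * k) with hD
  have hD0 : 0 < D := by
    have : 0 < A := by omega
    positivity
  have hDle : (D : ℝ) ≤ C₂ * l ^ (4 * k) := by
    rw [hD, hC₂]
    push_cast
    calc 4 * (A : ℝ) ^ (4 * k) * 4 ^ (4 * k) ≤ 4 * (3 * l) ^ (4 * k) * 4 ^ (4 * k) := by gcongr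
      _ = 4 * 12 ^ (4 * k) * l ^ (4 * k) := by
          rw [mul_pow, show (12 : ℝ) = 3 * 4 by norm_num, mul_pow]; ring
  set m : ℕ := h / D with hm
  have hmD : D * m ≤ h := Nat.mul_div_le h D
  have hDh : 2 * (D : ℝ) ≤ h := by linarith
  have hm1 : 1 ≤ m := by
    rw [hm, Nat.one_le_div_iff hD0]
    have : (D : ℝ) ≤ h := by
      have : (0 : ℝ) ≤ D := Nat.cast_nonneg _
      linarith
    exact_mod_cast this
  have hmh : m ≤ h := Nat.div_le_self _ _
  have hmbig : (h : ℝ) ≤ 2 * D * m := by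
    have h1 : h < D * (m + 1) := by
      rw [hm]
      exact Nat.lt_mul_div_succ h hD0
    have h2 : (h : ℝ) < D * (m + 1) := by exact_mod_cast h1
    have h3 : (1 : ℝ) ≤ m := by exact_mod_cast hm1
    have h4 : (0 : ℝ) ≤ D := Nat.cast_nonneg _
    nlinarith
  refine ⟨h, 2, A, m, hh1, ?_, le_rfl, ?_, by omega, hm1, ?_, ?_⟩
  · -- the power
    have hb : (0 : ℝ) < 4 * h * (2 * k + 1) := by positivity
    have h1 : Real.log (4 * h * (2 * k + 1)) ≤ 2 * l := by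
      have h2 : 4 * (h : ℝ) * (2 * k + 1) ≤ L * L := by
        calc 4 * (h : ℝ) * (2 * k + 1) = (4 * (2 * k + 1)) * h := by ring
          _ ≤ L * L := mul_le_mul f4 hhL hh0.le hL0.le
      have h3 := Real.log_le_log hb h2
      rw [Real.log_mul hL0.ne' hL0.ne'] at h3
      linarith
    have h4 : ((4 * h : ℕ) : ℝ) * Real.log (4 * h * (2 * k + 1)) ≤ L := by
      push_cast
      calc 4 * (h : ℝ) * Real.log (4 * h * (2 * k + 1)) ≤ 4 * h * (2 * l) := by gcongr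
        _ ≤ 4 * (L / (16 * l)) * (2 * l) := by gcongr
        _ = L / 2 := by field_simp; ring
        _ ≤ L := by linarith
    have h5 : (((4 * h * (2 * k + 1)) ^ (4 * h) : ℕ) : ℝ) ≤ n := by
      push_cast
      rw [← Real.log_le_log_iff (by positivity) hn0, Real.log_pow]
      exact h4
    exact_mod_cast h5
  · exact (Nat.lt_pow_succ_log_self (by norm_num) h).le
  · calc 4 * A ^ (4 * k) * (m * (2 * 2) ^ (4 * k)) = D * m := by rw [hD]; norm_num; ring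
      _ ≤ h := hmD
  · intro T hT
    -- lower bound for `T`
    have hT1 : (m : ℝ) ≤ C₁ * l ^ E * T := by
      have h1 : m ≤ 2 * 16 ^ (4 * k) * (Nat.log 2 m + 1) ^ E * (4 ^ (4 * k + 1) * T) :=
        hT.trans (Nat.mul_le_mul_right _ (asym_zz (4 * k) m))
      have h2 : Nat.log 2 m + 1 ≤ A := by
        have := Nat.log_mono_right (b := 2) hmh
        omega
      have h3 : ((Nat.log 2 m + 1 : ℕ) : ℝ) ≤ 3 * l := by
        have : ((Nat.log 2 m + 1 : ℕ) : ℝ) ≤ A := by exact_mod_cast h2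
        linarith
      have h4 : (m : ℝ) ≤ 2 * 16 ^ (4 * k) * ((Nat.log 2 m + 1 : ℕ) : ℝ) ^ E *
          (4 ^ (4 * k + 1) * T) := by exact_mod_cast h1
      calc (m : ℝ) ≤ 2 * 16 ^ (4 * k) * ((Nat.log 2 m + 1 : ℕ) : ℝ) ^ E *
            (4 ^ (4 * k + 1) * T) := h4
        _ ≤ 2 * 16 ^ (4 * k) * (3 * l) ^ E * (4 ^ (4 * k + 1) * T) := by gcongr
        _ = C₁ * l ^ E * T := by rw [hC₁, mul_pow]; ring
    have hT2 : L ≤ 64 * C₂ * C₁ * (l ^ (E + 4 * k + 1) * T) := by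
      have h1 : L ≤ 32 * l * h := by
        have h2 : L / (16 * l) ≤ 2 * h := by
          have : (1 : ℝ) ≤ h := by exact_mod_cast hh1
          linarith
        rw [div_le_iff₀ (by positivity)] at h2
        linarith
      calc L ≤ 32 * l * h := h1
        _ ≤ 32 * l * (2 * D * m) := by gcongr
        _ ≤ 32 * l * (2 * (C₂ * l ^ (4 * k)) * (C₁ * l ^ E * T)) := by gcongr
        _ = 64 * C₂ * C₁ * (l ^ (E + 4 * k + 1) * T) := by
            rw [pow_succ, pow_add]; ring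
    have hT3 : L ≤ l ^ p * T := by
      calc L ≤ 64 * C₂ * C₁ * (l ^ (E + 4 * k + 1) * T) := hT2
        _ ≤ l * (l ^ (E + 4 * k + 1) * T) := by gcongr; linarith
        _ = l ^ p * T := by rw [hp]; ring
    have hlp : 0 < l ^ p := by positivity
    have hT4 : (2 : ℝ) ≤ T := by
      have h1 : 2 * l ^ p ≤ l ^ p * T := f2.trans hT3
      have h2 : l ^ p * 2 ≤ l ^ p * T := by linarith
      exact le_of_mul_le_mul_left h2 hlp
    refine ⟨by exact_mod_cast hT4, ?_⟩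
    have hT0 : (0 : ℝ) < T := by linarith
    have hlog2 : 1 / 2 ≤ Real.log 2 := by
      have := Real.log_two_gt_d9
      linarith
    rw [← Real.exp_log (show (0 : ℝ) < 2 by norm_num), ← Real.exp_mul]
    apply Real.exp_le_exp.mpr
    rw [Real.exp_log (by norm_num)]
    have h1 : L ^ e / l ^ (p : ℝ) ≤ (T : ℝ) ^ e := by
      have h2 : L ^ e ≤ (l ^ p * T) ^ e := Real.rpow_le_rpow hL0.le hT3 he.le
      rw [Real.mul_rpow hlp.le hT0.le] at h2
      have h3 : (l ^ p) ^ e ≤ l ^ (p : ℝ) := by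
        rw [← Real.rpow_natCast, ← Real.rpow_mul hl0.le]
        apply Real.rpow_le_rpow_of_exponent_le (by linarith)
        have : (0 : ℝ) ≤ p := Nat.cast_nonneg _
        nlinarith
      rw [div_le_iff₀ (by positivity)]
      calc L ^ e ≤ (l ^ p) ^ e * (T : ℝ) ^ e := h2
        _ ≤ l ^ (p : ℝ) * (T : ℝ) ^ e := by gcongr
        _ = (T : ℝ) ^ e * l ^ (p : ℝ) := by ring
    have h4 : L ^ e / l ^ ((p : ℝ) + 1) = L ^ e / l ^ (p : ℝ) / l := by
      rw [Real.rpow_add hl0, Real.rpow_one, div_div]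
    rw [h4]
    have h5 : 0 ≤ L ^ e / l ^ (p : ℝ) := by positivity
    calc L ^ e / l ^ (p : ℝ) / l ≤ L ^ e / l ^ (p : ℝ) / 4 :=
          div_le_div_of_nonneg_left h5 (by norm_num) hl4
      _ ≤ (T : ℝ) ^ e / 4 := by gcongr
      _ ≤ Real.log 2 * ((T : ℝ) ^ e / 2) := by
          have : 0 ≤ (T : ℝ) ^ e := by positivity
          nlinarith

end Pool.Agent.H41.Ex
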