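import Mathlib
import Pool.Agent.H41.Ex.Defs

set_option autoImplicit false

/-!
Few bad scales.

`w s` is a list of pairs (scale, sign), the scales decreasing (weakly) along the list.

PROOF.  Prove, by downward induction on `a₁ ≤ A` (i.e. induction on `A - a₁`), the following:
there are `bad ⊆ [a₁, A)` and `X` with
  `bad.card ≤ ∑ s, altL (((w s).filter (fun p => a₁ ≤ p.1)).map Prod.snd)`
(sum over the two `s : Bool`) such that for all `s` and `p ∈ w s` with `a₁ ≤ p.1` and `p.1 ∉ bad`:
`p.2 = X (bad.filter (· < p.1)).card s`.
Call `[a₁, e)` constant if for each `s` there is `c` with `p.2 = c` for all `p ∈ w s` with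
`a₁ ≤ p.1 < e`.  If `[a₁, A)` is constant, take `bad = ∅` and `X 0 s` the constants.  Otherwise let
`e < A` be the least number such that `[a₁, e + 1)` is not constant (so `[a₁, e)` is constant,
`a₁ ≤ e`).  The induction hypothesis for `e + 1` gives `bad', X'`; put `bad = insert e bad'`,
`X 0 = ` the constants of `[a₁, e)`, `X (i + 1) = X' i`.  The count: as the scales decrease along
`w s`, the list `(w s).filter (a₁ ≤ ·.1)` is the list `(w s).filter (e + 1 ≤ ·.1)` followed by
`(w s).filter (a₁ ≤ ·.1 ≤ e)`, hence its `altL` is `≥` the `altL` of the first part, and for the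
`s` for which `[a₁, e + 1)` is not constant it is larger by at least `1` (both signs occur in the
second part).
Use it with `a₁ = 0`.
-/

namespace Pool.Agent.H41.Ex

open Pool.Agent.H41.Kc

private lemma badScales_append (u v : List Bool) : altL u + altL v ≤ altL (u ++ v) := by
  cases u with
  | nil => simp
  | cons a u =>
    rw [List.cons_append, altL_cons, altL_cons, alt_append]
    have := altL_le_alt (u.getLastD a) v
    omega

private lemma badScales_const (a : Bool) (l : List Bool) (h : alt a l = 0) : ∀ x ∈ l, x = a := by
  induction l generalizing a with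
  | nil => simp
  | cons b l ih =>
    rw [alt_cons] at h
    by_cases hab : a = b
    · subst hab
      simp only [if_true, zero_add] at h
      intro x hx
      rcases List.mem_cons.1 hx with rfl | hx
      · rfl
      · exact ih a h x hx
    · simp [hab] at h

private lemma badScales_constL (l : List Bool) (h : altL l = 0) : ∃ c, ∀ x ∈ l, x = c := by
  cases l with
  | nil => exact ⟨true, by simp⟩
  | cons a l =>
    rw [altL_cons] at h
    refine ⟨a, fun x hx => ?_⟩
    rcases List.mem_cons.1 hx with rfl | hx
    · rfl
    · exact badScales_const a l h x hx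

private lemma badScales_split {l : List (ℕ × Bool)} (hl : l.Pairwise (fun p q => q.1 ≤ p.1)) {a b : ℕ} (hab : a ≤ b) :
    l.filter (fun p => decide (a ≤ p.1)) =
      l.filter (fun p => decide (b ≤ p.1)) ++ l.filter (fun p => decide (a ≤ p.1 ∧ p.1 < b)) := by
  induction l with
  | nil => simp
  | cons p l ih =>
    rw [List.pairwise_cons] at hl
    by_cases hb : b ≤ p.1
    · have ha : a ≤ p.1 := hab.trans hb
      have hn : ¬ (a ≤ p.1 ∧ p.1 < b) := by omega
      rw [List.filter_cons_of_pos (by simpa using ha), List.filter_cons_of_pos (by simpa using hb),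
        List.filter_cons_of_neg (by simpa using hn), ih hl.2]
      rfl
    · have h1 : (p :: l).filter (fun p => decide (b ≤ p.1)) = [] := by
        rw [List.filter_eq_nil_iff]
        intro q hq
        rcases List.mem_cons.1 hq with rfl | hq
        · simpa using hb
        · have := hl.1 q hq
          simp only [decide_eq_true_eq]
          omega
      rw [h1, List.nil_append]
      apply List.filter_congr
      intro q hq
      rw [decide_eq_decide]
      have h2 : q.1 < b := by
        rcases List.mem_cons.1 hq with rfl | hq
        · omega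
        · have := hl.1 q hq
          omega
      exact ⟨fun h => ⟨h, h2⟩, fun h => h.1⟩

private lemma badScales_step {l : List (ℕ × Bool)} (hl : l.Pairwise (fun p q => q.1 ≤ p.1)) {a b : ℕ} (hab : a ≤ b) :
    altL ((l.filter (fun p => decide (b ≤ p.1))).map Prod.snd) ≤
      altL ((l.filter (fun p => decide (a ≤ p.1))).map Prod.snd) ∧
    ((¬ ∃ c, ∀ p ∈ l, a ≤ p.1 → p.1 < b → p.2 = c) →
      altL ((l.filter (fun p => decide (b ≤ p.1))).map Prod.snd) + 1 ≤
        altL ((l.filter (fun p => decide (a ≤ p.1))).map Prod.snd)) := by
  rw [badScales_split hl hab, List.map_append]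
  have h1 := badScales_append ((l.filter (fun p => decide (b ≤ p.1))).map Prod.snd)
    ((l.filter (fun p => decide (a ≤ p.1 ∧ p.1 < b))).map Prod.snd)
  refine ⟨by omega, fun hno => ?_⟩
  have h2 : altL ((l.filter (fun p => decide (a ≤ p.1 ∧ p.1 < b))).map Prod.snd) ≠ 0 := by
    intro h0
    obtain ⟨c, hc⟩ := badScales_constL _ h0
    apply hno
    refine ⟨c, fun p hp ha hb => hc _ ?_⟩
    rw [List.mem_map]
    exact ⟨p, List.mem_filter.2 ⟨hp, by simpa using ⟨ha, hb⟩⟩, rfl⟩
  omega

private lemma badScales_aux (A : ℕ) (w : Bool → List (ℕ × Bool))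
    (hw : ∀ s, (w s).Pairwise (fun p q => q.1 ≤ p.1)) (hA : ∀ s, ∀ p ∈ w s, p.1 < A) (k : ℕ) :
    ∀ a, A ≤ a + k → ∃ (bad : Finset ℕ) (X : ℕ → Bool → Bool),
      bad.card ≤ altL (((w true).filter (fun p => decide (a ≤ p.1))).map Prod.snd) +
        altL (((w false).filter (fun p => decide (a ≤ p.1))).map Prod.snd) ∧ (∀ b ∈ bad, a ≤ b ∧ b < A) ∧
      ∀ s, ∀ p ∈ w s, a ≤ p.1 → p.1 ∉ bad → p.2 = X (bad.filter (· < p.1)).card s := by
  classical
  induction k with
  | zero =>
    intro a ha
    refine ⟨∅, fun _ _ => true, by simp, by simp, ?_⟩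
    intro s p hp h1
    have := hA s p hp
    omega
  | succ k ih =>
    intro a ha
    by_cases hconst : ∀ s, ∃ c, ∀ p ∈ w s, a ≤ p.1 → p.1 < A → p.2 = c
    · choose c hc using hconst
      refine ⟨∅, fun _ s => c s, by simp, by simp, ?_⟩
      intro s p hp h1 _
      exact hc s p hp h1 (hA s p hp)
    · have hA0 : A ≠ 0 := by
        rintro rfl
        apply hconst
        intro s
        exact ⟨true, fun p _ _ h => absurd h (by omega)⟩
      have hex : ∃ e, ¬ ∀ s, ∃ c, ∀ p ∈ w s, a ≤ p.1 → p.1 < e + 1 → p.2 = c := by
        refine ⟨A - 1, ?_⟩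
        have : A - 1 + 1 = A := by omega
        rw [this]
        exact hconst
      obtain ⟨e, he, hmin⟩ : ∃ e, (¬ ∀ s, ∃ c, ∀ p ∈ w s, a ≤ p.1 → p.1 < e + 1 → p.2 = c) ∧
          ∀ e' < e, ∀ s, ∃ c, ∀ p ∈ w s, a ≤ p.1 → p.1 < e' + 1 → p.2 = c := by
        refine ⟨Nat.find hex, Nat.find_spec hex, fun e' he' => ?_⟩
        exact not_not.1 (Nat.find_min hex he')
      have heA : e < A := by
        by_contra hge
        have h1 := hmin (A - 1) (by omega)
        have : A - 1 + 1 = A := by omega
        rw [this] at h1
        exact hconst h1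
      have hae : a ≤ e := by
        by_contra hlt
        apply he
        intro s
        exact ⟨true, fun p _ h1 h2 => by omega⟩
      have hce : ∀ s, ∃ c, ∀ p ∈ w s, a ≤ p.1 → p.1 < e → p.2 = c := by
        rcases Nat.eq_zero_or_pos e with h0 | h0
        · intro s
          exact ⟨true, fun p _ _ h2 => by omega⟩
        · have h1 := hmin (e - 1) (by omega)
          have : e - 1 + 1 = e := by omega
          rwa [this] at h1
      choose c hc using hce
      obtain ⟨bad, X, hcard, hrange, hX⟩ := ih (e + 1) (by omega)
      have hnot : e ∉ bad := by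
        intro h
        have := (hrange e h).1
        omega
      refine ⟨insert e bad, fun i s => if i = 0 then c s else X (i - 1) s, ?_, ?_, ?_⟩
      · rw [Finset.card_insert_of_notMem hnot]
        obtain ⟨t1, t2⟩ := badScales_step (hw true) (a := a) (b := e + 1) (by omega)
        obtain ⟨f1, f2⟩ := badScales_step (hw false) (a := a) (b := e + 1) (by omega)
        rw [not_forall] at he
        obtain ⟨s, hs⟩ := he
        cases s with
        | true =>
          have := t2 hs
          omega
        | false =>
          have := f2 hs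
          omega
      · intro b hb
        rcases Finset.mem_insert.1 hb with rfl | hb
        · exact ⟨hae, heA⟩
        · have := hrange b hb
          omega
      · intro s p hp h1 h2
        have hne : p.1 ≠ e := fun h => h2 (Finset.mem_insert.2 (Or.inl h))
        have hnb : p.1 ∉ bad := fun h => h2 (Finset.mem_insert.2 (Or.inr h))
        rcases Nat.lt_or_ge p.1 e with hlt | hge
        · have h3 : (insert e bad).filter (· < p.1) = ∅ := by
            rw [Finset.filter_eq_empty_iff]
            intro b hb
            rcases Finset.mem_insert.1 hb with rfl | hb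
            · omega
            · have := (hrange b hb).1
              omega
          rw [h3]
          simp only [Finset.card_empty, if_true]
          exact hc s p hp h1 hlt
        · have hgt : e < p.1 := by omega
          have h3 : (insert e bad).filter (· < p.1) = insert e (bad.filter (· < p.1)) := by
            rw [Finset.filter_insert, if_pos hgt]
          have h4 : e ∉ bad.filter (· < p.1) := fun h => hnot (Finset.mem_filter.1 h).1
          rw [h3, Finset.card_insert_of_notMem h4]
          simp only [Nat.add_eq_zero_iff, one_ne_zero, and_false, if_false, Nat.add_sub_cancel]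
          exact hX s p hp (by omega) hnb

theorem bad_scales (A N : ℕ) (w : Bool → List (ℕ × Bool))
    (hw : ∀ s, (w s).Pairwise (fun p q => q.1 ≤ p.1)) (hA : ∀ s, ∀ p ∈ w s, p.1 < A)
    (hN : ∀ s, altL ((w s).map Prod.snd) ≤ N) :
    ∃ (bad : Finset ℕ) (X : ℕ → Bool → Bool), bad.card ≤ 2 * N ∧ (∀ b ∈ bad, b < A) ∧
      ∀ s, ∀ p ∈ w s, p.1 ∉ bad → p.2 = X (bad.filter (· < p.1)).card s := by
  obtain ⟨bad, X, hcard, hrange, hX⟩ := badScales_aux A w hw hA A 0 (by omega)
  refine ⟨bad, X, ?_, fun b hb => (hrange b hb).2, fun s p hp => hX s p hp (Nat.zero_le _)⟩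
  have e : ∀ s, (w s).filter (fun p => decide (0 ≤ p.1)) = w s := by
    intro s
    rw [List.filter_eq_self]
    intro p _
    simp
  rw [e, e] at hcard
  have h1 := hN true
  have h2 := hN false
  omega

end Pool.Agent.H41.Ex
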