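import Mathlib
import Pool.Agent.H41.Ex.Defs

set_option autoImplicit false

/-!
Domination calculus: every two-path word of a homogeneous tree has at most as many changes as the
pattern `Fw`.

`Dom Q P` : for all starting letters `e` and all rests `r`, `alt e (Q ++ r) ≤ alt e (P ++ r)`.

Rules: reflexive, transitive; `Q <+ P → Dom Q P` (`alt_sublist`); `Dom Q P → Dom Q' P' →
Dom (Q ++ Q') (P ++ P')` (use `alt_append` for the first factor); `Dom (Q.map not) (P.map not)`
if `Dom Q P` (`alt_not`); constant lists: `Dom (List.replicate m c) [c]`.
PROOF of `dom_anc`: `Dom ((List.range z).map (fun x => flev Λ x z s)) (tys Λ s).reverse` for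
`z < tot Λ`, by induction on `Λ` (all radices `≥ 1`).  `Λ = []`: `z = 0`.  `Λ = (M, X) :: Λ'`,
`z = M * q + r`, `r < M`, `q < tot Λ'`: `range z` is `range (M * q)` followed by the `r` numbers
`M * q + i`.  On the last part `flev Λ x z s = X s`.  On the first part
`flev Λ x z s = flev Λ' (x / M) q s`, and
`Dom ((List.range (M * q)).map (fun x => g (x / M))) ((List.range q).map g)` by induction on `q`.
PROOF of `dom_desc`: for `z < tot Λ`, `z + 1 + m ≤ tot Λ`:
`Dom ((List.range m).map (fun i => flev Λ z (z + 1 + i) s)) (tys Λ s)`: `Λ = []`: `m = 0`.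
`Λ = (M, X) :: Λ'`, `z = M * q + r`: the indices `y ∈ (z, M * (q + 1))` give `X s`, the indices
`y ≥ M * (q + 1)` give `flev Λ' q (y / M) s` with `y / M ≥ q + 1`.
The reversed versions: `Dom (List.reverse ..) (tys Λ s).reverse` for the descendants and
`Dom (List.reverse ..) (tys Λ s)` for the ancestors: prove for the symmetric notion
(e.g. `∀ l e r, alt e (l ++ Q ++ r) ≤ alt e (l ++ P ++ r)` is equivalent to `Dom`, and reversal
of words preserves the number of changes: `altL_reverse` in `Kc.Upper3`), or repeat the inductions.
PROOF of `twf_le`: `RD g d z` and `LD g d z` are sublists of the full list of values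
(increasing, resp. reversed).  So `TWf (flev Λ) v a b e₁ e₂` is dominated by
`(tys true).reverse ++ (tys false).map not ++ [e₁] ++ (tys false).reverse ++ (tys true).map not ++
[e₂] ++ (tys true).reverse ++ (tys false).map not = Fw Λ [e₁] [e₂]`.  For `altL` instead of `alt e`
use `altL w ≤ alt e w ≤ alt e w' = altL w'` with `e` the first letter of `w'`.
-/

namespace Pool.Agent.H41.Ex

open Pool.Agent.H41.Kc

/-- domination -/
def Dom (Q P : List Bool) : Prop := ∀ (e : Bool) (r : List Bool), alt e (Q ++ r) ≤ alt e (P ++ r)

theorem dom_refl (P : List Bool) : Dom P P := fun _ _ => le_rfl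

theorem dom_trans {P Q R : List Bool} (h1 : Dom P Q) (h2 : Dom Q R) : Dom P R :=
  fun e r => (h1 e r).trans (h2 e r)

theorem dom_sublist {P Q : List Bool} (h : P.Sublist Q) : Dom P Q :=
  fun e r => alt_sublist (h.append (List.Sublist.refl r)) e

theorem dom_append {P Q P' Q' : List Bool} (h : Dom P Q) (h' : Dom P' Q') :
    Dom (P ++ P') (Q ++ Q') := by
  intro e r
  have h1 := h e (P' ++ r)
  rw [alt_append e Q (P' ++ r)] at h1
  have h2 := h' (Q.getLastD e) r
  rw [List.append_assoc, List.append_assoc, alt_append e Q (Q' ++ r)]
  omega

theorem dom_not {P Q : List Bool} (h : Dom P Q) : Dom (P.map (!·)) (Q.map (!·)) := by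
  intro e r
  have h1 := h (!e) (r.map (!·))
  have h2 : ∀ X : List Bool, alt e (X.map (!·) ++ r) = alt (!e) (X ++ r.map (!·)) := by
    intro X
    rw [← alt_not e]
    rw [List.map_append, List.map_map]
    simp [Function.comp_def]
  rw [h2, h2]
  exact h1

theorem dom_const {l : List Bool} {c : Bool} (h : ∀ b ∈ l, b = c) : Dom l [c] := by
  intro e r
  cases l with
  | nil =>
    exact alt_sublist (List.sublist_append_right [c] r) e
  | cons b l =>
    have hb : b = c := h b (by simp)
    subst hb
    rw [List.cons_append, alt_cons, alt_const_append _ (fun d hd => h d (by simp [hd]))]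
    simp [alt_cons]

theorem altL_dom {P Q : List Bool} (h : Dom P Q) (l r : List Bool) :
    altL (l ++ P ++ r) ≤ altL (l ++ Q ++ r) := by
  cases l with
  | cons c l =>
    rw [List.append_assoc, List.append_assoc, List.cons_append, List.cons_append, altL_cons,
      altL_cons, alt_append, alt_append c l (Q ++ r)]
    exact Nat.add_le_add_left (h _ _) _
  | nil =>
    rw [List.nil_append, List.nil_append]
    cases hQ : Q ++ r with
    | nil =>
      have h1 := h true r
      rw [hQ] at h1
      have h2 := altL_le_alt true (P ++ r)
      rw [altL_nil]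
      rw [alt_nil] at h1
      omega
    | cons c w =>
      have h1 := h c r
      rw [hQ, alt_cons, if_pos rfl, zero_add] at h1
      rw [altL_cons]
      exact (altL_le_alt c _).trans h1

theorem altL_rev_aux (l : List Bool) : altL l.reverse = altL l := by
  induction l with
  | nil => rfl
  | cons a l ih =>
    rw [List.reverse_cons]
    cases l with
    | nil => rfl
    | cons b l =>
      rw [List.reverse_cons] at ih ⊢
      have h1 : altL (l.reverse ++ [b] ++ [a]) = altL (l.reverse ++ [b]) + (if b = a then 0 else 1) := by
        cases h : l.reverse with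
        | nil =>
          simp [altL_cons, alt_cons]
        | cons c w =>
          rw [List.cons_append, List.cons_append, altL_cons, altL_cons, alt_append]
          congr 1
          simp [alt_cons]
      rw [h1, ih, altL_cons, altL_cons, alt_cons, add_comm]
      congr 1
      by_cases hab : a = b
      · rw [if_pos hab, if_pos hab.symm]
      · rw [if_neg hab, if_neg (Ne.symm hab)]

theorem dom_reverse {P Q : List Bool} (h : Dom P Q) : Dom P.reverse Q.reverse := by
  intro e r
  have h1 := altL_dom h r.reverse [e]
  have h2 : ∀ X : List Bool, alt e (X.reverse ++ r) = altL (r.reverse ++ X ++ [e]) := by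
    intro X
    rw [← altL_cons, ← altL_rev_aux]
    simp
  rw [h2, h2]
  exact h1

theorem dom_blocks {M : ℕ} (hM : 1 ≤ M) (g : ℕ → Bool) (q : ℕ) :
    Dom ((List.range (M * q)).map (fun x => g (x / M))) ((List.range q).map g) := by
  induction q with
  | zero => simp; exact dom_refl _
  | succ q ih =>
    rw [Nat.mul_succ, List.range_add, List.map_append, List.range_succ, List.map_append]
    refine dom_append ih ?_
    rw [List.map_map]
    apply dom_const
    intro b hb
    rw [List.mem_map] at hb
    obtain ⟨i, hi, rfl⟩ := hb
    rw [List.mem_range] at hi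
    simp only [Function.comp]
    rw [Nat.mul_add_div (by omega), Nat.div_eq_of_lt hi, add_zero]

theorem tys_cons (M : ℕ) (X : Bool → Bool) (Λ : Lev) (s : Bool) : tys ((M, X) :: Λ) s = X s :: tys Λ s := rfl

theorem tot_cons (M : ℕ) (X : Bool → Bool) (Λ : Lev) : tot ((M, X) :: Λ) = M * tot Λ := rfl

theorem flev_cons (M : ℕ) (X : Bool → Bool) (Λ : Lev) (x y : ℕ) (s : Bool) :
    flev ((M, X) :: Λ) x y s = if x / M = y / M then X s else flev Λ (x / M) (y / M) s := rfl

theorem dom_anc (Λ : Lev) (hpos : ∀ p ∈ Λ, 1 ≤ p.1) (s : Bool) (z : ℕ) (hz : z < tot Λ) :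
    Dom ((List.range z).map (fun x => flev Λ x z s)) (tys Λ s).reverse := by
  induction Λ generalizing z with
  | nil =>
    have : z = 0 := by
      simp [tot] at hz
      exact hz
    subst this
    exact dom_refl _
  | cons p Λ ih =>
    obtain ⟨M, X⟩ := p
    have hM : 1 ≤ M := hpos (M, X) (by simp)
    have hpos' : ∀ p ∈ Λ, 1 ≤ p.1 := fun p hp => hpos p (by simp [hp])
    rw [tot_cons] at hz
    have hq : z / M < tot Λ := Nat.div_lt_of_lt_mul hz
    have hdm : z = M * (z / M) + z % M := (Nat.div_add_mod z M).symm
    rw [tys_cons, List.reverse_cons]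
    have h1 : (List.range z).map (fun x => flev ((M, X) :: Λ) x z s) =
        (List.range (M * (z / M))).map (fun x => flev Λ (x / M) (z / M) s) ++
          (List.range (z % M)).map (fun _ => X s) := by
      conv_lhs => rw [hdm]
      rw [List.range_add, List.map_append, List.map_map]
      rw [← hdm]
      congr 1
      · apply List.map_congr_left
        intro x hx
        rw [List.mem_range] at hx
        rw [flev_cons, if_neg]
        have := Nat.div_lt_of_lt_mul hx
        omega
      · apply List.map_congr_left
        intro i hi
        rw [List.mem_range] at hi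
        simp only [Function.comp]
        rw [flev_cons, if_pos]
        have := Nat.mod_lt z (show 0 < M by omega)
        rw [Nat.mul_add_div (by omega), Nat.div_eq_of_lt (show i < M by omega), add_zero]
    rw [h1]
    refine dom_append (dom_trans (dom_blocks hM (fun x => flev Λ x (z / M) s) (z / M)) (ih hpos' _ hq)) ?_
    apply dom_const
    intro b hb
    rw [List.mem_map] at hb
    obtain ⟨i, -, rfl⟩ := hb
    rfl

theorem dom_desc (Λ : Lev) (hpos : ∀ p ∈ Λ, 1 ≤ p.1) (s : Bool) (z m : ℕ) (hz : z + 1 + m ≤ tot Λ) :
    Dom ((List.range m).map (fun i => flev Λ z (z + 1 + i) s)) (tys Λ s) := by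
  induction Λ generalizing z m with
  | nil =>
    have : m = 0 := by
      simp [tot] at hz
      omega
    subst this
    exact dom_refl _
  | cons p Λ ih =>
    obtain ⟨M, X⟩ := p
    have hM : 1 ≤ M := hpos (M, X) (by simp)
    have hpos' : ∀ p ∈ Λ, 1 ≤ p.1 := fun p hp => hpos p (by simp [hp])
    rw [tot_cons] at hz
    have hdm : z = M * (z / M) + z % M := (Nat.div_add_mod z M).symm
    have hr := Nat.mod_lt z (show 0 < M by omega)
    have hq : z / M < tot Λ := Nat.div_lt_of_lt_mul (by omega)
    set q := z / M with hqd
    set r := z % M with hrd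
    rw [tys_cons]
    -- enlarge
    have hm : m ≤ (M - 1 - r) + M * (tot Λ - (q + 1)) := by
      have h1 : M * (tot Λ - (q + 1)) + M * (q + 1) = M * tot Λ := by
        rw [← Nat.mul_add]
        congr 1
        omega
      have h2 : M * (q + 1) = M * q + M := by ring
      omega
    refine dom_trans (dom_sublist ((List.range_sublist.2 hm).map _)) ?_
    rw [List.range_add, List.map_append, List.map_map]
    change Dom _ ([X s] ++ tys Λ s)
    refine dom_append ?_ ?_
    · apply dom_const
      intro b hb
      rw [List.mem_map] at hb
      obtain ⟨i, hi, rfl⟩ := hb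
      rw [List.mem_range] at hi
      rw [flev_cons, if_pos]
      rw [show z + 1 + i = M * q + (r + 1 + i) by omega, Nat.mul_add_div (by omega),
        Nat.div_eq_of_lt (show r + 1 + i < M by omega), add_zero]
    · have h1 : (List.range (M * (tot Λ - (q + 1)))).map
          ((fun i => flev ((M, X) :: Λ) z (z + 1 + i) s) ∘ fun x => M - 1 - r + x) =
          (List.range (M * (tot Λ - (q + 1)))).map
            (fun x => (fun j => flev Λ q (q + 1 + j) s) (x / M)) := by
        apply List.map_congr_left
        intro i _
        simp only [Function.comp]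
        have h3 : z + 1 + (M - 1 - r + i) = M * (q + 1) + i := by
          have h2 : M * (q + 1) = M * q + M := by ring
          omega
        have h4 : (z + 1 + (M - 1 - r + i)) / M = q + 1 + i / M := by
          rw [h3, Nat.mul_add_div (by omega)]
        rw [flev_cons, h4, if_neg]
        have : 0 ≤ i / M := Nat.zero_le _
        omega
      rw [h1]
      refine dom_trans (dom_blocks hM (fun j => flev Λ q (q + 1 + j) s) _) (ih hpos' _ _ ?_)
      omega

theorem rd_sublist (g : ℕ → Bool) (z : List Bool) (d : ℕ) :
    (RD g d z).Sublist ((List.range z.length).map (fun i => g (d + i))) := by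
  induction z generalizing d with
  | nil => simp [RD]
  | cons s z ih =>
    rw [List.length_cons, List.range_succ_eq_map, List.map_cons, List.map_map]
    have h := ih (d + 1)
    have h1 : (List.range z.length).map (fun i => g (d + 1 + i)) =
        (List.range z.length).map ((fun i => g (d + i)) ∘ Nat.succ) := by
      apply List.map_congr_left
      intro i _
      simp only [Function.comp, Nat.succ_eq_add_one]
      congr 1
      omega
    rw [h1] at h
    unfold RD
    split_ifs
    · exact h.cons_cons _
    · exact h.cons _

theorem ld_sublist (g : ℕ → Bool) (z : List Bool) (d : ℕ) :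
    (LD g d z).Sublist ((List.range z.length).map (fun i => g (d + i))).reverse := by
  induction z generalizing d with
  | nil => simp [LD]
  | cons s z ih =>
    rw [List.length_cons, List.range_succ_eq_map, List.map_cons, List.map_map, List.reverse_cons]
    have h := ih (d + 1)
    have h1 : (List.range z.length).map (fun i => g (d + 1 + i)) =
        (List.range z.length).map ((fun i => g (d + i)) ∘ Nat.succ) := by
      apply List.map_congr_left
      intro i _
      simp only [Function.comp, Nat.succ_eq_add_one]
      congr 1
      omega
    rw [h1] at h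
    unfold LD
    split_ifs
    · exact h.trans (List.sublist_append_left _ _)
    · exact h.append (List.Sublist.refl _)

theorem twf_le {Λ : Lev} (hpos : ∀ p ∈ Λ, 1 ≤ p.1) {v a b : List Bool}
    (ha : (v ++ false :: a).length = tot Λ) (hb : (v ++ true :: b).length = tot Λ) (e₁ e₂ : Bool) :
    altL (TWf (flev Λ) v a b e₁ e₂) ≤ altL (Fw Λ [e₁] [e₂]) := by
  rw [List.length_append, List.length_cons] at ha hb
  have hz : v.length < tot Λ := by omega
  -- the eight parts
  have p1 : Dom (RD (fun x => flev Λ x v.length true) 0 v) (tys Λ true).reverse := by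
    refine dom_trans (dom_sublist (rd_sublist _ _ _)) ?_
    simp only [zero_add]
    exact dom_anc Λ hpos true _ hz
  have p8 : Dom (LD (fun x => !flev Λ x v.length false) 0 v) ((tys Λ false).map (!·)) := by
    refine dom_trans (dom_sublist (ld_sublist _ _ _)) ?_
    simp only [zero_add]
    have h := dom_not (dom_reverse (dom_anc Λ hpos false _ hz))
    rw [List.reverse_reverse, List.map_reverse, List.map_map] at h
    exact h
  have q1 : ∀ (s : Bool) (w : List Bool), v.length + 1 + w.length ≤ tot Λ →
      Dom (RD (fun y => !flev Λ v.length y s) (v.length + 1) w) ((tys Λ s).map (!·)) := by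
    intro s w hw
    refine dom_trans (dom_sublist (rd_sublist _ _ _)) ?_
    have h := dom_not (dom_desc Λ hpos s v.length w.length hw)
    rw [List.map_map] at h
    exact h
  have q2 : ∀ (s : Bool) (w : List Bool), v.length + 1 + w.length ≤ tot Λ →
      Dom (LD (fun y => flev Λ v.length y s) (v.length + 1) w) (tys Λ s).reverse := by
    intro s w hw
    refine dom_trans (dom_sublist (ld_sublist _ _ _)) ?_
    exact dom_reverse (dom_desc Λ hpos s v.length w.length hw)
  have hda : v.length + 1 + a.length ≤ tot Λ := by omega
  have hdb : v.length + 1 + b.length ≤ tot Λ := by omega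
  have hD : Dom (TWf (flev Λ) v a b e₁ e₂) (Fw Λ [e₁] [e₂]) := by
    have h := dom_append (dom_append (dom_append (dom_append (dom_append (dom_append
      (dom_append p1 (q1 false a hda)) (dom_refl [e₁])) (q2 false a hda)) (q1 true b hdb))
      (dom_refl [e₂])) (q2 true b hdb)) p8
    unfold TWf Fw
    simpa only [List.append_assoc] using h
  have h := altL_dom hD [] []
  simpa using h

end Pool.Agent.H41.Ex
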