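import Mathlib
import Pool.Agent.H41.Ex.Defs
import Pool.Agent.H41.Kc.Upper3

set_option autoImplicit false

/-!
The number of changes of the pattern `Fw`.

Let the types be `replicate p Y ++ constants d`, `Y true = !Y false`.  Then
`tys Λ true = replicate p (Y true) ++ d`, `tys Λ false = replicate p (Y false) ++ d` and
`Fw Λ E₁ E₂ = d.reverse ++ Y(T)^p ++ Y(T)^p ++ d.not ++ E₁ ++ d.reverse ++ Y(F)^p ++ Y(F)^p ++ d.not
  ++ E₂ ++ d.reverse ++ Y(T)^p ++ Y(T)^p ++ d.not`      (`!Y(F) = Y(T)`, `!Y(T) = Y(F)`).

PROOF of `fw_lower` (`E₁ = E₂ = []`, `d ≠ []`).  By `altL_sublist` drop all the `Y`-letters: the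
word `d.reverse ++ d.not ++ d.reverse ++ d.not ++ d.reverse ++ d.not` is a sublist.  With
`d = d₀ :: ..`, last entry `dₗ`: each of the six pieces has `altL d` changes (`altL_reverse` in
`Kc.Upper3`, `altL_not`), the borders `d.reverse | d.not` (`d₀`, `!d₀`) and `d.not | d.reverse`
(`!dₗ`, `dₗ`) are changes: five of them.  Total `6 * altL d + 5`.
PROOF of `fw_upper`.  `d = []`: the word is
`Y(T)^{2p} ++ [e₁] ++ Y(F)^{2p} ++ [e₂] ++ Y(T)^{2p}`; if `p = 0` it is `[e₁, e₂]` with at most one
change; if `p ≥ 1` it is `≤ 4` changes (`Y(T), e₁, Y(F), e₂, Y(T)` after collapsing).  As `q ≥ 1`,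
`4 ≤ 6 * q - 1`.
`d ≠ []`: `d.reverse ++ Y^{2p} ++ d.not` has exactly `2 * altL d + 1` changes (`d₀`, then the block,
then `!d₀`: one change in total), the letter `e₁` between `!dₗ` and `dₗ` does not increase the
number of changes.  Total `3 * (2 * altL d + 1) + 2 = 6 * altL d + 5 ≤ 6 * (q - 1) + 5`.
Useful: `alt_append`, `alt_const_append`, `alt_append_const`, `alt_mod_two`.
-/

namespace Pool.Agent.H41.Ex

open Pool.Agent.H41.Kc

/-- a constant block between two different letters -/
lemma FwBound_join {l₁ l₂ : List Bool} {a : Bool} (k : ℕ) (e : Bool) (ha : l₁.getLast? = some a)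
    (hb : l₂.head? = some (!a)) :
    altL (l₁ ++ List.replicate k e ++ l₂) = altL l₁ + 1 + altL l₂ := by
  cases l₁ with
  | nil => simp at ha
  | cons c l₁ =>
    cases l₂ with
    | nil => simp at hb
    | cons b l₂ =>
      have hb' : b = !a := by simpa using hb
      subst hb'
      have hl : l₁.getLastD c = a := by
        rw [List.getLast?_cons] at ha
        rw [List.getLastD_eq_getLast?]
        exact Option.some.inj ha
      rw [List.append_assoc, List.cons_append, altL_cons, altL_cons, altL_cons, alt_append, hl]
      have h1 : alt a (List.replicate k e ++ (!a) :: l₂) = alt a ((!a) :: l₂) := by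
        by_cases he : e = a
        · exact alt_const_append _ (fun b hb => by rw [List.eq_of_mem_replicate hb, he])
        · have he' : e = !a := by
            cases e <;> cases a <;> simp_all
          have := alt_append_const (a := a) (b := !a) [] (l₂ := List.replicate k e) l₂
            (fun b hb => by rw [List.eq_of_mem_replicate hb, he'])
          simpa using this
      rw [h1, alt_cons, if_neg (by cases a <;> simp)]
      ring

lemma FwBound_block {d : List Bool} (hd : d ≠ []) (k : ℕ) (y : Bool) :
    altL (d.reverse ++ List.replicate k y ++ d.map (!·)) = 2 * altL d + 1 ∧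
      (d.reverse ++ List.replicate k y ++ d.map (!·)).head? = some (d.getLast hd) ∧
      (d.reverse ++ List.replicate k y ++ d.map (!·)).getLast? = some (!d.getLast hd) := by
  have h1 : d.reverse.getLast? = some (d.head hd) := by
    rw [List.getLast?_reverse, List.head?_eq_some_head hd]
  have h2 : (d.map (!·)).head? = some (!d.head hd) := by
    rw [List.head?_map, List.head?_eq_some_head hd]
    rfl
  refine ⟨?_, ?_, ?_⟩
  · rw [FwBound_join k y h1 h2, altL_reverse, altL_not]
    ring
  · rw [List.append_assoc, List.head?_append, List.head?_reverse, List.getLast?_eq_some_getLast hd]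
    rfl
  · rw [List.getLast?_append, List.getLast?_map, List.getLast?_eq_some_getLast hd]
    rfl

/-- three blocks -/
lemma FwBound_three {d : List Bool} (hd : d ≠ []) (k k₂ k₃ m m' : ℕ) (y y₂ y₃ e e' : Bool) :
    altL ((d.reverse ++ List.replicate k y ++ d.map (!·)) ++ List.replicate m e ++
      (d.reverse ++ List.replicate k₂ y₂ ++ d.map (!·)) ++ List.replicate m' e' ++
      (d.reverse ++ List.replicate k₃ y₃ ++ d.map (!·))) = 6 * altL d + 5 := by
  obtain ⟨a1, b1, c1⟩ := FwBound_block hd k y
  obtain ⟨a2, b2, c2⟩ := FwBound_block hd k₂ y₂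
  obtain ⟨a3, b3, c3⟩ := FwBound_block hd k₃ y₃
  have c4 : ((d.reverse ++ List.replicate k y ++ d.map (!·)) ++ List.replicate m e ++
      (d.reverse ++ List.replicate k₂ y₂ ++ d.map (!·))).getLast? = some (!d.getLast hd) := by
    rw [List.getLast?_append, c2]
    rfl
  rw [FwBound_join m' e' c4 (by rw [b3, Bool.not_not]),
    FwBound_join m e c1 (by rw [b2, Bool.not_not]), a1, a2, a3]
  ring

lemma FwBound_tys {Λ : Lev} {p : ℕ} {Y : Bool → Bool} {d : List Bool}
    (h : Λ.map Prod.snd = List.replicate p Y ++ d.map (fun c => fun _ => c)) (s : Bool) :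
    tys Λ s = List.replicate p (Y s) ++ d := by
  have h1 : tys Λ s = (Λ.map Prod.snd).map (fun X => X s) := by
    unfold tys
    rw [List.map_map]
    rfl
  rw [h1, h, List.map_append, List.map_replicate, List.map_map]
  congr 1
  exact List.map_id d

theorem fw_lower {Λ : Lev} {p : ℕ} {Y : Bool → Bool} {d : List Bool}
    (h : Λ.map Prod.snd = List.replicate p Y ++ d.map (fun c => fun _ => c))
    (hY : Y true = !Y false) (hd : d ≠ []) :
    6 * altL d + 5 ≤ altL (Fw Λ [] []) := by
  have h1 : ∀ s, d.Sublist (tys Λ s) := fun s => by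
    rw [FwBound_tys h s]
    exact List.sublist_append_right _ _
  have h2 := FwBound_three hd 0 0 0 0 0 true true true true true
  rw [← h2]
  refine altL_sublist ?_
  simp only [List.replicate_zero, List.append_nil, Fw, List.append_assoc]
  refine List.Sublist.append (h1 true).reverse (List.Sublist.append ((h1 false).map _)
    (List.Sublist.append (h1 false).reverse (List.Sublist.append ((h1 true).map _)
    (List.Sublist.append (h1 true).reverse ((h1 false).map _)))))

theorem fw_upper {Λ : Lev} {q : ℕ} (hG : Good q Λ) (e₁ e₂ : Bool) :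
    altL (Fw Λ [e₁] [e₂]) + 1 ≤ 6 * q := by
  obtain ⟨p, Y, d, h, hY, hq⟩ := hG
  have hF : Fw Λ [e₁] [e₂] = (d.reverse ++ List.replicate (p + p) (Y true) ++ d.map (!·)) ++
      List.replicate 1 e₁ ++ (d.reverse ++ List.replicate (p + p) (Y false) ++ d.map (!·)) ++
      List.replicate 1 e₂ ++ (d.reverse ++ List.replicate (p + p) (Y true) ++ d.map (!·)) := by
    have hY' : (!Y true) = Y false := by rw [hY, Bool.not_not]
    unfold Fw
    rw [FwBound_tys h true, FwBound_tys h false]
    simp only [List.reverse_append, List.map_append, List.reverse_replicate, List.map_replicate,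
      ← List.replicate_append_replicate, List.replicate_one, hY', ← hY, List.append_assoc]
  rw [hF]
  by_cases hd : d = []
  · subst hd
    simp only [List.reverse_nil, List.nil_append, List.map_nil, List.append_nil, altL_nil,
      List.replicate_one, List.append_assoc, List.singleton_append, List.cons_append] at hq ⊢
    have h1 := altL_le_alt (Y true) (List.replicate (p + p) (Y true) ++ e₁ ::
      (List.replicate (p + p) (Y false) ++ e₂ :: List.replicate (p + p) (Y true)))
    rw [alt_const_append _ (fun b hb => List.eq_of_mem_replicate hb), alt_cons] at h1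
    have h2 := alt_le_alt e₁ (Y false) (List.replicate (p + p) (Y false) ++ e₂ ::
      List.replicate (p + p) (Y true))
    rw [alt_const_append _ (fun b hb => List.eq_of_mem_replicate hb), alt_cons] at h2
    have h3 := alt_le_alt e₂ (Y true) (List.replicate (p + p) (Y true))
    rw [alt_const (fun b hb => List.eq_of_mem_replicate hb)] at h3
    have i1 : (if Y true = e₁ then 0 else 1) ≤ 1 := by split_ifs <;> omega
    have i2 : (if e₁ = Y false then 0 else 1) ≤ 1 := by split_ifs <;> omega
    have i3 : (if Y false = e₂ then 0 else 1) ≤ 1 := by split_ifs <;> omega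
    have i4 : (if e₂ = Y true then 0 else 1) ≤ 1 := by split_ifs <;> omega
    omega
  · rw [FwBound_three hd]
    omega

/-- the bound on the number of runs -/
theorem good_of_alt {k : ℕ} (hk : 3 ≤ k) {Λ : Lev} {p : ℕ} {Y : Bool → Bool} {d : List Bool}
    (h : Λ.map Prod.snd = List.replicate p Y ++ d.map (fun c => fun _ => c))
    (hY : Y true = !Y false) (hF : altL (Fw Λ [] []) ≤ 2 * k) : Good (k / 3) Λ := by
  refine ⟨p, Y, d, h, hY, ?_⟩
  by_cases hd : d = []
  · subst hd
    simp
    omega
  · have := fw_lower h hY hd
    omega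

end Pool.Agent.H41.Ex
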