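import Mathlib
import Pool.Agent.H41.Ex.Defs

set_option autoImplicit false

/-!
Basic properties of embeddings of complete binary trees.
-/

namespace Pool.Agent.H41.Ex

lemma Emb.mono {h h' : ℕ} {σ : List Bool → List Bool} (hσ : Emb h σ) (hh : h' ≤ h) :
    Emb h' σ := fun x hx s => hσ x (lt_of_lt_of_le hx hh) s

lemma Emb.cons {h : ℕ} {σ : List Bool → List Bool} (hσ : Emb h σ) (v : List Bool) (s : Bool)
    (w : List Bool) (hw : (v ++ s :: w).length ≤ h) : ∃ w', σ (v ++ s :: w) = σ v ++ s :: w' := by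
  induction w using List.reverseRecOn with
  | nil =>
    have h1 : v.length < h := by simp at hw; omega
    obtain ⟨r, hr⟩ := hσ v h1 s
    exact ⟨r, by rw [← hr]; simp⟩
  | append_singleton w t ih =>
    have hw' : (v ++ s :: w).length < h := by simp at hw ⊢; omega
    obtain ⟨w', hw'2⟩ := ih hw'.le
    obtain ⟨r, hr⟩ := hσ (v ++ s :: w) hw' t
    refine ⟨w' ++ t :: r, ?_⟩
    have : v ++ s :: (w ++ [t]) = v ++ s :: w ++ [t] := by simp
    rw [this, ← hr, hw'2]
    simp

lemma Emb.pre {h : ℕ} {σ : List Bool → List Bool} (hσ : Emb h σ) {x y : List Bool}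
    (hxy : x <+: y) (hy : y.length ≤ h) : σ x <+: σ y := by
  obtain ⟨r, rfl⟩ := hxy
  cases r with
  | nil => simp
  | cons s w =>
    obtain ⟨w', hw'⟩ := hσ.cons x s w hy
    exact ⟨s :: w', hw'.symm⟩

lemma Emb.length_lt {h : ℕ} {σ : List Bool → List Bool} (hσ : Emb h σ) (v : List Bool) (s : Bool)
    (w : List Bool) (hw : (v ++ s :: w).length ≤ h) :
    (σ v).length < (σ (v ++ s :: w)).length := by
  obtain ⟨w', hw'⟩ := hσ.cons v s w hw
  rw [hw']; simp

lemma Emb.le_length {h : ℕ} {σ : List Bool → List Bool} (hσ : Emb h σ) (x : List Bool)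
    (hx : x.length ≤ h) : x.length ≤ (σ x).length := by
  induction x using List.reverseRecOn with
  | nil => simp
  | append_singleton x s ih =>
    have h1 : x.length < h := by simp at hx; omega
    have h2 := ih h1.le
    have h3 := hσ.length_lt x s [] hx
    simp only [List.length_append, List.length_singleton]
    omega

lemma EmbIn.mono {n n' h h' : ℕ} {σ : List Bool → List Bool} (hσ : EmbIn n h σ) (hn : n ≤ n')
    (hh : h' ≤ h) : EmbIn n' h' σ :=
  ⟨hσ.1.mono hh, fun x hx => (hσ.2 x (hx.trans hh)).trans hn⟩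

lemma EmbIn.length_lt {n h : ℕ} {σ : List Bool → List Bool} (hσ : EmbIn n h σ) {x : List Bool}
    (hx : x.length < h) : (σ x).length < n := by
  have h1 := hσ.1.length_lt x true [] (by simp; omega)
  have h2 := hσ.2 (x ++ [true]) (by simp; omega)
  omega

lemma Emb.id (h : ℕ) : Emb h (fun x => x) := fun _ _ _ => List.prefix_rfl

lemma EmbIn.id (h : ℕ) : EmbIn h h (fun x => x) := ⟨Emb.id h, fun _ hx => hx⟩

lemma Emb.comp {h h' : ℕ} {σ τ : List Bool → List Bool} (hσ : Emb h σ) (hτ : EmbIn h h' τ) :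
    Emb h' (fun x => σ (τ x)) := by
  intro x hx s
  have h1 : (τ x).length < h := hτ.length_lt hx
  have h2 : (τ (x ++ [s])).length ≤ h := hτ.2 _ (by simp; omega)
  exact (hσ (τ x) h1 s).trans (hσ.pre (hτ.1 x hx s) h2)

lemma EmbIn.comp {n h h' : ℕ} {σ τ : List Bool → List Bool} (hσ : EmbIn n h σ)
    (hτ : EmbIn h h' τ) : EmbIn n h' (fun x => σ (τ x)) :=
  ⟨hσ.1.comp hτ, fun x hx => hσ.2 _ (hτ.2 x hx)⟩

/-- moving the root -/
lemma Emb.append {h : ℕ} {σ : List Bool → List Bool} (hσ : Emb h σ) (v : List Bool) :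
    Emb h (fun x => v ++ σ x) := by
  intro x hx s
  obtain ⟨r, hr⟩ := hσ x hx s
  exact ⟨r, by simp [← hr]⟩

/-- joining two trees below a root -/
def join (r : List Bool) (σ₀ σ₁ : List Bool → List Bool) : List Bool → List Bool
  | [] => r
  | false :: x => r ++ false :: σ₀ x
  | true :: x => r ++ true :: σ₁ x

@[simp] lemma join_nil (r : List Bool) (σ₀ σ₁ : List Bool → List Bool) : join r σ₀ σ₁ [] = r := rfl

@[simp] lemma join_false (r x : List Bool) (σ₀ σ₁ : List Bool → List Bool) :
    join r σ₀ σ₁ (false :: x) = r ++ false :: σ₀ x := rfl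

@[simp] lemma join_true (r x : List Bool) (σ₀ σ₁ : List Bool → List Bool) :
    join r σ₀ σ₁ (true :: x) = r ++ true :: σ₁ x := rfl

lemma emb_join {h : ℕ} {σ₀ σ₁ : List Bool → List Bool} (h₀ : Emb h σ₀) (h₁ : Emb h σ₁)
    (r : List Bool) : Emb (h + 1) (join r σ₀ σ₁) := by
  intro x hx s
  rcases x with _ | ⟨c, x⟩
  · cases s
    · exact ⟨σ₀ [], by simp⟩
    · exact ⟨σ₁ [], by simp⟩
  · have hx' : x.length < h := by simpa using hx
    cases c
    · obtain ⟨q, hq⟩ := h₀ x hx' s
      exact ⟨q, by simp [← hq]⟩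
    · obtain ⟨q, hq⟩ := h₁ x hx' s
      exact ⟨q, by simp [← hq]⟩

lemma embIn_join {n h : ℕ} {σ₀ σ₁ : List Bool → List Bool} (h₀ : EmbIn n h σ₀)
    (h₁ : EmbIn n h σ₁) : EmbIn (n + 1) (h + 1) (join [] σ₀ σ₁) := by
  refine ⟨emb_join h₀.1 h₁.1 [], ?_⟩
  intro x hx
  rcases x with _ | ⟨c, x⟩
  · simp
  · have hx' : x.length ≤ h := by simpa using hx
    cases c
    · simpa using h₀.2 x hx'
    · simpa using h₁.2 x hx'

/-- an embedding of a subtree -/
lemma Emb.sub {h h' : ℕ} {σ : List Bool → List Bool} (hσ : Emb h σ) (v : List Bool)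
    (hv : v.length + h' ≤ h) : Emb h' (fun x => σ (v ++ x)) := by
  intro x hx s
  have := hσ (v ++ x) (by simp; omega) s
  rwa [List.append_assoc] at this

/-- The leaves of an embedded tree can be pushed down to the bottom level. -/
lemma EmbIn.pad {n h : ℕ} {σ : List Bool → List Bool} (hσ : EmbIn n h σ) :
    ∃ σ' : List Bool → List Bool, EmbIn n h σ' ∧ (∀ x, x.length < h → σ' x = σ x) ∧
      (∀ x, x.length = h → σ x <+: σ' x) ∧ ∀ x, x.length = h → (σ' x).length = n := by
  refine ⟨fun x => if x.length < h then σ x else σ x ++ List.replicate (n - (σ x).length) false,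
    ⟨?_, ?_⟩, ?_, ?_, ?_⟩
  · intro x hx s
    simp only [hx, if_true]
    split_ifs with h1
    · exact hσ.1 x hx s
    · exact (hσ.1 x hx s).trans (List.prefix_append _ _)
  · intro x hx
    have := hσ.2 x hx
    dsimp only
    split_ifs with h1
    · exact this
    · simp; omega
  · intro x hx
    simp [hx]
  · intro x hx
    simp [hx]
  · intro x hx
    have := hσ.2 x hx.le
    simp [hx]; omega

/-- Change of an embedding at its leaves. -/
lemma Emb.extend {h : ℕ} {σ : List Bool → List Bool} (hσ : Emb h σ) (g : List Bool → List Bool)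
    (hg : ∀ x, x.length = h → σ x <+: g x) :
    Emb h (fun x => if x.length < h then σ x else g x) := by
  intro x hx s
  simp only [hx, if_true]
  split_ifs with h1
  · exact hσ x hx s
  · exact (hσ x hx s).trans (hg _ (by simp at h1 ⊢; omega))

end Pool.Agent.H41.Ex
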