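import Mathlib
import Pool.Agent.H41.Ex.Defs

set_option autoImplicit false

/-!
The words of the leaf list along one path and along two paths.

`t u` is a Boolean attached to every node `u`; the block of leaves that branch off from the path at
the node `u`, where the path goes to the side `s`, carries the letter `s == t u`.

PROOF of `path_upper`: induction on `z`.  `bits (n + 1)` is `bits n` with `false ::` followed by
`bits n` with `true ::`.  If `z = true :: z'`, the first half is the constant word `t []`
(`s == t u` with `s = true`, `u = []`), a constant nonempty block, and
`alt e (constant block c ++ r) ≤ alt e (c :: r)`; for the second half use the induction hypothesis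
with `S' c = S (true :: c)`, `t' u = t (true :: u)`.  If `z = false :: z'`, the second half is
constant `false == t [] = !t []`.
PROOF of `path2_upper`: induction on `v` in the same way, the base case `v = []` is two applications
of `path_upper` (`alt e (A ++ B ++ r)`; first for `A` with the rest `B ++ r`, then, after the word
of the first path, for `B`: use `alt_append`), and finally `altL` from `alt`:
`altL w ≤ ...`: to avoid this prove the statement for `alt e (w ++ r)` for all `e`, `r`, and then
specialise: for `w ≠ []` with head `c`, `altL w = alt c w`; the condensed word starts with the same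
letter (prove `head?` equal) or use `altL w = min over e of alt e w`
(`altL_le_alt`, and `altL w = alt e w` for the `e` = first letter of the *condensed* word `w'`:
`altL w ≤ alt e w ≤ alt e w' = altL w'`).
PROOF of `path2_lower`: take for every block of leaves one leaf, e.g. pad with `false`; list them
from left to right (recursively along the path).
-/

namespace Pool.Agent.H41.Ex

open Pool.Agent.H41.Kc

/-- lexicographic order of leaves -/
def LexLt (x y : List Bool) : Prop :=
  ∃ v a b : List Bool, x = v ++ false :: a ∧ y = v ++ true :: b

/-- the letters along one path -/
def PathLet (t : List Bool → Bool) (S : List Bool → Bool) (z : List Bool) : Prop :=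
  ∀ (u : List Bool) (s : Bool) (w c : List Bool), z = u ++ s :: w →
    (u ++ (!s) :: c).length = z.length → S (u ++ (!s) :: c) = (s == t u)

private lemma pathword_const {e c : Bool} {l r : List Bool} (hne : l ≠ []) (h : ∀ b ∈ l, b = c) :
    alt e (l ++ r) = alt e (c :: r) := by
  cases l with
  | nil => exact absurd rfl hne
  | cons b l =>
    have hb : b = c := h b (by simp)
    subst hb
    rw [List.cons_append, alt_cons, alt_cons, alt_const_append _ (fun d hd => h d (by simp [hd]))]

private lemma pathword_bits_ne (n : ℕ) (S : List Bool → Bool) : (bits n).map S ≠ [] := by
  intro h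
  have h1 := congrArg List.length h
  rw [List.length_map, length_bits, List.length_nil] at h1
  have h2 : 0 < 2 ^ n := by positivity
  omega

private lemma pathword_map_bits (n : ℕ) (S : List Bool → Bool) : (bits (n + 1)).map S =
    (bits n).map (fun c => S (false :: c)) ++ (bits n).map (fun c => S (true :: c)) := by
  rw [bits, List.map_append, List.map_map, List.map_map]
  rfl

private lemma pathword_alt_append_le {e : Bool} {Y l l' : List Bool}
    (h : ∀ c, alt c l ≤ alt c l') : alt e (Y ++ l) ≤ alt e (Y ++ l') := by
  rw [alt_append, alt_append]
  exact Nat.add_le_add_left (h _) _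

theorem path_upper (z : List Bool) (t : List Bool → Bool) (S : List Bool → Bool)
    (hS : PathLet t S z) (e : Bool) (r : List Bool) :
    alt e ((bits z.length).map S ++ r) ≤ alt e (RK t z ++ [S z] ++ LK t z ++ r) := by
  induction z generalizing t S e r with
  | nil => simp [bits, RK, LK]
  | cons s z ih =>
    have hS' : PathLet (fun u => t (s :: u)) (fun c => S (s :: c)) z := by
      intro u s' w c h1 h2
      exact hS (s :: u) s' w c (by rw [h1]; rfl) (by simpa using h2)
    rw [List.length_cons, pathword_map_bits, List.append_assoc]
    cases s
    · have hc : ∀ b ∈ (bits z.length).map (fun c => S (true :: c)), b = !t [] := by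
        intro b hb
        obtain ⟨c, hc, rfl⟩ := List.mem_map.1 hb
        have := hS [] false z c rfl (by simpa using length_of_mem_bits hc)
        simpa using this
      have e1 : RK t (false :: z) ++ [S (false :: z)] ++ LK t (false :: z) ++ r =
          RK (fun u => t (false :: u)) z ++ [S (false :: z)] ++ LK (fun u => t (false :: u)) z ++ ((!t []) :: r) := by
        simp [RK, LK]
      rw [e1]
      refine (pathword_alt_append_le (l' := (!t []) :: r) fun c => ?_).trans (ih _ _ hS' e _)
      exact (pathword_const (pathword_bits_ne _ _) hc).le
    · have hc : ∀ b ∈ (bits z.length).map (fun c => S (false :: c)), b = t [] := by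
        intro b hb
        obtain ⟨c, hc, rfl⟩ := List.mem_map.1 hb
        have := hS [] true z c rfl (by simpa using length_of_mem_bits hc)
        simpa using this
      rw [pathword_const (pathword_bits_ne _ _) hc]
      have e1 : RK t (true :: z) ++ [S (true :: z)] ++ LK t (true :: z) ++ r =
          t [] :: (RK (fun u => t (true :: u)) z ++ [S (true :: z)] ++ LK (fun u => t (true :: u)) z ++ r) := by
        simp [RK, LK]
      rw [e1, alt_cons, alt_cons]
      exact Nat.add_le_add_left (ih _ _ hS' _ _) _

/-- the letters of a line through the leaves `v ++ false :: a` and `v ++ true :: b` -/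
structure PathLet2 (t : List Bool → Bool) (S : List Bool → Bool) (v a b : List Bool) : Prop where
  base : ∀ (u : List Bool) (s : Bool) (w c : List Bool), v = u ++ s :: w →
    (u ++ (!s) :: c).length = v.length + 1 + a.length → S (u ++ (!s) :: c) = (s == t u)
  left : ∀ (u : List Bool) (s : Bool) (w c : List Bool), a = u ++ s :: w →
    (u ++ (!s) :: c).length = a.length →
    S (v ++ false :: (u ++ (!s) :: c)) = (s == t (v ++ false :: u))
  right : ∀ (u : List Bool) (s : Bool) (w c : List Bool), b = u ++ s :: w →
    (u ++ (!s) :: c).length = b.length →
    S (v ++ true :: (u ++ (!s) :: c)) = (s == t (v ++ true :: u))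

private lemma pathword_sub {t : List Bool → Bool} {S : List Bool → Bool} {s : Bool} {v a b : List Bool}
    (hS : PathLet2 t S (s :: v) a b) : PathLet2 (fun u => t (s :: u)) (fun c => S (s :: c)) v a b := by
  refine ⟨?_, ?_, ?_⟩
  · intro u s' w c h1 h2
    exact hS.base (s :: u) s' w c (by rw [h1]; rfl) (by simp at h2 ⊢; omega)
  · intro u s' w c h1 h2
    exact hS.left u s' w c h1 h2
  · intro u s' w c h1 h2
    exact hS.right u s' w c h1 h2

private lemma pathword_TW_false (t : List Bool → Bool) (v a b : List Bool) (e₁ e₂ : Bool) :
    TW t (false :: v) a b e₁ e₂ = TW (fun u => t (false :: u)) v a b e₁ e₂ ++ [!t []] := by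
  simp [TW, RK, LK]

private lemma pathword_TW_true (t : List Bool → Bool) (v a b : List Bool) (e₁ e₂ : Bool) :
    TW t (true :: v) a b e₁ e₂ = t [] :: TW (fun u => t (true :: u)) v a b e₁ e₂ := by
  simp [TW, RK, LK]

private lemma pathword_upper (v a b : List Bool) (hab : a.length = b.length) (t : List Bool → Bool)
    (S : List Bool → Bool) (hS : PathLet2 t S v a b) (e : Bool) (r : List Bool) :
    alt e ((bits (v.length + 1 + a.length)).map S ++ r) ≤
      alt e (TW t v a b (S (v ++ false :: a)) (S (v ++ true :: b)) ++ r) := by
  induction v generalizing t S e r with
  | nil =>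
    have e0 : ([] : List Bool).length + 1 + a.length = a.length + 1 := by
      rw [List.length_nil]
      omega
    rw [e0, pathword_map_bits, List.append_assoc]
    have hA : PathLet (fun u => t (false :: u)) (fun c => S (false :: c)) a := by
      intro u s w c h1 h2
      exact hS.left u s w c h1 h2
    have hB : PathLet (fun u => t (true :: u)) (fun c => S (true :: c)) b := by
      intro u s w c h1 h2
      exact hS.right u s w c h1 h2
    refine (path_upper a _ _ hA e _).trans ?_
    have e1 : TW t [] a b (S ([] ++ false :: a)) (S ([] ++ true :: b)) ++ r =
        RK (fun u => t (false :: u)) a ++ [S (false :: a)] ++ LK (fun u => t (false :: u)) a ++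
          (RK (fun u => t (true :: u)) b ++ [S (true :: b)] ++ LK (fun u => t (true :: u)) b ++ r) := by
      simp [TW, RK, LK]
    rw [e1]
    apply pathword_alt_append_le
    intro c
    rw [hab]
    exact path_upper b _ _ hB c r
  | cons s v ih =>
    have e0 : (s :: v).length + 1 + a.length = (v.length + 1 + a.length) + 1 := by
      rw [List.length_cons]
      omega
    rw [e0, pathword_map_bits, List.append_assoc]
    have ih' := ih _ _ (pathword_sub hS)
    cases s
    · have hc : ∀ b' ∈ (bits (v.length + 1 + a.length)).map (fun c => S (true :: c)), b' = !t [] := by
        intro b' hb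
        obtain ⟨c, hc, rfl⟩ := List.mem_map.1 hb
        have h3 := length_of_mem_bits hc
        have := hS.base [] false v c rfl (by simp; omega)
        simpa using this
      rw [pathword_TW_false, List.append_assoc]
      refine (pathword_alt_append_le (l' := (!t []) :: r) fun c => ?_).trans (ih' e _)
      exact (pathword_const (pathword_bits_ne _ _) hc).le
    · have hc : ∀ b' ∈ (bits (v.length + 1 + a.length)).map (fun c => S (false :: c)), b' = t [] := by
        intro b' hb
        obtain ⟨c, hc, rfl⟩ := List.mem_map.1 hb
        have h3 := length_of_mem_bits hc
        have := hS.base [] true v c rfl (by simp; omega)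
        simpa using this
      rw [pathword_const (pathword_bits_ne _ _) hc, pathword_TW_true, List.cons_append, alt_cons, alt_cons]
      exact Nat.add_le_add_left (ih' _ _) _

theorem path2_upper (v a b : List Bool) (hab : a.length = b.length) (t : List Bool → Bool)
    (S : List Bool → Bool) (hS : PathLet2 t S v a b) :
    altL ((bits (v.length + 1 + a.length)).map S) ≤
      altL (TW t v a b (S (v ++ false :: a)) (S (v ++ true :: b))) := by
  have h1 : TW t v a b (S (v ++ false :: a)) (S (v ++ true :: b)) ≠ [] := by
    simp [TW]
  obtain ⟨c, l, hcl⟩ := List.exists_cons_of_ne_nil h1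
  have h2 := pathword_upper v a b hab t S hS c []
  rw [List.append_nil, List.append_nil, hcl, alt_cons, if_pos rfl, zero_add] at h2
  rw [hcl, altL_cons]
  exact (altL_le_alt c _).trans h2

/-- one leaf for each block along a path -/
private def pathword_pl : List Bool → List (List Bool)
  | [] => [[]]
  | true :: z => (false :: List.replicate z.length false) :: (pathword_pl z).map (List.cons true)
  | false :: z => (pathword_pl z).map (List.cons false) ++ [true :: List.replicate z.length false]

private lemma pathword_lex_cons {s : Bool} {x y : List Bool} (h : LexLt x y) : LexLt (s :: x) (s :: y) := by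
  obtain ⟨v, a, b, rfl, rfl⟩ := h
  exact ⟨s :: v, a, b, rfl, rfl⟩

private lemma pathword_lex (x y : List Bool) : LexLt (false :: x) (true :: y) := ⟨[], x, y, rfl, rfl⟩

private lemma pathword_pw_map {s : Bool} {W : List (List Bool)} (h : W.Pairwise LexLt) :
    (W.map (List.cons s)).Pairwise LexLt := by
  rw [List.pairwise_map]
  exact h.imp pathword_lex_cons

private lemma pathword_pl_spec (z : List Bool) :
    (pathword_pl z).Pairwise LexLt ∧ (∀ c ∈ pathword_pl z, c.length = z.length) ∧
      ∀ (t : List Bool → Bool) (S : List Bool → Bool), PathLet t S z →
        (pathword_pl z).map S = RK t z ++ [S z] ++ LK t z := by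
  induction z with
  | nil =>
    refine ⟨List.pairwise_singleton _ _, ?_, ?_⟩
    · intro c hc
      rw [pathword_pl, List.mem_singleton] at hc
      rw [hc]
    · intro t S _
      simp [pathword_pl, RK, LK]
  | cons s z ih =>
    obtain ⟨ih1, ih2, ih3⟩ := ih
    have hsub : ∀ {t : List Bool → Bool} {S : List Bool → Bool}, PathLet t S (s :: z) →
        PathLet (fun u => t (s :: u)) (fun c => S (s :: c)) z := by
      intro t S hS u s' w c h1 h2
      exact hS (s :: u) s' w c (by rw [h1]; rfl) (by simpa using h2)
    cases s
    · refine ⟨?_, ?_, ?_⟩
      · rw [pathword_pl, List.pairwise_append]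
        refine ⟨pathword_pw_map ih1, List.pairwise_singleton _ _, ?_⟩
        intro x hx y hy
        obtain ⟨x', -, rfl⟩ := List.mem_map.1 hx
        rw [List.mem_singleton] at hy
        rw [hy]
        exact pathword_lex _ _
      · intro c hc
        rw [pathword_pl, List.mem_append] at hc
        rcases hc with hc | hc
        · obtain ⟨x', hx', rfl⟩ := List.mem_map.1 hc
          simp [ih2 x' hx']
        · rw [List.mem_singleton] at hc
          rw [hc]
          simp
      · intro t S hS
        rw [pathword_pl, List.map_append, List.map_map]
        have h1 := ih3 _ _ (hsub hS)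
        have h2 : List.map (S ∘ List.cons false) (pathword_pl z) =
            List.map (fun c => S (false :: c)) (pathword_pl z) := rfl
        have h3 := hS [] false z (List.replicate z.length false) rfl (by simp)
        have h3' : S (true :: List.replicate z.length false) = !t [] := by simpa using h3
        rw [h2, h1]
        simp [RK, LK, h3']
    · refine ⟨?_, ?_, ?_⟩
      · rw [pathword_pl, List.pairwise_cons]
        refine ⟨?_, pathword_pw_map ih1⟩
        intro y hy
        obtain ⟨y', -, rfl⟩ := List.mem_map.1 hy
        exact pathword_lex _ _
      · intro c hc
        rw [pathword_pl, List.mem_cons] at hc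
        rcases hc with hc | hc
        · rw [hc]
          simp
        · obtain ⟨x', hx', rfl⟩ := List.mem_map.1 hc
          simp [ih2 x' hx']
      · intro t S hS
        rw [pathword_pl, List.map_cons, List.map_map]
        have h1 := ih3 _ _ (hsub hS)
        have h2 : List.map (S ∘ List.cons true) (pathword_pl z) =
            List.map (fun c => S (true :: c)) (pathword_pl z) := rfl
        have h3 := hS [] true z (List.replicate z.length false) rfl (by simp)
        have h3' : S (false :: List.replicate z.length false) = t [] := by simpa using h3
        rw [h2, h1]
        simp [RK, LK, h3']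

theorem path2_lower (v a b : List Bool) (hab : a.length = b.length) (t : List Bool → Bool)
    (S : List Bool → Bool) (hS : PathLet2 t S v a b) :
    ∃ W : List (List Bool), W.Pairwise LexLt ∧ (∀ c ∈ W, c.length = v.length + 1 + a.length) ∧
      W.map S = TW t v a b (S (v ++ false :: a)) (S (v ++ true :: b)) := by
  induction v generalizing t S with
  | nil =>
    obtain ⟨a1, a2, a3⟩ := pathword_pl_spec a
    obtain ⟨b1, b2, b3⟩ := pathword_pl_spec b
    refine ⟨(pathword_pl a).map (List.cons false) ++ (pathword_pl b).map (List.cons true), ?_, ?_, ?_⟩
    · rw [List.pairwise_append]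
      refine ⟨pathword_pw_map a1, pathword_pw_map b1, ?_⟩
      intro x hx y hy
      obtain ⟨x', -, rfl⟩ := List.mem_map.1 hx
      obtain ⟨y', -, rfl⟩ := List.mem_map.1 hy
      exact pathword_lex _ _
    · intro c hc
      rw [List.mem_append] at hc
      rcases hc with hc | hc
      · obtain ⟨x', hx', rfl⟩ := List.mem_map.1 hc
        rw [List.length_cons, a2 x' hx', List.length_nil]
        omega
      · obtain ⟨x', hx', rfl⟩ := List.mem_map.1 hc
        rw [List.length_cons, b2 x' hx', List.length_nil]
        omega
    · have hA : PathLet (fun u => t (false :: u)) (fun c => S (false :: c)) a := by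
        intro u s w c h1 h2
        exact hS.left u s w c h1 h2
      have hB : PathLet (fun u => t (true :: u)) (fun c => S (true :: c)) b := by
        intro u s w c h1 h2
        exact hS.right u s w c h1 h2
      rw [List.map_append, List.map_map, List.map_map]
      have h1 : List.map (S ∘ List.cons false) (pathword_pl a) = List.map (fun c => S (false :: c)) (pathword_pl a) := rfl
      have h2 : List.map (S ∘ List.cons true) (pathword_pl b) = List.map (fun c => S (true :: c)) (pathword_pl b) := rfl
      rw [h1, h2, a3 _ _ hA, b3 _ _ hB]
      simp [TW, RK, LK]
  | cons s v ih =>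
    obtain ⟨W, h1, h2, h3⟩ := ih _ _ (pathword_sub hS)
    cases s
    · refine ⟨W.map (List.cons false) ++ [true :: List.replicate (v.length + 1 + a.length) false], ?_, ?_, ?_⟩
      · rw [List.pairwise_append]
        refine ⟨pathword_pw_map h1, List.pairwise_singleton _ _, ?_⟩
        intro x hx y hy
        obtain ⟨x', -, rfl⟩ := List.mem_map.1 hx
        rw [List.mem_singleton] at hy
        rw [hy]
        exact pathword_lex _ _
      · intro c hc
        rw [List.mem_append] at hc
        rcases hc with hc | hc
        · obtain ⟨x', hx', rfl⟩ := List.mem_map.1 hc
          rw [List.length_cons, h2 x' hx', List.length_cons]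
          omega
        · rw [List.mem_singleton] at hc
          rw [hc, List.length_cons, List.length_replicate, List.length_cons]
          omega
      · have h4 := hS.base [] false v (List.replicate (v.length + 1 + a.length) false) rfl (by simp; omega)
        have h4' : S (true :: List.replicate (v.length + 1 + a.length) false) = !t [] := by simpa using h4
        rw [List.map_append, List.map_map, pathword_TW_false, List.map_singleton, h4']
        congr 1
    · refine ⟨(false :: List.replicate (v.length + 1 + a.length) false) :: W.map (List.cons true), ?_, ?_, ?_⟩
      · rw [List.pairwise_cons]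
        refine ⟨?_, pathword_pw_map h1⟩
        intro y hy
        obtain ⟨y', -, rfl⟩ := List.mem_map.1 hy
        exact pathword_lex _ _
      · intro c hc
        rw [List.mem_cons] at hc
        rcases hc with hc | hc
        · rw [hc, List.length_cons, List.length_replicate, List.length_cons]
          omega
        · obtain ⟨x', hx', rfl⟩ := List.mem_map.1 hc
          rw [List.length_cons, h2 x' hx', List.length_cons]
          omega
      · have h4 := hS.base [] true v (List.replicate (v.length + 1 + a.length) false) rfl (by simp; omega)
        have h4' : S (false :: List.replicate (v.length + 1 + a.length) false) = t [] := by simpa using h4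
        rw [List.map_cons, List.map_map, pathword_TW_true, h4']
        congr 1

end Pool.Agent.H41.Ex
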