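import Mathlib
import Pool.Agent.H41.Ex.EmbApi
import Pool.Agent.H41.Ex.PathWord

set_option autoImplicit false

/-!
The line through two leaves of a geometric tree.

PROOF of `geo_letters`.  Let `A = v ++ false :: a`, `B = v ++ true :: b`.  Recall that `mf` is the
orientation `mf p q r = (q.1 - p.1) * (r.2 - p.2) - (q.2 - p.2) * (r.1 - p.1)`, invariant under
cyclic rotation and antisymmetric (`rot`, `mf_swap12`, `mf_swap23` in `Kc.Planar`/`Kc.Region`).
Three cases, each with `s = true` and `s = false`, and each with the two orders of the labels
(`GeoF.ne` excludes equality):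
* base: `v = u ++ s :: w`, `C = u ++ (!s) :: c`.
  `s = true`: `C` is in the left subtree of `u`, and `A`, `B` are in the two subtrees of `v`, which is
  in the right subtree of `u`: `right_gt`/`right_lt` (base node `u`, node `v`): `lab u < lab v` iff
  `0 < mf C A B = mf A B C`.
  `s = false`: `C` in the right subtree of `u`, `v` in the left one: `left_lt`/`left_gt`:
  `lab v < lab u` iff `0 < mf A B C`.
* left: `a = u ++ s :: w`, `C = v ++ false :: (u ++ (!s) :: c)`; the node is `v ++ false :: u`.
  `s = true`: `left_lt` with the leaves `C, A, B`: `lab (v ++ false :: u) < lab v` iff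
  `0 < mf C A B = mf A B C`.  `s = false`: leaves `A, C, B`:
  `lab (v ++ false :: u) < lab v` iff `0 < mf A C B = - mf A B C`.
* right: `b = u ++ s :: w`, `C = v ++ true :: (u ++ (!s) :: c)`, node `v ++ true :: u`.
  `s = true`: leaves `A, C, B` and `right_gt`: `lab v < lab (node)` iff `0 < mf A C B = - mf A B C`.
  `s = false`: leaves `A, B, C`: `lab v < lab (node)` iff `0 < mf A B C`.
PROOF of `letters_lower`: `S c = decide (0 < mf (φ A) (φ B) (φ c))`; `path2_lower` gives a list of
leaves `W` in lexicographic order (`LexLt`, so `GeoF.sorted` gives that `W.map φ` is sorted by `x`);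
the points on the positive side of `mf (φ A) (φ B) ·` are those with `0 < hf a b c ·` for
`b = (φ B).1 - (φ A).1 > 0`, `a = -((φ B).2 - (φ A).2)` and a suitable `c`.
-/

namespace Pool.Agent.H41.Ex

open Pool.Agent.H41.Kc

/-- the line through two points -/
lemma exists_line {p q : ℝ × ℝ} (h : p.1 < q.1) :
    ∃ a b c : ℝ, (a, b) ≠ (0, 0) ∧ ∀ z : ℝ × ℝ, hf a b c z = mf p q z := by
  refine ⟨-(q.2 - p.2), q.1 - p.1, -(q.2 - p.2) * p.1 + (q.1 - p.1) * p.2, ?_, ?_⟩
  · intro h0
    have := (Prod.mk.inj h0).2
    linarith
  · intro z
    unfold hf mf
    ring

private lemma lettersgeo_pos {m y z : ℝ} (hne : y ≠ z) (h1 : y < z → 0 < m) (h2 : z < y → m < 0) :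
    decide (0 < m) = (true == decide (y < z)) := by
  rcases lt_or_gt_of_ne hne with h | h
  · simp [h1 h, h]
  · have h3 := h2 h
    simp [not_lt.2 h3.le, not_lt.2 h.le]

private lemma lettersgeo_neg {m y z : ℝ} (hne : y ≠ z) (h1 : y < z → m < 0) (h2 : z < y → 0 < m) :
    decide (0 < m) = (false == decide (y < z)) := by
  rcases lt_or_gt_of_ne hne with h | h
  · have h3 := h1 h
    simp [not_lt.2 h3.le, h]
  · simp [h2 h, not_lt.2 h.le]

private lemma lettersgeo_rot (x y z : ℝ × ℝ) : mf y z x = mf x y z := by
  simp only [mf]; ring

private lemma lettersgeo_swap (x y z : ℝ × ℝ) : mf x z y = - mf x y z := by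
  simp only [mf]; ring

private lemma lettersgeo_self1 (x y : ℝ × ℝ) : mf x y x = 0 := by
  simp only [mf]; ring

private lemma lettersgeo_self2 (x y : ℝ × ℝ) : mf x y y = 0 := by
  simp only [mf]; ring

theorem geo_letters {n : ℕ} {φ : List Bool → ℝ × ℝ} {lab : List Bool → ℝ} (hG : GeoF n φ lab)
    {v a b : List Bool} (ha : (v ++ false :: a).length = n) (hb : (v ++ true :: b).length = n)
    (S : List Bool → Bool)
    (hS : ∀ c : List Bool, c.length = n → c ≠ v ++ false :: a → c ≠ v ++ true :: b →
      S c = decide (0 < mf (φ (v ++ false :: a)) (φ (v ++ true :: b)) (φ c))) :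
    PathLet2 (fun u => decide (lab u < lab v)) S v a b := by
  refine ⟨?_, ?_, ?_⟩
  · intro u s w c hv hc
    subst hv
    have hlen : (u ++ (!s) :: c).length = n := by
      rw [hc]
      simp only [List.length_append, List.length_cons] at ha ⊢
      omega
    have hvn : (u ++ s :: w).length < n := by
      simp only [List.length_append, List.length_cons] at ha ⊢
      omega
    have hne := hG.ne u s w hvn
    cases s
    · rw [hS _ hlen (by simp) (by simp)]
      exact lettersgeo_neg hne (fun h => hG.left_gt u w a b c ha hb hlen h)
        (fun h => hG.left_lt u w a b c ha hb hlen h)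
    · rw [hS _ hlen (by simp) (by simp)]
      refine lettersgeo_pos hne (fun h => ?_) (fun h => ?_)
      · have h1 := hG.right_gt u w a b c ha hb hlen h
        rwa [← lettersgeo_rot] at h1
      · have h1 := hG.right_lt u w a b c ha hb hlen h
        rwa [← lettersgeo_rot] at h1
  · intro u s w c hv hc
    subst hv
    have hlen : (v ++ false :: (u ++ (!s) :: c)).length = n := by
      simp only [List.length_append, List.length_cons] at ha hc ⊢
      omega
    have hvn : (v ++ false :: u).length < n := by
      simp only [List.length_append, List.length_cons] at ha ⊢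
      omega
    have hne := (hG.ne v false u hvn).symm
    cases s
    · simp only [Bool.not_false] at hlen hc ⊢
      rw [hS _ hlen (by simp) (by simp)]
      have ha' : (v ++ false :: u ++ false :: w).length = n := by
        simpa only [List.append_assoc, List.cons_append] using ha
      have hc' : (v ++ false :: u ++ true :: c).length = n := by
        simpa only [List.append_assoc, List.cons_append] using hlen
      refine lettersgeo_neg hne (fun h => ?_) (fun h => ?_)
      · have h1 := hG.left_lt v u w c b ha' hc' hb h
        simp only [List.append_assoc, List.cons_append] at h1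
        rw [lettersgeo_swap] at h1
        linarith
      · have h1 := hG.left_gt v u w c b ha' hc' hb h
        simp only [List.append_assoc, List.cons_append] at h1
        rw [lettersgeo_swap] at h1
        linarith
    · simp only [Bool.not_true] at hlen hc ⊢
      rw [hS _ hlen (by simp) (by simp)]
      have ha' : (v ++ false :: u ++ true :: w).length = n := by
        simpa only [List.append_assoc, List.cons_append] using ha
      have hc' : (v ++ false :: u ++ false :: c).length = n := by
        simpa only [List.append_assoc, List.cons_append] using hlen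
      refine lettersgeo_pos hne (fun h => ?_) (fun h => ?_)
      · have h1 := hG.left_lt v u c w b hc' ha' hb h
        simp only [List.append_assoc, List.cons_append] at h1
        rwa [← lettersgeo_rot] at h1
      · have h1 := hG.left_gt v u c w b hc' ha' hb h
        simp only [List.append_assoc, List.cons_append] at h1
        rwa [← lettersgeo_rot] at h1
  · intro u s w c hv hc
    subst hv
    have hlen : (v ++ true :: (u ++ (!s) :: c)).length = n := by
      simp only [List.length_append, List.length_cons] at hb hc ⊢
      omega
    have hvn : (v ++ true :: u).length < n := by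
      simp only [List.length_append, List.length_cons] at hb ⊢
      omega
    have hne := (hG.ne v true u hvn).symm
    cases s
    · simp only [Bool.not_false] at hlen hc ⊢
      rw [hS _ hlen (by simp) (by simp)]
      have hb' : (v ++ true :: u ++ false :: w).length = n := by
        simpa only [List.append_assoc, List.cons_append] using hb
      have hc' : (v ++ true :: u ++ true :: c).length = n := by
        simpa only [List.append_assoc, List.cons_append] using hlen
      refine lettersgeo_neg hne (fun h => ?_) (fun h => ?_)
      · have h1 := hG.right_lt v u w c a hb' hc' ha h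
        simpa only [List.append_assoc, List.cons_append] using h1
      · have h1 := hG.right_gt v u w c a hb' hc' ha h
        simpa only [List.append_assoc, List.cons_append] using h1
    · simp only [Bool.not_true] at hlen hc ⊢
      rw [hS _ hlen (by simp) (by simp)]
      have hb' : (v ++ true :: u ++ true :: w).length = n := by
        simpa only [List.append_assoc, List.cons_append] using hb
      have hc' : (v ++ true :: u ++ false :: c).length = n := by
        simpa only [List.append_assoc, List.cons_append] using hlen
      refine lettersgeo_pos hne (fun h => ?_) (fun h => ?_)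
      · have h1 := hG.right_lt v u c w a hc' hb' ha h
        simp only [List.append_assoc, List.cons_append] at h1
        rw [lettersgeo_swap] at h1
        linarith
      · have h1 := hG.right_gt v u c w a hc' hb' ha h
        simp only [List.append_assoc, List.cons_append] at h1
        rw [lettersgeo_swap] at h1
        linarith

theorem letters_upper {n : ℕ} {φ : List Bool → ℝ × ℝ} {lab : List Bool → ℝ} (hG : GeoF n φ lab)
    {v a b : List Bool} (ha : (v ++ false :: a).length = n) (hb : (v ++ true :: b).length = n)
    (S : List Bool → Bool)
    (hS : ∀ c : List Bool, c.length = n → c ≠ v ++ false :: a → c ≠ v ++ true :: b →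
      S c = decide (0 < mf (φ (v ++ false :: a)) (φ (v ++ true :: b)) (φ c))) :
    altL ((bits n).map S) ≤
      altL (TW (fun u => decide (lab u < lab v)) v a b (S (v ++ false :: a)) (S (v ++ true :: b))) := by
  have h1 := geo_letters hG ha hb S hS
  have hab : a.length = b.length := by simp at ha hb; omega
  have h2 := path2_upper v a b hab _ S h1
  have hn : v.length + 1 + a.length = n := by simp at ha; omega
  rwa [hn] at h2

theorem letters_lower {n N : ℕ} {φ : List Bool → ℝ × ℝ} {lab : List Bool → ℝ} {P : Set (ℝ × ℝ)}
    (hG : GeoF n φ lab) (hP : ∀ x : List Bool, x.length = n → φ x ∈ P) (hN : LineAlt N P)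
    {v a b : List Bool} (ha : (v ++ false :: a).length = n) (hb : (v ++ true :: b).length = n) :
    altL (TW (fun u => decide (lab u < lab v)) v a b false false) ≤ N := by
  have h1 := geo_letters hG ha hb
    (fun c => decide (0 < mf (φ (v ++ false :: a)) (φ (v ++ true :: b)) (φ c))) (fun c _ _ _ => rfl)
  have hab : a.length = b.length := by simp at ha hb; omega
  obtain ⟨W, hW1, hW2, hW3⟩ := path2_lower v a b hab _ _ h1
  have hn : v.length + 1 + a.length = n := by simp at ha; omega
  rw [hn] at hW2
  rw [lettersgeo_self1, lettersgeo_self2] at hW3
  simp only [lt_irrefl, decide_false] at hW3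
  rw [← hW3]
  obtain ⟨a', b', c', hne, hz⟩ := exists_line (hG.sorted v a b ha hb)
  have h2 := hN (W.map φ) (by
    rw [List.pairwise_map]
    refine List.Pairwise.imp_of_mem ?_ hW1
    rintro x y hx hy ⟨v', a₁, b₁, rfl, rfl⟩
    exact hG.sorted v' a₁ b₁ (hW2 _ hx) (hW2 _ hy)) (by
    intro p hp
    obtain ⟨c, hc, rfl⟩ := List.mem_map.1 hp
    exact hP c (hW2 c hc)) a' b' c' hne
  rw [List.map_map] at h2
  refine le_trans (le_of_eq ?_) h2
  congr 1
  apply List.map_congr_left
  intro c _
  simp only [Function.comp_apply, hz]

end Pool.Agent.H41.Ex
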