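import Mathlib
import Pool.Agent.H41.Ex.Defs

set_option autoImplicit false

/-!
Inner common tangent.

`S` splits the finite set `T` of points in two nonempty classes, the class `true` being above the
class `false` with respect to the slope `θ`.  Then there are two points `i`, `j` in different
classes, `i` on the left of `j`, such that every other point is in the class `true` iff it is above
the line through `i` and `j`.

PROOF.  Write `h_μ(i) = (φ i).2 - μ * (φ i).1`.  For `a` in the class `true`, `b` in the class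
`false` let `sl a b = ((φ b).2 - (φ a).2) / ((φ b).1 - (φ a).1)`.  If `(φ a).1 < (φ b).1`, then
`h_μ(b) < h_μ(a)` iff `sl a b < μ`; in particular `sl a b < θ`.  If `(φ b).1 < (φ a).1`, then
`h_μ(b) < h_μ(a)` iff `μ < sl a b`; in particular `θ < sl a b`.
Case 1: there is a pair with `(φ a).1 < (φ b).1`.  Take such a pair with maximal slope `μ < θ`.  For
all `a'`, `b'`: `h_μ(b') ≤ h_μ(a')` (equality only if `sl a' b' = μ`).  Hence for `c ≠ a, b`: if `c`
is in the class `true`, `h_μ(c) ≥ h_μ(b)`, and equality is impossible since then `a, b, c` are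
collinear (`h_μ(a) = h_μ(b)`); so `c` is above the line.  If `c` is in the class `false`,
`h_μ(c) ≤ h_μ(a) = h_μ(b)` and again `<`.  `i = a`, `j = b`:
`mf (φ a) (φ b) (φ c) = ((φ b).1 - (φ a).1) * (h_μ(c) - h_μ(a))`.
Case 2: all pairs have `(φ b).1 < (φ a).1`.  Take the pair with minimal slope `μ > θ`; same
argument, `i = b`, `j = a`.
-/

namespace Pool.Agent.H41.Ex

open Pool.Agent.H41.Kc

/-- the case with a pair of points of different classes, the point above on the left -/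
private theorem tangent_case {ι : Type*} (T : Finset ι) (φ : ι → ℝ × ℝ)
    (hx : ∀ i ∈ T, ∀ j ∈ T, i ≠ j → (φ i).1 ≠ (φ j).1)
    (hgp : ∀ i ∈ T, ∀ j ∈ T, ∀ l ∈ T, i ≠ j → j ≠ l → i ≠ l → mf (φ i) (φ j) (φ l) ≠ 0)
    (S : ι → Bool) (θ : ℝ)
    (hS : ∀ i ∈ T, ∀ j ∈ T, S i = true → S j = false →
      (φ j).2 - θ * (φ j).1 < (φ i).2 - θ * (φ i).1)
    (h : ∃ a ∈ T, ∃ b ∈ T, S a = true ∧ S b = false ∧ (φ a).1 < (φ b).1) :
    ∃ i ∈ T, ∃ j ∈ T, (φ i).1 < (φ j).1 ∧ S i ≠ S j ∧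
      ∀ c ∈ T, c ≠ i → c ≠ j → S c = decide (0 < mf (φ i) (φ j) (φ c)) := by
  classical
  let Pr : Finset (ι × ι) := (T ×ˢ T).filter fun p => S p.1 = true ∧ S p.2 = false ∧ (φ p.1).1 < (φ p.2).1
  have hPr : ∀ p : ι × ι, p ∈ Pr ↔ (p.1 ∈ T ∧ p.2 ∈ T) ∧ S p.1 = true ∧ S p.2 = false ∧ (φ p.1).1 < (φ p.2).1 := by
    intro p
    simp only [Pr, Finset.mem_filter, Finset.mem_product]
  have hne : Pr.Nonempty := by
    obtain ⟨a, ha, b, hb, h1, h2, h3⟩ := h
    exact ⟨(a, b), (hPr _).2 ⟨⟨ha, hb⟩, h1, h2, h3⟩⟩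
  obtain ⟨⟨a, b⟩, hab, hmax⟩ := Finset.exists_max_image Pr
    (fun p => ((φ p.2).2 - (φ p.1).2) / ((φ p.2).1 - (φ p.1).1)) hne
  obtain ⟨⟨ha, hb⟩, hSa, hSb, hlt⟩ := (hPr _).1 hab
  dsimp only at ha hb hSa hSb hlt hmax
  obtain ⟨μ, hμ⟩ : ∃ μ, μ = ((φ b).2 - (φ a).2) / ((φ b).1 - (φ a).1) := ⟨_, rfl⟩
  have hpos : 0 < (φ b).1 - (φ a).1 := by linarith
  have hμ1 : (φ b).2 - (φ a).2 = μ * ((φ b).1 - (φ a).1) := by
    rw [hμ, div_mul_cancel₀ _ hpos.ne']
  have hμθ : μ < θ := by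
    have h1 := hS a ha b hb hSa hSb
    have h2 : μ * ((φ b).1 - (φ a).1) < θ * ((φ b).1 - (φ a).1) := by linarith
    exact lt_of_mul_lt_mul_right h2 hpos.le
  have key : ∀ a' ∈ T, ∀ b' ∈ T, S a' = true → S b' = false →
      (φ b').2 - μ * (φ b').1 ≤ (φ a').2 - μ * (φ a').1 := by
    intro a' ha' b' hb' hSa' hSb'
    have hne' : a' ≠ b' := by
      rintro rfl
      rw [hSa'] at hSb'
      exact absurd hSb' (by decide)
    rcases lt_or_gt_of_ne (hx a' ha' b' hb' hne') with h1 | h1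
    · have h2 := hmax (a', b') ((hPr _).2 ⟨⟨ha', hb'⟩, hSa', hSb', h1⟩)
      dsimp only at h2
      rw [← hμ, div_le_iff₀ (by linarith)] at h2
      linarith
    · have h2 := hS a' ha' b' hb' hSa' hSb'
      have h3 : 0 < (θ - μ) * ((φ a').1 - (φ b').1) := mul_pos (by linarith) (by linarith)
      nlinarith
  have hmf : ∀ c, mf (φ a) (φ b) (φ c) =
      ((φ b).1 - (φ a).1) * (((φ c).2 - μ * (φ c).1) - ((φ a).2 - μ * (φ a).1)) := by
    intro c
    unfold mf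
    rw [hμ1]
    ring
  have hne'' : a ≠ b := by
    rintro rfl
    exact absurd hlt (lt_irrefl _)
  refine ⟨a, ha, b, hb, hlt, by rw [hSa, hSb]; decide, ?_⟩
  intro c hc hca hcb
  have h0 : mf (φ a) (φ b) (φ c) ≠ 0 := hgp a ha b hb c hc hne'' (Ne.symm hcb) (Ne.symm hca)
  cases hSc : S c with
  | true =>
    have h1 := key c hc b hb hSc hSb
    have h2 : 0 ≤ mf (φ a) (φ b) (φ c) := by
      rw [hmf]
      exact mul_nonneg hpos.le (by linarith)
    exact (decide_eq_true (lt_of_le_of_ne h2 (Ne.symm h0))).symm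
  | false =>
    have h1 := key a ha c hc hSa hSc
    have h2 : mf (φ a) (φ b) (φ c) ≤ 0 := by
      rw [hmf]
      exact mul_nonpos_of_nonneg_of_nonpos hpos.le (by linarith)
    exact (decide_eq_false (not_lt.2 h2)).symm

theorem inner_tangent {ι : Type*} (T : Finset ι) (φ : ι → ℝ × ℝ)
    (hx : ∀ i ∈ T, ∀ j ∈ T, i ≠ j → (φ i).1 ≠ (φ j).1)
    (hgp : ∀ i ∈ T, ∀ j ∈ T, ∀ l ∈ T, i ≠ j → j ≠ l → i ≠ l → mf (φ i) (φ j) (φ l) ≠ 0)
    (S : ι → Bool) (θ : ℝ)
    (hS : ∀ i ∈ T, ∀ j ∈ T, S i = true → S j = false →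
      (φ j).2 - θ * (φ j).1 < (φ i).2 - θ * (φ i).1)
    (h1 : ∃ i ∈ T, S i = true) (h0 : ∃ i ∈ T, S i = false) :
    ∃ i ∈ T, ∃ j ∈ T, (φ i).1 < (φ j).1 ∧ S i ≠ S j ∧
      ∀ c ∈ T, c ≠ i → c ≠ j → S c = decide (0 < mf (φ i) (φ j) (φ c)) := by
  by_cases h : ∃ a ∈ T, ∃ b ∈ T, S a = true ∧ S b = false ∧ (φ a).1 < (φ b).1
  · exact tangent_case T φ hx hgp S θ hS h
  · obtain ⟨a, ha, hSa⟩ := h1
    obtain ⟨b, hb, hSb⟩ := h0
    have hne : a ≠ b := by
      rintro rfl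
      rw [hSa] at hSb
      exact absurd hSb (by decide)
    have hba : (φ b).1 < (φ a).1 := by
      rcases lt_or_gt_of_ne (hx a ha b hb hne) with h2 | h2
      · exact absurd ⟨a, ha, b, hb, hSa, hSb, h2⟩ h
      · exact h2
    have hmf : ∀ i j c, mf (-(φ i).1, (φ i).2) (-(φ j).1, (φ j).2) (-(φ c).1, (φ c).2) =
        mf (φ j) (φ i) (φ c) := by
      intro i j c
      unfold mf
      ring
    obtain ⟨i, hi, j, hj, hij, hSij, hc⟩ := tangent_case T (fun i => (-(φ i).1, (φ i).2))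
      (fun i hi j hj hij h2 => hx i hi j hj hij (neg_injective h2))
      (fun i hi j hj l hl h2 h3 h4 h5 => by
        rw [hmf] at h5
        exact hgp j hj i hi l hl (Ne.symm h2) h4 h3 h5) S (-θ)
      (fun i hi j hj h2 h3 => by
        have := hS i hi j hj h2 h3
        show (φ j).2 - -θ * -(φ j).1 < (φ i).2 - -θ * -(φ i).1
        linarith)
      ⟨a, ha, b, hb, hSa, hSb, neg_lt_neg hba⟩
    refine ⟨j, hj, i, hi, neg_lt_neg_iff.1 hij, Ne.symm hSij, ?_⟩
    intro c hcT hcj hci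
    have h2 := hc c hcT hci hcj
    rw [hmf] at h2
    exact h2

end Pool.Agent.H41.Ex
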