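import Mathlib
import Pool.Agent.H41.Ex.EmbApi

set_option autoImplicit false

/-!
The condensed word for homogeneous labels, and the depth lists `RD`, `LD`.

PROOF of `tw_hom`.  For an ancestor `u` of `v` (`v = u ++ s :: w`):
`decide (lab u < lab v) = f u.length v.length s` (`HomF`).  For a node `u = v ++ s :: w` below `v`
(`u.length < n`): `decide (lab u < lab v) = !decide (lab v < lab u) = !f v.length u.length s`
(the labels are different, `GeoF.ne`).  So `RK t v = RD (fun x => f x v.length true) 0 v`,
`LK t v = LD (fun x => !f x v.length false) 0 v`, etc. — first prove by induction on `z` the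
general statements
* `RK t z = RD g d z` if `t u = g (d + u.length)` for all `u`, `w` with `z = u ++ true :: w`;
* `LK t z = LD g d z` if `(!t u) = g (d + u.length)` for all `u`, `w` with `z = u ++ false :: w`.
PROOF of `RD_eq`, `LD_eq`: induction on `z`.
-/

namespace Pool.Agent.H41.Ex

open Pool.Agent.H41.Kc

theorem twHom_RK (z : List Bool) : ∀ (d : ℕ) (t : List Bool → Bool) (g : ℕ → Bool),
    (∀ u w, z = u ++ true :: w → t u = g (d + u.length)) → RK t z = RD g d z := by
  induction z with
  | nil => intro d t g _; rfl
  | cons s z ih =>
    intro d t g h
    have h1 : RK (fun u => t (s :: u)) z = RD g (d + 1) z := by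
      apply ih
      intro u w hu
      have h2 := h (s :: u) w (by rw [hu]; rfl)
      rw [h2, List.length_cons]
      congr 1
      omega
    cases s with
    | true =>
      have h2 := h [] z rfl
      change t [] :: RK (fun u => t (true :: u)) z = g d :: RD g (d + 1) z
      rw [h1, h2]
      rfl
    | false => exact h1

theorem twHom_LK (z : List Bool) : ∀ (d : ℕ) (t : List Bool → Bool) (g : ℕ → Bool),
    (∀ u w, z = u ++ false :: w → (!t u) = g (d + u.length)) → LK t z = LD g d z := by
  induction z with
  | nil => intro d t g _; rfl
  | cons s z ih =>
    intro d t g h
    have h1 : LK (fun u => t (s :: u)) z = LD g (d + 1) z := by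
      apply ih
      intro u w hu
      have h2 := h (s :: u) w (by rw [hu]; rfl)
      rw [h2, List.length_cons]
      congr 1
      omega
    cases s with
    | true => exact h1
    | false =>
      have h2 := h [] z rfl
      change LK (fun u => t (false :: u)) z ++ [!t []] = LD g (d + 1) z ++ [g d]
      rw [h1, h2]
      rfl

theorem tw_hom {n : ℕ} {φ : List Bool → ℝ × ℝ} {lab : List Bool → ℝ}
    {f : ℕ → ℕ → Bool → Bool} (hG : GeoF n φ lab) (hH : HomF n lab f)
    {v a b : List Bool} (ha : (v ++ false :: a).length = n) (hb : (v ++ true :: b).length = n)
    (e₁ e₂ : Bool) :
    TW (fun u => decide (lab u < lab v)) v a b e₁ e₂ = TWf f v a b e₁ e₂ := by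
  have hlen : ∀ u s w, v = u ++ s :: w → (u ++ s :: w).length < n := by
    intro u s w hv
    rw [← hv, ← ha]
    simp
  have hanc : ∀ u s w, v = u ++ s :: w → decide (lab u < lab v) = f u.length v.length s := by
    intro u s w hv
    have h1 := hH u s w (hlen u s w hv)
    rw [← hv] at h1
    exact h1
  have hdesc : ∀ (s : Bool) (u : List Bool), (v ++ s :: u).length < n →
      decide (lab (v ++ s :: u) < lab v) = !f v.length (v.length + 1 + u.length) s := by
    intro s u hu
    have h1 := hH v s u hu
    have h2 := hG.ne v s u hu
    have h3 : (v ++ s :: u).length = v.length + 1 + u.length := by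
      rw [List.length_append, List.length_cons]
      omega
    rw [h3] at h1
    rw [← h1]
    rcases lt_or_gt_of_ne h2 with h4 | h4
    · rw [decide_eq_false (not_lt.2 h4.le), decide_eq_true h4]
      rfl
    · rw [decide_eq_true h4, decide_eq_false (not_lt.2 h4.le)]
      rfl
  have hla : ∀ u s w, a = u ++ s :: w → (v ++ false :: u).length < n := by
    intro u s w hu
    rw [← ha, hu]
    simp
  have hlb : ∀ u s w, b = u ++ s :: w → (v ++ true :: u).length < n := by
    intro u s w hu
    rw [← hb, hu]
    simp
  unfold TW TWf
  rw [twHom_RK v 0 (fun u => decide (lab u < lab v)) (fun x => f x v.length true) (by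
      intro u w hv
      rw [Nat.zero_add]
      exact hanc u true w hv),
    twHom_LK v 0 (fun u => decide (lab u < lab v)) (fun x => !f x v.length false) (by
      intro u w hv
      rw [Nat.zero_add]
      change (!decide (lab u < lab v)) = !f u.length v.length false
      rw [hanc u false w hv]),
    twHom_RK a (v.length + 1) (fun u => decide (lab (v ++ false :: u) < lab v))
      (fun y => !f v.length y false) (by
      intro u w hu
      exact hdesc false u (hla u true w hu)),
    twHom_LK a (v.length + 1) (fun u => decide (lab (v ++ false :: u) < lab v))
      (fun y => f v.length y false) (by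
      intro u w hu
      change (!decide (lab (v ++ false :: u) < lab v)) = _
      rw [hdesc false u (hla u false w hu), Bool.not_not]),
    twHom_RK b (v.length + 1) (fun u => decide (lab (v ++ true :: u) < lab v))
      (fun y => !f v.length y true) (by
      intro u w hu
      exact hdesc true u (hlb u true w hu)),
    twHom_LK b (v.length + 1) (fun u => decide (lab (v ++ true :: u) < lab v))
      (fun y => f v.length y true) (by
      intro u w hu
      change (!decide (lab (v ++ true :: u) < lab v)) = _
      rw [hdesc true u (hlb u false w hu), Bool.not_not])]

lemma RD_eq (g : ℕ → Bool) (d : ℕ) (z : List Bool) :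
    RD g d z = ((List.range z.length).filter (fun i => z.getD i false == true)).map
      (fun i => g (d + i)) := by
  induction z generalizing d with
  | nil => rfl
  | cons s z ih =>
    have h1 : ((List.range z.length).filter (fun i => z.getD i false == true)).map
        (fun i => g (d + 1 + i)) = (((List.range z.length).map Nat.succ).filter
          (fun i => (s :: z).getD i false == true)).map (fun i => g (d + i)) := by
      rw [List.filter_map, List.map_map]
      have e1 : ((fun i => (s :: z).getD i false == true) ∘ Nat.succ) =
          fun i => z.getD i false == true := by
        funext i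
        simp [Function.comp]
      rw [e1]
      apply List.map_congr_left
      intro i _
      change g (d + 1 + i) = g (d + (i + 1))
      congr 1
      omega
    rw [List.length_cons, List.range_succ_eq_map]
    cases s with
    | true =>
      change g d :: RD g (d + 1) z = _
      rw [List.filter_cons_of_pos (by simp), List.map_cons, ih (d + 1), h1]
      rfl
    | false =>
      change RD g (d + 1) z = _
      rw [List.filter_cons_of_neg (by simp), ih (d + 1), h1]

lemma LD_eq (g : ℕ → Bool) (d : ℕ) (z : List Bool) :
    LD g d z = (((List.range z.length).filter (fun i => z.getD i false == false)).map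
      (fun i => g (d + i))).reverse := by
  induction z generalizing d with
  | nil => rfl
  | cons s z ih =>
    have h1 : ((List.range z.length).filter (fun i => z.getD i false == false)).map
        (fun i => g (d + 1 + i)) = (((List.range z.length).map Nat.succ).filter
          (fun i => (s :: z).getD i false == false)).map (fun i => g (d + i)) := by
      rw [List.filter_map, List.map_map]
      have e1 : ((fun i => (s :: z).getD i false == false) ∘ Nat.succ) =
          fun i => z.getD i false == false := by
        funext i
        simp [Function.comp]
      rw [e1]
      apply List.map_congr_left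
      intro i _
      change g (d + 1 + i) = g (d + (i + 1))
      congr 1
      omega
    rw [List.length_cons, List.range_succ_eq_map]
    cases s with
    | true =>
      change LD g (d + 1) z = _
      rw [List.filter_cons_of_neg (by simp), ih (d + 1), h1]
    | false =>
      change LD g (d + 1) z ++ [g d] = _
      rw [List.filter_cons_of_pos (by simp), List.map_cons, List.reverse_cons, ih (d + 1), h1]
      rfl

end Pool.Agent.H41.Ex
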