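import Mathlib
import Pool.Agent.H41.Kc.Planar
import Pool.Agent.H41.Kc.Upper3
import Pool.Agent.H41.Ex.LettersGeo
import Pool.Agent.H41.Ex.TwHom
import Pool.Agent.H41.Ex.FwBound
import Pool.Agent.H41.Ex.Tangent
import Pool.Agent.H41.Ex.DomCalc

set_option autoImplicit false

/-!
Lines meet the leaves of a homogeneous tree with few runs in at most `6 * q - 1` changes.

PROOF of `bits_lex`: `bits n` is strictly sorted by `LexLt` (induction on `n`), contains every list
of length `n`; two different lists of the same length are `LexLt`-comparable (`lex_trichotomy`).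
PROOF of `word_bound`.  Let `W` be an `x`-sorted list of leaf points and `0 < hf a b c ·` a side.
`(bits n).map φ` is `x`-sorted (`GeoF.sorted`) and contains all leaf points, so
`W <+ (bits n).map φ` (`sublist_of_sorted`, `Kc.Upper3`) and
`altL (W.map side) ≤ altL ((bits n).map S)`, `S x = decide (0 < hf a b c (φ x))`.
Let `T = (bits n).toFinset`.
* `b = 0` (vertical line; `a ≠ 0`): the sides are monotone in `x`, so `altL ≤ 1`.
* `b > 0`: if `S` is constant on the leaves, `altL = 0`.  Otherwise the class `true` is above the
  class `false` for the slope `θ = - a / b` (`hf a b c p = a * p.1 + b * p.2 - c`, so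
  `p.2 - θ * p.1 = (hf a b c p + c) / b`), and `inner_tangent` gives leaves `i`, `j` in different
  classes with `(φ i).1 < (φ j).1`, hence `LexLt i j`: `i = v ++ false :: a'`, `j = v ++ true :: b'`,
  and `S c = decide (0 < mf (φ i) (φ j) (φ c))` for the other leaves.  `letters_upper`, `tw_hom`,
  `twf_le`, `fw_upper`: `altL ((bits n).map S) ≤ altL (TW ..) = altL (TWf (flev Λ) ..) ≤
  altL (Fw Λ [S i] [S j]) ≤ 6 * q - 1`.
  (General position of the leaf points: `mf_of_gp`, and `φ` is injective on leaves because the
  `x`-coordinates are different.)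
* `b < 0`: use `S' = !S` (`altL_not`), i.e. the sides `hf a b c p ≤ 0`: the class `S' = true` is
  above the class `S' = false` for the slope `θ = - a / b` (not strictly at the value `0`, but
  `hf ≤ 0 < hf'` is still strict).
-/

namespace Pool.Agent.H41.Ex

open Pool.Agent.H41.Kc

lemma mem_bits {n : ℕ} {x : List Bool} : x ∈ bits n ↔ x.length = n := by
  induction n generalizing x with
  | zero => simp [bits]
  | succ n ih =>
    simp only [bits, List.mem_append, List.mem_map]
    constructor
    · rintro (⟨y, hy, rfl⟩ | ⟨y, hy, rfl⟩)
      · simp [ih.mp hy]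
      · simp [ih.mp hy]
    · intro h
      rcases x with _ | ⟨s, x⟩
      · simp at h
      · have h' : x.length = n := by simpa using h
        cases s
        · exact Or.inl ⟨x, ih.mpr h', rfl⟩
        · exact Or.inr ⟨x, ih.mpr h', rfl⟩

lemma wordbound_lex_cons (s : Bool) {x y : List Bool} (h : LexLt x y) :
    LexLt (s :: x) (s :: y) := by
  obtain ⟨v, a, b, rfl, rfl⟩ := h
  exact ⟨s :: v, a, b, rfl, rfl⟩

lemma bits_lex (n : ℕ) : (bits n).Pairwise LexLt := by
  induction n with
  | zero => simp [bits]
  | succ n ih =>
    rw [bits, List.pairwise_append]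
    refine ⟨?_, ?_, ?_⟩
    · rw [List.pairwise_map]
      exact ih.imp (fun h => wordbound_lex_cons false h)
    · rw [List.pairwise_map]
      exact ih.imp (fun h => wordbound_lex_cons true h)
    · intro x hx y hy
      rw [List.mem_map] at hx hy
      obtain ⟨x', _, rfl⟩ := hx
      obtain ⟨y', _, rfl⟩ := hy
      exact ⟨[], x', y', rfl, rfl⟩

lemma lex_trichotomy {x y : List Bool} (h : x.length = y.length) (hne : x ≠ y) :
    LexLt x y ∨ LexLt y x := by
  induction x generalizing y with
  | nil =>
    exfalso
    apply hne
    symm
    apply List.eq_nil_of_length_eq_zero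
    simpa using h.symm
  | cons s x ih =>
    rcases y with _ | ⟨t, y⟩
    · simp at h
    · have h' : x.length = y.length := by simpa using h
      by_cases hst : s = t
      · subst hst
        have hxy : x ≠ y := fun h0 => hne (by rw [h0])
        rcases ih h' hxy with h1 | h1
        · exact Or.inl (wordbound_lex_cons s h1)
        · exact Or.inr (wordbound_lex_cons s h1)
      · cases s
        · cases t
          · exact absurd rfl hst
          · exact Or.inl ⟨[], x, y, rfl, rfl⟩
        · cases t
          · exact Or.inr ⟨[], y, x, rfl, rfl⟩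
          · exact absurd rfl hst

lemma wordbound_const (c : Bool) (l : List Bool) (h : ∀ p ∈ l, p = c) : alt c l = 0 := by
  induction l with
  | nil => rfl
  | cons p l ih =>
    have hp : p = c := h p (by simp)
    subst hp
    rw [alt_cons, ih (fun q hq => h q (by simp [hq]))]
    simp

lemma wordbound_constL (c : Bool) (l : List Bool) (h : ∀ p ∈ l, p = c) : altL l = 0 :=
  Nat.le_zero.mp ((altL_le_alt c l).trans_eq (wordbound_const c l h))

lemma wordbound_bool : ∀ p q c : Bool, ¬ p = c → ¬ q = c → p = q := by decide

lemma wordbound_mono (c : Bool) (l : List Bool) (h : l.Pairwise (fun p q => p = c → q = c)) :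
    altL l ≤ 1 := by
  induction l with
  | nil => simp
  | cons p l ih =>
    rw [List.pairwise_cons] at h
    rw [altL_cons]
    by_cases hp : p = c
    · subst hp
      rw [wordbound_const p l (fun q hq => h.1 q hq rfl)]
      exact Nat.zero_le 1
    · rcases l with _ | ⟨q, l⟩
      · simp
      · rw [alt_cons]
        have h2 := h.2
        rw [List.pairwise_cons] at h2
        by_cases hq : q = c
        · rw [hq, wordbound_const c l (fun r hr => h2.1 r hr hq)]
          split_ifs <;> simp
        · have hpq : p = q := wordbound_bool p q c hp hq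
          rw [if_pos hpq]
          have := ih h.2
          rw [altL_cons] at this
          omega

lemma wordbound_class {q n : ℕ} (hq : 1 ≤ q) {φ : List Bool → ℝ × ℝ} {lab : List Bool → ℝ}
    {Λ : Lev} (hG : GeoF n φ lab) (hH : HomF n lab (flev Λ)) (hn : n = tot Λ)
    (hpos : ∀ p ∈ Λ, 1 ≤ p.1) (hgood : Good q Λ) {P : Set (ℝ × ℝ)} (hP : GeneralPosition P)
    (hφ : ∀ x : List Bool, x.length = n → φ x ∈ P) (S : List Bool → Bool) (θ : ℝ)
    (hS : ∀ x y : List Bool, x.length = n → y.length = n → S x = true → S y = false →
      (φ y).2 - θ * (φ y).1 < (φ x).2 - θ * (φ x).1) :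
    altL ((bits n).map S) ≤ 6 * q - 1 := by
  classical
  by_cases h1 : ∃ x : List Bool, x.length = n ∧ S x = true
  · by_cases h0 : ∃ x : List Bool, x.length = n ∧ S x = false
    · have hlt : ∀ x y : List Bool, x.length = n → y.length = n → LexLt x y →
          (φ x).1 < (φ y).1 := by
        rintro x y hx hy ⟨v, a, b, rfl, rfl⟩
        exact hG.sorted v a b hx hy
      have hxne : ∀ x y : List Bool, x.length = n → y.length = n → x ≠ y →
          (φ x).1 ≠ (φ y).1 := by
        intro x y hx hy hxy
        rcases lex_trichotomy (hx.trans hy.symm) hxy with h | h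
        · exact (hlt x y hx hy h).ne
        · exact (hlt y x hy hx h).ne'
      have hT : ∀ x : List Bool, x ∈ (bits n).toFinset ↔ x.length = n := by
        intro x
        rw [List.mem_toFinset, mem_bits]
      obtain ⟨i, hi, j, hj, hij, hSij, hside⟩ := inner_tangent (bits n).toFinset φ
        (fun i hi j hj h => hxne i j ((hT i).mp hi) ((hT j).mp hj) h)
        (fun i hi j hj l hl h2 h3 h4 => mf_of_gp hP (hφ i ((hT i).mp hi)) (hφ j ((hT j).mp hj))
          (hφ l ((hT l).mp hl))
          (fun h => hxne i j ((hT i).mp hi) ((hT j).mp hj) h2 (by rw [h]))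
          (fun h => hxne j l ((hT j).mp hj) ((hT l).mp hl) h3 (by rw [h]))
          (fun h => hxne i l ((hT i).mp hi) ((hT l).mp hl) h4 (by rw [h])))
        S θ
        (fun i hi j hj h2 h3 => hS i j ((hT i).mp hi) ((hT j).mp hj) h2 h3)
        (by obtain ⟨x, hx, hx'⟩ := h1; exact ⟨x, (hT x).mpr hx, hx'⟩)
        (by obtain ⟨x, hx, hx'⟩ := h0; exact ⟨x, (hT x).mpr hx, hx'⟩)
      have hin := (hT i).mp hi
      have hjn := (hT j).mp hj
      have hne : i ≠ j := by
        intro h
        rw [h] at hij
        exact lt_irrefl _ hij
      have hlex : LexLt i j := by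
        rcases lex_trichotomy (hin.trans hjn.symm) hne with h | h
        · exact h
        · exact absurd hij (not_lt.mpr (hlt j i hjn hin h).le)
      obtain ⟨v, a, b, rfl, rfl⟩ := hlex
      have h2 := letters_upper hG hin hjn S
        (fun c hc h3 h4 => hside c ((hT c).mpr hc) h3 h4)
      rw [tw_hom hG hH hin hjn] at h2
      have h3 := twf_le (Λ := Λ) hpos (hin.trans hn) (hjn.trans hn) (S (v ++ false :: a))
        (S (v ++ true :: b))
      have h4 := fw_upper hgood (S (v ++ false :: a)) (S (v ++ true :: b))
      omega
    · have h2 : altL ((bits n).map S) = 0 := by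
        apply wordbound_constL true
        intro p hp
        rw [List.mem_map] at hp
        obtain ⟨x, hx, rfl⟩ := hp
        by_contra hcon
        exact h0 ⟨x, mem_bits.mp hx, by simpa using hcon⟩
      omega
  · have h2 : altL ((bits n).map S) = 0 := by
      apply wordbound_constL false
      intro p hp
      rw [List.mem_map] at hp
      obtain ⟨x, hx, rfl⟩ := hp
      by_contra hcon
      exact h1 ⟨x, mem_bits.mp hx, by simpa using hcon⟩
    omega

theorem word_bound {q n : ℕ} (hq : 1 ≤ q) {φ : List Bool → ℝ × ℝ} {lab : List Bool → ℝ} {Λ : Lev}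
    (hG : GeoF n φ lab) (hH : HomF n lab (flev Λ)) (hn : n = tot Λ) (hpos : ∀ p ∈ Λ, 1 ≤ p.1)
    (hgood : Good q Λ) {P : Set (ℝ × ℝ)} (hP : GeneralPosition P)
    (hφ : ∀ x : List Bool, x.length = n → φ x ∈ P) :
    LineAlt (6 * q - 1) {z | ∃ x : List Bool, x.length = n ∧ φ x = z} := by
  intro W hW hWP a b c hab
  have hlt : ∀ x y : List Bool, x.length = n → y.length = n → LexLt x y →
      (φ x).1 < (φ y).1 := by
    rintro x y hx hy ⟨v, a, b, rfl, rfl⟩
    exact hG.sorted v a b hx hy
  have hsorted' : (bits n).Pairwise (fun x y => (φ x).1 < (φ y).1) :=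
    (bits_lex n).imp_of_mem (fun hx hy h => hlt _ _ (mem_bits.mp hx) (mem_bits.mp hy) h)
  have hsorted : ((bits n).map φ).Pairwise (fun p q => p.1 < q.1) := by
    rw [List.pairwise_map]
    exact hsorted'
  have hsub : W.Sublist ((bits n).map φ) := by
    apply sublist_of_sorted (R := fun p q : ℝ × ℝ => p.1 < q.1) (fun x => lt_irrefl _)
      (fun x y h => not_lt.mpr h.le) hW hsorted
    intro z hz
    obtain ⟨x, hx, hxz⟩ := hWP z hz
    exact List.mem_map.mpr ⟨x, mem_bits.mpr hx, hxz⟩
  have hle : altL (W.map (fun p => decide (0 < hf a b c p))) ≤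
      altL ((bits n).map (fun x => decide (0 < hf a b c (φ x)))) := by
    have h1 := altL_sublist (hsub.map (fun p => decide (0 < hf a b c p)))
    rw [List.map_map] at h1
    exact h1
  refine hle.trans ?_
  rcases lt_trichotomy b 0 with hb | hb | hb
  · have h1 := wordbound_class hq hG hH hn hpos hgood hP hφ
      (fun x => !decide (0 < hf a b c (φ x))) (-a / b) (by
        intro x y _ _ hx hy
        simp only [Bool.not_eq_eq_eq_not, Bool.not_true, decide_eq_false_iff_not, not_lt,
          Bool.not_false, decide_eq_true_eq] at hx hy
        have key : ∀ p : ℝ × ℝ, p.2 - -a / b * p.1 = (hf a b c p + c) / b := by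
          intro p
          have hb0 : b ≠ 0 := by
            intro h0
            rw [h0] at hb
            exact lt_irrefl _ hb
          unfold hf
          field_simp
          ring
        rw [key, key]
        exact div_lt_div_of_neg_of_lt hb (by linarith))
    have h2 : (bits n).map (fun x => !decide (0 < hf a b c (φ x))) =
        ((bits n).map (fun x => decide (0 < hf a b c (φ x)))).map (!·) := by
      rw [List.map_map]
      rfl
    rw [h2, altL_not] at h1
    exact h1
  · subst hb
    have ha : a ≠ 0 := by
      intro h
      apply hab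
      rw [h]
    have h1 : altL ((bits n).map (fun x => decide (0 < hf a 0 c (φ x)))) ≤ 1 := by
      rcases lt_or_gt_of_ne ha with ha | ha
      · apply wordbound_mono false
        rw [List.pairwise_map]
        refine hsorted'.imp ?_
        intro x y hxy h
        rw [decide_eq_false_iff_not, not_lt] at h ⊢
        unfold hf at h ⊢
        nlinarith
      · apply wordbound_mono true
        rw [List.pairwise_map]
        refine hsorted'.imp ?_
        intro x y hxy h
        rw [decide_eq_true_eq] at h ⊢
        unfold hf at h ⊢
        nlinarith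
    omega
  · exact wordbound_class hq hG hH hn hpos hgood hP hφ
      (fun x => decide (0 < hf a b c (φ x))) (-a / b) (by
        intro x y _ _ hx hy
        simp only [decide_eq_true_eq, decide_eq_false_iff_not, not_lt] at hx hy
        have key : ∀ p : ℝ × ℝ, p.2 - -a / b * p.1 = (hf a b c p + c) / b := by
          intro p
          have hb0 : b ≠ 0 := by
            intro h0
            rw [h0] at hb
            exact lt_irrefl _ hb
          unfold hf
          field_simp
          ring
        rw [key, key]
        exact div_lt_div_of_pos_right (by linarith) hb)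

end Pool.Agent.H41.Ex
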