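import Mathlib
import Pool.Agent.H41.Kc.Planar
import Pool.Agent.H41.Kc.Affine
import Pool.Agent.H41.Kc.GeoConvex
import Pool.Agent.H41.Ex.WordBound

set_option autoImplicit false

/-!
Closing a sorted chain to a polygon, and the polygon inside a homogeneous tree.

PROOF of `close_chain`.  Compare with `cup_convex` in `Kc.GeoConvex`.  Let `p` be the first point, `r`
the last one, `c` the slope of the line `p r`, `d = p.2 - c * p.1`.  If `side = true` (the inner
points are above the line: `0 < mf p r z`) let `F z = (z.1, z.2 - c * z.1 - d)`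
(`af 1 0 0 (-c) 1 (-d)`), otherwise `F z = (z.1, c * z.1 + d - z.2)` (`af 1 0 0 c (-1) d`).  Then
`F p = (p.1, 0)`, `F r = (r.1, 0)` and the inner points go to points with positive second
coordinate: `kconvex_of_list` applies to the list `W.map F` (with the same `K`); its hypothesis `hw`:
the side `α * (F z).1 + β ≤ (F z).2` is of the form `¬ 0 < hf a b c' z` (first case:
`z.2 - c z.1 - d < α z.1 + β` iff `0 < hf (α + c) (-1) (-(β + d)) z`; second case:
`c z.1 + d - z.2 < α z.1 + β` iff `0 < hf (α - c) 1 (d - β) z`), so the word is the negation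
(`altL_not`) of a word with `altL ≤ 2 * K - 1`, and
`alt false (w ++ [false]) ≤ 1 + altL w + 1 ≤ 2 * K + 1` (`alt_le_altL`, `altL_append_single`).
Transfer back with `kconvex_image` and the inverse affine map (`af_injective`, `gp_image`).
PROOF of `tree_close`.  Let `Λ = Λ₀ ++ [(M, X)]`, `P₀ = tot Λ₀`, `n = P₀ * M`, `M ≥ 2`, and
`p₀ = List.replicate P₀ false`.  For a node `u = p₀ ++ u'`, `u.length < n`:
`decide (lab [] < lab u) = flev Λ 0 u.length false = X false` (`0 / P₀ ≠ u.length / P₀` on the level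
of `Λ₀`, and `u.length < n`; induction on `Λ₀`: `0 < u.length` with `u.length ≥ tot Λ₀`).
Let `W` be the list of the points of the leaves `p₀ ++ x`, `x ∈ bits (n - P₀)`, followed by the
point of `b₀ = List.replicate n true`.  It is `x`-sorted (`bits_lex`, `GeoF.sorted`), it has
`2 ^ (n - P₀) + 1` elements.  First leaf `z₀ = List.replicate n false`.  Every other leaf
`c = p₀ ++ c'` has the form `u ++ true :: c''` with `u = p₀ ++ List.replicate j false`, and
`z₀ = u ++ false :: ..`; as in `geo_letters` (with `v = []`, `a = z₀.tail`, `b = b₀.tail`, case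
`left`), `decide (0 < mf (φ z₀) (φ b₀) (φ c)) = !decide (lab u < lab []) = X false`.
So all inner points are on one side.  Size: `n - P₀ = P₀ * (M - 1) ≥ n / 2`, so
`c ≤ (2 : ℝ) ^ ((n : ℝ) / 2) ≤ 2 ^ (n - P₀)`.  Take the first and the last point of `W` and `c - 2`
of the inner points (`List.take (c - 2)` of the list of the `2 ^ (n - P₀) - 1` inner points), and
apply `close_chain` with `K = 3 * q` and `LineAlt (6 * q - 1)` (`word_bound`; `LineAlt` is
inherited by subsets).  The number of points is `c` (`ncard_of_sorted` in `Kc.GeoConvex`).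
-/

namespace Pool.Agent.H41.Ex

open Pool.Agent.H41.Kc

theorem close_chain {p r : ℝ × ℝ} {L : List (ℝ × ℝ)} (hL : L ≠ []) {K : ℕ} (hK : 1 ≤ K)
    (hsort : (p :: (L ++ [r])).Pairwise (fun a b => a.1 < b.1))
    (hg : GeneralPosition {z | z ∈ p :: (L ++ [r])}) (side : Bool)
    (hside : ∀ z ∈ L, decide (0 < mf p r z) = side)
    (hN : LineAlt (2 * K - 1) {z | z ∈ p :: (L ++ [r])}) :
    KConvexSet K {z | z ∈ p :: (L ++ [r])} := by
  have hs := List.pairwise_cons.1 hsort
  have hs2 := List.pairwise_append.1 hs.2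
  have hpr : p.1 < r.1 := hs.1 r (by simp)
  obtain ⟨σ, hσ1, hσ2⟩ : ∃ σ : ℝ, σ * σ = 1 ∧ ∀ z ∈ L, 0 < σ * mf p r z := by
    cases side with
    | true =>
      refine ⟨1, by norm_num, fun z hz => ?_⟩
      have := hside z hz
      rw [decide_eq_true_eq] at this
      linarith
    | false =>
      refine ⟨-1, by norm_num, fun z hz => ?_⟩
      have h1 := hside z hz
      rw [decide_eq_false_iff_not, not_lt] at h1
      have hpz : p.1 < z.1 := hs.1 z (by simp [hz])
      have hzr : z.1 < r.1 := hs2.2.2 z hz r (by simp)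
      have h2 : mf p r z ≠ 0 := by
        apply mf_of_gp hg (by simp) (by simp) (by simp [hz])
        · intro h; rw [h] at hpr; exact lt_irrefl _ hpr
        · intro h; rw [h] at hzr; exact lt_irrefl _ hzr
        · intro h; rw [h] at hpz; exact lt_irrefl _ hpz
      have h3 := lt_of_le_of_ne h1 h2
      linarith
  have hσ0 : σ ≠ 0 := by
    intro h
    rw [h, mul_zero] at hσ1
    exact zero_ne_one hσ1
  set c : ℝ := (r.2 - p.2) / (r.1 - p.1) with hc
  set d : ℝ := p.2 - c * p.1 with hd
  have hne : r.1 - p.1 ≠ 0 := by linarith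
  have hcb : r.2 - p.2 = c * (r.1 - p.1) := by rw [hc, div_mul_cancel₀ _ hne]
  have hdet : (1 : ℝ) * σ - 0 * (-(σ * c)) ≠ 0 := by rw [zero_mul, sub_zero, one_mul]; exact hσ0
  have hdet' : (1 : ℝ) * σ - 0 * c ≠ 0 := by rw [zero_mul, sub_zero, one_mul]; exact hσ0
  set F : ℝ × ℝ → ℝ × ℝ := af 1 0 0 (-(σ * c)) σ (-(σ * d)) with hF
  set F' : ℝ × ℝ → ℝ × ℝ := af 1 0 0 c σ d with hF'
  have hF1 : ∀ z, (F z).1 = z.1 := by intro z; simp only [hF, af]; ring
  have hF2 : ∀ z, (F z).2 = σ * (z.2 - c * z.1 - d) := by intro z; simp only [hF, af]; ring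
  have hFF : ∀ z, F' (F z) = z := by
    intro z
    apply Prod.ext
    · simp only [hF', af]; rw [hF1]; ring
    · simp only [hF', af]; rw [hF1, hF2]
      linear_combination (z.2 - c * z.1 - d) * hσ1
  have hFp : F p = (p.1, 0) := by
    apply Prod.ext
    · rw [hF1]
    · rw [hF2, hd]; ring
  have hFr : F r = (r.1, 0) := by
    apply Prod.ext
    · rw [hF1]
    · rw [hF2, hd]
      show σ * (r.2 - c * r.1 - (p.2 - c * p.1)) = 0
      have : r.2 - c * r.1 - (p.2 - c * p.1) = 0 := by linarith
      rw [this, mul_zero]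
  have hWeq : (p.1, (0 : ℝ)) :: (L.map F ++ [(r.1, 0)]) = (p :: (L ++ [r])).map F := by
    rw [List.map_cons, List.map_append, List.map_cons, List.map_nil, hFp, hFr]
  have hconv : KConvexSet K {z | z ∈ (p.1, (0 : ℝ)) :: (L.map F ++ [(r.1, 0)])} := by
    refine kconvex_of_list ?_ ?_ ?_ ?_ hK ?_
    · intro h
      exact hL (List.map_eq_nil_iff.mp h)
    · rw [hWeq, List.pairwise_map]
      refine hsort.imp ?_
      intro x y hxy
      rw [hF1, hF1]; exact hxy
    · intro z hz
      rw [List.mem_map] at hz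
      obtain ⟨a, ha, rfl⟩ := hz
      rw [hF2]
      have h1 := hσ2 a ha
      have h2 : σ * mf p r a = (r.1 - p.1) * (σ * (a.2 - c * a.1 - d)) := by
        unfold mf
        rw [hcb, hd]; ring
      rw [h2] at h1
      exact (mul_pos_iff_of_pos_left (by linarith)).mp h1
    · have h1 := gp_image (c := 0) (f := -(σ * d)) hdet hg
      refine gp_subset h1 ?_
      intro z hz
      have hz' : z ∈ (p :: (L ++ [r])).map F := by rw [← hWeq]; exact hz
      rw [List.mem_map] at hz'
      obtain ⟨a, ha, rfl⟩ := hz'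
      exact ⟨a, ha, rfl⟩
    · intro x y
      rw [hWeq, List.map_map]
      have hmap : (p :: (L ++ [r])).map ((fun z : ℝ × ℝ => decide (x * z.1 + y ≤ z.2)) ∘ F) =
          ((p :: (L ++ [r])).map (fun z => decide (0 < hf (x + σ * c) (-σ) (-(y + σ * d)) z))).map
            (!·) := by
        rw [List.map_map]
        apply List.map_congr_left
        intro a _
        simp only [Function.comp_apply, hF1, hF2]
        rw [Bool.eq_iff_iff, decide_eq_true_iff, Bool.not_eq_true', decide_eq_false_iff_not, not_lt]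
        unfold hf
        constructor <;> intro h <;> linarith
      rw [hmap]
      have h1 := hN (p :: (L ++ [r])) hsort (fun z hz => hz) (x + σ * c) (-σ) (-(y + σ * d)) (by
        intro h
        rw [Prod.mk.injEq] at h
        exact hσ0 (neg_eq_zero.mp h.2))
      rw [← altL_not] at h1
      refine (alt_le_altL _ _).trans ?_
      have h2 := altL_append_single (((p :: (L ++ [r])).map
        (fun z => decide (0 < hf (x + σ * c) (-σ) (-(y + σ * d)) z))).map (!·)) false
      omega
  have himg : F' '' {z | z ∈ (p.1, (0 : ℝ)) :: (L.map F ++ [(r.1, 0)])} = {z | z ∈ p :: (L ++ [r])} := by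
    rw [hWeq]
    ext z
    constructor
    · rintro ⟨w, hw, rfl⟩
      obtain ⟨a, ha, rfl⟩ := List.mem_map.1 hw
      rw [hFF]
      exact ha
    · intro hz
      exact ⟨F z, List.mem_map.2 ⟨z, hz, rfl⟩, hFF z⟩
  rw [← himg]
  exact kconvex_image (c := 0) (f := d) hdet' hconv

lemma clo_bits (m : ℕ) : ∃ rest, bits m = List.replicate m false :: rest := by
  induction m with
  | zero => exact ⟨[], rfl⟩
  | succ m ih =>
    obtain ⟨rest, hr⟩ := ih
    refine ⟨rest.map (List.cons false) ++ (bits m).map (List.cons true), ?_⟩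
    rw [bits, hr, List.map_cons, List.replicate_succ]
    rfl

lemma clo_form : ∀ (m : ℕ) (x : List Bool), x.length = m → x ≠ List.replicate m false →
    ∃ (j : ℕ) (y : List Bool), x = List.replicate j false ++ true :: y := by
  intro m
  induction m with
  | zero =>
    intro x hx hne
    exact absurd (by rw [List.length_eq_zero_iff.1 hx]; rfl) hne
  | succ m ih =>
    intro x hx hne
    cases x with
    | nil => simp at hx
    | cons s x =>
      cases s with
      | true => exact ⟨0, x, rfl⟩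
      | false =>
        obtain ⟨j, y, hy⟩ := ih x (by simpa using hx) (by
          intro h
          apply hne
          rw [h, List.replicate_succ])
        refine ⟨j + 1, y, ?_⟩
        rw [hy, List.replicate_succ]
        rfl

lemma clo_tot_cons (p : ℕ × (Bool → Bool)) (Λ : Lev) : tot (p :: Λ) = p.1 * tot Λ := by
  unfold tot
  rw [List.map_cons, List.prod_cons]

lemma clo_tot_append (Λ : Lev) (p : ℕ × (Bool → Bool)) : tot (Λ ++ [p]) = tot Λ * p.1 := by
  unfold tot
  simp

lemma clo_tot_pos {Λ : Lev} (h : ∀ p ∈ Λ, 1 ≤ p.1) : 1 ≤ tot Λ := by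
  induction Λ with
  | nil => simp [tot]
  | cons p Λ ih =>
    rw [clo_tot_cons]
    have h1 := h p (by simp)
    have h2 := ih (fun q hq => h q (by simp [hq]))
    exact Nat.one_le_iff_ne_zero.2 (by positivity)

lemma clo_flev {M : ℕ} {X : Bool → Bool} (s : Bool) : ∀ (Λ₀ : Lev), (∀ p ∈ Λ₀, 1 ≤ p.1) → ∀ y : ℕ, tot Λ₀ ≤ y →
    y < tot Λ₀ * M → flev (Λ₀ ++ [(M, X)]) 0 y s = X s := by
  intro Λ₀
  induction Λ₀ with
  | nil =>
    intro _ y _ hy
    have hy' : y < M := by simpa [tot] using hy
    rw [List.nil_append]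
    unfold flev
    rw [if_pos (by rw [Nat.zero_div, Nat.div_eq_of_lt hy'])]
  | cons p Λ₁ ih =>
    intro hpos y hy1 hy2
    obtain ⟨M', X'⟩ := p
    have hM' : 1 ≤ M' := hpos (M', X') (by simp)
    have h1 := clo_tot_pos (Λ := Λ₁) (fun q hq => hpos q (by simp [hq]))
    rw [clo_tot_cons] at hy1 hy2
    dsimp only at hy1 hy2
    have h2 : tot Λ₁ ≤ y / M' := by
      rw [Nat.le_div_iff_mul_le (by omega)]
      rw [Nat.mul_comm]; exact hy1
    have h3 : y / M' < tot Λ₁ * M := by
      rw [Nat.div_lt_iff_lt_mul (by omega)]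
      calc y < M' * tot Λ₁ * M := hy2
        _ = tot Λ₁ * M * M' := by ring
    rw [List.cons_append]
    unfold flev
    rw [if_neg (by rw [Nat.zero_div]; omega), Nat.zero_div]
    exact ih (fun q hq => hpos q (by simp [hq])) _ h2 h3

theorem tree_close {q n : ℕ} (hq : 1 ≤ q) {φ : List Bool → ℝ × ℝ} {lab : List Bool → ℝ} {Λ : Lev}
    (hG : GeoF n φ lab) (hH : HomF n lab (flev Λ)) (hn : n = tot Λ) (h2 : ∀ p ∈ Λ, 2 ≤ p.1)
    (hne : Λ ≠ []) (hgood : Good q Λ) {P : Set (ℝ × ℝ)} (hP : GeneralPosition P)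
    (hφ : ∀ x : List Bool, x.length = n → φ x ∈ P) {c : ℕ} (hc : 3 ≤ c)
    (hc' : (c : ℝ) ≤ (2 : ℝ) ^ ((n : ℝ) / 2)) :
    ∃ Q : Set (ℝ × ℝ), Q ⊆ P ∧ KConvexSet (3 * q) Q ∧ Q.ncard = c := by
  have hpos : ∀ p ∈ Λ, 1 ≤ p.1 := fun p hp => le_trans (by norm_num) (h2 p hp)
  have hWB := word_bound hq hG hH hn hpos hgood hP hφ
  obtain ⟨Λ₀, MX, hΛ⟩ : ∃ (Λ₀ : Lev) (MX : ℕ × (Bool → Bool)), Λ = Λ₀ ++ [MX] :=
    ⟨Λ.dropLast, Λ.getLast hne, (List.dropLast_append_getLast hne).symm⟩
  obtain ⟨M, X⟩ := MX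
  have hM : 2 ≤ M := h2 (M, X) (by rw [hΛ]; simp)
  have hpos0 : ∀ p ∈ Λ₀, 1 ≤ p.1 := fun p hp => hpos p (by rw [hΛ]; simp [hp])
  obtain ⟨P₀, hP₀⟩ : ∃ P₀, P₀ = tot Λ₀ := ⟨_, rfl⟩
  have hP₀1 : 1 ≤ P₀ := by rw [hP₀]; exact clo_tot_pos hpos0
  have hnP : n = P₀ * M := by rw [hn, hΛ, clo_tot_append, hP₀]
  have hnP2 : P₀ * 2 ≤ n := by rw [hnP]; exact Nat.mul_le_mul_left _ hM
  obtain ⟨m, hm⟩ : ∃ m, m = n - P₀ := ⟨_, rfl⟩
  have hm1 : P₀ + m = n := by omega
  have hm2 : n ≤ 2 * m := by omega
  have hcm : c ≤ 2 ^ m := by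
    have h3 : (2 : ℝ) ^ ((n : ℝ) / 2) ≤ (2 : ℝ) ^ (m : ℝ) := by
      apply Real.rpow_le_rpow_of_exponent_le (by norm_num)
      have : (n : ℝ) ≤ 2 * m := by exact_mod_cast hm2
      linarith
    rw [Real.rpow_natCast] at h3
    exact_mod_cast hc'.trans h3
  obtain ⟨rest, hrest⟩ := clo_bits m
  have hlen : rest.length + 1 = 2 ^ m := by
    have := length_bits m
    rw [hrest, List.length_cons] at this
    exact this
  obtain ⟨p₀, hp₀⟩ : ∃ p₀ : List Bool, p₀ = List.replicate P₀ false := ⟨_, rfl⟩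
  obtain ⟨w₀, hw₀⟩ : ∃ w₀ : List Bool, p₀ = false :: w₀ := by
    obtain ⟨P₁, rfl⟩ : ∃ P₁, P₀ = P₁ + 1 := ⟨P₀ - 1, by omega⟩
    exact ⟨List.replicate P₁ false, by rw [hp₀, List.replicate_succ]⟩
  have hp₀len : p₀.length = P₀ := by rw [hp₀, List.length_replicate]
  obtain ⟨z₀, hz₀⟩ : ∃ z₀ : List Bool, z₀ = List.replicate m false := ⟨_, rfl⟩
  obtain ⟨b₀, hb₀⟩ : ∃ b₀ : List Bool, b₀ = List.replicate n true := ⟨_, rfl⟩
  obtain ⟨b₁, hb₁⟩ : ∃ b₁ : List Bool, b₀ = true :: b₁ := by
    obtain ⟨n₁, rfl⟩ : ∃ n₁, n = n₁ + 1 := ⟨n - 1, by omega⟩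
    exact ⟨List.replicate n₁ true, by rw [hb₀, List.replicate_succ]⟩
  have hb₀len : b₀.length = n := by rw [hb₀, List.length_replicate]
  obtain ⟨ys, hys⟩ : ∃ ys, ys = rest.take (c - 2) := ⟨_, rfl⟩
  have hyslen : ys.length = c - 2 := by
    rw [hys, List.length_take]
    omega
  have hsub : (z₀ :: ys).Sublist (bits m) := by
    rw [hrest, hz₀, hys]
    exact (List.take_sublist _ _).cons_cons _
  have hzy : (z₀ :: ys).Pairwise LexLt := (bits_lex m).sublist hsub
  have hmem : ∀ x ∈ z₀ :: ys, x.length = m := fun x hx => length_of_mem_bits (hsub.subset hx)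
  have hleaf : ∀ x ∈ z₀ :: ys, (p₀ ++ x).length = n := by
    intro x hx
    rw [List.length_append, hp₀len, hmem x hx, hm1]
  obtain ⟨g, hgdef⟩ : ∃ g : List Bool → ℝ × ℝ, g = fun x => φ (p₀ ++ x) := ⟨_, rfl⟩
  have hgx : ∀ x, g x = φ (p₀ ++ x) := fun x => by rw [hgdef]
  have hlist : g z₀ :: (ys.map g ++ [φ b₀]) = (z₀ :: ys).map g ++ [φ b₀] := by
    rw [List.map_cons, List.cons_append]
  have hin : ∀ z ∈ g z₀ :: (ys.map g ++ [φ b₀]), ∃ x : List Bool, x.length = n ∧ φ x = z := by
    intro z hz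
    rw [hlist, List.mem_append, List.mem_map, List.mem_singleton] at hz
    rcases hz with ⟨x, hx, rfl⟩ | rfl
    · exact ⟨p₀ ++ x, hleaf x hx, (hgx x).symm⟩
    · exact ⟨b₀, hb₀len, rfl⟩
  have hsort : (g z₀ :: (ys.map g ++ [φ b₀])).Pairwise (fun a b => a.1 < b.1) := by
    rw [hlist, List.pairwise_append, List.pairwise_map]
    refine ⟨?_, List.pairwise_singleton _ _, ?_⟩
    · refine hzy.imp_of_mem ?_
      intro x y hx hy hxy
      obtain ⟨v, a, b, rfl, rfl⟩ := hxy
      rw [hgx, hgx]
      have h3 := hG.sorted (p₀ ++ v) a b (by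
        have := hleaf _ hx
        rw [List.append_assoc]; exact this) (by
        have := hleaf _ hy
        rw [List.append_assoc]; exact this)
      rw [List.append_assoc, List.append_assoc] at h3
      exact h3
    · intro z hz w hw
      rw [List.mem_map] at hz
      rw [List.mem_singleton] at hw
      subst hw
      obtain ⟨x, hx, rfl⟩ := hz
      rw [hgx]
      have h3 := hG.sorted [] (w₀ ++ x) b₁ (by
        have := hleaf x hx
        rw [hw₀] at this; exact this) (by rw [hb₁] at hb₀len; exact hb₀len)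
      rw [hw₀, hb₁]
      exact h3
  have hgood' : GeneralPosition {z | z ∈ g z₀ :: (ys.map g ++ [φ b₀])} := by
    refine gp_subset hP ?_
    intro z hz
    obtain ⟨x, hx, rfl⟩ := hin z hz
    exact hφ x hx
  have hLA : LineAlt (2 * (3 * q) - 1) {z | z ∈ g z₀ :: (ys.map g ++ [φ b₀])} := by
    intro W hW1 hW2 a b c' hab
    have h3 := hWB W hW1 (fun z hz => hin z (hW2 z hz)) a b c' hab
    omega
  have hside : ∀ z ∈ ys.map g, decide (0 < mf (g z₀) (φ b₀) z) = X false := by
    intro z hz
    obtain ⟨x, hx, rfl⟩ := List.mem_map.1 hz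
    have hxm : x.length = m := hmem x (by simp [hx])
    have hxz : x ≠ List.replicate m false := by
      intro h
      have h3 := (List.pairwise_cons.1 hzy).1 x hx
      rw [hz₀, h] at h3
      obtain ⟨v, a, b, e1, e2⟩ := h3
      rw [e1] at e2
      have := List.append_cancel_left e2
      simp at this
    obtain ⟨j, y, hy⟩ := clo_form m x hxm hxz
    have hjm : j + (y.length + 1) = m := by
      rw [← hxm, hy]; simp
    have hz₀' : z₀ = List.replicate j false ++ false :: List.replicate y.length false := by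
      rw [hz₀, ← hjm, List.replicate_add, List.replicate_succ]
    obtain ⟨w, hw⟩ : ∃ w, w = w₀ ++ List.replicate j false := ⟨_, rfl⟩
    have e1 : p₀ ++ z₀ = [] ++ false :: w ++ false :: List.replicate y.length false := by
      rw [hz₀', hw₀, hw]; simp
    have e2 : p₀ ++ x = [] ++ false :: w ++ true :: y := by
      rw [hy, hw₀, hw]; simp
    have l1 := hleaf z₀ (by simp)
    have l2 := hleaf x (by simp [hx])
    have l3 : ([] ++ true :: b₁ : List Bool).length = n := by rw [hb₁] at hb₀len; exact hb₀len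
    rw [e1] at l1
    rw [e2] at l2
    have hwlen : (([] : List Bool) ++ false :: w).length < n := by
      have := l2
      simp only [List.length_append, List.length_cons, List.length_nil] at this ⊢
      omega
    have h3 := hH [] false w hwlen
    have hwl : ([] ++ false :: w : List Bool).length = P₀ + j := by
      have h4 : (false :: w₀).length = P₀ := by rw [← hw₀]; exact hp₀len
      rw [hw]
      simp only [List.length_append, List.length_cons, List.length_nil, List.length_replicate] at h4 ⊢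
      omega
    rw [hwl, List.length_nil, hΛ, clo_flev false Λ₀ hpos0 (P₀ + j) (by omega) (by
      rw [← hP₀, ← hnP]; omega)] at h3
    rw [← h3, hgx, hgx, e1, e2]
    have h4 := hG.ne [] false w hwlen
    have h5 := hG.left_lt [] w (List.replicate y.length false) y b₁ l1 l2 l3
    have h6 := hG.left_gt [] w (List.replicate y.length false) y b₁ l1 l2 l3
    have h7 := mf_swap23 (φ ([] ++ false :: w ++ false :: List.replicate y.length false)) (φ b₀)
      (φ ([] ++ false :: w ++ true :: y))
    rw [hb₁] at h7 ⊢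
    rcases lt_or_gt_of_ne h4 with h8 | h8
    · have h9 := h6 h8
      have h10 : 0 < mf (φ ([] ++ false :: w ++ false :: List.replicate y.length false)) (φ (true :: b₁))
          (φ ([] ++ false :: w ++ true :: y)) := by
        rw [List.nil_append (true :: b₁)] at h9
        linarith
      rw [decide_eq_true h10, decide_eq_true h8]
    · have h9 := h5 h8
      have h10 : ¬ 0 < mf (φ ([] ++ false :: w ++ false :: List.replicate y.length false)) (φ (true :: b₁))
          (φ ([] ++ false :: w ++ true :: y)) := by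
        rw [List.nil_append (true :: b₁)] at h9
        linarith
      rw [decide_eq_false h10, decide_eq_false (not_lt.2 h8.le)]
  refine ⟨{z | z ∈ g z₀ :: (ys.map g ++ [φ b₀])}, ?_, ?_, ?_⟩
  · intro z hz
    obtain ⟨x, hx, rfl⟩ := hin z hz
    exact hφ x hx
  · refine close_chain ?_ (by omega) hsort hgood' (X false) hside hLA
    intro h
    have := congrArg List.length h
    rw [List.length_map, hyslen, List.length_nil] at this
    omega
  · rw [ncard_of_sorted hsort]
    simp only [List.length_cons, List.length_append, List.length_map, hyslen, List.length_nil]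
    omega

end Pool.Agent.H41.Ex
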