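import Mathlib
import Pool.Agent.H41.Ex.Defs

set_option autoImplicit false

/-!
Sorted lists of pairs (scale, sign) with few changes of sign are contained in few lists.

`fillL hi b θs`: runs with alternating signs, the first run with sign `b` from the scale `hi` down
to the first threshold, and so on.
-/

namespace Pool.Agent.H41.Ex

open Pool.Agent.H41.Kc

/-- all scales from `hi` down to `lo` with sign `b` -/
def seg (hi lo : ℕ) (b : Bool) : List (ℕ × Bool) :=
  ((List.range (hi + 1)).reverse.filter (fun a => decide (lo ≤ a))).map (fun a => (a, b))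

/-- runs with alternating signs -/
def fillL : ℕ → Bool → List ℕ → List (ℕ × Bool)
  | hi, b, [] => seg hi 0 b
  | hi, b, θ :: θs => seg hi (min θ hi) b ++ fillL (min θ hi) (!b) θs

lemma mem_seg {hi lo : ℕ} {b : Bool} {p : ℕ × Bool} :
    p ∈ seg hi lo b ↔ lo ≤ p.1 ∧ p.1 ≤ hi ∧ p.2 = b := by
  unfold seg
  rw [List.mem_map]
  constructor
  · rintro ⟨a, ha, rfl⟩
    rw [List.mem_filter] at ha
    obtain ⟨h1, h2⟩ := ha
    rw [List.mem_reverse, List.mem_range] at h1
    simp at h2
    exact ⟨h2, by simpa using Nat.lt_succ_iff.mp h1, rfl⟩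
  · rintro ⟨h1, h2, h3⟩
    refine ⟨p.1, ?_, by rw [← h3]⟩
    rw [List.mem_filter, List.mem_reverse, List.mem_range]
    exact ⟨by omega, by simpa using h1⟩

lemma seg_pairwise (hi lo : ℕ) (b : Bool) :
    (seg hi lo b).Pairwise (fun p q => q.1 ≤ p.1) := by
  unfold seg
  rw [List.pairwise_map]
  apply List.Pairwise.filter
  rw [List.pairwise_reverse]
  exact List.pairwise_lt_range.imp (fun h => h.le)

lemma fillL_le (b : Bool) (θs : List ℕ) : ∀ (hi : ℕ) (c : Bool), ∀ p ∈ fillL hi c θs, p.1 ≤ hi := by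
  induction θs with
  | nil =>
    intro hi c p hp
    exact (mem_seg.mp hp).2.1
  | cons θ θs ih =>
    intro hi c p hp
    rcases List.mem_append.mp hp with h | h
    · exact (mem_seg.mp h).2.1
    · exact (ih _ _ p h).trans (min_le_right _ _)

lemma fillL_pairwise (θs : List ℕ) : ∀ (hi : ℕ) (c : Bool),
    (fillL hi c θs).Pairwise (fun p q => q.1 ≤ p.1) := by
  induction θs with
  | nil => intro hi c; exact seg_pairwise _ _ _
  | cons θ θs ih =>
    intro hi c
    show (seg hi (min θ hi) c ++ fillL (min θ hi) (!c) θs).Pairwise _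
    rw [List.pairwise_append]
    refine ⟨seg_pairwise _ _ _, ih _ _, ?_⟩
    intro p hp q hq
    exact (fillL_le c θs _ _ q hq).trans (mem_seg.mp hp).1

lemma fillL_alt (θs : List ℕ) : ∀ (hi : ℕ) (c : Bool),
    alt c ((fillL hi c θs).map Prod.snd) ≤ θs.length := by
  induction θs with
  | nil =>
    intro hi c
    rw [alt_const]
    · simp
    · intro b hb
      obtain ⟨p, hp, rfl⟩ := List.mem_map.mp hb
      exact (mem_seg.mp hp).2.2
  | cons θ θs ih =>
    intro hi c
    show alt c ((seg hi (min θ hi) c ++ fillL (min θ hi) (!c) θs).map Prod.snd) ≤ _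
    rw [List.map_append, alt_const_append]
    · have h1 := alt_le_alt c (!c) ((fillL (min θ hi) (!c) θs).map Prod.snd)
      have h2 := ih (min θ hi) (!c)
      rw [List.length_cons]
      split_ifs at h1 <;> omega
    · intro b hb
      obtain ⟨p, hp, rfl⟩ := List.mem_map.mp hb
      exact (mem_seg.mp hp).2.2

lemma fillL_head (hi : ℕ) (b : Bool) (θs : List ℕ) : (hi, b) ∈ fillL hi b θs := by
  rcases θs with _ | ⟨θ, θs⟩
  · exact mem_seg.mpr ⟨Nat.zero_le _, le_rfl, rfl⟩
  · exact List.mem_append_left _ (mem_seg.mpr ⟨min_le_right _ _, le_rfl, rfl⟩)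

lemma fillL_mono {lo hi : ℕ} (h : lo ≤ hi) (b : Bool) (θs : List ℕ) (hθ : ∀ θ ∈ θs, θ ≤ lo) :
    ∀ p ∈ fillL lo b θs, p ∈ fillL hi b θs := by
  intro p hp
  rcases θs with _ | ⟨θ, θs⟩
  · have := mem_seg.mp hp
    exact mem_seg.mpr ⟨this.1, this.2.1.trans h, this.2.2⟩
  · have hθ1 : θ ≤ lo := hθ θ (by simp)
    have e1 : min θ lo = θ := min_eq_left hθ1
    have e2 : min θ hi = θ := min_eq_left (hθ1.trans h)
    have hp' : p ∈ seg lo (min θ lo) b ++ fillL (min θ lo) (!b) θs := hp
    show p ∈ seg hi (min θ hi) b ++ fillL (min θ hi) (!b) θs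
    rw [e1] at hp'
    rw [e2]
    rcases List.mem_append.mp hp' with h1 | h1
    · have := mem_seg.mp h1
      exact List.mem_append_left _ (mem_seg.mpr ⟨this.1, this.2.1.trans h, this.2.2⟩)
    · exact List.mem_append_right _ h1

lemma fillL_cover (w : List (ℕ × Bool)) : ∀ (hi : ℕ) (b : Bool) (N : ℕ),
    w.Pairwise (fun p q => q.1 ≤ p.1) → (∀ p ∈ w, p.1 ≤ hi) → alt b (w.map Prod.snd) ≤ N →
    ∃ θs : List ℕ, θs.length = N ∧ (∀ θ ∈ θs, θ ≤ hi) ∧ ∀ p ∈ w, p ∈ fillL hi b θs := by
  induction w with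
  | nil =>
    intro hi b N _ _ _
    exact ⟨List.replicate N 0, by simp, by
      intro θ hθ
      rw [List.eq_of_mem_replicate hθ]
      exact Nat.zero_le _, by simp⟩
  | cons p w ih =>
    intro hi b N hw hhi halt
    rw [List.pairwise_cons] at hw
    rw [List.map_cons, alt_cons] at halt
    have hp1 : p.1 ≤ hi := hhi p (by simp)
    by_cases hb : b = p.2
    · rw [if_pos hb, zero_add, ← hb] at halt
      obtain ⟨θs, h1, h2, h3⟩ := ih p.1 b N hw.2 (fun q hq => hw.1 q hq) halt
      refine ⟨θs, h1, fun θ hθ => (h2 θ hθ).trans hp1, ?_⟩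
      intro q hq
      apply fillL_mono hp1 b θs h2
      rcases List.mem_cons.mp hq with rfl | hq
      · rw [hb]; exact fillL_head _ _ _
      · exact h3 q hq
    · rw [if_neg hb] at halt
      have hb' : p.2 = !b := by
        cases hx : p.2 <;> cases b <;> simp_all
      obtain ⟨N', rfl⟩ : ∃ N', N = N' + 1 := ⟨N - 1, by omega⟩
      obtain ⟨θs, h1, h2, h3⟩ := ih p.1 (!b) N' hw.2 (fun q hq => hw.1 q hq) (by
        rw [← hb']; omega)
      refine ⟨p.1 :: θs, by simp [h1], ?_, ?_⟩
      · intro θ hθ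
        rcases List.mem_cons.mp hθ with rfl | hθ
        · exact hp1
        · exact (h2 θ hθ).trans hp1
      · intro q hq
        show q ∈ seg hi (min p.1 hi) b ++ fillL (min p.1 hi) (!b) θs
        rw [min_eq_left hp1]
        apply List.mem_append_right
        rcases List.mem_cons.mp hq with rfl | hq
        · rw [← hb']; exact fillL_head _ _ _
        · exact h3 q hq

theorem code_list (A N : ℕ) (hA : 1 ≤ A) :
    ∃ fill : Bool × (Fin N → Fin A) → List (ℕ × Bool),
      (∀ c, (fill c).Pairwise (fun p q => q.1 ≤ p.1)) ∧ (∀ c, ∀ p ∈ fill c, p.1 < A) ∧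
      (∀ c, altL ((fill c).map Prod.snd) ≤ N) ∧
      ∀ w : List (ℕ × Bool), w.Pairwise (fun p q => q.1 ≤ p.1) → (∀ p ∈ w, p.1 < A) →
        altL (w.map Prod.snd) ≤ N → ∃ c, ∀ p ∈ w, p ∈ fill c := by
  refine ⟨fun c => fillL (A - 1) c.1 (List.ofFn (fun i => (c.2 i).val)), ?_, ?_, ?_, ?_⟩
  · intro c; exact fillL_pairwise _ _ _
  · intro c p hp
    have := fillL_le true _ _ _ p hp
    omega
  · intro c
    refine (altL_le_alt c.1 _).trans ?_
    refine (fillL_alt _ _ _).trans ?_
    simp
  · intro w hw hwA halt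
    rcases w with _ | ⟨q, w⟩
    · exact ⟨(true, fun _ => ⟨0, by omega⟩), by simp⟩
    · have halt' : alt q.2 ((q :: w).map Prod.snd) ≤ N := by
        rw [List.map_cons, altL_cons] at halt
        rw [List.map_cons, alt_cons]
        simpa using halt
      obtain ⟨θs, h1, h2, h3⟩ := fillL_cover (q :: w) (A - 1) q.2 N hw
        (fun p hp => by have := hwA p hp; omega) halt'
      subst h1
      refine ⟨(q.2, fun i => ⟨θs[i], ?_⟩), ?_⟩
      · have := h2 θs[i] (List.getElem_mem _)
        omega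
      · intro p hp
        have := h3 p hp
        convert this using 2
        apply List.ext_getElem
        · simp
        · intro i h4 h5
          simp

end Pool.Agent.H41.Ex
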