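import Mathlib
import Pool.Agent.H41.Kc.Comp
import Pool.Agent.H41.Ex.EmbApi

set_option autoImplicit false

/-!
From `BTr` trees to functions on paths.

`leafAt w x` is the leaf reached by the path `x`, `labAt w x` the label of the node `x`.

PROOF of `geoF_of_geo`: induction on `w`.  Lemmas: `x.length = n → leafAt w x ∈ w.lf`;
`RL φ t S w` and `x.length < n` (a node of `w` with subtrees `X`, `Y`) imply the statement of `RL`
for this node: by induction on `w`, for all `x` with `x.length < n`:
`labAt w x ≠ t`, and for all leaves `leafAt w (x ++ false :: a)`, `leafAt w (x ++ true :: b)`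
(`(x ++ false :: a).length = n`, ..) and `c ∈ S`:
`labAt w x < t → 0 < mf (φ _) (φ _) (φ c)`, `t < labAt w x → mf .. < 0`; same for `RR`.
Then `GeoF` for `node t L R`: the fields for `v = []` come from `Geo`'s first components
(`RL φ t R.lf L`, `RR φ t L.lf R`), the fields for `v = s :: v'` from the induction hypothesis for
`L` resp. `R`.
-/

namespace Pool.Agent.H41.Ex

open Pool.Agent.H41.Kc BTr

variable {α : Type}

/-- the leaf reached by a path -/
def leafAt : {n : ℕ} → BTr α n → List Bool → α
  | _, leaf a, _ => a
  | _, node _ L _, [] => leafAt L []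
  | _, node _ L R, s :: x => if s then leafAt R x else leafAt L x

/-- the label of a node -/
noncomputable def labAt : {n : ℕ} → BTr α n → List Bool → ℝ
  | _, leaf _, _ => 0
  | _, node t _ _, [] => t
  | _, node _ L R, s :: x => if s then labAt R x else labAt L x

@[simp] lemma convert_leaf_nil {n : ℕ} (t : ℝ) (L R : BTr α n) :
    leafAt (node t L R) [] = leafAt L [] := rfl

@[simp] lemma convert_leaf_false {n : ℕ} (t : ℝ) (L R : BTr α n) (x : List Bool) :
    leafAt (node t L R) (false :: x) = leafAt L x := rfl

@[simp] lemma convert_leaf_true {n : ℕ} (t : ℝ) (L R : BTr α n) (x : List Bool) :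
    leafAt (node t L R) (true :: x) = leafAt R x := rfl

@[simp] lemma convert_lab_nil {n : ℕ} (t : ℝ) (L R : BTr α n) :
    labAt (node t L R) [] = t := rfl

@[simp] lemma convert_lab_false {n : ℕ} (t : ℝ) (L R : BTr α n) (x : List Bool) :
    labAt (node t L R) (false :: x) = labAt L x := rfl

@[simp] lemma convert_lab_true {n : ℕ} (t : ℝ) (L R : BTr α n) (x : List Bool) :
    labAt (node t L R) (true :: x) = labAt R x := rfl

lemma leafAt_mem {n : ℕ} (w : BTr α n) : ∀ x : List Bool, leafAt w x ∈ w.lf := by
  induction w with
  | leaf a => intro x; simp [leafAt]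
  | node t L R hL hR =>
    intro x
    rcases x with _ | ⟨s, x⟩
    · rw [convert_leaf_nil, lf_node, List.mem_append]
      exact Or.inl (hL [])
    · cases s
      · rw [convert_leaf_false, lf_node, List.mem_append]
        exact Or.inl (hL x)
      · rw [convert_leaf_true, lf_node, List.mem_append]
        exact Or.inr (hR x)

lemma convert_rl {φ : α → ℝ × ℝ} {t : ℝ} {S : List α} {n : ℕ} (w : BTr α n) (h : RL φ t S w) :
    ∀ x : List Bool, x.length < n → labAt w x ≠ t ∧
      (labAt w x < t → ∀ a b : List Bool, ∀ c ∈ S,
        0 < mf (φ (leafAt w (x ++ false :: a))) (φ (leafAt w (x ++ true :: b))) (φ c)) ∧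
      (t < labAt w x → ∀ a b : List Bool, ∀ c ∈ S,
        mf (φ (leafAt w (x ++ false :: a))) (φ (leafAt w (x ++ true :: b))) (φ c) < 0) := by
  induction w with
  | leaf a => intro x hx; simp at hx
  | node r L R hL hR =>
    obtain ⟨⟨h1, h2, h3⟩, h4, h5⟩ := h
    intro x hx
    rcases x with _ | ⟨s, x⟩
    · simp only [convert_lab_nil, List.nil_append, convert_leaf_false, convert_leaf_true]
      exact ⟨h1, fun hr a b c hc => h2 hr _ (leafAt_mem L a) _ (leafAt_mem R b) c hc,
        fun hr a b c hc => h3 hr _ (leafAt_mem L a) _ (leafAt_mem R b) c hc⟩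
    · have hx' : x.length < _ := Nat.lt_of_succ_lt_succ hx
      cases s
      · simp only [convert_lab_false, List.cons_append, convert_leaf_false]
        exact hL h4 x hx'
      · simp only [convert_lab_true, List.cons_append, convert_leaf_true]
        exact hR h5 x hx'

lemma convert_rr {φ : α → ℝ × ℝ} {t : ℝ} {S : List α} {n : ℕ} (w : BTr α n) (h : RR φ t S w) :
    ∀ x : List Bool, x.length < n → labAt w x ≠ t ∧
      (t < labAt w x → ∀ a b : List Bool, ∀ c ∈ S,
        0 < mf (φ c) (φ (leafAt w (x ++ false :: a))) (φ (leafAt w (x ++ true :: b)))) ∧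
      (labAt w x < t → ∀ a b : List Bool, ∀ c ∈ S,
        mf (φ c) (φ (leafAt w (x ++ false :: a))) (φ (leafAt w (x ++ true :: b))) < 0) := by
  induction w with
  | leaf a => intro x hx; simp at hx
  | node r L R hL hR =>
    obtain ⟨⟨h1, h2, h3⟩, h4, h5⟩ := h
    intro x hx
    rcases x with _ | ⟨s, x⟩
    · simp only [convert_lab_nil, List.nil_append, convert_leaf_false, convert_leaf_true]
      exact ⟨h1, fun hr a b c hc => h2 hr c hc _ (leafAt_mem L a) _ (leafAt_mem R b),
        fun hr a b c hc => h3 hr c hc _ (leafAt_mem L a) _ (leafAt_mem R b)⟩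
    · have hx' : x.length < _ := Nat.lt_of_succ_lt_succ hx
      cases s
      · simp only [convert_lab_false, List.cons_append, convert_leaf_false]
        exact hL h4 x hx'
      · simp only [convert_lab_true, List.cons_append, convert_leaf_true]
        exact hR h5 x hx'

theorem geoF_of_geo {n : ℕ} {w : BTr α n} {φ : α → ℝ × ℝ} (h : Geo φ w) :
    GeoF n (fun x => φ (leafAt w x)) (labAt w) := by
  induction w with
  | leaf a =>
    refine ⟨?_, ?_, ?_, ?_, ?_, ?_⟩
    · intro v a b ha hb; simp at ha
    · intro v s w hw; simp at hw
    · intro v w a b c ha hb hc; simp at hc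
    · intro v w a b c ha hb hc; simp at hc
    · intro v w a b c ha hb hc; simp at hc
    · intro v w a b c ha hb hc; simp at hc
  | @node m t L R hL hR =>
    obtain ⟨h1, h2, h3, h4, h5⟩ := h
    have iL := hL h4
    have iR := hR h5
    refine ⟨?_, ?_, ?_, ?_, ?_, ?_⟩
    · intro v a b ha hb
      rcases v with _ | ⟨s, v⟩
      · exact h1 _ (leafAt_mem L a) _ (leafAt_mem R b)
      · have ha' : (v ++ false :: a).length = _ := Nat.succ.inj ha
        have hb' : (v ++ true :: b).length = _ := Nat.succ.inj hb
        cases s
        · exact iL.sorted v a b ha' hb'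
        · exact iR.sorted v a b ha' hb'
    · intro v s w hw
      rcases v with _ | ⟨r, v⟩
      · have hw' : w.length < _ := Nat.lt_of_succ_lt_succ hw
        cases s
        · exact (convert_rl L h2 w hw').1.symm
        · exact (convert_rr R h3 w hw').1.symm
      · have hw' : (v ++ s :: w).length < _ := Nat.lt_of_succ_lt_succ hw
        cases r
        · exact iL.ne v s w hw'
        · exact iR.ne v s w hw'
    · intro v w a b c ha hb hc hlab
      rcases v with _ | ⟨r, v⟩
      · have hw' : w.length < m := by
          have h6 := ha
          simp only [List.nil_append, List.cons_append, List.length_cons, List.length_append] at h6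
          omega
        exact (convert_rl L h2 w hw').2.1 hlab a b _ (leafAt_mem R c)
      · have ha' : (v ++ false :: w ++ false :: a).length = _ := Nat.succ.inj ha
        have hb' : (v ++ false :: w ++ true :: b).length = _ := Nat.succ.inj hb
        have hc' : (v ++ true :: c).length = _ := Nat.succ.inj hc
        cases r
        · exact iL.left_lt v w a b c ha' hb' hc' hlab
        · exact iR.left_lt v w a b c ha' hb' hc' hlab
    · intro v w a b c ha hb hc hlab
      rcases v with _ | ⟨r, v⟩
      · have hw' : w.length < m := by
          have h6 := ha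
          simp only [List.nil_append, List.cons_append, List.length_cons, List.length_append] at h6
          omega
        exact (convert_rl L h2 w hw').2.2 hlab a b _ (leafAt_mem R c)
      · have ha' : (v ++ false :: w ++ false :: a).length = _ := Nat.succ.inj ha
        have hb' : (v ++ false :: w ++ true :: b).length = _ := Nat.succ.inj hb
        have hc' : (v ++ true :: c).length = _ := Nat.succ.inj hc
        cases r
        · exact iL.left_gt v w a b c ha' hb' hc' hlab
        · exact iR.left_gt v w a b c ha' hb' hc' hlab
    · intro v w a b c ha hb hc hlab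
      rcases v with _ | ⟨r, v⟩
      · have hw' : w.length < m := by
          have h6 := ha
          simp only [List.nil_append, List.cons_append, List.length_cons, List.length_append] at h6
          omega
        exact (convert_rr R h3 w hw').2.1 hlab a b _ (leafAt_mem L c)
      · have ha' : (v ++ true :: w ++ false :: a).length = _ := Nat.succ.inj ha
        have hb' : (v ++ true :: w ++ true :: b).length = _ := Nat.succ.inj hb
        have hc' : (v ++ false :: c).length = _ := Nat.succ.inj hc
        cases r
        · exact iL.right_gt v w a b c ha' hb' hc' hlab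
        · exact iR.right_gt v w a b c ha' hb' hc' hlab
    · intro v w a b c ha hb hc hlab
      rcases v with _ | ⟨r, v⟩
      · have hw' : w.length < m := by
          have h6 := ha
          simp only [List.nil_append, List.cons_append, List.length_cons, List.length_append] at h6
          omega
        exact (convert_rr R h3 w hw').2.2 hlab a b _ (leafAt_mem L c)
      · have ha' : (v ++ true :: w ++ false :: a).length = _ := Nat.succ.inj ha
        have hb' : (v ++ true :: w ++ true :: b).length = _ := Nat.succ.inj hb
        have hc' : (v ++ false :: c).length = _ := Nat.succ.inj hc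
        cases r
        · exact iL.right_lt v w a b c ha' hb' hc' hlab
        · exact iR.right_lt v w a b c ha' hb' hc' hlab

end Pool.Agent.H41.Ex
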