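import Mathlib
import Pool.Agent.H41.Kc.Lower
import Pool.Agent.H41.Kc.Upper3
import Pool.Agent.H41.Kc.Affine
import Pool.Agent.H41.Ex.Convert

set_option autoImplicit false

/-!
Reduction to trees.

PROOF of `from_tree`.  Follow `lower_finite` in `Kc.Lower`, with an additional Erdős–Szekeres step.
Shear `P` by `F = af 1 ε 0 0 1 0` (`exists_shear`) so that the first coordinates are distinct;
`F '' P` is `k`-convex (`kconvex_image`).  `exists_order` gives a list `L` of the points of `F '' P`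
(no duplicates) such that every line (also those through points: `altL_all`) changes side at most
`2 * k` times along `L`.  Let `R = 4 * h * (2 * k + 1)`, `N₀ = R ^ (2 * h - 1)`; then
`(N₀ - 1) * (N₀ - 1) < N₀ ^ 2 ≤ R ^ (4 * h) ≤ L.length`, and `es_list` (`Kc.Upper3`) with
`f p = p.1`, `a = N₀ - 1` gives a sublist `L'` of length `N₀`, increasing or decreasing in the first
coordinate; in the second case reverse it.  So there is an `x`-sorted list `L''` of `N₀` points such
that every line changes side at most `2 * k` times along `L''` (`altL_sublist`, `altL_reverse`).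
Let `P₁ = {p | p ∈ L''}`: it is finite, in general position (`gp_subset`), and `LineAlt (2 * k) P₁`:
an `x`-sorted list of points of `P₁` is a sublist of `L''` (`sublist_of_sorted`).
`extract` (`Kc.Extract`) with `m = h - 1`, `K = 2 * k`, `p i = L''.getD i (0, 0)` (its hypothesis
`hR`: `2 * ((2 * m + 1 + 1) * (K + 1)) = R`; `chg_le_altL`) gives `w : BTr ℕ h` with `Geo p w` and
leaves `< N₀`.  `geoF_of_geo` gives `GeoF h φ lab` with all leaf points in `P₁`.  Apply `hyp` and
transfer `Q` back by the inverse shear, as in `lower_finite`.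
-/

namespace Pool.Agent.H41.Ex

open Pool.Agent.H41.Kc

theorem from_tree {k j h c : ℕ} (hh : 1 ≤ h)
    (hyp : ∀ (P₁ : Set (ℝ × ℝ)) (φ : List Bool → ℝ × ℝ) (lab : List Bool → ℝ), P₁.Finite →
      GeneralPosition P₁ → LineAlt (2 * k) P₁ → GeoF h φ lab →
      (∀ x : List Bool, x.length = h → φ x ∈ P₁) →
      ∃ Q : Set (ℝ × ℝ), Q ⊆ P₁ ∧ KConvexSet j Q ∧ Q.ncard = c)
    {P : Set (ℝ × ℝ)} (hP : KConvexSet k P) (hn : (4 * h * (2 * k + 1)) ^ (4 * h) ≤ P.ncard) :
    ∃ Q : Set (ℝ × ℝ), Q ⊆ P ∧ KConvexSet j Q ∧ Q.ncard = c := by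
  classical
  obtain ⟨m, rfl⟩ : ∃ m, h = m + 1 := ⟨h - 1, by omega⟩
  have hfin : P.Finite := by
    apply Set.finite_of_ncard_pos
    exact lt_of_lt_of_le (by positivity) hn
  obtain ⟨ε, hε⟩ := exists_shear hfin
  have hdet : (1 : ℝ) * 1 - ε * 0 ≠ 0 := by norm_num
  have hdet' : (1 : ℝ) * 1 - (-ε) * 0 ≠ 0 := by norm_num
  set F : ℝ × ℝ → ℝ × ℝ := af 1 ε 0 0 1 0 with hF
  set F' : ℝ × ℝ → ℝ × ℝ := af 1 (-ε) 0 0 1 0 with hF'
  have hFv : ∀ z, F z = (z.1 + ε * z.2, z.2) := by
    intro z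
    simp only [hF, af]
    apply Prod.ext <;> simp
  have hFF : ∀ z, F' (F z) = z := by
    intro z
    rw [hFv]
    simp only [hF', af]
    apply Prod.ext <;> simp
  have hPF : KConvexSet k (F '' P) := kconvex_image (c := 0) (f := 0) hdet hP
  obtain ⟨L, hL1, hL2, hL3⟩ := exists_order hPF
  have hlen : L.length = P.ncard := by
    have h1 : (F '' P).ncard = P.ncard :=
      Set.ncard_image_of_injective _ (af_injective (c := 0) (f := 0) hdet)
    have h2 : F '' P = (L.toFinset : Set (ℝ × ℝ)) := by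
      ext z
      simp [← hL2]
    rw [← h1, h2, Set.ncard_coe_finset, List.toFinset_card_of_nodup hL1]
  set R := 4 * (m + 1) * (2 * k + 1) with hR
  have hRpos : 0 < R := by rw [hR]; positivity
  obtain ⟨N₀, hN₀⟩ : ∃ N₀, N₀ = R ^ (2 * m + 1) := ⟨_, rfl⟩
  have hN₀pos : 0 < N₀ := by rw [hN₀]; positivity
  have hLn : (N₀ - 1) * (N₀ - 1) < L.length := by
    have h1 : (N₀ - 1) * (N₀ - 1) < N₀ * N₀ := Nat.mul_lt_mul'' (by omega) (by omega)
    have h2 : N₀ * N₀ ≤ R ^ (4 * (m + 1)) := by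
      rw [hN₀, ← pow_add]
      exact Nat.pow_le_pow_right hRpos (by omega)
    rw [hlen]
    exact lt_of_lt_of_le (lt_of_lt_of_le h1 h2) hn
  have hinj : ∀ x ∈ L, ∀ y ∈ L, Prod.fst x = Prod.fst y → x = y := by
    intro x hx y hy hxy
    rw [hL2] at hx hy
    obtain ⟨u, hu, rfl⟩ := hx
    obtain ⟨v, hv, rfl⟩ := hy
    by_contra hne
    have huv : u ≠ v := fun hh => hne (by rw [hh])
    have := hε u hu v hv huv
    rw [hFv, hFv] at hxy
    exact this hxy
  obtain ⟨L', hL's, hL'l, hL'p⟩ := es_list ((0, 0) : ℝ × ℝ) Prod.fst L hL1 hinj hLn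
  -- the sorted list
  obtain ⟨M, hMl, hMm, hMs, hMa⟩ : ∃ M : List (ℝ × ℝ), M.length = N₀ ∧ (∀ p ∈ M, p ∈ L) ∧
      M.Pairwise (fun p q => p.1 < q.1) ∧
      ∀ a b c : ℝ, (a, b) ≠ (0, 0) → altL (M.map (fun p => decide (0 < hf a b c p))) ≤ 2 * k := by
    have hl : L'.length = N₀ := by rw [hL'l]; omega
    have ha : ∀ a b c : ℝ, (a, b) ≠ (0, 0) → altL (L'.map (fun p => decide (0 < hf a b c p))) ≤ 2 * k := by
      intro a b c hab
      exact (altL_sublist (hL's.map _)).trans (altL_all hL3 hab)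
    rcases hL'p with hp | hp
    · exact ⟨L', hl, fun p hp' => hL's.subset hp', hp, ha⟩
    · refine ⟨L'.reverse, by rw [List.length_reverse]; exact hl, fun p hp' => hL's.subset (List.mem_reverse.1 hp'),
        List.pairwise_reverse.2 hp, ?_⟩
      intro a b c hab
      rw [List.map_reverse, altL_reverse]
      exact ha a b c hab
  have hMsub : {p | p ∈ M} ⊆ F '' P := fun p hp => (hL2 p).1 (hMm p hp)
  have hGP : GeneralPosition {p | p ∈ M} := gp_subset hPF.1 hMsub
  have hLA : LineAlt (2 * k) {p | p ∈ M} := by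
    intro W hW hWP a b c hab
    have hsub : W.Sublist M := sublist_of_sorted (R := fun p q : ℝ × ℝ => p.1 < q.1) (fun _ => lt_irrefl _)
      (fun _ _ hh => lt_asymm hh) hW hMs hWP
    exact (altL_sublist (hsub.map _)).trans (hMa a b c hab)
  set p : ℕ → ℝ × ℝ := fun i => M.getD i (0, 0) with hp
  have hpe : ∀ i (hi : i < M.length), p i = M[i] := by
    intro i hi
    simp only [hp]
    exact List.getD_eq_getElem _ _ hi
  have hpm : ∀ i < M.length, p i ∈ {p | p ∈ M} := by
    intro i hi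
    rw [hpe i hi]
    exact List.getElem_mem hi
  have hplt : ∀ i j, i < j → j < M.length → (p i).1 < (p j).1 := by
    intro i j hij hj
    rw [hpe i (hij.trans hj), hpe j hj]
    exact List.pairwise_iff_getElem.1 hMs i j (hij.trans hj) hj hij
  have hpne : ∀ i < M.length, ∀ j < M.length, i ≠ j → (p i).1 ≠ (p j).1 := by
    intro i hi j hj hij
    rcases lt_or_gt_of_ne hij with hh | hh
    · exact (hplt i j hh hj).ne
    · exact (hplt j i hh hi).ne'
  have hRm : R ^ (2 * m + 1) ≤ M.length := by rw [hMl, hN₀]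
  obtain ⟨w, hw1, hw2⟩ := extract (R := R) (K := 2 * k) (m := m) (p := p) (by
      rw [hR]
      exact le_of_eq (by ring)) (by
      intro i hi j hj hij
      exact hpne i (lt_of_lt_of_le hi hRm) j (lt_of_lt_of_le hj hRm) hij) (by
      intro i hi j hj l hl hij hjl hil
      have hi' := lt_of_lt_of_le hi hRm
      have hj' := lt_of_lt_of_le hj hRm
      have hl' := lt_of_lt_of_le hl hRm
      exact mf_of_gp hGP (hpm i hi') (hpm j hj') (hpm l hl') (fun hh => hpne i hi' j hj' hij (by rw [hh]))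
        (fun hh => hpne j hj' l hl' hjl (by rw [hh])) (fun hh => hpne i hi' l hl' hil (by rw [hh]))) (by
      intro a b c hab
      exact (chg_le_altL hRm (fun p => decide (0 < hf a b c p))).trans (hMa a b c hab))
  obtain ⟨Q, hQ1, hQ2, hQ3⟩ := hyp {p | p ∈ M} (fun x => p (leafAt w x)) (labAt w) (List.finite_toSet M) hGP hLA
    (geoF_of_geo hw1) (fun x _ => hpm _ (lt_of_lt_of_le (hw2 _ (leafAt_mem w x)) hRm))
  refine ⟨F' '' Q, ?_, kconvex_image (c := 0) (f := 0) hdet' hQ2, ?_⟩
  · rintro _ ⟨z, hz, rfl⟩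
    obtain ⟨y, hy, hyz⟩ := hMsub (hQ1 hz)
    rw [← hyz, hFF]
    exact hy
  · rw [Set.ncard_image_of_injective _ (af_injective (c := 0) (f := 0) hdet')]
    exact hQ3

end Pool.Agent.H41.Ex
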