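import Mathlib
import Pool.Agent.H41.Kc.Lower3
import Pool.Agent.H41.Kc.Upper3
import Pool.Agent.H41.Ex.Defs

set_option autoImplicit false

/-!
The upper bound with the exponent `eexp`.

PROOF.  `Pool.Agent.Results.MP_b11e79_co.SharpUpper.result` (do not import the results file: its
proof is short and uses `upper_core3` of `Kc.Upper3`; copy `one_lt_log`, `exists_param`, `estimate`
and the proof of `result` into this file) gives, for every `D ≥ 1`, sets `P n` with `n` points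
(`n ≥ 3`), `k`-convex for all `k ≥ 3 * D`, and for every `j` a constant `C` with
`Q.ncard ≤ exp (C * log n ^ (((D + j / 3) / 2 : ℕ) / D) * log (log n))` for all `j`-convex `Q ⊆ P n`.
Let `K = k / 3`, `q = j / 3`.
* `K ≤ q` (so `K = q`): `eexp = 1`; take any `D`, e.g. `D = 1`, and use `Q.ncard ≤ n = exp (log n)
  ≤ exp (C * log n ^ 1 * log (log n))`.
* `K - q` odd: `D = K`, `(D + q) / 2 = (K + q - 1) / 2` exactly, exponent
  `(K + q - 1) / (2 * K) = eexp K q`.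
* `K - q` even, `K > q`: `K ≥ q + 2 ≥ 3`, `D = K - 1`, `(K - 1 + q) / 2 = (K + q - 2) / 2` exactly,
  exponent `(K + q - 2) / (2 * (K - 1)) = eexp K q`.
-/

namespace Pool.Agent.H41.Ex

open Pool.Agent.H41.Kc

lemma sharpup_kconvex_mono {k k' : ℕ} (h : k ≤ k') {P : Set (ℝ × ℝ)} (hP : KConvexSet k P) :
    KConvexSet k' P := by
  obtain ⟨hg, n, v, S, hv, hr, hS, hk⟩ := hP
  refine ⟨hg, n, v, S, hv, hr, hS, fun l hl => (hk l hl).trans ?_⟩
  exact_mod_cast h

lemma sharpup_one_lt_log {n : ℕ} (hn : 3 ≤ n) : 1 < Real.log n := by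
  rw [Real.lt_log_iff_exp_lt (by positivity)]
  have h1 : Real.exp 1 < 2.7182818286 := Real.exp_one_lt_d9
  have h2 : (3 : ℝ) ≤ n := by exact_mod_cast hn
  linarith

/-- parameters -/
lemma sharpup_exists_param (D : ℕ) (hD : 1 ≤ D) {n : ℕ} (hn : 3 ≤ n) :
    ∃ m : ℕ, 1 ≤ m ∧ n ≤ 2 ^ (m ^ D) ∧
      ((m : ℝ)) ^ D ≤ 2 ^ D / Real.log 2 * Real.log n := by
  classical
  have hex : ∃ m : ℕ, n ≤ 2 ^ (m ^ D) := by
    refine ⟨n, ?_⟩
    have h1 : n ≤ n ^ D := Nat.le_self_pow (by omega) n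
    exact h1.trans (Nat.lt_two_pow_self).le
  set m := Nat.find hex with hm
  have h1 : n ≤ 2 ^ (m ^ D) := Nat.find_spec hex
  have hm2 : 2 ≤ m := by
    by_contra hcon
    push Not at hcon
    have : m = 0 ∨ m = 1 := by omega
    rcases this with h | h
    · rw [h, zero_pow (by omega), pow_zero] at h1
      omega
    · rw [h, one_pow, pow_one] at h1
      omega
  have h2 : ¬ n ≤ 2 ^ ((m - 1) ^ D) := Nat.find_min hex (m := m - 1) (by omega)
  push Not at h2
  refine ⟨m, by omega, h1, ?_⟩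
  have hlog2 : 0 < Real.log 2 := Real.log_pos (by norm_num)
  have h3 : (((m - 1) ^ D : ℕ) : ℝ) * Real.log 2 ≤ Real.log n := by
    rw [← Real.log_pow]
    apply Real.log_le_log (by positivity)
    exact_mod_cast h2.le
  have h4 : (m : ℝ) ≤ 2 * ((m - 1 : ℕ) : ℝ) := by
    have : m ≤ 2 * (m - 1) := by omega
    exact_mod_cast this
  have h5 : (m : ℝ) ^ D ≤ 2 ^ D * (((m - 1) ^ D : ℕ) : ℝ) := by
    calc (m : ℝ) ^ D ≤ (2 * ((m - 1 : ℕ) : ℝ)) ^ D :=
          pow_le_pow_left₀ (by positivity) h4 _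
      _ = 2 ^ D * (((m - 1) ^ D : ℕ) : ℝ) := by
          push_cast
          rw [mul_pow]
  have h6 : (((m - 1) ^ D : ℕ) : ℝ) ≤ Real.log n / Real.log 2 := by
    rw [le_div_iff₀ hlog2]; exact h3
  calc (m : ℝ) ^ D ≤ 2 ^ D * (((m - 1) ^ D : ℕ) : ℝ) := h5
    _ ≤ 2 ^ D * (Real.log n / Real.log 2) := mul_le_mul_of_nonneg_left h6 (by positivity)
    _ = 2 ^ D / Real.log 2 * Real.log n := by ring

/-- the numerical sharpup_estimate -/
lemma sharpup_estimate (D r : ℕ) (hD : 1 ≤ D) : ∃ C : ℝ, ∀ n : ℕ, 3 ≤ n → ∀ m : ℕ, 1 ≤ m →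
    ((m : ℝ)) ^ D ≤ 2 ^ D / Real.log 2 * Real.log n →
    (((m ^ D + 1) ^ (2 * (8 ^ D * m ^ r + 1)) + 2 : ℕ) : ℝ) ≤
      Real.exp (C * Real.log n ^ ((r : ℝ) / D) * Real.log (Real.log n)) := by
  set e : ℝ := (r : ℝ) / D with he
  have hDpos : (0 : ℝ) < D := by exact_mod_cast hD
  have he0 : 0 ≤ e := by positivity
  have hlog2 : 0 < Real.log 2 := Real.log_pos (by norm_num)
  set κ : ℝ := 2 ^ D / Real.log 2 with hκ
  have hκpos : 0 < κ := by positivity
  have hκ1 : 1 ≤ κ := by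
    rw [hκ, le_div_iff₀ hlog2]
    have h1 : Real.log 2 ≤ 1 := by
      have := Real.log_two_lt_d9
      linarith
    have h2 : (1 : ℝ) ≤ 2 ^ D := one_le_pow₀ (by norm_num)
    linarith
  set c₀ : ℝ := Real.log (2 * κ) with hc₀
  have hc₀0 : 0 ≤ c₀ := Real.log_nonneg (by linarith)
  have hl3 : 0 < Real.log (Real.log 3) := by
    have := sharpup_one_lt_log (n := 3) le_rfl
    exact Real.log_pos (by exact_mod_cast this)
  set B : ℝ := 2 * (8 ^ D * κ ^ e + 1) with hB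
  have hBpos : 0 ≤ B := by positivity
  refine ⟨2 * B * (c₀ / Real.log (Real.log 3) + 1), ?_⟩
  intro n hn m hm hκm
  have hL : 1 < Real.log n := sharpup_one_lt_log hn
  have hLL : Real.log (Real.log 3) ≤ Real.log (Real.log n) := by
    apply Real.log_le_log (by have := sharpup_one_lt_log (n := 3) le_rfl; norm_cast at this ⊢; linarith)
    apply Real.log_le_log (by norm_num)
    exact_mod_cast hn
  set L := Real.log n with hLdef
  have hLLpos : 0 < Real.log L := lt_of_lt_of_le hl3 hLL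
  have hm1 : (1 : ℝ) ≤ m := by exact_mod_cast hm
  have hLe1 : 1 ≤ L ^ e := Real.one_le_rpow hL.le he0
  -- the exponent
  have hexp : ((m : ℝ)) ^ r ≤ κ ^ e * L ^ e := by
    have h1 : ((m : ℝ)) ^ r = (((m : ℝ)) ^ D) ^ e := by
      rw [← Real.rpow_natCast, ← Real.rpow_natCast, ← Real.rpow_mul (by positivity)]
      congr 1
      rw [he]
      field_simp
    rw [h1, ← Real.mul_rpow (by positivity) (by positivity)]
    exact Real.rpow_le_rpow (by positivity) hκm he0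
  have hE : ((2 * (8 ^ D * m ^ r + 1) : ℕ) : ℝ) ≤ B * L ^ e := by
    push_cast
    calc 2 * (8 ^ D * (m : ℝ) ^ r + 1)
        ≤ 2 * (8 ^ D * (κ ^ e * L ^ e) + L ^ e) := by gcongr
      _ = B * L ^ e := by rw [hB]; ring
  set E := 2 * (8 ^ D * m ^ r + 1) with hEdef
  set S := m ^ D with hS
  have hS1 : 1 ≤ S := Nat.one_le_pow _ _ hm
  have hE1 : 1 ≤ E := by omega
  -- the base
  have hbase : Real.log ((S + 1 : ℕ) : ℝ) ≤ (c₀ / Real.log (Real.log 3) + 1) * Real.log L := by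
    have h1 : ((S + 1 : ℕ) : ℝ) ≤ 2 * κ * L := by
      have h2 : (S : ℝ) ≤ κ * L := by
        rw [hS]; push_cast
        exact hκm
      have h3 : (1 : ℝ) ≤ S := by exact_mod_cast hS1
      push_cast
      linarith
    have h4 : Real.log ((S + 1 : ℕ) : ℝ) ≤ c₀ + Real.log L := by
      rw [hc₀, ← Real.log_mul (by positivity) (by linarith)]
      exact Real.log_le_log (by positivity) h1
    have h5 : c₀ ≤ c₀ / Real.log (Real.log 3) * Real.log L := by
      rw [div_mul_eq_mul_div, le_div_iff₀ hl3]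
      exact mul_le_mul_of_nonneg_left hLL hc₀0
    linarith
  have hX : (S + 1) ^ E + 2 ≤ (S + 1) ^ (2 * E) := by
    have h1 : 2 ≤ (S + 1) ^ E := by
      calc 2 = 2 ^ 1 := by norm_num
        _ ≤ 2 ^ E := Nat.pow_le_pow_right (by norm_num) hE1
        _ ≤ (S + 1) ^ E := Nat.pow_le_pow_left (by omega) _
    have h2 : (S + 1) ^ (2 * E) = (S + 1) ^ E * (S + 1) ^ E := by rw [two_mul, pow_add]
    rw [h2]
    nlinarith
  have hlogS : 0 ≤ Real.log ((S + 1 : ℕ) : ℝ) :=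
    Real.log_nonneg (by push_cast; linarith [Nat.cast_nonneg (α := ℝ) S])
  calc (((S + 1) ^ E + 2 : ℕ) : ℝ) ≤ (((S + 1) ^ (2 * E) : ℕ) : ℝ) := by exact_mod_cast hX
    _ = Real.exp (((2 * E : ℕ) : ℝ) * Real.log ((S + 1 : ℕ) : ℝ)) := by
        rw [← Real.log_pow, Real.exp_log (by positivity)]
        push_cast; rfl
    _ ≤ Real.exp (2 * B * (c₀ / Real.log (Real.log 3) + 1) * L ^ e * Real.log L) := by
        apply Real.exp_le_exp.mpr
        calc ((2 * E : ℕ) : ℝ) * Real.log ((S + 1 : ℕ) : ℝ)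
            ≤ (2 * (B * L ^ e)) * ((c₀ / Real.log (Real.log 3) + 1) * Real.log L) := by
              apply mul_le_mul _ hbase hlogS (by positivity)
              push_cast at hE ⊢
              linarith
          _ = 2 * B * (c₀ / Real.log (Real.log 3) + 1) * L ^ e * Real.log L := by ring

/-- For every `D ≥ 1` there are point sets `P n` with `n` points (`n ≥ 3`), `k`-convex for all
`k ≥ 3 D`, such that for every `j` and a constant `C` all `j`-convex subsets of `P n` have at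
most `exp (C (log n) ^ (⌊(D + ⌊j/3⌋)/2⌋ / D) log log n)` points. -/
theorem sharpup_result (D : ℕ) (hD : 1 ≤ D) :
    ∃ P : ℕ → Set (ℝ × ℝ),
      (∀ n ≥ 3, (P n).ncard = n ∧ ∀ k ≥ 3 * D, KConvexSet k (P n)) ∧
      ∀ j : ℕ, ∃ C : ℝ, ∀ n ≥ 3, ∀ Q ⊆ P n, KConvexSet j Q →
        (Q.ncard : ℝ) ≤
          Real.exp (C * Real.log n ^ ((((D + j / 3) / 2 : ℕ) : ℝ) / D) *
            Real.log (Real.log n)) := by
  classical
  obtain ⟨d, rfl⟩ : ∃ d, D = d + 1 := ⟨D - 1, by omega⟩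
  have hex : ∀ n : ℕ, 3 ≤ n → ∃ P : Set (ℝ × ℝ), ∃ m : ℕ, 1 ≤ m ∧
      ((m : ℝ)) ^ (d + 1) ≤ 2 ^ (d + 1) / Real.log 2 * Real.log n ∧
      P.ncard = n ∧ KConvexSet (3 * (d + 1)) P ∧
      ∀ (q : ℕ) (Q : Set (ℝ × ℝ)), Q ⊆ P → KConvexSet (3 * q + 2) Q →
        Q.ncard ≤ (m ^ (d + 1) + 1) ^
          (2 * (8 ^ (d + 1) * m ^ ((d + 1 + q) / 2) + 1)) + 2 := by
    intro n hn
    obtain ⟨m, hm1, hm2, hm3⟩ := sharpup_exists_param (d + 1) hD hn
    obtain ⟨P, _, hP2, hP3, hP4⟩ := upper_core3 (d := d) hm1 hn hm2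
    exact ⟨P, m, hm1, hm3, hP2, hP3, hP4⟩
  choose! P m hm1 hm2 hP1 hP2 hP3 using hex
  refine ⟨P, fun n hn => ⟨hP1 n hn, fun k hk => sharpup_kconvex_mono hk (hP2 n hn)⟩, ?_⟩
  intro j
  obtain ⟨C, hC⟩ := sharpup_estimate (d + 1) ((d + 1 + j / 3) / 2) hD
  refine ⟨C, fun n hn Q hQ hconv => ?_⟩
  refine le_trans ?_ (hC n hn (m n) (hm1 n hn) (hm2 n hn))
  exact_mod_cast hP3 n hn (j / 3) Q hQ (sharpup_kconvex_mono (by omega) hconv)


lemma sharpup_exponent {K q : ℕ} (hq : 1 ≤ q) (hqK : q ≤ K) :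
    ∃ D : ℕ, 1 ≤ D ∧ D ≤ K ∧ ((((D + q) / 2 : ℕ) : ℝ) / D) = eexp K q := by
  by_cases h : K ≤ q
  · have hK : K = q := le_antisymm h hqK
    subst hK
    refine ⟨K, hq, le_rfl, ?_⟩
    have h1 : (K + K) / 2 = K := by omega
    rw [h1]
    unfold eexp
    rw [if_pos le_rfl]
    have : (0 : ℝ) < K := by exact_mod_cast hq
    field_simp
  · by_cases hpar : (K - q) % 2 = 1
    · refine ⟨K, by omega, le_rfl, ?_⟩
      unfold eexp
      rw [if_neg h, if_pos hpar]
      obtain ⟨t, ht⟩ : ∃ t, K + q = 2 * t + 1 := ⟨(K + q) / 2, by omega⟩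
      have h1 : (K + q) / 2 = t := by omega
      rw [h1]
      have hK0 : (0 : ℝ) < K := by
        have : 0 < K := by omega
        exact_mod_cast this
      have ht' : (K : ℝ) + q = 2 * t + 1 := by exact_mod_cast ht
      field_simp
      linarith
    · refine ⟨K - 1, by omega, by omega, ?_⟩
      unfold eexp
      rw [if_neg h, if_neg hpar]
      obtain ⟨t, ht⟩ : ∃ t, K + q = 2 * t + 2 := ⟨(K + q) / 2 - 1, by omega⟩
      have h1 : (K - 1 + q) / 2 = t := by omega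
      rw [h1]
      have hK0 : (0 : ℝ) < (K : ℝ) - 1 := by
        have : 1 < K := by omega
        have : (1 : ℝ) < K := by exact_mod_cast this
        linarith
      have ht' : (K : ℝ) + q = 2 * t + 2 := by exact_mod_cast ht
      have hcast : ((K - 1 : ℕ) : ℝ) = (K : ℝ) - 1 := by
        rw [Nat.cast_sub (by omega)]
        simp
      rw [hcast]
      field_simp
      linarith

theorem upper_main {k j : ℕ} (hj : 3 ≤ j) (hjk : j < k) :
    ∃ C : ℝ, ∃ n₀ : ℕ, ∀ n ≥ n₀, ∃ P : Set (ℝ × ℝ), P.ncard = n ∧ KConvexSet k P ∧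
      ∀ Q ⊆ P, KConvexSet j Q →
        (Q.ncard : ℝ) ≤
          Real.exp (C * Real.log n ^ (eexp (k / 3) (j / 3)) * Real.log (Real.log n)) := by
  obtain ⟨D, hD1, hDK, hDe⟩ := sharpup_exponent (K := k / 3) (q := j / 3) (by omega) (by omega)
  obtain ⟨P, hP1, hP2⟩ := sharpup_result D hD1
  obtain ⟨C, hC⟩ := hP2 j
  refine ⟨C, 3, fun n hn3 => ?_⟩
  refine ⟨P n, (hP1 n hn3).1, (hP1 n hn3).2 k (by omega), fun Q hQ hconv => ?_⟩
  refine (hC n hn3 Q hQ hconv).trans ?_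
  rw [hDe]

end Pool.Agent.H41.Ex
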