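import Mathlib
import Pool.Agent.H41.Ex.TwHom
import Pool.Agent.H41.Ex.LettersGeo

set_option autoImplicit false

/-!
Forcing: in a homogeneous tree with radices `≥ 5` some line through two leaves shows the whole
pattern `Fw`.

PROOF of `force_lists`, induction on `Λ`.  `Λ = []`: `z₀ = 0`, all lists empty (`tot [] = 1`).
`Λ = (M, X) :: Λ'` with `z', Ra', La', Rd', Ld'` for `Λ'`:
`z₀ = M * z' + 2`, `Ra = Ra'.map (M * ·) ++ [M * z']`, `La = La'.map (M * ·) ++ [M * z' + 1]`,
`Rd = (M * z' + 3) :: Rd'.map (M * ·)`, `Ld = (M * z' + 4) :: Ld'.map (M * ·)`.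
Indices in the block of `z₀` (quotient by `M` equal to `z'`) give the type `X`; for the
others the quotients are those of `Λ'`.  (`y' > z'` implies `M * y' ≥ M * z' + 5`.)
PROOF of `forcing`.  Take the lists of `force_lists`; let `v` be the path of length `z₀` with
`v[x] = true` iff `x ∈ Ra`, and `a = b` the path of length `n - z₀ - 1` with
`a[y] = true` iff `z₀ + 1 + y ∈ Rd`.  By `letters_lower` and `tw_hom`,
`altL (TWf (flev Λ) v a b false false) ≤ N`.  By `RD_eq`, `LD_eq` and the disjointness of `Ra`, `La`
(of `Rd`, `Ld`):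
* `RD (fun x => f x z₀ true) 0 v = Ra.map (f · z₀ true) = (tys Λ true).reverse` (the filter of
  `range` by membership in the strictly sorted list `Ra` is `Ra`);
* `LD (fun x => !f x z₀ false) 0 v` has `((La.map (f · z₀ false)).reverse).map not
  = (tys Λ false).map not` as a sublist;
* `RD (fun y => !f z₀ y s) (z₀ + 1) a` is `(Rd.map (f z₀ · s)).map not = (tys Λ s).map not`;
* `LD (fun y => f z₀ y s) (z₀ + 1) a` has `(Ld.map (f z₀ · s)).reverse = (tys Λ s).reverse` as a
  sublist.
So `Fw Λ [] []` is a sublist of `TWf ..`; use `altL_sublist`.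
-/

namespace Pool.Agent.H41.Ex

open Pool.Agent.H41.Kc

lemma forcing_sub {l₁ l₂ : List ℕ} (h₁ : l₁.Pairwise (· < ·)) (h₂ : l₂.Pairwise (· < ·)) (h : ∀ x ∈ l₁, x ∈ l₂) :
    l₁.Sublist l₂ := by
  have hn : l₁.Nodup := h₁.imp (fun h => ne_of_lt h)
  exact List.sublist_of_subperm_of_pairwise (hn.subperm h) h₁ h₂

lemma forcing_pos {L : List ℕ} (hL : L.Pairwise (· < ·)) (d : ℕ) (z : List Bool) (c : Bool)
    (h : ∀ y ∈ L, d ≤ y ∧ y < d + z.length ∧ z.getD (y - d) false = c) :
    (L.map (fun y => y - d)).Sublist ((List.range z.length).filter (fun i => z.getD i false == c)) := by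
  apply forcing_sub
  · rw [List.pairwise_map]
    refine List.Pairwise.imp_of_mem ?_ hL
    intro x y hx hy hxy
    have h1 := (h x hx).1
    omega
  · exact List.Pairwise.filter _ List.pairwise_lt_range
  · intro x hx
    rw [List.mem_map] at hx
    obtain ⟨y, hy, rfl⟩ := hx
    obtain ⟨h1, h2, h3⟩ := h y hy
    rw [List.mem_filter, List.mem_range]
    refine ⟨by omega, ?_⟩
    rw [h3]
    simp

lemma forcing_map {L : List ℕ} (d : ℕ) (g : ℕ → Bool) (h : ∀ y ∈ L, d ≤ y) :
    (L.map (fun y => y - d)).map (fun i => g (d + i)) = L.map g := by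
  rw [List.map_map]
  apply List.map_congr_left
  intro y hy
  have h1 := h y hy
  show g (d + (y - d)) = g y
  congr 1
  omega

lemma forcing_RD {L : List ℕ} (hL : L.Pairwise (· < ·)) (g : ℕ → Bool) (d : ℕ) (z : List Bool)
    (h : ∀ y ∈ L, d ≤ y ∧ y < d + z.length ∧ z.getD (y - d) false = true) :
    (L.map g).Sublist (RD g d z) := by
  rw [RD_eq, ← forcing_map d g (fun y hy => (h y hy).1)]
  exact (forcing_pos hL d z true h).map _

lemma forcing_LD {L : List ℕ} (hL : L.Pairwise (· < ·)) (g : ℕ → Bool) (d : ℕ) (z : List Bool)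
    (h : ∀ y ∈ L, d ≤ y ∧ y < d + z.length ∧ z.getD (y - d) false = false) :
    (L.map g).reverse.Sublist (LD g d z) := by
  rw [LD_eq, ← forcing_map d g (fun y hy => (h y hy).1)]
  exact ((forcing_pos hL d z false h).map _).reverse

theorem force_lists (Λ : Lev) (h5 : ∀ p ∈ Λ, 5 ≤ p.1) :
    ∃ (z : ℕ) (Ra La Rd Ld : List ℕ), z < tot Λ ∧
      Ra.Pairwise (· < ·) ∧ La.Pairwise (· < ·) ∧ Rd.Pairwise (· < ·) ∧ Ld.Pairwise (· < ·) ∧
      (∀ x ∈ Ra, x < z ∧ x ∉ La) ∧ (∀ x ∈ La, x < z) ∧
      (∀ y ∈ Rd, z < y ∧ y < tot Λ ∧ y ∉ Ld) ∧ (∀ y ∈ Ld, z < y ∧ y < tot Λ) ∧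
      Ra.map (fun x => flev Λ x z true) = (tys Λ true).reverse ∧
      La.map (fun x => flev Λ x z false) = (tys Λ false).reverse ∧
      ∀ s : Bool, Rd.map (fun y => flev Λ z y s) = tys Λ s ∧
        Ld.map (fun y => flev Λ z y s) = tys Λ s := by
  induction Λ with
  | nil =>
    refine ⟨0, [], [], [], [], ?_, ?_⟩
    · simp [tot]
    · simp [tys]
  | cons p Λ ih =>
    obtain ⟨M, X⟩ := p
    have hM : 5 ≤ M := h5 (M, X) (by simp)
    obtain ⟨z, Ra, La, Rd, Ld, hz, hRa, hLa, hRd, hLd, hRa', hLa', hRd', hLd', hRam, hLam, hm⟩ :=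
      ih (fun p hp => h5 p (List.mem_cons_of_mem _ hp))
    have hM0 : 0 < M := by omega
    have htot : tot ((M, X) :: Λ) = M * tot Λ := by simp [tot]
    have hmul : ∀ {x y : ℕ}, x < y → M * x + M ≤ M * y := by
      intro x y hxy
      calc M * x + M = M * (x + 1) := by ring
        _ ≤ M * y := Nat.mul_le_mul_left M hxy
    have hmulinj : ∀ {x y : ℕ}, M * x = M * y → x = y := fun h => Nat.eq_of_mul_eq_mul_left hM0 h
    have hpw : ∀ {L : List ℕ}, L.Pairwise (· < ·) → (L.map (fun x => M * x)).Pairwise (· < ·) := by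
      intro L hL
      rw [List.pairwise_map]
      refine hL.imp ?_
      intro x y hxy
      have := hmul hxy
      omega
    have hz1 := hmul hz
    have hdiv : ∀ r, r < 5 → (M * z + r) / M = z := by
      intro r hr
      rw [Nat.mul_add_div hM0, Nat.div_eq_of_lt (by omega), add_zero]
    have hdivm : ∀ x, M * x / M = x := fun x => Nat.mul_div_cancel_left x hM0
    have hdiv0 := hdivm z
    have hdiv1 := hdiv 1 (by omega)
    have hdiv2 := hdiv 2 (by omega)
    have hdiv3 := hdiv 3 (by omega)
    have hdiv4 := hdiv 4 (by omega)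
    refine ⟨M * z + 2, Ra.map (fun x => M * x) ++ [M * z], La.map (fun x => M * x) ++ [M * z + 1],
      (M * z + 3) :: Rd.map (fun x => M * x), (M * z + 4) :: Ld.map (fun x => M * x), ?_, ?_, ?_, ?_, ?_, ?_, ?_, ?_, ?_,
      ?_, ?_, ?_⟩
    · rw [htot]
      omega
    · rw [List.pairwise_append]
      refine ⟨hpw hRa, by simp, ?_⟩
      intro x hx y hy
      simp only [List.mem_map, List.mem_singleton] at hx hy
      obtain ⟨x', hx', rfl⟩ := hx
      have := hmul (hRa' x' hx').1
      omega
    · rw [List.pairwise_append]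
      refine ⟨hpw hLa, by simp, ?_⟩
      intro x hx y hy
      simp only [List.mem_map, List.mem_singleton] at hx hy
      obtain ⟨x', hx', rfl⟩ := hx
      have := hmul (hLa' x' hx')
      omega
    · rw [List.pairwise_cons]
      refine ⟨?_, hpw hRd⟩
      intro x hx
      simp only [List.mem_map] at hx
      obtain ⟨x', hx', rfl⟩ := hx
      have := hmul (hRd' x' hx').1
      omega
    · rw [List.pairwise_cons]
      refine ⟨?_, hpw hLd⟩
      intro x hx
      simp only [List.mem_map] at hx
      obtain ⟨x', hx', rfl⟩ := hx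
      have := hmul (hLd' x' hx').1
      omega
    · intro x hx
      simp only [List.mem_append, List.mem_map, List.mem_singleton] at hx
      rcases hx with ⟨x', hx', rfl⟩ | rfl
      · have h1 := hmul (hRa' x' hx').1
        refine ⟨by omega, ?_⟩
        simp only [List.mem_append, List.mem_map, List.mem_singleton]
        rintro (⟨y', hy', hxy⟩ | hxy)
        · have := hmulinj hxy
          subst this
          exact (hRa' _ hx').2 hy'
        · omega
      · refine ⟨by omega, ?_⟩
        simp only [List.mem_append, List.mem_map, List.mem_singleton]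
        rintro (⟨y', hy', hxy⟩ | hxy)
        · have := hmulinj hxy
          subst this
          exact absurd (hLa' _ hy') (lt_irrefl _)
        · omega
    · intro x hx
      simp only [List.mem_append, List.mem_map, List.mem_singleton] at hx
      rcases hx with ⟨x', hx', rfl⟩ | rfl
      · have h1 := hmul (hLa' x' hx')
        omega
      · omega
    · intro y hy
      simp only [List.mem_cons, List.mem_map] at hy
      rw [htot]
      rcases hy with rfl | ⟨y', hy', rfl⟩
      · refine ⟨by omega, by omega, ?_⟩
        simp only [List.mem_cons, List.mem_map]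
        rintro (hxy | ⟨x', hx', hxy⟩)
        · omega
        · have h1 := hmul (hLd' x' hx').1
          omega
      · obtain ⟨h1, h2, h3⟩ := hRd' y' hy'
        have h4 := hmul h1
        have h5 := hmul h2
        refine ⟨by omega, by omega, ?_⟩
        simp only [List.mem_cons, List.mem_map]
        rintro (hxy | ⟨x', hx', hxy⟩)
        · omega
        · have := hmulinj hxy
          subst this
          exact h3 hx'
    · intro y hy
      simp only [List.mem_cons, List.mem_map] at hy
      rw [htot]
      rcases hy with rfl | ⟨y', hy', rfl⟩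
      · exact ⟨by omega, by omega⟩
      · obtain ⟨h1, h2⟩ := hLd' y' hy'
        have h4 := hmul h1
        have h5 := hmul h2
        exact ⟨by omega, by omega⟩
    · have e1 : (Ra.map (fun x => M * x)).map (fun x => flev ((M, X) :: Λ) x (M * z + 2) true) =
          Ra.map (fun x => flev Λ x z true) := by
        rw [List.map_map]
        apply List.map_congr_left
        intro x hx
        have h1 := (hRa' x hx).1
        show flev ((M, X) :: Λ) (M * x) (M * z + 2) true = flev Λ x z true
        rw [flev, hdivm, hdiv2, if_neg (by omega)]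
      rw [List.map_append, e1, hRam]
      simp [tys, flev, hdiv0, hdiv2]
    · have e1 : (La.map (fun x => M * x)).map (fun x => flev ((M, X) :: Λ) x (M * z + 2) false) =
          La.map (fun x => flev Λ x z false) := by
        rw [List.map_map]
        apply List.map_congr_left
        intro x hx
        have h1 := hLa' x hx
        show flev ((M, X) :: Λ) (M * x) (M * z + 2) false = flev Λ x z false
        rw [flev, hdivm, hdiv2, if_neg (by omega)]
      rw [List.map_append, e1, hLam]
      simp [tys, flev, hdiv1, hdiv2]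
    · intro s
      obtain ⟨hm1, hm2⟩ := hm s
      constructor
      · have e1 : (Rd.map (fun x => M * x)).map (fun y => flev ((M, X) :: Λ) (M * z + 2) y s) =
            Rd.map (fun y => flev Λ z y s) := by
          rw [List.map_map]
          apply List.map_congr_left
          intro x hx
          have h1 := (hRd' x hx).1
          show flev ((M, X) :: Λ) (M * z + 2) (M * x) s = flev Λ z x s
          rw [flev, hdivm, hdiv2, if_neg (by omega)]
        rw [List.map_cons, e1, hm1]
        simp [tys, flev, hdiv3, hdiv2]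
      · have e1 : (Ld.map (fun x => M * x)).map (fun y => flev ((M, X) :: Λ) (M * z + 2) y s) =
            Ld.map (fun y => flev Λ z y s) := by
          rw [List.map_map]
          apply List.map_congr_left
          intro x hx
          have h1 := (hLd' x hx).1
          show flev ((M, X) :: Λ) (M * z + 2) (M * x) s = flev Λ z x s
          rw [flev, hdivm, hdiv2, if_neg (by omega)]
        rw [List.map_cons, e1, hm2]
        simp [tys, flev, hdiv4, hdiv2]

theorem forcing {n N : ℕ} {φ : List Bool → ℝ × ℝ} {lab : List Bool → ℝ} {P : Set (ℝ × ℝ)}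
    {Λ : Lev} (hG : GeoF n φ lab) (hH : HomF n lab (flev Λ)) (hn : n = tot Λ)
    (h5 : ∀ p ∈ Λ, 5 ≤ p.1) (hP : ∀ x : List Bool, x.length = n → φ x ∈ P) (hN : LineAlt N P) :
    altL (Fw Λ [] []) ≤ N := by
  obtain ⟨z, Ra, La, Rd, Ld, hz, hRa, hLa, hRd, hLd, hRa', hLa', hRd', hLd', hRam, hLam, hm⟩ := force_lists Λ h5
  rw [← hn] at hz hRd' hLd'
  obtain ⟨v, hv⟩ : ∃ v : List Bool, v = (List.range z).map (fun x => decide (x ∈ Ra)) := ⟨_, rfl⟩
  obtain ⟨a, ha⟩ : ∃ a : List Bool, a = (List.range (n - z - 1)).map (fun y => decide (z + 1 + y ∈ Rd)) := ⟨_, rfl⟩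
  have hvl : v.length = z := by rw [hv]; simp
  have hal : a.length = n - z - 1 := by rw [ha]; simp
  have hvg : ∀ x < z, v.getD x false = decide (x ∈ Ra) := by
    intro x hx
    rw [hv, List.getD_eq_getElem _ _ (by simpa using hx)]
    simp
  have hag : ∀ y < n - z - 1, a.getD y false = decide (z + 1 + y ∈ Rd) := by
    intro y hy
    rw [ha, List.getD_eq_getElem _ _ (by simpa using hy)]
    simp
  have hla : (v ++ false :: a).length = n := by
    rw [List.length_append, List.length_cons, hvl, hal]
    omega
  have hlb : (v ++ true :: a).length = n := by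
    rw [List.length_append, List.length_cons, hvl, hal]
    omega
  have h1 := letters_lower hG hP hN hla hlb
  rw [tw_hom hG hH hla hlb] at h1
  refine le_trans (altL_sublist ?_) h1
  have hR0 : ∀ g : ℕ → Bool, (Ra.map g).Sublist (RD g 0 v) := by
    intro g
    apply forcing_RD hRa
    intro x hx
    have h2 := (hRa' x hx).1
    refine ⟨Nat.zero_le _, by omega, ?_⟩
    rw [Nat.sub_zero, hvg x h2]
    simpa using hx
  have hL0 : ∀ g : ℕ → Bool, (La.map g).reverse.Sublist (LD g 0 v) := by
    intro g
    apply forcing_LD hLa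
    intro x hx
    have h2 := hLa' x hx
    refine ⟨Nat.zero_le _, by omega, ?_⟩
    rw [Nat.sub_zero, hvg x h2]
    simpa using fun h => (hRa' x h).2 hx
  have hR1 : ∀ g : ℕ → Bool, (Rd.map g).Sublist (RD g (z + 1) a) := by
    intro g
    apply forcing_RD hRd
    intro y hy
    obtain ⟨h2, h3, h4⟩ := hRd' y hy
    refine ⟨by omega, by omega, ?_⟩
    rw [hag _ (by omega), show z + 1 + (y - (z + 1)) = y by omega]
    simpa using hy
  have hL1 : ∀ g : ℕ → Bool, (Ld.map g).reverse.Sublist (LD g (z + 1) a) := by
    intro g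
    apply forcing_LD hLd
    intro y hy
    obtain ⟨h2, h3⟩ := hLd' y hy
    refine ⟨by omega, by omega, ?_⟩
    rw [hag _ (by omega), show z + 1 + (y - (z + 1)) = y by omega]
    simpa using fun h => (hRd' y h).2.2 hy
  have e1 : ((tys Λ true).reverse).Sublist (RD (fun x => flev Λ x z true) 0 v) := by
    rw [← hRam]
    exact hR0 _
  have e2 : ∀ s : Bool, ((tys Λ s).map (fun b => !b)).Sublist (RD (fun y => !flev Λ z y s) (z + 1) a) := by
    intro s
    have h2 := hR1 (fun y => !flev Λ z y s)
    have h3 : Rd.map (fun y => !flev Λ z y s) = (tys Λ s).map (fun b => !b) := by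
      rw [← (hm s).1, List.map_map]
      rfl
    rwa [h3] at h2
  have e3 : ∀ s : Bool, ((tys Λ s).reverse).Sublist (LD (fun y => flev Λ z y s) (z + 1) a) := by
    intro s
    have h2 := hL1 (fun y => flev Λ z y s)
    rwa [(hm s).2] at h2
  have e4 : ((tys Λ false).map (fun b => !b)).Sublist (LD (fun x => !flev Λ x z false) 0 v) := by
    have h2 := hL0 (fun x => !flev Λ x z false)
    have h3 : (La.map (fun x => !flev Λ x z false)).reverse = (tys Λ false).map (fun b => !b) := by
      have h4 : La.map (fun x => !flev Λ x z false) = (La.map (fun x => flev Λ x z false)).map (fun b => !b) := by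
        rw [List.map_map]
        rfl
      rw [h4, hLam, ← List.map_reverse, List.reverse_reverse]
    rwa [h3] at h2
  unfold Fw TWf
  rw [hvl]
  simp only [List.append_nil, List.append_assoc]
  refine e1.append ((e2 false).append ?_)
  refine List.Sublist.trans ?_ (List.sublist_append_right [false] _)
  refine (e3 false).append ((e2 true).append ?_)
  refine List.Sublist.trans ?_ (List.sublist_append_right [false] _)
  exact (e3 true).append e4

end Pool.Agent.H41.Ex
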