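import Mathlib
import Pool.Agent.H41.Ex.EmbApi

set_option autoImplicit false

/-!
Embedded trees inherit `GeoF` and `HomF`.
-/

namespace Pool.Agent.H41.Ex

theorem GeoF.emb {n h : ℕ} {φ : List Bool → ℝ × ℝ} {lab : List Bool → ℝ}
    {σ : List Bool → List Bool} (hG : GeoF n φ lab) (hσ : EmbIn n h σ)
    (hleaf : ∀ x : List Bool, x.length = h → (σ x).length = n) :
    GeoF h (fun x => φ (σ x)) (fun x => lab (σ x)) := by
  refine ⟨?_, ?_, ?_, ?_, ?_, ?_⟩
  · intro v a b ha hb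
    obtain ⟨a', ha'⟩ := hσ.1.cons v false a ha.le
    obtain ⟨b', hb'⟩ := hσ.1.cons v true b hb.le
    have h1 := hleaf _ ha
    have h2 := hleaf _ hb
    rw [ha'] at h1 ⊢
    rw [hb'] at h2 ⊢
    exact hG.sorted _ _ _ h1 h2
  · intro v s w hw
    obtain ⟨w', hw'⟩ := hσ.1.cons v s w hw.le
    have h1 := hσ.length_lt hw
    rw [hw'] at h1 ⊢
    exact hG.ne _ _ _ h1
  · intro v w a b c ha hb hc hl
    have hw : (v ++ false :: w).length ≤ h := by simp at ha ⊢; omega
    obtain ⟨w', hw'⟩ := hσ.1.cons v false w hw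
    obtain ⟨a', ha'⟩ := hσ.1.cons (v ++ false :: w) false a ha.le
    obtain ⟨b', hb'⟩ := hσ.1.cons (v ++ false :: w) true b hb.le
    obtain ⟨c', hc'⟩ := hσ.1.cons v true c hc.le
    have h1 := hleaf _ ha
    have h2 := hleaf _ hb
    have h3 := hleaf _ hc
    rw [ha', hw'] at h1 ⊢
    rw [hb', hw'] at h2 ⊢
    rw [hc'] at h3 ⊢
    rw [hw'] at hl
    exact hG.left_lt _ _ _ _ _ h1 h2 h3 hl
  · intro v w a b c ha hb hc hl
    have hw : (v ++ false :: w).length ≤ h := by simp at ha ⊢; omega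
    obtain ⟨w', hw'⟩ := hσ.1.cons v false w hw
    obtain ⟨a', ha'⟩ := hσ.1.cons (v ++ false :: w) false a ha.le
    obtain ⟨b', hb'⟩ := hσ.1.cons (v ++ false :: w) true b hb.le
    obtain ⟨c', hc'⟩ := hσ.1.cons v true c hc.le
    have h1 := hleaf _ ha
    have h2 := hleaf _ hb
    have h3 := hleaf _ hc
    rw [ha', hw'] at h1 ⊢
    rw [hb', hw'] at h2 ⊢
    rw [hc'] at h3 ⊢
    rw [hw'] at hl
    exact hG.left_gt _ _ _ _ _ h1 h2 h3 hl
  · intro v w a b c ha hb hc hl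
    have hw : (v ++ true :: w).length ≤ h := by simp at ha ⊢; omega
    obtain ⟨w', hw'⟩ := hσ.1.cons v true w hw
    obtain ⟨a', ha'⟩ := hσ.1.cons (v ++ true :: w) false a ha.le
    obtain ⟨b', hb'⟩ := hσ.1.cons (v ++ true :: w) true b hb.le
    obtain ⟨c', hc'⟩ := hσ.1.cons v false c hc.le
    have h1 := hleaf _ ha
    have h2 := hleaf _ hb
    have h3 := hleaf _ hc
    rw [ha', hw'] at h1 ⊢
    rw [hb', hw'] at h2 ⊢
    rw [hc'] at h3 ⊢
    rw [hw'] at hl
    exact hG.right_gt _ _ _ _ _ h1 h2 h3 hl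
  · intro v w a b c ha hb hc hl
    have hw : (v ++ true :: w).length ≤ h := by simp at ha ⊢; omega
    obtain ⟨w', hw'⟩ := hσ.1.cons v true w hw
    obtain ⟨a', ha'⟩ := hσ.1.cons (v ++ true :: w) false a ha.le
    obtain ⟨b', hb'⟩ := hσ.1.cons (v ++ true :: w) true b hb.le
    obtain ⟨c', hc'⟩ := hσ.1.cons v false c hc.le
    have h1 := hleaf _ ha
    have h2 := hleaf _ hb
    have h3 := hleaf _ hc
    rw [ha', hw'] at h1 ⊢
    rw [hb', hw'] at h2 ⊢
    rw [hc'] at h3 ⊢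
    rw [hw'] at hl
    exact hG.right_lt _ _ _ _ _ h1 h2 h3 hl

theorem HomF.emb {n h : ℕ} {lab : List Bool → ℝ} {f : ℕ → ℕ → Bool → Bool}
    {σ : List Bool → List Bool} {g : ℕ → ℕ} (hH : HomF n lab f) (hσ : EmbIn n h σ)
    (hidx : ∀ x : List Bool, x.length < h → (σ x).length = g x.length) :
    HomF h (fun x => lab (σ x)) (fun x y s => f (g x) (g y) s) := by
  intro v s w hw
  obtain ⟨w', hw'⟩ := hσ.1.cons v s w hw.le
  have h1 := hσ.length_lt hw
  have h2 := hidx _ hw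
  have h3 : v.length < h := by simp at hw; omega
  have h4 := hidx _ h3
  have key := hH (σ v) s w' (by rw [← hw']; exact h1)
  rw [← hw', h2, h4] at key
  exact key

/-- transfer of a relation on `x < y < n` -/
theorem HomF.congr {n : ℕ} {lab : List Bool → ℝ} {f g : ℕ → ℕ → Bool → Bool} (hH : HomF n lab f)
    (hfg : ∀ (x y : ℕ) (s : Bool), x < y → y < n → f x y s = g x y s) : HomF n lab g := by
  intro v s w hw
  rw [hH v s w hw]
  exact hfg _ _ _ (by simp) hw

end Pool.Agent.H41.Ex
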