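import Mathlib
import Pool.Agent.H41.Ex.EmbApi

set_option autoImplicit false

/-!
Ramsey theorem for node colourings of complete binary trees.

PROOF.  Induction on `n` (for all `χ`, `a`).  If some `a i = 0`, take this `i` and `σ = fun _ => []`
(`Emb 0` is vacuous, length `0 ≤ n`).  Otherwise all `a i ≥ 1`, so `n ≥ 1` (`ι` is nonempty); write
`n = n' + 1`, let `c = χ []` and `a' = Function.update a c (a c - 1)`; then `∑ a' ≤ n'`.
Apply the induction hypothesis to the colourings `x ↦ χ (s :: x)`, `s = false, true`.
If for some `s` the colour `i` obtained is `≠ c`, then `a' i = a i` and `fun x => s :: σ x` works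
(`Emb.append` with `v = [s]`).  Otherwise both colours are `c`, and `join [] σ₀ σ₁`
(`embIn_join`) is monochromatic of height `a' c + 1 = a c`.
-/

namespace Pool.Agent.H41.Ex

theorem ramsey_zero {ι : Type*} (n : ℕ) (a : ι → ℕ) (χ : List Bool → ι) (i : ι) (h0 : a i = 0) :
    ∃ (i : ι) (σ : List Bool → List Bool), EmbIn n (a i) σ ∧
      ∀ x : List Bool, x.length < a i → χ (σ x) = i := by
  refine ⟨i, fun _ => [], ⟨?_, ?_⟩, ?_⟩
  · intro x hx s
    omega
  · intro x _
    simp
  · intro x hx
    omega

theorem ramsey_nodes {ι : Type*} [Fintype ι] [DecidableEq ι] [Nonempty ι] (n : ℕ) (a : ι → ℕ)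
    (ha : ∑ i, a i ≤ n) (χ : List Bool → ι) :
    ∃ (i : ι) (σ : List Bool → List Bool), EmbIn n (a i) σ ∧
      ∀ x : List Bool, x.length < a i → χ (σ x) = i := by
  induction n generalizing a χ with
  | zero =>
    obtain ⟨i⟩ := ‹Nonempty ι›
    have h0 : a i = 0 := by
      have := Finset.single_le_sum (f := a) (fun j _ => Nat.zero_le _) (Finset.mem_univ i)
      omega
    exact ramsey_zero 0 a χ i h0
  | succ n ih =>
    by_cases h0 : ∃ i, a i = 0
    · obtain ⟨i, h0⟩ := h0
      exact ramsey_zero (n + 1) a χ i h0
    · push Not at h0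
      obtain ⟨c, hc⟩ : ∃ c, χ [] = c := ⟨_, rfl⟩
      have hac : 1 ≤ a c := Nat.one_le_iff_ne_zero.2 (h0 c)
      have hsum : ∑ i, Function.update a c (a c - 1) i ≤ n := by
        have h1 := Finset.sum_update_of_mem (Finset.mem_univ c) a (a c - 1)
        have h2 := Finset.sum_update_of_mem (Finset.mem_univ c) a (a c)
        rw [Function.update_eq_self] at h2
        omega
      have key : ∀ s : Bool, (∃ (i : ι) (σ : List Bool → List Bool), EmbIn (n + 1) (a i) σ ∧
          ∀ x : List Bool, x.length < a i → χ (σ x) = i) ∨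
          ∃ σ : List Bool → List Bool, EmbIn n (a c - 1) σ ∧
            ∀ x : List Bool, x.length < a c - 1 → χ (s :: σ x) = c := by
        intro s
        obtain ⟨i, σ, h1, h2⟩ := ih (Function.update a c (a c - 1)) hsum (fun x => χ (s :: x))
        by_cases hic : i = c
        · subst hic
          rw [Function.update_self] at h1 h2
          exact Or.inr ⟨σ, h1, h2⟩
        · rw [Function.update_of_ne hic] at h1 h2
          refine Or.inl ⟨i, fun x => [s] ++ σ x, ⟨h1.1.append [s], ?_⟩, ?_⟩
          · intro x hx
            have := h1.2 x hx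
            simp
            omega
          · intro x hx
            exact h2 x hx
      rcases key false with h1 | ⟨σ₀, h1, h1'⟩
      · exact h1
      rcases key true with h2 | ⟨σ₁, h2, h2'⟩
      · exact h2
      refine ⟨c, join [] σ₀ σ₁, ?_, ?_⟩
      · have h3 := embIn_join h1 h2
        rwa [Nat.sub_add_cancel hac] at h3
      · intro x hx
        rcases x with _ | ⟨s, x⟩
        · simpa using hc
        · have hx' : x.length < a c - 1 := by
            simp at hx
            omega
          cases s
          · simpa using h1' x hx'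
          · simpa using h2' x hx'

/-- equal heights -/
theorem ramsey_nodes' {ι : Type*} [Fintype ι] [DecidableEq ι] [Nonempty ι] (n m : ℕ)
    (hm : Fintype.card ι * m ≤ n) (χ : List Bool → ι) :
    ∃ (i : ι) (σ : List Bool → List Bool), EmbIn n m σ ∧
      ∀ x : List Bool, x.length < m → χ (σ x) = i := by
  obtain ⟨i, σ, h1, h2⟩ := ramsey_nodes n (fun _ : ι => m) (by simpa using hm) χ
  exact ⟨i, σ, h1, h2⟩

end Pool.Agent.H41.Ex
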