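import Mathlib
import Pool.Agent.H41.Ex.EmbApi
import Pool.Agent.H41.Ex.Ramsey
import Pool.Agent.H41.Ex.BadScales
import Pool.Agent.H41.Ex.Code

set_option autoImplicit false

/-!
The profile lemma: after passing to a large embedded tree, the order of the labels of two
comparable nodes depends only on the side and on a level, and there are few levels.

PROOF.  For a node `v` (`v.length < n`), a kind `s` and an ancestor depth `d < v.length` with
`v.getD d false = s` the *distance* is `v.length - d ∈ [1, n)`, its *scale* is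
`Nat.log Λ (v.length - d) < A` (as `v.length - d < n ≤ Λ ^ A`) and the *sign* is
`decide (lab (v.take d) < lab v)`.
Let `w v s` be the list, in the order of increasing depth `d`, of the pairs
`(scale, sign)` of the ancestors of kind `s`; the scales decrease weakly and, by `SignC`,
`altL ≤ N`.  `code_list` gives `fill` and for every node `v` and every `s` a code
`c v s : Bool × (Fin N → Fin A)` with `w v s ⊆ fill (c v s)`.
Colour the node `v` by `c v : Bool → Bool × (Fin N → Fin A)`: there are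
`(2 * A ^ N) ^ 2 = 4 * A ^ (2 * N)` colours.
By `ramsey_nodes'` there is `τ₁` with `EmbIn n m₁ τ₁`, `m₁ = m * (2 * Λ) ^ (2 * N)`, whose nodes
all have the same colour `c₀` (`4 * A ^ (2 * N) * m₁ ≤ n`).
`bad_scales` for the two lists `fill (c₀ s)` gives `bad` and `X`.
For every node `v = τ₁ x`, `x.length < m₁`, and every ancestor depth `d` of kind `s` whose scale
`a` is not in `bad`, the sign is `X (bad.filter (· < a)).card s`, because the pair
`(scale, sign)` is in `w v s ⊆ fill (c₀ s)`.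
Second colouring: colour `x` (`x.length < m₁`) by `b ↦ (τ₁ x).length / Λ ^ b % (2 * Λ)`, `b ∈ bad`
(at most `(2 * Λ) ^ (2 * N)` colours; use e.g. the functions `bad → Fin (2 * Λ)`; the number is
`(2 * Λ) ^ bad.card ≤ (2 * Λ) ^ (2 * N)`).  `ramsey_nodes'` gives `τ₂`, `EmbIn m₁ m τ₂`.
Put `σ = τ₁ ∘ τ₂`, `B = bad.card` and
`lvd d e = (bad.filter (fun b => d / Λ ^ b ≠ e / Λ ^ b)).card`.
* `lvd` is an ultrametric on `d ≤ e ≤ f`: quotients are monotone, so the filter set for `(d, f)` is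
  the union of the filter sets for `(d, e)` and `(e, f)`; every filter set is downward closed in
  `bad` (if `b' ≤ b` and the quotients by `Λ ^ b'` agree, then so do those by `Λ ^ b`), so of the
  two sets one contains the other.
* Let `v`, `v ++ s :: w` be nodes of the small tree, `d = (σ v).length`,
  `e = (σ (v ++ s :: w)).length`; by `Emb.cons`, `σ (v ++ s :: w) = σ v ++ s :: w'`, so
  `d` is an ancestor depth of kind `s` of `σ (v ++ s :: w)` and `(σ (v ++ s :: w)).take d = σ v`.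
  Let `a = Nat.log Λ (e - d)`.  For `b ∈ bad` the quotients `d / Λ ^ b` and `e / Λ ^ b` are
  congruent mod `2 * Λ`.  If `b < a`: `e - d ≥ Λ ^ a ≥ Λ ^ b`, so the quotients differ.  If
  `b = a`: `Λ ^ b ≤ e - d < Λ ^ (b + 1)`, so the quotients differ by at least `1` and at most
  `Λ`, contradiction to the congruence.  Hence `a ∉ bad`.  If `b > a`: `e - d < Λ ^ b`,
  the quotients differ by at most `1`, so they are equal by the congruence (`2 * Λ ≥ 4`).
  Hence `lvd d e = (bad.filter (· < a)).card` and the sign is `X (lvd d e) s`.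
-/

namespace Pool.Agent.H41.Ex

/-! ### quotients -/

private lemma prof_mod {M x y : ℕ} (h : x % M = y % M) (hxy : x < y) : M ≤ y - x := by
  have h1 : M ∣ y - x := (Nat.modEq_iff_dvd' hxy.le).1 h
  exact Nat.le_of_dvd (by omega) h1

private lemma prof_lt {Λ b d e : ℕ} (hΛ : 0 < Λ) (h : Λ ^ b ≤ e - d) (hde : d < e) :
    d / Λ ^ b < e / Λ ^ b := by
  have hp : 0 < Λ ^ b := Nat.pow_pos hΛ
  have h1 : (d + Λ ^ b) / Λ ^ b ≤ e / Λ ^ b := Nat.div_le_div_right (by omega)
  rw [Nat.add_div_right _ hp] at h1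
  omega

private lemma prof_ne {Λ b d e : ℕ} (hΛ : 2 ≤ Λ) (hde : d < e)
    (hmod : d / Λ ^ b % (2 * Λ) = e / Λ ^ b % (2 * Λ)) : b ≠ Nat.log Λ (e - d) := by
  rintro rfl
  have hp : 0 < Λ ^ Nat.log Λ (e - d) := Nat.pow_pos (by omega)
  have h1 : Λ ^ Nat.log Λ (e - d) ≤ e - d := Nat.pow_log_le_self Λ (by omega)
  have h2 : e - d < Λ ^ (Nat.log Λ (e - d) + 1) := Nat.lt_pow_succ_log_self (by omega) _
  have h3 := prof_lt (by omega) h1 hde
  have h4 := prof_mod hmod h3
  have h5 : e / Λ ^ Nat.log Λ (e - d) ≤ (d + Λ ^ Nat.log Λ (e - d) * Λ) / Λ ^ Nat.log Λ (e - d) := by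
    apply Nat.div_le_div_right
    rw [pow_succ] at h2
    omega
  rw [Nat.add_mul_div_left _ _ hp] at h5
  omega

private lemma prof_iff {Λ b d e : ℕ} (hΛ : 2 ≤ Λ) (hde : d < e)
    (hmod : d / Λ ^ b % (2 * Λ) = e / Λ ^ b % (2 * Λ)) :
    d / Λ ^ b ≠ e / Λ ^ b ↔ b < Nat.log Λ (e - d) := by
  have hne := prof_ne hΛ hde hmod
  have hp : 0 < Λ ^ b := Nat.pow_pos (by omega)
  constructor
  · intro h
    by_contra hlt
    have hgt : Nat.log Λ (e - d) + 1 ≤ b := by omega
    have h2 : e - d < Λ ^ (Nat.log Λ (e - d) + 1) := Nat.lt_pow_succ_log_self (by omega) _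
    have h3 : Λ ^ (Nat.log Λ (e - d) + 1) ≤ Λ ^ b := Nat.pow_le_pow_right (by omega) hgt
    have h4 : e / Λ ^ b ≤ (d + Λ ^ b) / Λ ^ b := Nat.div_le_div_right (by omega)
    rw [Nat.add_div_right _ hp] at h4
    have h5 : d / Λ ^ b ≤ e / Λ ^ b := Nat.div_le_div_right hde.le
    have h6 : d / Λ ^ b < e / Λ ^ b := lt_of_le_of_ne h5 h
    have h7 := prof_mod hmod h6
    omega
  · intro h
    have h1 : Λ ^ Nat.log Λ (e - d) ≤ e - d := Nat.pow_log_le_self Λ (by omega)
    have h2 : Λ ^ b ≤ Λ ^ Nat.log Λ (e - d) := Nat.pow_le_pow_right (by omega) h.le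
    exact (prof_lt (by omega) (h2.trans h1) hde).ne

private lemma prof_down {Λ b b' d e : ℕ} (hb : b' ≤ b) (h : d / Λ ^ b' = e / Λ ^ b') :
    d / Λ ^ b = e / Λ ^ b := by
  obtain ⟨c, rfl⟩ := Nat.exists_eq_add_of_le hb
  rw [pow_add, ← Nat.div_div_eq_div_mul, ← Nat.div_div_eq_div_mul, h]

private lemma prof_ultra (Λ : ℕ) (bad : Finset ℕ) {d e f : ℕ} (h1 : d ≤ e) (h2 : e ≤ f) :
    (bad.filter (fun b => d / Λ ^ b ≠ f / Λ ^ b)).card =
      max (bad.filter (fun b => d / Λ ^ b ≠ e / Λ ^ b)).card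
        (bad.filter (fun b => e / Λ ^ b ≠ f / Λ ^ b)).card := by
  have hunion : bad.filter (fun b => d / Λ ^ b ≠ f / Λ ^ b) =
      bad.filter (fun b => d / Λ ^ b ≠ e / Λ ^ b) ∪ bad.filter (fun b => e / Λ ^ b ≠ f / Λ ^ b) := by
    ext b
    rw [Finset.mem_union, Finset.mem_filter, Finset.mem_filter, Finset.mem_filter]
    have h3 : d / Λ ^ b ≤ e / Λ ^ b := Nat.div_le_div_right h1
    have h4 : e / Λ ^ b ≤ f / Λ ^ b := Nat.div_le_div_right h2
    constructor
    · rintro ⟨hb, h5⟩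
      by_cases h6 : d / Λ ^ b = e / Λ ^ b
      · exact Or.inr ⟨hb, by omega⟩
      · exact Or.inl ⟨hb, h6⟩
    · rintro (⟨hb, h5⟩ | ⟨hb, h5⟩)
      · exact ⟨hb, by omega⟩
      · exact ⟨hb, by omega⟩
  rw [hunion]
  by_cases hsub : bad.filter (fun b => d / Λ ^ b ≠ e / Λ ^ b) ⊆
      bad.filter (fun b => e / Λ ^ b ≠ f / Λ ^ b)
  · rw [Finset.union_eq_right.2 hsub, max_eq_right (Finset.card_le_card hsub)]
  · have hsub2 : bad.filter (fun b => e / Λ ^ b ≠ f / Λ ^ b) ⊆
        bad.filter (fun b => d / Λ ^ b ≠ e / Λ ^ b) := by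
      rw [Finset.not_subset] at hsub
      obtain ⟨b, hb1, hb2⟩ := hsub
      rw [Finset.mem_filter] at hb1
      intro b' hb'
      rw [Finset.mem_filter] at hb' ⊢
      refine ⟨hb'.1, ?_⟩
      have h3 : e / Λ ^ b = f / Λ ^ b := by
        by_contra h4
        exact hb2 (Finset.mem_filter.2 ⟨hb1.1, h4⟩)
      have h5 : b' < b := by
        by_contra h6
        exact hb'.2 (prof_down (not_lt.1 h6) h3)
      intro h6
      exact hb1.2 (prof_down h5.le h6)
    rw [Finset.union_eq_left.2 hsub2, max_eq_left (Finset.card_le_card hsub2)]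

/-! ### the two colourings -/

private lemma prof_card (A N : ℕ) :
    Fintype.card (Bool → Bool × (Fin N → Fin A)) = 4 * A ^ (2 * N) := by
  rw [Fintype.card_fun, Fintype.card_prod, Fintype.card_fun, Fintype.card_bool, Fintype.card_fin,
    Fintype.card_fin, mul_pow, ← pow_mul, mul_comm N 2]
  norm_num

/-- the pairs (scale, sign) of the ancestors of kind `s` -/
private noncomputable def profW (Λ : ℕ) (lab : List Bool → ℝ) (v : List Bool) (s : Bool) :
    List (ℕ × Bool) :=
  ((List.range v.length).filter (fun d => v.getD d false == s)).map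
    (fun d => (Nat.log Λ (v.length - d), decide (lab (v.take d) < lab v)))

/-- first step: the sign is a function of the scale, except at few scales -/
private lemma prof_one {n m₁ N Λ A : ℕ} (hΛ : 2 ≤ Λ) (hA : n ≤ Λ ^ A) (hA1 : 1 ≤ A)
    (hm : 4 * A ^ (2 * N) * m₁ ≤ n) (lab : List Bool → ℝ) (hN : SignC n N lab) :
    ∃ (bad : Finset ℕ) (X : ℕ → Bool → Bool) (τ : List Bool → List Bool), bad.card ≤ 2 * N ∧
      EmbIn n m₁ τ ∧ ∀ x : List Bool, x.length < m₁ → ∀ d < (τ x).length,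
        Nat.log Λ ((τ x).length - d) ∉ bad →
        decide (lab ((τ x).take d) < lab (τ x)) =
          X (bad.filter (· < Nat.log Λ ((τ x).length - d))).card ((τ x).getD d false) := by
  classical
  obtain ⟨fill, f1, f2, f3, f4⟩ := code_list A N hA1
  have hcode : ∀ (v : List Bool) (s : Bool), ∃ c : Bool × (Fin N → Fin A), v.length < n →
      ∀ p ∈ profW Λ lab v s, p ∈ fill c := by
    intro v s
    by_cases hv : v.length < n
    · obtain ⟨c, hc⟩ := f4 (profW Λ lab v s) (by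
        unfold profW
        rw [List.pairwise_map]
        refine List.Pairwise.imp ?_ (List.pairwise_lt_range.filter _)
        intro d d' hdd
        exact Nat.log_mono_right (by omega)) (by
        intro p hp
        unfold profW at hp
        rw [List.mem_map] at hp
        obtain ⟨d, hd, rfl⟩ := hp
        rw [List.mem_filter, List.mem_range] at hd
        exact Nat.log_lt_of_lt_pow (by omega) (by omega)) (by
        unfold profW
        rw [List.map_map]
        exact hN v hv s)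
      exact ⟨c, fun _ => hc⟩
    · exact ⟨(true, fun _ => ⟨0, by omega⟩), fun h => absurd h hv⟩
  choose col hcol using hcode
  have hne : Nonempty (Bool → Bool × (Fin N → Fin A)) := ⟨fun _ => (true, fun _ => ⟨0, by omega⟩)⟩
  obtain ⟨i, τ, hτ, hi⟩ := ramsey_nodes' n m₁ (by rw [prof_card]; exact hm) col
  obtain ⟨bad, X, hb1, hb2, hb3⟩ := bad_scales A N (fun s => fill (i s))
    (fun s => f1 _) (fun s => f2 _) (fun s => f3 _)
  refine ⟨bad, X, τ, hb1, hτ, ?_⟩
  intro x hx d hd hbad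
  have hxn : (τ x).length < n := hτ.length_lt hx
  have h1 := hcol (τ x) ((τ x).getD d false) hxn
    (Nat.log Λ ((τ x).length - d), decide (lab ((τ x).take d) < lab (τ x))) (by
      unfold profW
      rw [List.mem_map]
      refine ⟨d, ?_, rfl⟩
      rw [List.mem_filter, List.mem_range]
      exact ⟨hd, by simp⟩)
  rw [hi x hx] at h1
  exact hb3 _ _ h1 hbad

theorem profile {n m N Λ A : ℕ} (hΛ : 2 ≤ Λ) (hA : n ≤ Λ ^ A) (hA1 : 1 ≤ A) (hm1 : 1 ≤ m)
    (hm : 4 * A ^ (2 * N) * (m * (2 * Λ) ^ (2 * N)) ≤ n) (lab : List Bool → ℝ)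
    (hN : SignC n N lab) :
    ∃ (B : ℕ) (X : ℕ → Bool → Bool) (lvd : ℕ → ℕ → ℕ) (σ : List Bool → List Bool),
      B ≤ 2 * N ∧ (∀ d e, lvd d e ≤ B) ∧
      (∀ d e f, d ≤ e → e ≤ f → lvd d f = max (lvd d e) (lvd e f)) ∧ EmbIn n m σ ∧
      ∀ (v : List Bool) (s : Bool) (w : List Bool), (v ++ s :: w).length < m →
        decide (lab (σ v) < lab (σ (v ++ s :: w))) =
          X (lvd (σ v).length (σ (v ++ s :: w)).length) s := by
  classical
  have hpos : 0 < (2 * Λ) ^ (2 * N) := Nat.pow_pos (by omega)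
  obtain ⟨bad, X, τ₁, hbad, hτ₁, hsign⟩ := prof_one (m₁ := m * (2 * Λ) ^ (2 * N)) hΛ hA
    hA1 hm lab hN
  have hne : Nonempty (bad → Fin (2 * Λ)) := ⟨fun _ => ⟨0, by omega⟩⟩
  obtain ⟨i, τ₂, hτ₂, hi⟩ := ramsey_nodes' (ι := bad → Fin (2 * Λ)) (m * (2 * Λ) ^ (2 * N)) m
    (by
      rw [Fintype.card_fun, Fintype.card_fin, Fintype.card_coe, mul_comm]
      exact Nat.mul_le_mul_left _ (Nat.pow_le_pow_right (by omega) hbad))
    (fun x b => ⟨(τ₁ x).length / Λ ^ (b : ℕ) % (2 * Λ), Nat.mod_lt _ (by omega)⟩)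
  refine ⟨bad.card, X, fun d e => (bad.filter (fun b => d / Λ ^ b ≠ e / Λ ^ b)).card,
    fun x => τ₁ (τ₂ x), hbad, fun d e => Finset.card_filter_le _ _,
    fun d e f h1 h2 => prof_ultra Λ bad h1 h2, hτ₁.comp hτ₂, ?_⟩
  intro v s w hvw
  have hσ : EmbIn n m (fun x => τ₁ (τ₂ x)) := hτ₁.comp hτ₂
  have hv : v.length < m := by
    rw [List.length_append] at hvw
    omega
  obtain ⟨w', hw'⟩ := hσ.1.cons v s w hvw.le
  have hde : (τ₁ (τ₂ v)).length < (τ₁ (τ₂ (v ++ s :: w))).length := by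
    rw [hw', List.length_append, List.length_cons]
    omega
  have hmod : ∀ b ∈ bad, (τ₁ (τ₂ v)).length / Λ ^ b % (2 * Λ) =
      (τ₁ (τ₂ (v ++ s :: w))).length / Λ ^ b % (2 * Λ) := by
    intro b hb
    have h1 := hi v hv
    rw [← hi (v ++ s :: w) hvw] at h1
    have h2 := congrFun h1 ⟨b, hb⟩
    exact congrArg Fin.val h2
  have hnb : Nat.log Λ ((τ₁ (τ₂ (v ++ s :: w))).length - (τ₁ (τ₂ v)).length) ∉ bad := by
    intro hb
    exact prof_ne hΛ hde (hmod _ hb) rfl
  have hlen2 : (τ₂ (v ++ s :: w)).length < m * (2 * Λ) ^ (2 * N) := hτ₂.length_lt hvw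
  have key := hsign (τ₂ (v ++ s :: w)) hlen2 _ hde hnb
  have htake : (τ₁ (τ₂ (v ++ s :: w))).take (τ₁ (τ₂ v)).length = τ₁ (τ₂ v) := by
    rw [hw', List.take_left']
    rfl
  have hget : (τ₁ (τ₂ (v ++ s :: w))).getD (τ₁ (τ₂ v)).length false = s := by
    rw [hw', List.getD_append_right _ _ _ _ le_rfl, Nat.sub_self]
    rfl
  rw [htake, hget] at key
  rw [key]
  have hfil : bad.filter (· < Nat.log Λ ((τ₁ (τ₂ (v ++ s :: w))).length - (τ₁ (τ₂ v)).length)) =
      bad.filter (fun b => (τ₁ (τ₂ v)).length / Λ ^ b ≠ (τ₁ (τ₂ (v ++ s :: w))).length / Λ ^ b) := by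
    apply Finset.filter_congr
    intro b hb
    exact (prof_iff hΛ hde (hmod b hb)).symm
  rw [hfil]

end Pool.Agent.H41.Ex
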