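import Mathlib
import Pool.Agent.H41.Ex.LettersGeo

set_option autoImplicit false

/-!
The labels of the ancestors of one kind change side rarely.

PROOF.  Let `v.length < n`, `k = n - v.length - 1`, `a = b = List.replicate k false`.  By
`letters_lower`, `altL (TW t v a b false false) ≤ N` with `t u = decide (lab u < lab v)`.
`RK t v` and `LK t v` are sublists of `TW ..`, so `altL (RK t v) ≤ N`, `altL (LK t v) ≤ N`
(`altL_sublist`).  By induction on `v`:
`RK t v = ((List.range v.length).filter (fun d => v.getD d false == true)).map (fun d => t (v.take d))`
and `LK t v = (((List.range v.length).filter (fun d => v.getD d false == false)).map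
  (fun d => !t (v.take d))).reverse`
(use `List.range_succ_eq_map`, `List.filter_map`).  Conclude with `altL_reverse` (in `Kc.Upper3`)
and `altL_not`.
-/

namespace Pool.Agent.H41.Ex

open Pool.Agent.H41.Kc

private lemma signchanges_reverse (l : List Bool) : altL l.reverse = altL l := by
  induction l with
  | nil => rfl
  | cons a l ih =>
    rw [List.reverse_cons]
    cases l with
    | nil => rfl
    | cons b l =>
      rw [List.reverse_cons] at ih ⊢
      have h1 : altL (l.reverse ++ [b] ++ [a]) = altL (l.reverse ++ [b]) + (if a = b then 0 else 1) := by
        cases h : l.reverse with
        | nil =>
          simp only [List.nil_append, List.singleton_append, altL_cons, alt_cons, alt_nil]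
          cases a <;> cases b <;> simp
        | cons c s =>
          simp only [List.cons_append, altL_cons]
          rw [alt_append]
          have h2 : (s ++ [b]).getLastD c = b := List.getLastD_concat
          rw [h2, alt_cons, alt_nil]
          cases a <;> cases b <;> simp
      rw [h1, ih, altL_cons, altL_cons, alt_cons]
      split_ifs <;> omega

lemma RK_eq (v : List Bool) (t : List Bool → Bool) :
    RK t v = ((List.range v.length).filter (fun d => v.getD d false == true)).map
      (fun d => t (v.take d)) := by
  induction v generalizing t with
  | nil => simp [RK]
  | cons s z ih =>
    rw [List.length_cons, List.range_succ_eq_map, List.filter_cons, List.filter_map]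
    have h1 : ((List.range z.length).filter ((fun d => (s :: z).getD d false == true) ∘ Nat.succ)) =
        (List.range z.length).filter (fun d => z.getD d false == true) := by
      apply List.filter_congr
      intro d _
      simp
    rw [h1]
    cases s
    · simp [RK, ih, Function.comp_def]
    · simp [RK, ih, Function.comp_def]

lemma LK_eq (v : List Bool) (t : List Bool → Bool) :
    LK t v = (((List.range v.length).filter (fun d => v.getD d false == false)).map
      (fun d => !t (v.take d))).reverse := by
  induction v generalizing t with
  | nil => simp [LK]
  | cons s z ih =>
    rw [List.length_cons, List.range_succ_eq_map, List.filter_cons, List.filter_map]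
    have h1 : ((List.range z.length).filter ((fun d => (s :: z).getD d false == false) ∘ Nat.succ)) =
        (List.range z.length).filter (fun d => z.getD d false == false) := by
      apply List.filter_congr
      intro d _
      simp
    rw [h1]
    cases s
    · simp [LK, ih, Function.comp_def]
    · simp [LK, ih, Function.comp_def]

theorem sign_changes {n N : ℕ} {φ : List Bool → ℝ × ℝ} {lab : List Bool → ℝ} {P : Set (ℝ × ℝ)}
    (hG : GeoF n φ lab) (hP : ∀ x : List Bool, x.length = n → φ x ∈ P) (hN : LineAlt N P) :
    SignC n N lab := by
  intro v hv s
  have ha : (v ++ false :: List.replicate (n - v.length - 1) false).length = n := by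
    simp only [List.length_append, List.length_cons, List.length_replicate]
    omega
  have hb : (v ++ true :: List.replicate (n - v.length - 1) false).length = n := by
    simp only [List.length_append, List.length_cons, List.length_replicate]
    omega
  have h1 := letters_lower hG hP hN ha hb
  cases s
  · have h2 : altL (LK (fun u => decide (lab u < lab v)) v) ≤ N := by
      refine le_trans (altL_sublist ?_) h1
      exact List.sublist_append_right _ _
    rw [LK_eq, signchanges_reverse] at h2
    have h3 : (((List.range v.length).filter (fun d => v.getD d false == false)).map
        (fun d => !(decide (lab (v.take d) < lab v)))) =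
        (((List.range v.length).filter (fun d => v.getD d false == false)).map
        (fun d => decide (lab (v.take d) < lab v))).map (!·) := by
      rw [List.map_map]
      rfl
    rw [h3, altL_not] at h2
    exact h2
  · have h2 : altL (RK (fun u => decide (lab u < lab v)) v) ≤ N := by
      refine le_trans (altL_sublist ?_) h1
      unfold TW
      rw [List.append_assoc, List.append_assoc]
      exact List.sublist_append_left _ _
    rw [RK_eq] at h2
    exact h2

end Pool.Agent.H41.Ex
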