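import Mathlib
import Pool.Agent.H41.Ex.Defs

set_option autoImplicit false

/-!
Which runs to drop.

Given weights `w 0, …, w (K - 1) ≥ 0` and `1 ≤ q < K` we look for a set `S ⊆ range K` without two
consecutive elements such that at most `q - 1` of the pairs `(j, j + 1)`, `j < K - 1`, avoid `S` and
the weight outside `S` is at least `eexp K q * ∑ w`.

PROOF.  Case `K - q` odd.  `s = (K - q + 1) / 2`, so `2 * s = K - q + 1`, `1 ≤ s`, `2 * (s - 1) =
K - q - 1 ≤ K - 2`.  For `a < K` let `S_a = {(a + 2 * i) % K : i < s}`; it has `s` elements (distinct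
as `0 < 2 * (i - i') ≤ K - 2 < K`), and no two cyclically consecutive elements
(`2 * i - 2 * i' ≡ ± 1 mod K` is impossible, as `|2 * i - 2 * i'| ≤ K - 2` and it is even:
`= 1` impossible, `= K - 1` impossible).  In particular not both `0` and `K - 1` are in `S_a`.
Pairs `(j, j + 1)`, `j < K - 1`, that meet `S_a`: each element `x` of `S_a` lies in the two pairs
`x - 1`, `x` except for `x = 0` and `x = K - 1` (one pair), and no pair contains two elements; so at
least `2 * s - 1 = K - q` pairs meet `S_a` and at most `K - 1 - (K - q) = q - 1` avoid it.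
Every `x < K` is in exactly `s` of the sets `S_a`, so `∑ a, w(S_a) = s * W`, some `a` has
`w(S_a) ≤ s / K * W`, and `1 - s / K = (K + q - 1) / (2 * K) = 1 / 2 + (q - 1) / (2 * K)`.
Case `K - q` even, so `K ≥ q + 2 ≥ 3`.  `s = (K - q) / 2 ≥ 1`, `n = K - 1`.  Work on the cycle
`Z_n = {0, …, K - 2}` where `0` stands for both `0` and `K - 1`: `T_a = {(a + 2 * i) % n : i < s}`,
`2 * (s - 1) = K - q - 2 ≤ n - 2`, so again `s` elements, no two cyclically consecutive mod `n`.
`S_a = T_a` if `0 ∉ T_a`, and `S_a = T_a ∪ {K - 1}` otherwise.  No two consecutive elements in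
`S_a` (`1` and `K - 2 = n - 1` are cyclic neighbours of `0` mod `n`).  Pairs meeting `S_a`:
`2` per element of `T_a` (for `0 ∈ T_a`: the pair `(0, 1)` for `0` and the pair `(K - 2, K - 1)` for
`K - 1`): exactly `2 * s = K - q` pairs; `K - 1 - (K - q) = q - 1` avoid it.
Weights: put `w' 0 = w 0 + w (K - 1)`, `w' x = w x` otherwise on `Z_n`, total `W`; some `a` has
`w'(T_a) ≤ s / (K - 1) * W` and `1 - s / (K - 1) = (K + q - 2) / (2 * (K - 1))
= 1 / 2 + (q - 1) / (2 * (K - 1))`.
(Alternative: any other proof of the same statement, e.g. a direct induction.)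
-/

namespace Pool.Agent.H41.Ex

private lemma skipSets_res {n a x y : ℕ} (hx : x < n) (hy : y < n)
    (h : (x + (n - a)) % n = (y + (n - a)) % n) : x = y := by
  have h1 : x ≡ y [MOD n] := Nat.ModEq.add_right_cancel' (n - a) h
  have h2 : x % n = y % n := h1
  rwa [Nat.mod_eq_of_lt hx, Nat.mod_eq_of_lt hy] at h2

private lemma skipSets_res' {n a b x : ℕ} (ha : a < n) (hb : b < n)
    (h : (x + (n - a)) % n = (x + (n - b)) % n) : a = b := by
  have h1 : n - a ≡ n - b [MOD n] := Nat.ModEq.add_left_cancel' x h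
  have h2 : (n - a) + (a + b) ≡ (n - b) + (a + b) [MOD n] := Nat.ModEq.add_right (a + b) h1
  have h3 : (n - a) + (a + b) = b + n := by omega
  have h4 : (n - b) + (a + b) = a + n := by omega
  rw [h3, h4] at h2
  have h5 : (b + n) % n = (a + n) % n := h2
  rw [Nat.add_mod_right, Nat.add_mod_right, Nat.mod_eq_of_lt hb, Nat.mod_eq_of_lt ha] at h5
  exact h5.symm

private lemma skipSets_core (K n s : ℕ) (hn : 1 ≤ n) (hnK : K - 1 ≤ n) (hs : 1 ≤ s) (h2s : 2 * s ≤ n)
    (w : ℕ → ℝ) (hw : ∀ j, 0 ≤ w j) :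
    ∃ S : Finset ℕ, (∀ j ∈ S, j < K) ∧ (∀ j ∈ S, j + 1 ∉ S) ∧
      ((Finset.range (K - 1)).filter (fun j => j ∉ S ∧ j + 1 ∉ S)).card ≤ n - 2 * s ∧
      (∑ j ∈ Finset.range K, w j) - (s : ℝ) * (∑ j ∈ Finset.range K, w j) / n ≤
        ∑ j ∈ (Finset.range K).filter (fun j => j ∉ S), w j := by
  classical
  set R : ℕ → ℕ → ℕ := fun a x => (x + (n - a)) % n with hR
  have hRlt : ∀ a x, R a x < n := fun a x => Nat.mod_lt _ hn
  have hRs : ∀ a x, R a (x + 1) = (R a x + 1) % n := by
    intro a x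
    simp only [hR]
    rw [Nat.mod_add_mod]
    congr 1
    ring
  set T : ℕ → Finset ℕ := fun a => (Finset.range K).filter (fun x => R a x % 2 = 0 ∧ R a x < 2 * s) with hT
  have hmem : ∀ a x, x ∈ T a ↔ x < K ∧ R a x % 2 = 0 ∧ R a x < 2 * s := by
    intro a x
    simp [hT]
  -- the average
  have hcount : ∀ x, ((Finset.range n).filter (fun a => R a x % 2 = 0 ∧ R a x < 2 * s)).card ≤ s := by
    intro x
    have h1 : (((Finset.range n).filter (fun a => R a x % 2 = 0 ∧ R a x < 2 * s)).image
        (fun a => R a x)).card =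
        ((Finset.range n).filter (fun a => R a x % 2 = 0 ∧ R a x < 2 * s)).card := by
      apply Finset.card_image_of_injOn
      intro a ha b hb hab
      simp only [Finset.coe_filter, Finset.mem_range, Set.mem_ofPred_eq] at ha hb
      exact skipSets_res' ha.1 hb.1 hab
    rw [← h1]
    have h2 : ((Finset.range n).filter (fun a => R a x % 2 = 0 ∧ R a x < 2 * s)).image
        (fun a => R a x) ⊆ (Finset.range s).image (fun i => 2 * i) := by
      intro r hr
      obtain ⟨a, ha, rfl⟩ := Finset.mem_image.mp hr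
      have h3 := (Finset.mem_filter.mp ha).2
      exact Finset.mem_image.mpr ⟨R a x / 2, Finset.mem_range.mpr (by omega), by omega⟩
    exact (Finset.card_le_card h2).trans (Finset.card_image_le.trans (by simp))
  have hW0 : 0 ≤ ∑ j ∈ Finset.range K, w j := Finset.sum_nonneg (fun j _ => hw j)
  have hn0 : (0 : ℝ) < n := by exact_mod_cast hn
  have havg : ∑ a ∈ Finset.range n, (∑ x ∈ T a, w x) ≤
      ∑ a ∈ Finset.range n, ((s : ℝ) * (∑ j ∈ Finset.range K, w j) / n) := by
    have h1 : ∑ a ∈ Finset.range n, (∑ x ∈ T a, w x) =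
        ∑ x ∈ Finset.range K, ∑ a ∈ (Finset.range n).filter (fun a => R a x % 2 = 0 ∧ R a x < 2 * s), w x := by
      simp only [hT, Finset.sum_filter]
      exact Finset.sum_comm
    rw [h1, Finset.sum_const, Finset.card_range, nsmul_eq_mul, mul_div_cancel₀ _ hn0.ne', Finset.mul_sum]
    apply Finset.sum_le_sum
    intro x _
    rw [Finset.sum_const, nsmul_eq_mul]
    apply mul_le_mul_of_nonneg_right _ (hw x)
    exact_mod_cast hcount x
  obtain ⟨a, -, ha⟩ := Finset.exists_le_of_sum_le (Finset.nonempty_range_iff.mpr (by omega)) havg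
  refine ⟨T a, fun j hj => ((hmem a j).mp hj).1, ?_, ?_, ?_⟩
  · intro j hj hj1
    have h1 := (hmem a j).mp hj
    have h2 := (hmem a (j + 1)).mp hj1
    have h6 : (R a j + 1) % n = R a j + 1 := Nat.mod_eq_of_lt (by omega)
    rw [hRs, h6] at h2
    omega
  · have h1 : (((Finset.range (K - 1)).filter (fun j => j ∉ T a ∧ j + 1 ∉ T a)).image (R a)).card =
        ((Finset.range (K - 1)).filter (fun j => j ∉ T a ∧ j + 1 ∉ T a)).card := by
      apply Finset.card_image_of_injOn
      intro x hx y hy hxy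
      simp only [Finset.coe_filter, Finset.mem_range, Set.mem_ofPred_eq] at hx hy
      exact skipSets_res (by omega) (by omega) hxy
    rw [← h1]
    have h2 : ((Finset.range (K - 1)).filter (fun j => j ∉ T a ∧ j + 1 ∉ T a)).image (R a) ⊆
        Finset.Ico (2 * s - 1) (n - 1) := by
      intro r hr
      obtain ⟨j, hj, rfl⟩ := Finset.mem_image.mp hr
      obtain ⟨hj1, hj2, hj3⟩ := Finset.mem_filter.mp hj
      rw [Finset.mem_range] at hj1
      rw [hmem] at hj2 hj3
      have h4 := hRlt a j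
      have h5 : R a j ≠ n - 1 := by
        intro h6
        apply hj3
        rw [hRs, h6, Nat.sub_add_cancel hn, Nat.mod_self]
        exact ⟨by omega, rfl, by omega⟩
      have h6 : (R a j + 1) % n = R a j + 1 := Nat.mod_eq_of_lt (by omega)
      rw [hRs, h6] at hj3
      rw [Finset.mem_Ico]
      refine ⟨?_, by omega⟩
      by_contra hlt
      rcases Nat.mod_two_eq_zero_or_one (R a j) with he | ho
      · exact hj2 ⟨by omega, he, by omega⟩
      · exact hj3 ⟨by omega, by omega, by omega⟩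
    refine (Finset.card_le_card h2).trans ?_
    rw [Nat.card_Ico]
    omega
  · have h1 : ∑ j ∈ T a, w j + ∑ j ∈ (Finset.range K).filter (fun j => j ∉ T a), w j =
        ∑ j ∈ Finset.range K, w j := by
      have h2 : (Finset.range K).filter (fun j => j ∈ T a) = T a := by
        rw [Finset.filter_mem_eq_inter, Finset.inter_eq_right]
        exact fun x hx => Finset.mem_range.mpr ((hmem a x).mp hx).1
      rw [← Finset.sum_filter_add_sum_filter_not (Finset.range K) (fun j => j ∈ T a) w, h2]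
    linarith

theorem skip_sets {K q : ℕ} (hq : 1 ≤ q) (hqK : q < K) (w : ℕ → ℝ) (hw : ∀ j, 0 ≤ w j) :
    ∃ S : Finset ℕ, (∀ j ∈ S, j < K) ∧ (∀ j ∈ S, j + 1 ∉ S) ∧
      ((Finset.range (K - 1)).filter (fun j => j ∉ S ∧ j + 1 ∉ S)).card + 1 ≤ q ∧
      eexp K q * ∑ j ∈ Finset.range K, w j ≤
        ∑ j ∈ (Finset.range K).filter (fun j => j ∉ S), w j := by
  have hq' : (1 : ℝ) ≤ q := by exact_mod_cast hq
  have hqK' : (q : ℝ) + 1 ≤ K := by exact_mod_cast hqK
  rcases Nat.mod_two_eq_zero_or_one (K - q) with he | ho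
  · -- `K - q` even
    obtain ⟨S, h1, h2, h3, h4⟩ := skipSets_core K (K - 1) ((K - q) / 2) (by omega) le_rfl (by omega) (by omega) w hw
    refine ⟨S, h1, h2, by omega, ?_⟩
    refine le_trans (le_of_eq ?_) h4
    have h5 : eexp K q = 1 / 2 + ((q : ℝ) - 1) / (2 * (K - 1)) := by
      unfold eexp
      rw [if_neg (by omega), if_neg (by omega)]
    have h6 : (((K - q) / 2 : ℕ) : ℝ) = ((K : ℝ) - q) / 2 := by
      have h7 : 2 * ((K - q) / 2) + q = K := by omega
      have h8 : (2 : ℝ) * (((K - q) / 2 : ℕ) : ℝ) + q = K := by exact_mod_cast h7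
      linarith
    have h9 : ((K - 1 : ℕ) : ℝ) = (K : ℝ) - 1 := by
      rw [Nat.cast_sub (by omega)]; norm_num
    rw [h5, h6, h9]
    have h10 : (K : ℝ) - 1 ≠ 0 := by
      intro h
      linarith
    field_simp
    ring
  · obtain ⟨S, h1, h2, h3, h4⟩ := skipSets_core K K ((K - q + 1) / 2) (by omega) (by omega) (by omega) (by omega) w hw
    refine ⟨S, h1, h2, by omega, ?_⟩
    refine le_trans (le_of_eq ?_) h4
    have h5 : eexp K q = 1 / 2 + ((q : ℝ) - 1) / (2 * K) := by
      unfold eexp
      rw [if_neg (by omega), if_pos ho]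
    have h6 : (((K - q + 1) / 2 : ℕ) : ℝ) = ((K : ℝ) - q + 1) / 2 := by
      have h7 : 2 * ((K - q + 1) / 2) + q = K + 1 := by omega
      have h8 : (2 : ℝ) * (((K - q + 1) / 2 : ℕ) : ℝ) + q = K + 1 := by exact_mod_cast h7
      linarith
    rw [h5, h6]
    have h10 : (K : ℝ) ≠ 0 := by
      intro h
      linarith
    field_simp
    ring

end Pool.Agent.H41.Ex
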