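import Mathlib
import Pool.Agent.H41.Ex.SkipSets

set_option autoImplicit false

/-!
Dropping runs of levels.

PROOF of `skip`.  If `K ≤ q`: `Λ' = Λ`, `eexp = 1`.  Let `q < K`.  Let the types be
`replicate p Y ++ constants d`, `altL d + 1 ≤ K`.  Split `Λ = Λ₀ ++ Λ₁` with `Λ₀.length = p`
(`Λ.take p`, `Λ.drop p`), so `Λ₁.map Prod.snd = constants d`.  Run index of the `i`-th level of
`Λ₁`: `ρ i = altL (d.take (i + 1))`, it is `≤ altL d ≤ K - 1`, it is monotone in `i` and
`d[i] = d[0] xor (ρ i odd)` (`alt_mod_two`).  Let `w j = ∑ log M_i` over the levels `i` of `Λ₁` with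
`ρ i = j`.  `skip_sets` gives `S`.  `Λ' = Λ₀ ++` (the levels of `Λ₁` with `ρ i ∉ S`), e.g. via
`(Λ₁.zipIdx).filter` and `map`.  It is a sublist of `Λ`.
Number of changes: Let `ρs` be the (weakly increasing) list of the run indices of the kept levels
and `par j` = parity of `j`; the kept `d'` is `ρs.map (fun j => d[0] xor par j)`.
Claim: for `x ∉ S` and a weakly increasing list `ρs` of numbers in `[x, K - 1]`, not in `S`,
`alt (par x) (ρs.map par) ≤ #{j : x ≤ j < K - 1, j ∉ S, j + 1 ∉ S}`.  Induction on `ρs`: for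
`y :: ρs`, if `par y = par x` use the induction hypothesis for `y` (the set is smaller);
if `par y ≠ par x` then some `j ∈ [x, y)` has `j ∉ S`, `j + 1 ∉ S`: otherwise, as `S` has no two
consecutive elements and `x ∉ S`: `x + 1 ∈ S`, `x + 2 ∉ S`, `x + 3 ∈ S`, …, so `y ∉ S` has the parity of
`x`.  Hence `altL d' ≤ q - 1`: `Good q Λ'`.
Weights: `log tot Λ' = log tot Λ₀ + ∑_{j ∉ S} w j ≥ log tot Λ₀ + eexp K q * ∑ w
≥ eexp K q * log tot Λ` as `eexp K q ≤ 1`.  (`eexp_le_one`; `0 < eexp K q` is `eexp_pos`.)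
-/

namespace Pool.Agent.H41.Ex

open Pool.Agent.H41.Kc

lemma eexp_le_one {K q : ℕ} (hq : 1 ≤ q) : eexp K q ≤ 1 := by
  unfold eexp
  have hq' : (1 : ℝ) ≤ q := by exact_mod_cast hq
  split_ifs with h1 h2
  · exact le_rfl
  · have h3 : (q : ℝ) + 1 ≤ K := by exact_mod_cast (not_le.mp h1)
    have h4 : ((q : ℝ) - 1) / (2 * K) ≤ 1 / 2 := by
      rw [div_le_div_iff₀ (by linarith) (by norm_num)]
      linarith
    linarith
  · have h3 : (q : ℝ) + 1 ≤ K := by exact_mod_cast (not_le.mp h1)
    have h4 : ((q : ℝ) - 1) / (2 * (K - 1)) ≤ 1 / 2 := by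
      rw [div_le_div_iff₀ (by linarith) (by norm_num)]
      linarith
    linarith

lemma eexp_pos {K q : ℕ} (hq : 1 ≤ q) : 1 / 2 ≤ eexp K q := by
  unfold eexp
  have hq' : (1 : ℝ) ≤ q := by exact_mod_cast hq
  split_ifs with h1 h2
  · norm_num
  · have h3 : (q : ℝ) + 1 ≤ K := by exact_mod_cast (not_le.mp h1)
    have h4 : 0 ≤ ((q : ℝ) - 1) / (2 * K) := div_nonneg (by linarith) (by linarith)
    linarith
  · have h3 : (q : ℝ) + 1 ≤ K := by exact_mod_cast (not_le.mp h1)
    have h4 : 0 ≤ ((q : ℝ) - 1) / (2 * (K - 1)) := div_nonneg (by linarith) (by linarith)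
    linarith

/-- the next run index -/
private def skipNx (c : Bool) (r : ℕ) (X : Bool → Bool) : ℕ := if c = X false then r else r + 1

/-- the levels whose run index is not in `S` -/
private def skipSel (S : Finset ℕ) : Bool → ℕ → Lev → Lev
  | _, _, [] => []
  | c, r, p :: Λ => if skipNx c r p.2 ∈ S then skipSel S (p.2 false) (skipNx c r p.2) Λ
      else p :: skipSel S (p.2 false) (skipNx c r p.2) Λ

/-- the weights of the runs -/
private noncomputable def skipWt : Bool → ℕ → Lev → ℕ → ℝ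
  | _, _, [], _ => 0
  | c, r, p :: Λ, j => (if skipNx c r p.2 = j then Real.log p.1 else 0) +
      skipWt (p.2 false) (skipNx c r p.2) Λ j

private lemma skip_sub (S : Finset ℕ) : ∀ (Λ : Lev) (c : Bool) (r : ℕ), (skipSel S c r Λ).Sublist Λ := by
  intro Λ
  induction Λ with
  | nil => intro c r; exact List.Sublist.refl _
  | cons p Λ ih =>
    intro c r
    rw [skipSel]
    split_ifs
    · exact (ih _ _).cons _
    · exact (ih _ _).cons_cons _

private lemma skip_wt_nonneg : ∀ (Λ : Lev) (c : Bool) (r j : ℕ), 0 ≤ skipWt c r Λ j := by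
  intro Λ
  induction Λ with
  | nil => intro c r j; exact le_rfl
  | cons p Λ ih =>
    intro c r j
    rw [skipWt]
    have h1 := ih (p.2 false) (skipNx c r p.2) j
    have h2 : 0 ≤ Real.log (p.1 : ℝ) := Real.log_natCast_nonneg _
    split_ifs <;> linarith

private lemma skip_tot_cons (p : ℕ × (Bool → Bool)) (Λ : Lev) : tot (p :: Λ) = p.1 * tot Λ := by
  simp [tot]

private lemma skip_tot_pos : ∀ {Λ : Lev}, (∀ p ∈ Λ, 1 ≤ p.1) → 1 ≤ tot Λ := by
  intro Λ
  induction Λ with
  | nil => intro _; simp [tot]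
  | cons p Λ ih =>
    intro h
    rw [skip_tot_cons]
    exact Nat.one_le_iff_ne_zero.mpr (Nat.mul_ne_zero
      (Nat.one_le_iff_ne_zero.mp (h p List.mem_cons_self))
      (Nat.one_le_iff_ne_zero.mp (ih (fun p' hp' => h p' (List.mem_cons_of_mem _ hp')))))

private lemma skip_wt (S : Finset ℕ) (K : ℕ) : ∀ (Λ : Lev) (c : Bool) (r : ℕ), (∀ p ∈ Λ, 1 ≤ p.1) →
    r + alt c (Λ.map (fun p => p.2 false)) < K →
    Real.log (tot (skipSel S c r Λ)) =
      ∑ j ∈ (Finset.range K).filter (fun j => j ∉ S), skipWt c r Λ j := by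
  intro Λ
  induction Λ with
  | nil => intro c r _ _; simp [skipSel, skipWt, tot]
  | cons p Λ ih =>
    intro c r hp hK
    have hp' : ∀ p' ∈ Λ, 1 ≤ p'.1 := fun p' h => hp p' (List.mem_cons_of_mem _ h)
    rw [List.map_cons, alt_cons] at hK
    have hnx : skipNx c r p.2 + alt (p.2 false) (Λ.map (fun p => p.2 false)) < K := by
      unfold skipNx
      split_ifs at hK ⊢ <;> omega
    have hlt : skipNx c r p.2 < K := by omega
    have h1 := ih (p.2 false) (skipNx c r p.2) hp' hnx
    simp only [skipWt]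
    rw [Finset.sum_add_distrib, ← h1, Finset.sum_ite_eq, skipSel]
    simp only [Finset.mem_filter, Finset.mem_range]
    by_cases hS : skipNx c r p.2 ∈ S
    · rw [if_pos hS, if_neg (fun h => h.2 hS), zero_add]
    · rw [if_neg hS, if_pos ⟨hlt, hS⟩, skip_tot_cons, Nat.cast_mul, Real.log_mul]
      · have := hp p List.mem_cons_self
        exact_mod_cast (by omega : p.1 ≠ 0)
      · have h2 := skip_tot_pos (Λ := skipSel S (p.2 false) (skipNx c r p.2) Λ)
          (fun p' h => hp' p' ((skip_sub S Λ _ _).subset h))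
        exact_mod_cast (by omega : tot (skipSel S (p.2 false) (skipNx c r p.2) Λ) ≠ 0)

private lemma skip_sel_empty : ∀ (Λ : Lev) (c : Bool) (r : ℕ), skipSel ∅ c r Λ = Λ := by
  intro Λ
  induction Λ with
  | nil => intro c r; rfl
  | cons p Λ ih =>
    intro c r
    rw [skipSel, if_neg (Finset.notMem_empty _), ih]

/-- the number of avoiding pairs from `x` on -/
private def skipD (S : Finset ℕ) (K x : ℕ) : ℕ :=
  ((Finset.range (K - 1)).filter (fun j => x ≤ j ∧ (j ∉ S ∧ j + 1 ∉ S))).card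

private lemma skip_D_mono (S : Finset ℕ) (K : ℕ) {x y : ℕ} (h : x ≤ y) : skipD S K y ≤ skipD S K x := by
  apply Finset.card_le_card
  intro j hj
  rw [Finset.mem_filter] at hj ⊢
  exact ⟨hj.1, h.trans hj.2.1, hj.2.2⟩

private lemma skip_D_step (S : Finset ℕ) (hS : ∀ j ∈ S, j + 1 ∉ S) (K : ℕ) (x y : ℕ) (hx : x ∉ S) (hy : y ∉ S)
    (hxy : x ≤ y) (hyK : y < K) (hpar : x % 2 ≠ y % 2) : skipD S K y + 1 ≤ skipD S K x := by
  -- a pair between `x` and `y`
  have key : ∀ n x : ℕ, y = x + n → x ∉ S → x % 2 ≠ y % 2 → ∃ j, x ≤ j ∧ j < y ∧ j ∉ S ∧ j + 1 ∉ S := by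
    intro n
    induction n using Nat.strong_induction_on with
    | _ n ih =>
      intro x hn hx hpar
      by_cases h1 : x + 1 ∈ S
      · have h2 : x + 2 ∉ S := hS _ h1
        have h3 : 2 ≤ n := by
          by_contra hlt
          have h4 : n = 0 ∨ n = 1 := by omega
          rcases h4 with h4 | h4
          · rw [h4, Nat.add_zero] at hn
            exact hpar (by rw [hn])
          · rw [h4] at hn
            rw [hn] at hy
            exact hy h1
        obtain ⟨j, hj1, hj2, hj3⟩ := ih (n - 2) (by omega) (x + 2) (by omega) h2 (by omega)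
        exact ⟨j, by omega, hj2, hj3⟩
      · refine ⟨x, le_rfl, ?_, hx, h1⟩
        by_contra hlt
        exact hpar (by rw [show y = x by omega])
  obtain ⟨j, hj1, hj2, hj3, hj4⟩ := key (y - x) x (by omega) hx hpar
  unfold skipD
  have hnot : j ∉ (Finset.range (K - 1)).filter (fun j => y ≤ j ∧ (j ∉ S ∧ j + 1 ∉ S)) := by
    rw [Finset.mem_filter]
    omega
  rw [← Finset.card_insert_of_notMem hnot]
  apply Finset.card_le_card
  intro i hi
  rw [Finset.mem_insert] at hi
  rcases hi with rfl | hi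
  · rw [Finset.mem_filter, Finset.mem_range]
    exact ⟨by omega, hj1, hj3, hj4⟩
  · rw [Finset.mem_filter] at hi ⊢
    exact ⟨hi.1, hxy.trans hi.2.1, hi.2.2⟩

/-- the type of the run `j` -/
private def skipTau (b : Bool) (j : ℕ) : Bool := if j % 2 = 0 then b else !b

private lemma skip_tau_nx (b : Bool) (c : Bool) (r : ℕ) (X : Bool → Bool) (h : c = skipTau b r) :
    X false = skipTau b (skipNx c r X) := by
  unfold skipNx
  split_ifs with h1
  · rw [← h1, h]
  · have h2 : X false = !c := by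
      cases hX : X false <;> cases c <;> simp_all
    rw [h2, h]
    unfold skipTau
    have h3 : r % 2 = 0 ∨ r % 2 = 1 := by omega
    rcases h3 with h3 | h3
    · rw [if_pos h3, if_neg (by omega)]
    · rw [if_neg (by omega), if_pos (by omega), Bool.not_not]

private lemma skip_nx_le (c : Bool) (r : ℕ) (X : Bool → Bool) : r ≤ skipNx c r X := by
  unfold skipNx
  split_ifs <;> omega

private lemma skip_alt (S : Finset ℕ) (hS : ∀ j ∈ S, j + 1 ∉ S) (K : ℕ) (b : Bool) :
    ∀ (Λ : Lev) (c : Bool) (r x : ℕ), c = skipTau b r → x ≤ r → x ∉ S →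
    r + alt c (Λ.map (fun p => p.2 false)) < K →
    alt (skipTau b x) ((skipSel S c r Λ).map (fun p => p.2 false)) ≤ skipD S K x := by
  intro Λ
  induction Λ with
  | nil => intro c r x _ _ _ _; simp [skipSel]
  | cons p Λ ih =>
    intro c r x hc hxr hx hK
    rw [List.map_cons, alt_cons] at hK
    have hnx : skipNx c r p.2 + alt (p.2 false) (Λ.map (fun p => p.2 false)) < K := by
      unfold skipNx
      split_ifs at hK ⊢ <;> omega
    have h1 := skip_tau_nx b c r p.2 hc
    have h2 := skip_nx_le c r p.2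
    rw [skipSel]
    split_ifs with hm
    · exact ih _ _ x h1 (hxr.trans h2) hx hnx
    · rw [List.map_cons, alt_cons]
      have h3 := ih _ _ (skipNx c r p.2) h1 le_rfl hm hnx
      rw [← h1] at h3
      split_ifs with h4
      · rw [zero_add]
        exact h3.trans (skip_D_mono S K (hxr.trans h2))
      · have h5 : x % 2 ≠ skipNx c r p.2 % 2 := by
          intro h6
          apply h4
          rw [h1]
          unfold skipTau
          rw [h6]
        have h6 := skip_D_step S hS K x (skipNx c r p.2) hx hm (hxr.trans h2) (by omega) h5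
        omega

private lemma skip_altL (S : Finset ℕ) (hS : ∀ j ∈ S, j + 1 ∉ S) (K : ℕ) (b : Bool) :
    ∀ (Λ : Lev) (c : Bool) (r : ℕ), c = skipTau b r →
    r + alt c (Λ.map (fun p => p.2 false)) < K →
    altL ((skipSel S c r Λ).map (fun p => p.2 false)) ≤ skipD S K r := by
  intro Λ
  induction Λ with
  | nil => intro c r _ _; simp [skipSel]
  | cons p Λ ih =>
    intro c r hc hK
    rw [List.map_cons, alt_cons] at hK
    have hnx : skipNx c r p.2 + alt (p.2 false) (Λ.map (fun p => p.2 false)) < K := by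
      unfold skipNx
      split_ifs at hK ⊢ <;> omega
    have h1 := skip_tau_nx b c r p.2 hc
    have h2 := skip_nx_le c r p.2
    rw [skipSel]
    split_ifs with hm
    · exact (ih _ _ h1 hnx).trans (skip_D_mono S K h2)
    · rw [List.map_cons, altL_cons]
      have h3 := skip_alt S hS K b Λ _ _ (skipNx c r p.2) h1 le_rfl hm hnx
      rw [← h1] at h3
      exact h3.trans (skip_D_mono S K h2)

theorem skip {K q : ℕ} (hq : 1 ≤ q) {Λ : Lev} (hpos : ∀ p ∈ Λ, 1 ≤ p.1) (hG : Good K Λ) :
    ∃ Λ' : Lev, Λ'.Sublist Λ ∧ Good q Λ' ∧ (tot Λ : ℝ) ^ (eexp K q) ≤ tot Λ' := by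
  obtain ⟨n, Y, d, hty, hY, hd⟩ := hG
  rcases Nat.lt_or_ge q K with hqK | hKq
  swap
  · refine ⟨Λ, List.Sublist.refl _, ⟨n, Y, d, hty, hY, by omega⟩, ?_⟩
    unfold eexp
    rw [if_pos hKq, Real.rpow_one]
  -- the two parts
  have hlen : n ≤ Λ.length := by
    have h1 := congrArg List.length hty
    rw [List.length_map, List.length_append, List.length_replicate] at h1
    omega
  have h0 : (Λ.take n).map Prod.snd = List.replicate n Y := by
    rw [List.map_take, hty, List.take_append_of_le_length (by rw [List.length_replicate])]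
    rw [List.take_of_length_le (by rw [List.length_replicate])]
  have h1 : (Λ.drop n).map Prod.snd = d.map (fun c => fun _ => c) := by
    rw [List.map_drop, hty, List.drop_append_of_le_length (by rw [List.length_replicate])]
    rw [List.drop_of_length_le (by rw [List.length_replicate]), List.nil_append]
  set Λ₀ := Λ.take n with hΛ₀
  set Λ₁ := Λ.drop n with hΛ₁
  have hΛ : Λ₀ ++ Λ₁ = Λ := List.take_append_drop n Λ
  have hp0 : ∀ p ∈ Λ₀, 1 ≤ p.1 := fun p hp => hpos p (List.mem_of_mem_take hp)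
  have hp1 : ∀ p ∈ Λ₁, 1 ≤ p.1 := fun p hp => hpos p (List.mem_of_mem_drop hp)
  have hconst : ∀ p ∈ Λ₁, p.2 = fun _ => p.2 false := by
    intro p hp
    have h2 : p.2 ∈ Λ₁.map Prod.snd := List.mem_map.mpr ⟨p, hp, rfl⟩
    rw [h1] at h2
    obtain ⟨c, -, hc⟩ := List.mem_map.mp h2
    rw [← hc]
  have hd1 : Λ₁.map (fun p => p.2 false) = d := by
    have h2 : Λ₁.map (fun p => p.2 false) = (Λ₁.map Prod.snd).map (fun X => X false) := by
      rw [List.map_map]; rfl
    rw [h2, h1, List.map_map]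
    exact List.map_id' d
  -- the first type
  set b : Bool := d.headD true with hb
  have halt : alt b d = altL d := by
    rw [hb]
    cases d with
    | nil => rfl
    | cons a l => simp [alt_cons, altL_cons]
  have hK : 0 + alt b (Λ₁.map (fun p => p.2 false)) < K := by
    rw [hd1, halt]
    omega
  obtain ⟨S, hS1, hS2, hS3, hS4⟩ := skip_sets hq hqK (skipWt b 0 Λ₁) (skip_wt_nonneg Λ₁ b 0)
  have hw := skip_wt S K Λ₁ b 0 hp1 hK
  have hw0 := skip_wt ∅ K Λ₁ b 0 hp1 hK
  rw [skip_sel_empty] at hw0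
  have hw1 : (Finset.range K).filter (fun j => j ∉ (∅ : Finset ℕ)) = Finset.range K := by
    rw [Finset.filter_true_of_mem]
    intro x _
    exact Finset.notMem_empty x
  rw [hw1] at hw0
  rw [← hw0, ← hw] at hS4
  have hsub := skip_sub S Λ₁ b 0
  refine ⟨Λ₀ ++ skipSel S b 0 Λ₁, ?_, ?_, ?_⟩
  · conv_rhs => rw [← hΛ]
    exact (List.Sublist.refl _).append hsub
  · refine ⟨n, Y, (skipSel S b 0 Λ₁).map (fun p => p.2 false), ?_, hY, ?_⟩
    · rw [List.map_append, h0, List.map_map]
      congr 1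
      apply List.map_congr_left
      intro p hp
      exact hconst p (hsub.subset hp)
    · have h2 := skip_altL S hS2 K b Λ₁ b 0 rfl hK
      have h3 : skipD S K 0 = ((Finset.range (K - 1)).filter (fun j => j ∉ S ∧ j + 1 ∉ S)).card := by
        unfold skipD
        congr 1
        apply Finset.filter_congr
        intro x _
        simp
      omega
  · have ht0 : 1 ≤ tot Λ₀ := skip_tot_pos hp0
    have ht1 : 1 ≤ tot Λ₁ := skip_tot_pos hp1
    have ht2 : 1 ≤ tot (skipSel S b 0 Λ₁) := skip_tot_pos (fun p hp => hp1 p (hsub.subset hp))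
    have htot : tot Λ = tot Λ₀ * tot Λ₁ := by
      conv_lhs => rw [← hΛ]
      simp [tot]
    have htot' : tot (Λ₀ ++ skipSel S b 0 Λ₁) = tot Λ₀ * tot (skipSel S b 0 Λ₁) := by
      simp [tot]
    have hr0 : (1 : ℝ) ≤ tot Λ₀ := by exact_mod_cast ht0
    have hr1 : (1 : ℝ) ≤ tot Λ₁ := by exact_mod_cast ht1
    have hr2 : (1 : ℝ) ≤ tot (skipSel S b 0 Λ₁) := by exact_mod_cast ht2
    rw [htot, htot']
    push_cast
    rw [Real.mul_rpow (by linarith) (by linarith)]
    have he1 := eexp_le_one (K := K) hq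
    have he0 := eexp_pos (K := K) hq
    apply mul_le_mul _ _ (by positivity) (by linarith)
    · calc (tot Λ₀ : ℝ) ^ eexp K q ≤ (tot Λ₀ : ℝ) ^ (1 : ℝ) := Real.rpow_le_rpow_of_exponent_le hr0 he1
        _ = tot Λ₀ := Real.rpow_one _
    · rw [← Real.log_le_log_iff (by positivity) (by linarith), Real.log_rpow (by linarith)]
      exact hS4

end Pool.Agent.H41.Ex
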