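import Mathlib
import Pool.Agent.H41.Ex.EmbApi

set_option autoImplicit false

/-!
Dropping levels.

PROOF of `sub_levels`: induction on the sublist relation.
* `[]`: `φ = id`.
* drop `(M, X)`: `Λ = (M, X) :: Λ₂`, `Λ' <+ Λ₂` with `φ₂`: `φ z = M * φ₂ z`
  (`M * φ₂ x / M = φ₂ x ≠ φ₂ y`).
* keep `(M, X)`: `Λ = (M, X) :: Λ₂`, `Λ' = (M, X) :: Λ₂'`: `φ z = M * φ₂ (z / M) + z % M`; then
  `φ z / M = φ₂ (z / M)`.
PROOF of `index_emb`: `σ x` is the list of length `φ x.length` (length `n` if `x.length ≥ m`) whose
entry at the position `φ i`, `i < x.length`, is `x[i]`, all other entries being `false`: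
`σ x = (List.range (if x.length < m then φ x.length else n)).map
   (fun j => decide (∃ i, ∃ h : i < x.length, φ i = j ∧ x[i] = true))`.
-/

namespace Pool.Agent.H41.Ex

private lemma sublevels_tot_cons (p : ℕ × (Bool → Bool)) (Λ : Lev) : tot (p :: Λ) = p.1 * tot Λ := by
  simp [tot]

private lemma sublevels_div {M a b : ℕ} (hb : b < M) : (M * a + b) / M = a := by
  have hM : 0 < M := by omega
  rw [Nat.mul_add_div hM, Nat.div_eq_of_lt hb, add_zero]

theorem sub_levels {Λ Λ' : Lev} (hsub : Λ'.Sublist Λ) (hpos : ∀ p ∈ Λ, 1 ≤ p.1) :
    ∃ φ : ℕ → ℕ, StrictMono φ ∧ (∀ x, x < tot Λ' → φ x < tot Λ) ∧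
      ∀ (x y : ℕ) (s : Bool), x < y → y < tot Λ' → flev Λ (φ x) (φ y) s = flev Λ' x y s := by
  induction hsub with
  | slnil => exact ⟨fun x => x, strictMono_id, fun x hx => hx, fun x y s _ _ => rfl⟩
  | cons p hsub ih =>
    rename_i Λ₁ Λ₂
    obtain ⟨φ, h1, h2, h3⟩ := ih (fun p hp => hpos p (List.mem_cons_of_mem _ hp))
    obtain ⟨M, X⟩ := p
    have hM : 1 ≤ M := hpos (M, X) List.mem_cons_self
    refine ⟨fun z => M * φ z, ?_, ?_, ?_⟩
    · intro x y hxy
      exact Nat.mul_lt_mul_of_pos_left (h1 hxy) (by omega)
    · intro x hx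
      rw [sublevels_tot_cons]
      exact Nat.mul_lt_mul_of_pos_left (h2 x hx) (by omega)
    · intro x y s hxy hy
      have hne : φ x ≠ φ y := (h1 hxy).ne
      have e1 : M * φ x / M = φ x := Nat.mul_div_cancel_left _ (by omega)
      have e2 : M * φ y / M = φ y := Nat.mul_div_cancel_left _ (by omega)
      simp only [flev, e1, e2, if_neg hne]
      exact h3 x y s hxy hy
  | cons_cons p hsub ih =>
    rename_i Λ₁ Λ₂
    obtain ⟨φ, h1, h2, h3⟩ := ih (fun p hp => hpos p (List.mem_cons_of_mem _ hp))
    obtain ⟨M, X⟩ := p
    have hM : 1 ≤ M := hpos (M, X) List.mem_cons_self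
    have hmod : ∀ z, z % M < M := fun z => Nat.mod_lt _ (by omega)
    refine ⟨fun z => M * φ (z / M) + z % M, ?_, ?_, ?_⟩
    · intro x y hxy
      have hle : x / M ≤ y / M := Nat.div_le_div_right hxy.le
      show M * φ (x / M) + x % M < M * φ (y / M) + y % M
      rcases hle.eq_or_lt with he | hlt
      · rw [he]
        have e1 := Nat.div_add_mod x M
        have e2 := Nat.div_add_mod y M
        rw [he] at e1
        omega
      · have h4 : φ (x / M) + 1 ≤ φ (y / M) := h1 hlt
        have h5 : M * (φ (x / M) + 1) ≤ M * φ (y / M) := Nat.mul_le_mul_left M h4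
        have h6 := hmod x
        rw [Nat.mul_add, mul_one] at h5
        omega
    · intro x hx
      rw [sublevels_tot_cons] at hx ⊢
      show M * φ (x / M) + x % M < M * tot Λ₂
      have h4 : x / M < tot Λ₁ := Nat.div_lt_of_lt_mul hx
      have h5 : M * (φ (x / M) + 1) ≤ M * tot Λ₂ := Nat.mul_le_mul_left M (h2 _ h4)
      have h6 := hmod x
      rw [Nat.mul_add, mul_one] at h5
      omega
    · intro x y s hxy hy
      rw [sublevels_tot_cons] at hy
      have hle : x / M ≤ y / M := Nat.div_le_div_right hxy.le
      have e1 : (M * φ (x / M) + x % M) / M = φ (x / M) := sublevels_div (hmod x)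
      have e2 : (M * φ (y / M) + y % M) / M = φ (y / M) := sublevels_div (hmod y)
      simp only [flev, e1, e2]
      by_cases he : x / M = y / M
      · rw [if_pos he, if_pos (by rw [he])]
      · have hlt : x / M < y / M := lt_of_le_of_ne hle he
        rw [if_neg he, if_neg (h1 hlt).ne]
        exact h3 _ _ s hlt (Nat.div_lt_of_lt_mul hy)

/-- the entry at the position `j` -/
private noncomputable def sublevels_ent (φ : ℕ → ℕ) (x : List Bool) (j : ℕ) : Bool :=
  open Classical in decide (∃ i, i < x.length ∧ φ i = j ∧ x.getD i false = true)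

theorem index_emb {n m : ℕ} {φ : ℕ → ℕ} (hφ : StrictMono φ) (hφn : ∀ x, x < m → φ x < n) :
    ∃ σ : List Bool → List Bool, EmbIn n m σ ∧ (∀ x, x.length < m → (σ x).length = φ x.length) ∧
      ∀ x, x.length = m → (σ x).length = n := by
  refine ⟨fun x => (List.range (if x.length < m then φ x.length else n)).map (sublevels_ent φ x), ⟨?_, ?_⟩, ?_, ?_⟩
  · intro x hx s
    simp only [if_pos hx]
    have hlen : (x ++ [s]).length = x.length + 1 := by simp
    set N : ℕ := if (x ++ [s]).length < m then φ (x ++ [s]).length else n with hN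
    have hL : φ x.length + 1 ≤ N := by
      rw [hN]
      split_ifs with h
      · rw [hlen]
        exact hφ (Nat.lt_succ_self _)
      · exact hφn _ hx
    have h1 : List.map (sublevels_ent φ x) (List.range (φ x.length)) ++ [s] =
        List.map (sublevels_ent φ (x ++ [s])) (List.range (φ x.length + 1)) := by
      rw [List.range_succ, List.map_append, List.map_singleton]
      congr 1
      · apply List.map_congr_left
        intro j hj
        rw [List.mem_range] at hj
        unfold sublevels_ent
        congr 1
        apply propext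
        constructor
        · rintro ⟨i, hi, h2, h3⟩
          refine ⟨i, by omega, h2, ?_⟩
          rw [List.getD_append _ _ _ _ hi]
          exact h3
        · rintro ⟨i, hi, h2, h3⟩
          have hi' : i < x.length := by
            by_contra hc
            have : i = x.length := by omega
            rw [this] at h2
            omega
          refine ⟨i, hi', h2, ?_⟩
          rw [List.getD_append _ _ _ _ hi'] at h3
          exact h3
      · congr 1
        unfold sublevels_ent
        have h4 : (x ++ [s]).getD x.length false = s := by simp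
        cases s
        · symm
          rw [decide_eq_false_iff_not]
          rintro ⟨i, hi, h2, h3⟩
          have : i = x.length := hφ.injective h2
          rw [this, h4] at h3
          exact absurd h3 (by decide)
        · symm
          rw [decide_eq_true_eq]
          exact ⟨x.length, by omega, rfl, h4⟩
    rw [h1]
    apply List.IsPrefix.map
    have h5 : List.range (φ x.length + 1) = (List.range N).take (φ x.length + 1) := by
      rw [List.take_range, min_eq_left hL]
    rw [h5]
    exact List.take_prefix _ _
  · intro x hx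
    rw [List.length_map, List.length_range]
    split_ifs with h
    · exact (hφn _ h).le
    · exact le_rfl
  · intro x hx
    rw [List.length_map, List.length_range, if_pos hx]
  · intro x hx
    rw [List.length_map, List.length_range, if_neg (by omega)]

end Pool.Agent.H41.Ex
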