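import Mathlib
import Pool.Agent.H41.Ex.EmbApi

set_option autoImplicit false

/-!
The structure of the list of types.

PROOF of `flev_pow`: for `Λ = Λ₁ ++ (M, X) :: Λ₂` with `2 ≤ M` and all radices `≥ 1`, the indices
`0 ≤ x < tot Λ₁` and `tot Λ₁ * y'`, `1 ≤ y' < M` are related by `X`: induction on `Λ₁`
(`x / M₀ < tot Λ₁'`, `M₀ * (tot Λ₁' * y') / M₀ = tot Λ₁' * y'`; in the last step `x = 0`,
`y' / M = 0 = 0 / M`).
PROOF of `trans_types`.  Let `Λ = Λ₁ ++ (M, X) :: Λ₂ ++ (M', X') :: Λ₃` and `X s = X' s'`.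
Let `p = tot Λ₁`, `r = tot (Λ₁ ++ (M, X) :: Λ₂)`; `0 < p < r < n`.  Take the path that goes to the
side `s` at the depth `0`, to the side `s'` at the depth `p`; let `v₀ = []`, `v₁`, `v₂` be its nodes
at the depths `0, p, r`, e.g. `v₁ = s :: replicate (p - 1) false`,
`v₂ = v₁ ++ s' :: replicate (r - p - 1) false`.  By `HomF` and `flev_pow`:
`decide (lab v₀ < lab v₁) = X s`, `decide (lab v₁ < lab v₂) = X' s'`,
`decide (lab v₀ < lab v₂) = X' s`.  If `X s = X' s' = true` then `lab v₀ < lab v₁ < lab v₂`, so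
`X' s = true`.  If both are `false`, then `lab v₂ ≤ lab v₁ ≤ lab v₀`, so `X' s = false`.
PROOF of `types`: the list of types `T = Λ.map Prod.snd` satisfies: for `T = T₁ ++ X :: T₂ ++ X' :: T₃`
and all `s, s'`: `X s = X' s' → X' s = X s`.  Pure list induction on `T`:
`T = X :: T'`.  If `X true ≠ X false`, every later type `X'` is either `X` or constant (for the
value `c = X' false` take the side `s` with `X s = c`: then `X' s = c`, ...).  If `X` is constant,
every later `X'` is constant.  So: if `X` is constant, all of `T` is constant: `p = 0`, any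
`Y` with `Y true = !Y false`.  If `X` is not constant: `T'` has the form
`replicate p Y ++ constants`; if `p ≥ 1`, `Y` is not constant so `Y = X`, hence
`T = replicate (p + 1) X ++ constants`; if `p = 0`, `T = replicate 1 X ++ constants`.
-/

namespace Pool.Agent.H41.Ex

lemma Types_tot_nil : tot [] = 1 := rfl

lemma Types_tot_cons (a : ℕ × (Bool → Bool)) (Λ : Lev) : tot (a :: Λ) = a.1 * tot Λ := by
  simp [tot]

lemma Types_tot_append (Λ₁ Λ₂ : Lev) : tot (Λ₁ ++ Λ₂) = tot Λ₁ * tot Λ₂ := by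
  simp [tot]

lemma Types_tot_pos {Λ : Lev} (h : ∀ p ∈ Λ, 1 ≤ p.1) : 1 ≤ tot Λ := by
  induction Λ with
  | nil => exact le_of_eq Types_tot_nil.symm
  | cons a Λ ih =>
    rw [Types_tot_cons]
    exact Nat.mul_pos (h a (by simp)) (ih (fun p hp => h p (by simp [hp])))

lemma flev_pow (Λ₁ Λ₂ : Lev) (M : ℕ) (X : Bool → Bool) (hM : 2 ≤ M) (hpos : ∀ p ∈ Λ₁, 1 ≤ p.1)
    (s : Bool) {x y : ℕ} (hx : x < tot Λ₁) (hy1 : 1 ≤ y) (hy : y < M) :
    flev (Λ₁ ++ (M, X) :: Λ₂) x (tot Λ₁ * y) s = X s := by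
  induction Λ₁ generalizing x with
  | nil =>
    rw [Types_tot_nil] at hx ⊢
    have hx0 : x = 0 := by omega
    subst hx0
    rw [List.nil_append, one_mul]
    unfold flev
    rw [Nat.div_eq_of_lt hy, Nat.zero_div, if_pos rfl]
  | cons a Λ₁ ih =>
    obtain ⟨M₀, X₀⟩ := a
    rw [Types_tot_cons] at hx ⊢
    have hM0 : 0 < M₀ := hpos (M₀, X₀) (by simp)
    have h1 : M₀ * tot Λ₁ * y / M₀ = tot Λ₁ * y := by
      rw [mul_assoc, Nat.mul_div_cancel_left _ hM0]
    have h2 : x / M₀ < tot Λ₁ := by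
      rw [Nat.div_lt_iff_lt_mul hM0, mul_comm]
      exact hx
    have h3 : tot Λ₁ ≤ tot Λ₁ * y := Nat.le_mul_of_pos_right _ hy1
    rw [List.cons_append]
    unfold flev
    simp only
    rw [h1, if_neg (by omega)]
    exact ih (fun p hp => hpos p (by simp [hp])) h2

lemma trans_types {n : ℕ} {lab : List Bool → ℝ} {Λ₁ Λ₂ Λ₃ : Lev} {M M' : ℕ}
    {X X' : Bool → Bool} (hH : HomF n lab (flev (Λ₁ ++ (M, X) :: Λ₂ ++ (M', X') :: Λ₃)))
    (hn : n = tot (Λ₁ ++ (M, X) :: Λ₂ ++ (M', X') :: Λ₃))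
    (h2 : ∀ p ∈ Λ₁ ++ (M, X) :: Λ₂ ++ (M', X') :: Λ₃, 2 ≤ p.1) (s s' : Bool)
    (hs : X s = X' s') : X' s = X s := by
  have hM : 2 ≤ M := h2 (M, X) (by simp)
  have hM' : 2 ≤ M' := h2 (M', X') (by simp)
  have p1 : ∀ p ∈ Λ₁, 1 ≤ p.1 := fun p hp => le_trans (by norm_num) (h2 p (by simp [hp]))
  have p2 : ∀ p ∈ Λ₁ ++ (M, X) :: Λ₂, 1 ≤ p.1 := fun p hp =>
    le_trans (by norm_num) (h2 p (by
      rw [List.append_assoc] at h2 ⊢
      rcases List.mem_append.1 hp with h | h
      · simp [h]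
      · rcases List.mem_cons.1 h with h | h
        · simp [h]
        · simp [h]))
  have p3 : ∀ p ∈ Λ₂, 1 ≤ p.1 := fun p hp => p2 p (by simp [hp])
  have p4 : ∀ p ∈ Λ₃, 1 ≤ p.1 := fun p hp => le_trans (by norm_num) (h2 p (by simp [hp]))
  obtain ⟨p, hp⟩ : ∃ p, p = tot Λ₁ := ⟨_, rfl⟩
  obtain ⟨r, hr⟩ : ∃ r, r = tot (Λ₁ ++ (M, X) :: Λ₂) := ⟨_, rfl⟩
  have hp1 : 1 ≤ p := hp ▸ Types_tot_pos p1
  have hpr : p < r := by
    rw [hr, Types_tot_append, Types_tot_cons, ← hp]
    have h3 := Types_tot_pos p3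
    have h4 : 2 ≤ (M, X).1 * tot Λ₂ := by
      calc 2 = 2 * 1 := rfl
        _ ≤ M * tot Λ₂ := Nat.mul_le_mul hM h3
    nlinarith
  have hrn : r < n := by
    rw [hn, Types_tot_append (Λ₁ ++ (M, X) :: Λ₂), ← hr, Types_tot_cons]
    have h3 := Types_tot_pos p4
    have h4 : 2 ≤ (M', X').1 * tot Λ₃ := by
      calc 2 = 2 * 1 := rfl
        _ ≤ M' * tot Λ₃ := Nat.mul_le_mul hM' h3
    nlinarith
  have g1 : flev (Λ₁ ++ (M, X) :: Λ₂ ++ (M', X') :: Λ₃) 0 p s = X s := by
    have := flev_pow Λ₁ (Λ₂ ++ (M', X') :: Λ₃) M X hM p1 s (x := 0) (y := 1)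
      (by rw [← hp]; omega) le_rfl (by omega)
    rw [mul_one, ← hp] at this
    rw [List.append_assoc, List.cons_append]
    exact this
  have g2 : ∀ x, x < r → ∀ t, flev (Λ₁ ++ (M, X) :: Λ₂ ++ (M', X') :: Λ₃) x r t = X' t := by
    intro x hx t
    have := flev_pow (Λ₁ ++ (M, X) :: Λ₂) Λ₃ M' X' hM' p2 t (x := x) (y := 1)
      (by rw [← hr]; exact hx) le_rfl (by omega)
    rw [mul_one, ← hr] at this
    exact this
  obtain ⟨v₁, hv1⟩ : ∃ v₁, v₁ = s :: List.replicate (p - 1) false := ⟨_, rfl⟩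
  have l1 : v₁.length = p := by
    rw [hv1, List.length_cons, List.length_replicate]
    omega
  have l2 : (v₁ ++ s' :: List.replicate (r - p - 1) false).length = r := by
    rw [List.length_append, List.length_cons, List.length_replicate, l1]
    omega
  have e1 := hH [] s (List.replicate (p - 1) false) (by
    rw [List.nil_append, ← hv1, l1]
    omega)
  rw [List.nil_append, ← hv1, l1, List.length_nil, g1] at e1
  have e2 := hH v₁ s' (List.replicate (r - p - 1) false) (by rw [l2]; exact hrn)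
  rw [l2, l1, g2 p hpr] at e2
  have e3 := hH [] s (List.replicate (p - 1) false ++ s' :: List.replicate (r - p - 1) false) (by
    rw [List.nil_append, ← List.cons_append, ← hv1, l2]
    exact hrn)
  rw [List.nil_append, ← List.cons_append, ← hv1, l2, List.length_nil, g2 0 (by omega)] at e3
  rw [← e3]
  rw [← e1, ← e2] at hs
  rw [← e1]
  generalize lab [] = a at *
  generalize lab v₁ = b at *
  generalize lab (v₁ ++ s' :: List.replicate (r - p - 1) false) = c at *
  by_cases h3 : a < b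
  · have h4 : b < c := by simpa [h3] using hs.symm
    simp [h3, h3.trans h4]
  · have h4 : ¬ b < c := by simpa [h3] using hs
    have h5 : ¬ a < c := by
      push Not at h3 h4 ⊢
      exact h4.trans h3
    simp [h3, h5]

/-- the relation of `trans_types` -/
def Types_R (X X' : Bool → Bool) : Prop := ∀ s s' : Bool, X s = X' s' → X' s = X s

lemma Types_pairwise {α : Type} {R : α → α → Prop} {T : List α}
    (h : ∀ T₁ X T₂ X' T₃, T = T₁ ++ X :: T₂ ++ X' :: T₃ → R X X') : T.Pairwise R := by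
  induction T with
  | nil => exact List.Pairwise.nil
  | cons a T ih =>
    refine List.Pairwise.cons (fun b hb => ?_) (ih (fun T₁ X T₂ X' T₃ e => ?_))
    · obtain ⟨T₂, T₃, e⟩ := List.append_of_mem hb
      exact h [] a T₂ b T₃ (by rw [e]; simp)
    · exact h (a :: T₁) X T₂ X' T₃ (by rw [e]; simp)

lemma Types_list {T : List (Bool → Bool)} (h : T.Pairwise Types_R) :
    ∃ (p : ℕ) (Y : Bool → Bool) (d : List Bool),
      T = List.replicate p Y ++ d.map (fun c => fun _ => c) ∧ Y true = !Y false := by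
  induction T with
  | nil => exact ⟨0, fun s => s, [], by simp, rfl⟩
  | cons X T ih =>
    rw [List.pairwise_cons] at h
    obtain ⟨p, Y, d, hT, hY⟩ := ih h.2
    by_cases hX : X true = X false
    · cases p with
      | zero =>
        refine ⟨0, Y, X true :: d, ?_, hY⟩
        rw [hT]
        simp only [List.replicate_zero, List.nil_append, List.map_cons, List.cons.injEq, and_true]
        funext s
        cases s
        · exact hX.symm
        · rfl
      | succ p =>
        exfalso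
        have h1 : Types_R X Y := h.1 Y (by rw [hT]; simp [List.replicate_succ])
        have h2 : ∃ s', X true = Y s' := by
          cases hx : X true <;> cases hy : Y false
          · exact ⟨false, hy.symm⟩
          · exact ⟨true, by rw [hY, hy]; rfl⟩
          · exact ⟨true, by rw [hY, hy]; rfl⟩
          · exact ⟨false, hy.symm⟩
        obtain ⟨s', hs'⟩ := h2
        have h3 := h1 true s' hs'
        have h4 := h1 false s' (hX ▸ hs')
        rw [h3, h4, hX] at hY
        cases hx : X false <;> simp [hx] at hY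
    · have hX' : X true = !X false := by
        cases hx : X true <;> cases hy : X false <;> simp_all
      cases p with
      | zero =>
        refine ⟨1, X, d, ?_, hX'⟩
        rw [hT]
        simp
      | succ p =>
        have h1 : Types_R X Y := h.1 Y (by rw [hT]; simp [List.replicate_succ])
        have h2 : X = Y := by
          funext s
          have h3 : ∃ s', X s = Y s' := by
            cases hx : X s <;> cases hy : Y false
            · exact ⟨false, hy.symm⟩
            · exact ⟨true, by rw [hY, hy]; rfl⟩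
            · exact ⟨true, by rw [hY, hy]; rfl⟩
            · exact ⟨false, hy.symm⟩
          obtain ⟨s', hs'⟩ := h3
          exact (h1 s s' hs').symm
        refine ⟨p + 2, X, d, ?_, hX'⟩
        rw [hT, h2]
        simp [List.replicate_succ]

theorem types {n : ℕ} {lab : List Bool → ℝ} {Λ : Lev} (hH : HomF n lab (flev Λ))
    (hn : n = tot Λ) (h2 : ∀ p ∈ Λ, 2 ≤ p.1) :
    ∃ (p : ℕ) (Y : Bool → Bool) (d : List Bool),
      Λ.map Prod.snd = List.replicate p Y ++ d.map (fun c => fun _ => c) ∧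
        Y true = !Y false := by
  refine Types_list ?_
  rw [List.pairwise_map]
  refine Types_pairwise (fun Λ₁ a Λ₂ b Λ₃ e => ?_)
  obtain ⟨M, X⟩ := a
  obtain ⟨M', X'⟩ := b
  subst e
  intro s s' hs
  exact trans_types hH hn h2 s s' hs

end Pool.Agent.H41.Ex
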