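import Mathlib
import Pool.Agent.H41.Ex.Defs

set_option autoImplicit false

/-!
Arithmetic of mixed radix levels (all by induction on the list `Ms`).

* `lvM_le`: for `x, y < Ms.prod` the level is `< Ms.length` (in the last step `x / M = y / M = 0`).
* `lvM_append_of_lt`: below the product nothing changes if a radix is appended.
* `lvM_shift`: adding the product of the lower radices to both indices changes nothing:
  `(x + M * P) / M = x / M + P`.
* `lvM_append_of_ge`: `x < Ms.prod ≤ y` are in different blocks on all lower levels.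
* `flev_eq`: `flev` in terms of `lvM`.
* `lvM_mono_left`, `lvM_mono_right`: monotonicity of the level.
-/

namespace Pool.Agent.H41.Ex

private lemma lvM_one {M x y : ℕ} (hx : x < M * ([] : List ℕ).prod) (hy : y < M * ([] : List ℕ).prod) :
    x / M = y / M := by
  rw [List.prod_nil, mul_one] at hx hy
  rw [Nat.div_eq_of_lt hx, Nat.div_eq_of_lt hy]

lemma lvM_lt {Ms : List ℕ} (hne : Ms ≠ []) (hpos : ∀ M ∈ Ms, 1 ≤ M) {x y : ℕ} (hx : x < Ms.prod)
    (hy : y < Ms.prod) : lvM Ms x y < Ms.length := by
  induction Ms generalizing x y with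
  | nil => exact absurd rfl hne
  | cons M Ms ih =>
    rw [List.prod_cons] at hx hy
    rw [lvM, List.length_cons]
    split_ifs with h
    · exact Nat.succ_pos _
    · have hMs : Ms ≠ [] := by
        rintro rfl
        exact h (lvM_one hx hy)
      have := ih hMs (fun M' hM' => hpos M' (List.mem_cons_of_mem _ hM'))
        (Nat.div_lt_of_lt_mul hx) (Nat.div_lt_of_lt_mul hy)
      omega

lemma lvM_append_of_lt {Ms : List ℕ} (hne : Ms ≠ []) (hpos : ∀ M ∈ Ms, 1 ≤ M) (L : List ℕ)
    {x y : ℕ} (hx : x < Ms.prod) (hy : y < Ms.prod) : lvM (Ms ++ L) x y = lvM Ms x y := by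
  induction Ms generalizing x y with
  | nil => exact absurd rfl hne
  | cons M Ms ih =>
    rw [List.prod_cons] at hx hy
    rw [List.cons_append, lvM, lvM]
    split_ifs with h
    · rfl
    · have hMs : Ms ≠ [] := by
        rintro rfl
        exact h (lvM_one hx hy)
      rw [ih hMs (fun M' hM' => hpos M' (List.mem_cons_of_mem _ hM'))
        (Nat.div_lt_of_lt_mul hx) (Nat.div_lt_of_lt_mul hy)]

lemma lvM_shift {Ms : List ℕ} (hpos : ∀ M ∈ Ms, 1 ≤ M) (L L' : ℕ) {x y : ℕ}
    (hx : x < Ms.prod * L) (hy : y < Ms.prod * L) :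
    lvM (Ms ++ [L + L']) (x + Ms.prod * L') (y + Ms.prod * L') = lvM (Ms ++ [L]) x y := by
  induction Ms generalizing x y with
  | nil =>
    rw [List.prod_nil, one_mul] at hx hy
    have h1 : (x + L') / (L + L') = (y + L') / (L + L') := by
      rw [Nat.div_eq_of_lt (by omega), Nat.div_eq_of_lt (by omega)]
    have h2 : x / L = y / L := by
      rw [Nat.div_eq_of_lt hx, Nat.div_eq_of_lt hy]
    rw [List.nil_append, List.nil_append, List.prod_nil, one_mul]
    show (if (x + L') / (L + L') = (y + L') / (L + L') then 0 else 0 + 1) =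
      if x / L = y / L then 0 else 0 + 1
    rw [if_pos h1, if_pos h2]
  | cons M Ms ih =>
    have hM : 0 < M := hpos M List.mem_cons_self
    rw [List.prod_cons, mul_assoc] at hx hy
    have hdiv : ∀ z : ℕ, (z + (M :: Ms).prod * L') / M = z / M + Ms.prod * L' := by
      intro z
      rw [List.prod_cons, mul_assoc, Nat.add_mul_div_left _ _ hM]
    rw [List.cons_append, List.cons_append, lvM, lvM, hdiv, hdiv]
    have hiff : (x / M + Ms.prod * L' = y / M + Ms.prod * L') ↔ (x / M = y / M) := by omega
    by_cases h : x / M = y / M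
    · rw [if_pos h, if_pos (hiff.2 h)]
    · rw [if_neg h, if_neg (fun h' => h (hiff.1 h')),
        ih (fun M' hM' => hpos M' (List.mem_cons_of_mem _ hM'))
        (Nat.div_lt_of_lt_mul hx) (Nat.div_lt_of_lt_mul hy)]

lemma lvM_append_of_ge {Ms : List ℕ} (hpos : ∀ M ∈ Ms, 1 ≤ M) (L : ℕ) {x y : ℕ}
    (hx : x < Ms.prod) (hy : Ms.prod ≤ y) (hy' : y < Ms.prod * L) :
    lvM (Ms ++ [L]) x y = Ms.length := by
  induction Ms generalizing x y with
  | nil =>
    rw [List.prod_nil] at hx hy
    rw [List.prod_nil, one_mul] at hy'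
    rw [List.nil_append, lvM, Nat.div_eq_of_lt hy', Nat.div_eq_of_lt (by omega), if_pos rfl,
      List.length_nil]
  | cons M Ms ih =>
    have hM : 0 < M := hpos M List.mem_cons_self
    rw [List.prod_cons] at hx hy
    rw [List.prod_cons, mul_assoc] at hy'
    have h1 : x / M < Ms.prod := Nat.div_lt_of_lt_mul hx
    have h2 : Ms.prod ≤ y / M := by
      rw [Nat.le_div_iff_mul_le hM, mul_comm]
      exact hy
    rw [List.cons_append, lvM, if_neg (by omega), List.length_cons,
      ih (fun M' hM' => hpos M' (List.mem_cons_of_mem _ hM')) h1 h2 (Nat.div_lt_of_lt_mul hy')]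

lemma lvM_self {Ms : List ℕ} (x : ℕ) : lvM Ms x x = 0 := by
  cases Ms with
  | nil => rfl
  | cons M Ms => rw [lvM, if_pos rfl]

/-- `X` evaluated at the level is the relation of the list of levels -/
lemma flev_eq (Ms : List ℕ) (hpos : ∀ M ∈ Ms, 1 ≤ M) (X : ℕ → Bool → Bool) (s : Bool) {x y : ℕ}
    (hx : x < Ms.prod) (hy : y < Ms.prod) (hne : Ms ≠ []) :
    flev (Ms.mapIdx (fun i M => (M, X i))) x y s = X (lvM Ms x y) s := by
  induction Ms generalizing x y X with
  | nil => exact absurd rfl hne
  | cons M Ms ih =>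
    rw [List.prod_cons] at hx hy
    rw [List.mapIdx_cons, flev, lvM]
    split_ifs with h
    · rfl
    · have hMs : Ms ≠ [] := by
        rintro rfl
        exact h (lvM_one hx hy)
      exact ih (fun M' hM' => hpos M' (List.mem_cons_of_mem _ hM')) (fun i => X (i + 1))
        (Nat.div_lt_of_lt_mul hx) (Nat.div_lt_of_lt_mul hy) hMs

lemma tot_mapIdx (Ms : List ℕ) (X : ℕ → Bool → Bool) :
    tot (Ms.mapIdx (fun i M => (M, X i))) = Ms.prod := by
  induction Ms generalizing X with
  | nil => rfl
  | cons M Ms ih =>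
    have h := ih (fun i => X (i + 1))
    unfold tot at h ⊢
    rw [List.mapIdx_cons, List.map_cons, List.prod_cons, List.prod_cons, h]

end Pool.Agent.H41.Ex
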