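import Mathlib
import Pool.Agent.H41.Ex.EmbApi
import Pool.Agent.H41.Ex.LvM

set_option autoImplicit false

/-!
Layered trees for the uniformisation lemma.

`Str` is one uniform layer in the block of the node `w` (all its branching nodes `u` satisfy
`lv w u ≤ B`, all its leaves are beyond the block); `Lay L v` says that `L` layers can be stacked
below the node `v`.

PROOF of `lay_build`.  Induction on `L ≥ 1`.
`L = 1`: there are `w` and a layer `τ` at `w`; take `σ = τ` (levels: `lvM_append_of_lt`).
`L + 1` with `L ≥ 1`: let `w`, `τ` be the first layer, `P = Ms.prod ≥ 1`, and for every `x₁` with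
`x₁.length = P` let `σ_{x₁}` be the tree of height `P * L` below `τ x₁` given by the induction
hypothesis.  Put `σ x = τ x` for `x.length < P` and
`σ x = σ_{x.take P} (x.drop P)` for `x.length ≥ P`.
It is an embedding: at a node `x` with `x.length + 1 < P` and `x.length ≥ P` clear; if
`x.length + 1 = P`, then `σ (x ++ [s]) = σ_{x ++ [s]} []` extends `τ (x ++ [s])`, which extends
`τ x ++ [s]`.
Levels of `v'`, `y = v' ++ s :: u` with `y.length < P * (L + 1)`:
* `y.length < P`: from `Str.lvl` and `lvM_append_of_lt`;
* `v'.length ≥ P`: both nodes are in the same tree `σ_{x₁}`, use the induction hypothesis and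
  `lvM_shift` (with `L' = 1`);
* `v'.length < P ≤ y.length`: `σ v'` is in the block of `w` (`lv w (σ v') ≤ B`), `σ y` extends the
  leaf `τ (y.take P)`, hence `lv w (σ y) > B`; the ultrametric property for `w ≤ σ v' ≤ σ y` gives
  `lv (σ v') (σ y) > B`, so it is `B + 1 = Ms.length`, which is `lvM (Ms ++ [L + 1]) ..` by
  `lvM_append_of_ge`.
-/

namespace Pool.Agent.H41.Ex

/-- `e` is beyond the block of `w` -/
def Out (h B : ℕ) (lv : List Bool → List Bool → ℕ) (w e : List Bool) : Prop :=
  e.length ≤ h ∧ ∀ u : List Bool, e <+: u → u.length < h → B < lv w u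

/-- one layer -/
structure Str (h B D : ℕ) (lv : List Bool → List Bool → ℕ) (Ms : List ℕ) (w : List Bool)
    (τ : List Bool → List Bool) : Prop where
  emb : Emb Ms.prod τ
  pre : ∀ x : List Bool, x.length ≤ Ms.prod → w <+: τ x
  node : ∀ x : List Bool, x.length < Ms.prod → (τ x).length < h ∧ lv w (τ x) ≤ B
  lvl : ∀ (v : List Bool) (s : Bool) (u : List Bool), (v ++ s :: u).length < Ms.prod →
    lv (τ v) (τ (v ++ s :: u)) = lvM Ms v.length (v ++ s :: u).length
  out : ∀ x : List Bool, x.length = Ms.prod → Out h B lv w (τ x) ∧ (τ x).length ≤ w.length + D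

/-- `L` layers below `v` -/
def Lay (h B D : ℕ) (lv : List Bool → List Bool → ℕ) (Ms : List ℕ) : ℕ → List Bool → Prop
  | 0, v => v.length ≤ h
  | L + 1, v => ∃ w : List Bool, v <+: w ∧ ∃ τ : List Bool → List Bool, Str h B D lv Ms w τ ∧
      ∀ x : List Bool, x.length = Ms.prod → Lay h B D lv Ms L (τ x)

variable {h B D : ℕ} {lv : List Bool → List Bool → ℕ} {Ms : List ℕ}

private lemma layers_pre {n : ℕ} {σ : List Bool → List Bool} (hσ : Emb n σ) {x y : List Bool}
    (hxy : x <+: y) (hy : y.length ≤ n) : σ x <+: σ y := by
  obtain ⟨r, rfl⟩ := hxy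
  cases r with
  | nil => simp
  | cons s w =>
    obtain ⟨w', hw'⟩ := hσ.cons x s w hy
    exact ⟨s :: w', hw'.symm⟩

private lemma layers_prod_pos (hpos : ∀ M ∈ Ms, 1 ≤ M) : 1 ≤ Ms.prod := List.one_le_prod_of_one_le hpos

lemma Lay.length_le (hpos : ∀ M ∈ Ms, 1 ≤ M) {L : ℕ} {v : List Bool}
    (hL : Lay h B D lv Ms L v) : v.length + L ≤ h := by
  induction L generalizing v with
  | zero => exact hL
  | succ L ih =>
    obtain ⟨w, hvw, τ, hτ, hr⟩ := hL
    have hP := layers_prod_pos hpos
    have hx : (List.replicate Ms.prod true).length = Ms.prod := List.length_replicate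
    have h1 := ih (hr _ hx)
    have h2 := (hτ.pre [] (by simp)).length_le
    have h3 := hvw.length_le
    have h4 : (τ []).length < (τ (List.replicate Ms.prod true)).length := by
      have e : List.replicate Ms.prod true = [] ++ true :: List.replicate (Ms.prod - 1) true := by
        rw [List.nil_append, ← List.replicate_succ]
        congr 1
        omega
      rw [e]
      refine hτ.emb.length_lt _ _ _ ?_
      rw [← e, hx]
    omega

/-- fewer layers -/
lemma Lay.mono (hpos : ∀ M ∈ Ms, 1 ≤ M) {L L' : ℕ} {v : List Bool} (hL : Lay h B D lv Ms L v)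
    (hLL : L' ≤ L) : Lay h B D lv Ms L' v := by
  induction L' generalizing v L with
  | zero =>
    have := hL.length_le hpos
    change v.length ≤ h
    omega
  | succ L' ih =>
    obtain ⟨L, rfl⟩ : ∃ L₀, L = L₀ + 1 := ⟨L - 1, by omega⟩
    obtain ⟨w, hvw, τ, hτ, hr⟩ := hL
    exact ⟨w, hvw, τ, hτ, fun x hx => ih (hr x hx) (by omega)⟩

/-- layers below a descendant -/
lemma Lay.up {L : ℕ} {v v' : List Bool} (hL : Lay h B D lv Ms L v')
    (hv : v <+: v') : Lay h B D lv Ms L v := by
  cases L with
  | zero => exact hv.length_le.trans hL
  | succ L =>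
    obtain ⟨w, hvw, τ, hτ, hr⟩ := hL
    exact ⟨w, hv.trans hvw, τ, hτ, hr⟩

theorem lay_build (hU : Ultra h lv) (hB : ∀ u w : List Bool, u <+: w → w.length < h → lv u w ≤ B + 1)
    (hMs : Ms.length = B + 1) (hpos : ∀ M ∈ Ms, 1 ≤ M) {L : ℕ} (hL1 : 1 ≤ L) {v : List Bool}
    (hL : Lay h B D lv Ms L v) :
    ∃ σ : List Bool → List Bool, Emb (Ms.prod * L) σ ∧
      (∀ x : List Bool, x.length ≤ Ms.prod * L → v <+: σ x ∧ (σ x).length ≤ h) ∧
      ∀ (u : List Bool) (s : Bool) (w : List Bool), (u ++ s :: w).length < Ms.prod * L →
        lv (σ u) (σ (u ++ s :: w)) = lvM (Ms ++ [L]) u.length (u ++ s :: w).length := by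
  clear hL1
  induction L generalizing v with
  | zero =>
    refine ⟨fun _ => v, fun x hx => ?_, fun x _ => ⟨List.prefix_rfl, hL⟩, fun u s w hx => ?_⟩
    · simp at hx
    · simp at hx
  | succ L ih =>
    obtain ⟨w, hvw, τ, hτ, hr⟩ := hL
    have hP := layers_prod_pos hpos
    have hne : Ms ≠ [] := by
      rintro rfl
      simp at hMs
    obtain ⟨P, hPdef⟩ : ∃ P, P = Ms.prod := ⟨_, rfl⟩
    have hS : ∀ x₁ : List Bool, ∃ σ : List Bool → List Bool, x₁.length = P →
        Emb (P * L) σ ∧
        (∀ x : List Bool, x.length ≤ P * L → τ x₁ <+: σ x ∧ (σ x).length ≤ h) ∧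
        ∀ (u : List Bool) (s : Bool) (w : List Bool), (u ++ s :: w).length < P * L →
          lv (σ u) (σ (u ++ s :: w)) = lvM (Ms ++ [L]) u.length (u ++ s :: w).length := by
      intro x₁
      by_cases hx : x₁.length = P
      · obtain ⟨σ, h1⟩ := ih (hr x₁ (by rw [hx, hPdef]))
        rw [← hPdef] at h1
        exact ⟨σ, fun _ => h1⟩
      · exact ⟨fun x => x, fun h => absurd h hx⟩
    choose S hS using hS
    have hmul : Ms.prod * (L + 1) = P * L + P := by rw [← hPdef]; ring
    rw [hmul]
    rw [← hPdef] at hP
    have htl : ∀ x : List Bool, P ≤ x.length → (x.take P).length = P := fun x hx => by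
      rw [List.length_take]; omega
    have hemb := hτ.emb
    have hpre := hτ.pre
    have hnode := hτ.node
    have hlvl := hτ.lvl
    have hout := hτ.out
    rw [← hPdef] at hemb hpre hnode hlvl hout
    refine ⟨fun x => if x.length < P then τ x else S (x.take P) (x.drop P), ?_, ?_, ?_⟩
    · intro x hx s
      by_cases h1 : x.length < P
      · by_cases h2 : x.length + 1 < P
        · have h3 : (x ++ [s]).length < P := by simpa using h2
          simp only [h1, h3, if_true]
          exact hemb x h1 s
        · have h3 : (x ++ [s]).length = P := by simp; omega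
          have h4 : ¬ (x ++ [s]).length < P := by omega
          have h5 : (x ++ [s]).take P = x ++ [s] := List.take_of_length_le (by omega)
          simp only [h1, h4, if_true, if_false]
          rw [h5]
          refine (hemb x h1 s).trans ((hS (x ++ [s]) h3).2.1 _ ?_).1
          rw [List.length_drop]
          omega
      · have h4 : ¬ (x ++ [s]).length < P := by simp; omega
        have h5 : (x ++ [s]).take P = x.take P := List.take_append_of_le_length (by omega)
        have h6 : (x ++ [s]).drop P = x.drop P ++ [s] := List.drop_append_of_le_length (by omega)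
        simp only [h1, h4, if_false]
        rw [h5, h6]
        refine (hS (x.take P) (htl x (by omega))).1 _ ?_ s
        rw [List.length_drop]
        omega
    · intro x hx
      by_cases h1 : x.length < P
      · simp only [h1, if_true]
        exact ⟨hvw.trans (hpre x h1.le), (hnode x h1).1.le⟩
      · simp only [h1, if_false]
        have h2 := htl x (by omega)
        have h3 := (hS (x.take P) h2).2.1 (x.drop P) (by rw [List.length_drop]; omega)
        exact ⟨(hvw.trans (hpre _ h2.le)).trans h3.1, h3.2⟩
    · intro u s w' hy
      by_cases h1 : u.length < P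
      · by_cases h2 : (u ++ s :: w').length < P
        · simp only [h1, h2, if_true]
          rw [hlvl u s w' h2]
          exact (lvM_append_of_lt hne hpos _ (by rw [← hPdef]; exact h1) (by rw [← hPdef]; exact h2)).symm
        · simp only [h1, h2, if_true, if_false]
          have hge : P ≤ (u ++ s :: w').length := by omega
          have h3 := htl _ hge
          have hd : ((u ++ s :: w').drop P).length < P * L := by
            rw [List.length_drop]
            omega
          obtain ⟨he, hp, -⟩ := hS _ h3
          have h4 := hp _ hd.le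
          have h5 : (S ((u ++ s :: w').take P) ((u ++ s :: w').drop P)).length < h := by
            have h6 := he.length_lt ((u ++ s :: w').drop P) true []
              (by rw [List.length_append, List.length_singleton]; omega)
            have h7 := (hp ((u ++ s :: w').drop P ++ [true])
              (by rw [List.length_append, List.length_singleton]; omega)).2
            omega
          have h6 := (hout _ h3).1.2 _ h4.1 h5
          have h7 : u <+: (u ++ s :: w').take P :=
            List.prefix_take_iff.2 ⟨List.prefix_append _ _, h1.le⟩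
          have h8 := layers_pre hemb h7 h3.le
          have h9 := hU w (τ u) _ (hpre u h1.le) (h8.trans h4.1) h5
          have h10 := (hnode u h1).2
          have h11 := hB (τ u) _ (h8.trans h4.1) h5
          have h12 : lvM (Ms ++ [L + 1]) u.length (u ++ s :: w').length = Ms.length :=
            lvM_append_of_ge hpos (L + 1) (by rw [← hPdef]; exact h1) (by rw [← hPdef]; exact hge)
              (by rw [hmul]; exact hy)
          rw [h12, hMs]
          rw [h9] at h6
          have h13 := lt_max_iff.1 h6
          rcases h13 with h13 | h13 <;> omega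
      · have h2 : ¬ (u ++ s :: w').length < P := by
          rw [List.length_append]
          omega
        have h5 : (u ++ s :: w').take P = u.take P := List.take_append_of_le_length (by omega)
        have h6 : (u ++ s :: w').drop P = u.drop P ++ s :: w' := List.drop_append_of_le_length (by omega)
        simp only [h1, h2, if_false]
        rw [h5, h6]
        have e1 : u.length = (u.drop P).length + Ms.prod * 1 := by
          rw [List.length_drop, ← hPdef]
          omega
        have e2 : (u ++ s :: w').length = (u.drop P ++ s :: w').length + Ms.prod * 1 := by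
          rw [List.length_append, List.length_append, List.length_drop, ← hPdef]
          omega
        have h7 : (u.drop P ++ s :: w').length < P * L := by
          rw [List.length_append, List.length_drop]
          rw [List.length_append] at hy
          omega
        rw [(hS (u.take P) (htl u (by omega))).2.2 (u.drop P) s w' h7]
        have h8 := lvM_shift hpos L 1 (x := (u.drop P).length) (y := (u.drop P ++ s :: w').length)
          (by rw [← hPdef]; rw [List.length_append] at h7; omega) (by rw [← hPdef]; exact h7)
        rw [← e1, ← e2] at h8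
        exact h8.symm

end Pool.Agent.H41.Ex
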