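import Mathlib
import Pool.Agent.H41.Ex.EmbApi

set_option autoImplicit false

/-!
The visit dichotomy.  `blk` is a property of nodes, closed under initial segments (meaning: in the block of the root).
Either a large *exit tree* (branching nodes in the block, leaves outside the block) of height
`a ≥ 2 ^ i / 4` within depth `2 ^ i`, or a *stay tree* of height `2 ^ (I - 1)` with all leaves in
the block and at depth exactly `2 ^ I`.

PROOF.  Induction on `I ≥ 1`.
`I = 1`.  For `s = false, true` look at the nodes `[s], [s, false], [s, true]`.  If for both `s`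
one of these three nodes, say `x_s`, is not in `blk`, then `σ [] = []`, `σ (s :: _) = x_s` is an
exit tree with `i = 1`, `a = 1` (`2 ^ 1 ≤ 4 * 1`).  Otherwise there is `s` with all three in `blk`:
`σ [] = [s]`, `σ [t] = [s, t]` (and anything for longer lists, e.g. `σ (t :: _) = [s, t]`) is a stay
tree of height `1 = 2 ^ 0` with leaves at depth `2`.
Step `I → I + 1` (`I ≥ 1`).  If the statement for `I` gives an exit tree, done.  Otherwise let `σ`
be the stay tree: height `2 ^ (I - 1)`, leaves `σ x` at depth `2 ^ I` in the block.
Case 1: every leaf `z = σ x` (`x.length = 2 ^ (I - 1)`) has an extension `y_x` with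
`(y_x).length ≤ 2 ^ (I + 1)` that is not in `blk`.  Then `Emb.extend` with `g x = y_x` gives an exit
tree with `i = I + 1`, `a = 2 ^ (I - 1)`, `2 ^ (I + 1) = 4 * 2 ^ (I - 1)`; the nodes `σ x` with
`x.length < a` are prefixes of a leaf of the stay tree, hence in `blk`.
Case 2: some leaf `z = σ x` has all its extensions of length `≤ 2 ^ (I + 1)` in `blk`.  Then
`fun y => z ++ y` (`Emb.append`) is a stay tree of height `2 ^ I` with leaves at depth
`2 ^ I + 2 ^ I = 2 ^ (I + 1)`.
-/

namespace Pool.Agent.H41.Ex

theorem visit (blk : List Bool → Prop) (h0 : blk [])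
    (hpre : ∀ (x : List Bool) (s : Bool), blk (x ++ [s]) → blk x) (I : ℕ) (hI : 1 ≤ I) :
    (∃ (i a : ℕ) (σ : List Bool → List Bool), 1 ≤ i ∧ i ≤ I ∧ 1 ≤ a ∧ 2 ^ i ≤ 4 * a ∧
      EmbIn (2 ^ i) a σ ∧ (∀ x, x.length < a → blk (σ x)) ∧ ∀ x, x.length = a → ¬ blk (σ x)) ∨
    ∃ σ : List Bool → List Bool, EmbIn (2 ^ I) (2 ^ (I - 1)) σ ∧
      ∀ x, x.length = 2 ^ (I - 1) → (σ x).length = 2 ^ I ∧ blk (σ x) := by
  classical
  have hpre' : ∀ (x y : List Bool), x <+: y → blk y → blk x := by
    intro x y hxy
    obtain ⟨r, rfl⟩ := hxy
    induction r using List.reverseRecOn with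
    | nil => simp
    | append_singleton r s ih =>
      intro h
      exact ih (hpre _ s (by simpa using h))
  induction I, hI using Nat.le_induction with
  | base =>
    by_cases hA : ∀ s : Bool, ∃ x : List Bool, [s] <+: x ∧ x.length ≤ 2 ∧ ¬ blk x
    · left
      choose g hg using hA
      refine ⟨1, 1, fun y => match y with | [] => [] | s :: _ => g s, le_rfl, le_rfl, le_rfl,
        by norm_num, ⟨?_, ?_⟩, ?_, ?_⟩
      · intro x hx s
        have hx0 : x = [] := List.length_eq_zero_iff.mp (by omega)
        subst hx0
        simpa using (hg s).1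
      · intro x hx
        rcases x with _ | ⟨s, x⟩
        · simp
        · simpa using (hg s).2.1
      · intro x hx
        have hx0 : x = [] := List.length_eq_zero_iff.mp (by omega)
        subst hx0
        simpa using h0
      · intro x hx
        rcases x with _ | ⟨s, x⟩
        · simp at hx
        · simpa using (hg s).2.2
    · right
      push Not at hA
      obtain ⟨s, hs⟩ := hA
      refine ⟨fun y => match y with | [] => [s] | t :: _ => [s, t], ⟨?_, ?_⟩, ?_⟩
      · intro x hx t
        have hx0 : x = [] := List.length_eq_zero_iff.mp (by simpa using hx)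
        subst hx0
        simp
      · intro x hx
        rcases x with _ | ⟨t, x⟩
        · simp
        · simp
      · intro x hx
        rcases x with _ | ⟨t, x⟩
        · simp at hx
        · exact ⟨by simp, hs [s, t] ⟨[t], rfl⟩ (by simp)⟩
  | succ I hI ih =>
    have hpow : (2 : ℕ) ^ (I + 1) = 4 * 2 ^ (I - 1) := by
      obtain ⟨J, rfl⟩ : ∃ J, I = J + 1 := ⟨I - 1, by omega⟩
      simp only [Nat.add_sub_cancel]
      ring
    have hpow2 : (2 : ℕ) ^ (I + 1) = 2 ^ I + 2 ^ I := by ring
    rcases ih with ⟨i, a, σ, h1, h2, h3, h4, h5, h6, h7⟩ | ⟨σ, hσ, hleaf⟩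
    · exact Or.inl ⟨i, a, σ, h1, by omega, h3, h4, h5, h6, h7⟩
    · by_cases hc : ∀ x : List Bool, x.length = 2 ^ (I - 1) →
        ∃ y, σ x <+: y ∧ y.length ≤ 2 ^ (I + 1) ∧ ¬ blk y
      · left
        choose! g hg using hc
        have hpos : 1 ≤ 2 ^ (I - 1) := Nat.one_le_two_pow
        refine ⟨I + 1, 2 ^ (I - 1), fun x => if x.length < 2 ^ (I - 1) then σ x else g x,
          by omega, le_rfl, hpos, hpow.le, ⟨?_, ?_⟩, ?_, ?_⟩
        · exact hσ.1.extend g (fun x hx => (hg x hx).1)
        · intro x hx
          dsimp only
          split_ifs with hlt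
          · have := hσ.2 x hx
            omega
          · exact (hg x (by omega)).2.1
        · intro x hx
          dsimp only
          rw [if_pos hx]
          have hl : (x ++ List.replicate (2 ^ (I - 1) - x.length) false).length = 2 ^ (I - 1) := by
            simp; omega
          exact hpre' _ _ (hσ.1.pre (List.prefix_append x _) hl.le) (hleaf _ hl).2
        · intro x hx
          dsimp only
          rw [if_neg (by omega)]
          exact (hg x hx).2.2
      · right
        push Not at hc
        obtain ⟨x, hx, hy⟩ := hc
        have hxl := (hleaf x hx).1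
        refine ⟨fun y => σ x ++ y, ⟨(Emb.id _).append (σ x), ?_⟩, ?_⟩
        · intro y hyl
          simp only [List.length_append]
          simp only [Nat.add_sub_cancel] at hyl
          omega
        · intro y hyl
          simp only [Nat.add_sub_cancel] at hyl
          have hl : (σ x ++ y).length = 2 ^ (I + 1) := by
            simp only [List.length_append]; omega
          exact ⟨hl, hy _ (List.prefix_append _ _) hl.le⟩

end Pool.Agent.H41.Ex
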