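import Mathlib
import Pool.Agent.H41.Ex.EmbApi
import Pool.Agent.H41.Ex.LvM
import Pool.Agent.H41.Ex.Visit
import Pool.Agent.H41.Ex.Layers

set_option autoImplicit false

/-!
The uniformisation statement and one visit of a block.

PROOF of `ustep`.  Let `blk x := (v ++ x).length < h ∧ lv v (v ++ x) ≤ B`; `blk []` holds as
`lv v v ≤ B`: indeed by `hv0`.  It is closed under initial segments by `Ultra` (`lv v (v ++ x) ≤
max (lv v (v ++ x)) (lv (v ++ x) (v ++ x ++ [s])) = lv v (v ++ x ++ [s])`).  Apply `visit` with `I`.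

*Stay tree* `σ₀` of height `H = 2 ^ (I - 1)`, leaves in the block: all nodes `σ₀ x`,
`x.length ≤ H`, are in the block (prefixes of leaves), in particular
`(v ++ σ₀ x).length < h`.  Apply `hUn` to the height `H` and
`lv' x y = lv (v ++ σ₀ x) (v ++ σ₀ y)`: it satisfies `Ultra H` (as `σ₀` preserves prefixes,
`Emb.pre`) and `lv' x y ≤ lv v (v ++ σ₀ y) ≤ B`.  Compose the resulting `ρ` with `v ++ σ₀ ·`.
(`ZZ B H ≤ ZZ B h` as `H ≤ h`.)

*Exit tree* `σ₀` of height `a` with `2 ^ i ≤ 4 * a`, `a ≤ 2 ^ i ≤ h`: apply `hUn` to the height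
`a` and `lv' x y = lv (v ++ σ₀ x) (v ++ σ₀ y)` (only nodes with `y.length < a` matter; they are in
the block).  We get `Ms` and `ρ` with `EmbIn a Ms.prod ρ`; by `EmbIn.pad` we may assume
that `(ρ x).length = a` for `x.length = Ms.prod`.  Let `τ x = v ++ σ₀ (ρ x)`.  For
`x.length = Ms.prod` the node `e = τ x` satisfies `¬ blk (σ₀ (ρ x))`, `e.length ≤ v.length + 2 ^ i ≤ h`
and `Out h B lv v e`: if `e <+: u`, `u.length < h`, then also `e.length < h`, so `¬ blk` gives
`B < lv v e ≤ max (lv v e) (lv e u) = lv v u`.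
-/

namespace Pool.Agent.H41.Ex

/-- The uniformisation statement for `B + 1` levels. -/
def Unif (B : ℕ) : Prop :=
  ∀ (h : ℕ) (lv : List Bool → List Bool → ℕ), 1 ≤ h → Ultra h lv →
    (∀ u w : List Bool, u <+: w → w.length < h → lv u w ≤ B) →
    ∃ Ms : List ℕ, Ms.length = B + 1 ∧ (∀ M ∈ Ms, ∃ e : ℕ, M = 2 ^ e) ∧
      h ≤ ZZ B h * Ms.prod ∧ ∃ σ : List Bool → List Bool, EmbIn h Ms.prod σ ∧
        ∀ (u : List Bool) (s : Bool) (w : List Bool), (u ++ s :: w).length < Ms.prod →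
          lv (σ u) (σ (u ++ s :: w)) = lvM Ms u.length (u ++ s :: w).length

lemma ZZ_mono (B : ℕ) {a h : ℕ} (ha : a ≤ h) : ZZ B a ≤ ZZ B h := by
  induction B with
  | zero => simp [ZZ]
  | succ B ih =>
    simp only [ZZ]
    have h1 : Nat.log 2 a + 1 ≤ Nat.log 2 h + 1 := Nat.succ_le_succ (Nat.log_mono_right ha)
    exact Nat.mul_le_mul (Nat.mul_le_mul le_rfl ih) (Nat.pow_le_pow_left h1 _)

theorem ustep {h B : ℕ} (hUn : Unif B) {lv : List Bool → List Bool → ℕ} (hU : Ultra h lv)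
    {v : List Bool} (hv0 : lv v v ≤ B) {I : ℕ} (hI : 1 ≤ I) (hv : v.length + 2 ^ I ≤ h) :
    (∃ Ms : List ℕ, Ms.length = B + 1 ∧ (∀ M ∈ Ms, ∃ e : ℕ, M = 2 ^ e) ∧
      2 ^ (I - 1) ≤ ZZ B h * Ms.prod ∧ ∃ σ : List Bool → List Bool, EmbIn h Ms.prod σ ∧
        ∀ (u : List Bool) (s : Bool) (w : List Bool), (u ++ s :: w).length < Ms.prod →
          lv (σ u) (σ (u ++ s :: w)) = lvM Ms u.length (u ++ s :: w).length) ∨
    ∃ (i : ℕ) (Ms : List ℕ) (τ : List Bool → List Bool), 1 ≤ i ∧ i ≤ I ∧ Ms.length = B + 1 ∧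
      (∀ M ∈ Ms, ∃ e : ℕ, M = 2 ^ e) ∧ 2 ^ i ≤ 4 * (ZZ B h * Ms.prod) ∧
      Str h B (2 ^ i) lv Ms v τ := by
  have h2I : 1 ≤ 2 ^ I := Nat.one_le_two_pow
  set blk : List Bool → Prop := fun x => (v ++ x).length < h ∧ lv v (v ++ x) ≤ B with hblk
  have hb0 : blk [] := ⟨by simp; omega, by simpa using hv0⟩
  have hpre : ∀ (x : List Bool) (s : Bool), blk (x ++ [s]) → blk x := by
    rintro x s ⟨h1, h2⟩
    refine ⟨by simp at h1 ⊢; omega, ?_⟩
    have h3 := hU v (v ++ x) (v ++ (x ++ [s])) (List.prefix_append _ _)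
      ⟨[s], by simp⟩ h1
    rw [h3] at h2
    exact (le_max_left _ _).trans h2
  -- general facts about an embedding with all nodes in the block
  have key : ∀ (a n : ℕ) (σ₀ : List Bool → List Bool), EmbIn n a σ₀ →
      (∀ x, x.length < a → blk (σ₀ x)) → 1 ≤ a →
      ∃ Ms : List ℕ, Ms.length = B + 1 ∧ (∀ M ∈ Ms, ∃ e : ℕ, M = 2 ^ e) ∧
        a ≤ ZZ B a * Ms.prod ∧ ∃ ρ : List Bool → List Bool, EmbIn a Ms.prod ρ ∧
        ∀ (u : List Bool) (s : Bool) (w : List Bool), (u ++ s :: w).length < Ms.prod →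
          lv (v ++ σ₀ (ρ u)) (v ++ σ₀ (ρ (u ++ s :: w))) =
            lvM Ms u.length (u ++ s :: w).length := by
    intro a n σ₀ hσ₀ hbl ha
    have hp : ∀ x y : List Bool, x <+: y → y.length ≤ a → (v ++ σ₀ x) <+: (v ++ σ₀ y) := by
      intro x y hxy hy
      exact (List.prefix_append_right_inj v).2 (hσ₀.1.pre hxy hy)
    exact hUn a (fun x y => lv (v ++ σ₀ x) (v ++ σ₀ y)) ha
      (fun u w y huw hwy hy => hU _ _ _ (hp u w huw (le_trans hwy.length_le hy.le))
        (hp w y hwy hy.le) (hbl y hy).1)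
      (fun u w huw hw => by
        have h1 := hbl w hw
        have h2 := hU v (v ++ σ₀ u) (v ++ σ₀ w) (List.prefix_append _ _) (hp u w huw hw.le) h1.1
        have h3 := h1.2
        rw [h2] at h3
        exact (le_max_right _ _).trans h3)
  rcases visit blk hb0 hpre I hI with ⟨i, a, σ₀, hi1, hiI, ha1, hia, hσ₀, hin, hout⟩ |
    ⟨σ₀, hσ₀, hleaf⟩
  · right
    obtain ⟨Ms, hMs, hMp, hle, ρ₀, hρ₀, hlv₀⟩ := key a (2 ^ i) σ₀ hσ₀ hin ha1
    obtain ⟨ρ, hρ, hρeq, -, hρl⟩ := hρ₀.pad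
    have hlv : ∀ (u : List Bool) (s : Bool) (w : List Bool), (u ++ s :: w).length < Ms.prod →
        lv (v ++ σ₀ (ρ u)) (v ++ σ₀ (ρ (u ++ s :: w))) =
          lvM Ms u.length (u ++ s :: w).length := by
      intro u s w hw
      rw [hρeq _ hw, hρeq u (by simp at hw; omega)]
      exact hlv₀ u s w hw
    have h2i : 2 ^ i ≤ 2 ^ I := Nat.pow_le_pow_right (by norm_num) hiI
    have hai : a ≤ 2 ^ i := by
      have hl : (List.replicate a false).length = a := by simp
      have h1 := hσ₀.1.le_length (List.replicate a false) hl.le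
      have h2 := hσ₀.2 (List.replicate a false) hl.le
      omega
    have hah : a ≤ h := by omega
    refine ⟨i, Ms, fun x => v ++ σ₀ (ρ x), hi1, hiI, hMs, hMp, ?_, ?_⟩
    · have h1 : a ≤ ZZ B h * Ms.prod := hle.trans (Nat.mul_le_mul (ZZ_mono B hah) le_rfl)
      omega
    · refine ⟨(hσ₀.1.append v).comp hρ, fun x _ => List.prefix_append _ _, ?_, hlv, ?_⟩
      · intro x hx
        exact hin _ (hρ.length_lt hx)
      · intro x hx
        have hxl := hρl x hx
        have hnb := hout _ hxl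
        have hlen := hσ₀.2 (ρ x) hxl.le
        have hel : (v ++ σ₀ (ρ x)).length ≤ v.length + 2 ^ i := by simp; omega
        refine ⟨⟨by omega, ?_⟩, hel⟩
        intro u hu hul
        have h1 : (v ++ σ₀ (ρ x)).length < h := lt_of_le_of_lt hu.length_le hul
        have h2 : B < lv v (v ++ σ₀ (ρ x)) := by
          by_contra hcon
          exact hnb ⟨h1, by omega⟩
        have h3 := hU v (v ++ σ₀ (ρ x)) u (List.prefix_append _ _) hu hul
        rw [h3]
        exact lt_of_lt_of_le h2 (le_max_left _ _)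
  · left
    have hH1 : 1 ≤ 2 ^ (I - 1) := Nat.one_le_two_pow
    have hHI : 2 ^ (I - 1) ≤ 2 ^ I := Nat.pow_le_pow_right (by norm_num) (by omega)
    have hpre' : ∀ (x y : List Bool), x <+: y → blk y → blk x := by
      intro x y hxy
      obtain ⟨r, rfl⟩ := hxy
      induction r using List.reverseRecOn with
      | nil => simp
      | append_singleton r s ih =>
        intro hy
        exact ih (hpre _ s (by simpa using hy))
    have hall : ∀ x : List Bool, x.length ≤ 2 ^ (I - 1) → blk (σ₀ x) := by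
      intro x hx
      have hl : (x ++ List.replicate (2 ^ (I - 1) - x.length) false).length = 2 ^ (I - 1) := by
        simp; omega
      exact hpre' _ _ (hσ₀.1.pre (List.prefix_append x _) hl.le) (hleaf _ hl).2
    obtain ⟨Ms, hMs, hMp, hle, ρ, hρ, hlv⟩ := key (2 ^ (I - 1)) (2 ^ I) σ₀ hσ₀
      (fun x hx => hall x hx.le) hH1
    refine ⟨Ms, hMs, hMp, hle.trans (Nat.mul_le_mul (ZZ_mono B (by omega)) le_rfl),
      fun x => v ++ σ₀ (ρ x), ⟨(hσ₀.1.append v).comp hρ, ?_⟩, hlv⟩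
    intro x hx
    exact (hall _ (hρ.2 x hx)).1.le

end Pool.Agent.H41.Ex
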