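import Mathlib
import Pool.Agent.H41.Ex.UStep

set_option autoImplicit false

/-!
The potential argument of the uniformisation lemma.

A *class* is a pair `(i, e)`, `i ≤ log2 h`, `e : Fin (B + 1) → ℕ` with values `≤ log2 h`; its list
of radices is `Ms = List.ofFn (fun j => 2 ^ e j)`; it is admissible if
`2 ^ i ≤ 4 * (ZZ B h * Ms.prod)`.  There are at most `(log2 h + 1) ^ (B + 2)` classes (index them
by `Fin (log2 h + 1) × (Fin (B + 1) → Fin (log2 h + 1))`).
For a class `c` let `lam c v` be the largest `L ≤ h` with `Lay h B (2 ^ i) lv Ms L v`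
(`Nat.findGreatest`, classical; `Lay 0 v` holds for `v.length ≤ h`; by `Lay.length_le` every `L`
with `Lay .. L v` is `≤ h`).  By `Lay.up`, `lam c v' ≤ lam c v` if `v <+: v'`.

CLAIM.  Assume that the first alternative of the theorem fails.  Then for all `v` with
`v.length ≤ h`:  `h - v.length ≤ h / 2 + ∑ c admissible, 2 ^ i_c * lam c v`.
Proof: strong induction on `m = h - v.length`.  If `m ≤ h / 2`, clear.  Otherwise `m ≥ 2` (as
`h ≥ 4`); let `I = Nat.log 2 m ≥ 1`, so `2 ^ I ≤ m < 2 ^ (I + 1)`, and `v.length + 2 ^ I ≤ h`.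
Apply `ustep` (`lv v v ≤ B` by `hself`).  A stay tree has
`2 ^ (I - 1) ≤ ZZ B h * Ms.prod` and `h / 2 < m < 2 ^ (I + 1)`, so
`h ≤ 2 * m ≤ 2 ^ (I + 2) = 8 * 2 ^ (I - 1) ≤ 8 * (ZZ B h * Ms.prod)`: first alternative.
So there are `i ≤ I`, `Ms`, `τ` with `Str h B (2 ^ i) lv Ms v τ`; the class `c₀ = (i, Ms)` is
admissible (the radices are powers of `2` and `≤ Ms.prod ≤ h`, since `τ` gives nodes at all depths
`≤ Ms.prod`: `Emb.le_length`, so their exponents are `≤ log2 h`).
If all leaves `e = τ x` (`x.length = Ms.prod`) had `lam c₀ e ≥ lam c₀ v`, then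
`Lay .. (lam c₀ v + 1) v`, a contradiction.  So some leaf `e` has `lam c₀ e + 1 ≤ lam c₀ v`.
It satisfies `v <+: e`, `v.length < e.length ≤ min h (v.length + 2 ^ i)`.  The induction
hypothesis for `e` gives
`m - 2 ^ i ≤ h - e.length ≤ h / 2 + ∑ c, 2 ^ i_c * lam c e ≤ h / 2 + ∑ c, 2 ^ i_c * lam c v - 2 ^ i`.
Apply the claim to `v = []`: `h ≤ h / 2 + ∑ ..`, hence `∑ .. ≥ h - h / 2 ≥ h / 2` and some
admissible class has `(log2 h + 1) ^ (B + 2) * (2 ^ i * lam) ≥ h - h / 2`, so
`h ≤ 2 * ((log2 h + 1) ^ (B + 2) * (2 ^ i * lam))`; in particular `lam ≥ 1`.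
-/

namespace Pool.Agent.H41.Ex

open Classical in
/-- the list of radices of a class -/
noncomputable def potMs {B b : ℕ} (e : Fin (B + 1) → Fin (b + 1)) : List ℕ := List.ofFn (fun j => 2 ^ (e j : ℕ))

lemma pot_pos {B b : ℕ} (e : Fin (B + 1) → Fin (b + 1)) : ∀ M ∈ potMs e, 1 ≤ M := by
  intro M hM
  unfold potMs at hM
  rw [List.mem_ofFn] at hM
  obtain ⟨j, rfl⟩ := hM
  exact Nat.one_le_two_pow

lemma pot_pow {B b : ℕ} (e : Fin (B + 1) → Fin (b + 1)) : ∀ M ∈ potMs e, ∃ k : ℕ, M = 2 ^ k := by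
  intro M hM
  unfold potMs at hM
  rw [List.mem_ofFn] at hM
  obtain ⟨j, rfl⟩ := hM
  exact ⟨_, rfl⟩

lemma pot_exists {B b : ℕ} {Ms : List ℕ} (hlen : Ms.length = B + 1) (hpow : ∀ M ∈ Ms, ∃ e : ℕ, M = 2 ^ e)
    (hb : ∀ M ∈ Ms, ∀ e : ℕ, M = 2 ^ e → e ≤ b) : ∃ e : Fin (B + 1) → Fin (b + 1), potMs e = Ms := by
  have h1 : ∀ j : Fin (B + 1), ∃ e : Fin (b + 1), Ms[(j : ℕ)]'(by rw [hlen]; exact j.2) = 2 ^ (e : ℕ) := by
    intro j
    obtain ⟨e, he⟩ := hpow (Ms[(j : ℕ)]'(by rw [hlen]; exact j.2)) (List.getElem_mem _)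
    have := hb _ (List.getElem_mem _) e he
    exact ⟨⟨e, by omega⟩, he⟩
  choose e he using h1
  refine ⟨e, ?_⟩
  unfold potMs
  apply List.ext_getElem
  · rw [List.length_ofFn, hlen]
  · intro n h1 h2
    rw [List.getElem_ofFn]
    exact (he ⟨n, by rw [← hlen]; exact h2⟩).symm

open Classical in
/-- the number of layers -/
noncomputable def potLam (h B D : ℕ) (lv : List Bool → List Bool → ℕ) (Ms : List ℕ) (v : List Bool) : ℕ :=
  Nat.findGreatest (fun L => Lay h B D lv Ms L v) h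

lemma pot_spec {h B D : ℕ} {lv : List Bool → List Bool → ℕ} {Ms : List ℕ} {v : List Bool} (hv : v.length ≤ h) :
    Lay h B D lv Ms (potLam h B D lv Ms v) v := by
  classical
  unfold potLam
  exact Nat.findGreatest_spec (P := fun L => Lay h B D lv Ms L v) (m := 0) (Nat.zero_le _) hv

lemma pot_le {h B D : ℕ} {lv : List Bool → List Bool → ℕ} {Ms : List ℕ} (hpos : ∀ M ∈ Ms, 1 ≤ M)
    {v : List Bool} {L : ℕ} (hL : Lay h B D lv Ms L v) : L ≤ potLam h B D lv Ms v := by
  classical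
  unfold potLam
  have h1 := hL.length_le hpos
  exact Nat.le_findGreatest (by omega) hL

lemma pot_mono {h B D : ℕ} {lv : List Bool → List Bool → ℕ} {Ms : List ℕ} (hpos : ∀ M ∈ Ms, 1 ≤ M)
    {v v' : List Bool} (hvv : v <+: v') (hv : v'.length ≤ h) :
    potLam h B D lv Ms v' ≤ potLam h B D lv Ms v :=
  pot_le hpos ((pot_spec hv).up hvv)

/-- one layer gives a leaf with fewer layers below -/
lemma pot_leaf {h B D : ℕ} {lv : List Bool → List Bool → ℕ} {Ms : List ℕ} (hpos : ∀ M ∈ Ms, 1 ≤ M)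
    {v : List Bool} {τ : List Bool → List Bool} (hS : Str h B D lv Ms v τ) :
    ∃ e : List Bool, v <+: e ∧ v.length < e.length ∧ e.length ≤ h ∧ e.length ≤ v.length + D ∧
      potLam h B D lv Ms e + 1 ≤ potLam h B D lv Ms v := by
  have hP : 1 ≤ Ms.prod := Nat.one_le_iff_ne_zero.2 (List.prod_ne_zero (fun h0 => by
    have := hpos 0 h0; omega))
  by_contra hcon
  push Not at hcon
  have key : ∀ x : List Bool, x.length = Ms.prod → potLam h B D lv Ms v ≤ potLam h B D lv Ms (τ x) := by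
    intro x hx
    have h1 := hS.out x hx
    have h2 : v.length < (τ x).length := by
      cases x with
      | nil => simp at hx; omega
      | cons s w =>
        have h3 := hS.emb.length_lt [] s w (by simpa using hx.le)
        have h4 := (hS.pre [] (by simp)).length_le
        simp only [List.nil_append] at h3
        omega
    have h3 := hcon (τ x) (hS.pre x hx.le) h2 h1.1.1 h1.2
    omega
  have h1 : Lay h B D lv Ms (potLam h B D lv Ms v + 1) v :=
    ⟨v, List.prefix_rfl, τ, hS, fun x hx => (pot_spec (hS.out x hx).1.1).mono hpos (key x hx)⟩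
  have h2 := pot_le hpos h1
  omega

/-- the radices of a layer are at most `h` -/
lemma pot_prod_le {h B D : ℕ} {lv : List Bool → List Bool → ℕ} {Ms : List ℕ}
    {v : List Bool} {τ : List Bool → List Bool} (hS : Str h B D lv Ms v τ) : Ms.prod ≤ h := by
  have h1 := hS.emb.le_length (List.replicate Ms.prod false) (by simp)
  have h2 := (hS.out (List.replicate Ms.prod false) (by simp)).1.1
  simp only [List.length_replicate] at h1
  omega

theorem potential {h B : ℕ} (hh : 4 ≤ h) (hUn : Unif B) {lv : List Bool → List Bool → ℕ}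
    (hU : Ultra h lv) (hself : ∀ v : List Bool, v.length < h → lv v v ≤ B) :
    (∃ Ms : List ℕ, Ms.length = B + 1 ∧ (∀ M ∈ Ms, ∃ e : ℕ, M = 2 ^ e) ∧
      h ≤ 8 * (ZZ B h * Ms.prod) ∧ ∃ σ : List Bool → List Bool, EmbIn h Ms.prod σ ∧
        ∀ (u : List Bool) (s : Bool) (w : List Bool), (u ++ s :: w).length < Ms.prod →
          lv (σ u) (σ (u ++ s :: w)) = lvM Ms u.length (u ++ s :: w).length) ∨
    ∃ (i : ℕ) (Ms : List ℕ) (L : ℕ), Ms.length = B + 1 ∧
      (∀ M ∈ Ms, ∃ e : ℕ, M = 2 ^ e) ∧ 2 ^ i ≤ 4 * (ZZ B h * Ms.prod) ∧ 1 ≤ L ∧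
      h ≤ 2 * ((Nat.log 2 h + 1) ^ (B + 2) * (2 ^ i * L)) ∧ Lay h B (2 ^ i) lv Ms L [] := by
  classical
  by_cases hno : (∃ Ms : List ℕ, Ms.length = B + 1 ∧ (∀ M ∈ Ms, ∃ e : ℕ, M = 2 ^ e) ∧
      h ≤ 8 * (ZZ B h * Ms.prod) ∧ ∃ σ : List Bool → List Bool, EmbIn h Ms.prod σ ∧
        ∀ (u : List Bool) (s : Bool) (w : List Bool), (u ++ s :: w).length < Ms.prod →
          lv (σ u) (σ (u ++ s :: w)) = lvM Ms u.length (u ++ s :: w).length)
  · exact Or.inl hno
  right
  obtain ⟨b, hb⟩ : ∃ b, b = Nat.log 2 h := ⟨_, rfl⟩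
  rw [← hb]
  let K := Fin (b + 1) × (Fin (B + 1) → Fin (b + 1))
  let adm : Finset K := Finset.univ.filter (fun c : K => 2 ^ (c.1 : ℕ) ≤ 4 * (ZZ B h * (potMs c.2).prod))
  let val : K → List Bool → ℕ := fun c v => 2 ^ (c.1 : ℕ) * potLam h B (2 ^ (c.1 : ℕ)) lv (potMs c.2) v
  have claim : ∀ (m : ℕ) (v : List Bool), v.length ≤ h → m = h - v.length →
      h - v.length ≤ h / 2 + ∑ c ∈ adm, val c v := by
    intro m
    induction m using Nat.strong_induction_on with
    | _ m ih =>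
      intro v hv hm
      by_cases hm2 : m ≤ h / 2
      · omega
      push Not at hm2
      obtain ⟨I, hI⟩ : ∃ I, I = Nat.log 2 m := ⟨_, rfl⟩
      have hm0 : m ≠ 0 := by omega
      have hI1 : 2 ^ I ≤ m := by rw [hI]; exact Nat.pow_log_le_self 2 hm0
      have hI2 : m < 2 ^ (I + 1) := by rw [hI]; exact Nat.lt_pow_succ_log_self (by norm_num) m
      have hI0 : 1 ≤ I := by
        rw [hI]
        exact Nat.le_log_of_pow_le (by norm_num) (by omega)
      have hIb : I ≤ b := by
        rw [hI, hb]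
        exact Nat.log_mono_right (by omega)
      have hvh : v.length < h := by omega
      rcases ustep hUn hU (hself v hvh) hI0 (by omega : v.length + 2 ^ I ≤ h) with h1 | h1
      · exfalso
        obtain ⟨Ms, a1, a2, a3, a4⟩ := h1
        refine hno ⟨Ms, a1, a2, ?_, a4⟩
        have e1 : 2 ^ (I + 1) = 4 * 2 ^ (I - 1) := by
          obtain ⟨I', rfl⟩ : ∃ I', I = I' + 1 := ⟨I - 1, by omega⟩
          simp only [Nat.add_sub_cancel]
          ring
        omega
      · obtain ⟨i, Ms, τ, b1, b2, b3, b4, b5, b6⟩ := h1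
        have hprod := pot_prod_le b6
        have hpos0 : ∀ M ∈ Ms, 1 ≤ M := by
          intro M hM
          obtain ⟨e, rfl⟩ := b4 M hM
          exact Nat.one_le_two_pow
        have hP : 0 < Ms.prod := Nat.pos_of_ne_zero (List.prod_ne_zero (fun h0 => by
          have := hpos0 0 h0; omega))
        obtain ⟨e, he⟩ := pot_exists (b := b) b3 b4 (by
          intro M hM e he
          have h2 : M ≤ Ms.prod := Nat.le_of_dvd hP (List.dvd_prod hM)
          rw [hb]
          exact Nat.le_log_of_pow_le (by norm_num) (by rw [← he]; omega))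
        let c₀ : K := (⟨i, by omega⟩, e)
        have hc₀ : c₀ ∈ adm := by
          simp only [adm, Finset.mem_filter, Finset.mem_univ, true_and, c₀, he]
          exact b5
        obtain ⟨x, x1, x2, x3, x4, x5⟩ := pot_leaf hpos0 b6
        have h3 := ih (h - x.length) (by omega) x x3 rfl
        have h4 : ∑ c ∈ adm, val c x + 2 ^ i ≤ ∑ c ∈ adm, val c v := by
          rw [← Finset.add_sum_erase _ _ hc₀, ← Finset.add_sum_erase adm (fun c => val c v) hc₀]
          have h5 : ∑ c ∈ adm.erase c₀, val c x ≤ ∑ c ∈ adm.erase c₀, val c v :=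
            Finset.sum_le_sum fun c _ => Nat.mul_le_mul_left _ (pot_mono (pot_pos c.2) x1 x3)
          have h6 : val c₀ x + 2 ^ i ≤ val c₀ v := by
            simp only [val, c₀, he]
            calc 2 ^ i * potLam h B (2 ^ i) lv Ms x + 2 ^ i = 2 ^ i * (potLam h B (2 ^ i) lv Ms x + 1) := by ring
              _ ≤ 2 ^ i * potLam h B (2 ^ i) lv Ms v := Nat.mul_le_mul_left _ x5
          omega
        omega
  have hfin := claim h [] (by simp) (by simp)
  simp only [List.length_nil, Nat.sub_zero] at hfin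
  obtain ⟨N, hN⟩ : ∃ N, N = (b + 1) ^ (B + 2) := ⟨_, rfl⟩
  have hNpos : 0 < N := by rw [hN]; positivity
  have hcard : adm.card ≤ N := by
    refine (Finset.card_le_univ _).trans ?_
    simp only [K, Fintype.card_prod, Fintype.card_fin, Fintype.card_fun]
    rw [hN]
    exact le_of_eq (by ring)
  have hex : ∃ c ∈ adm, h - h / 2 ≤ N * val c [] := by
    by_contra hcon
    push Not at hcon
    have h1 : ∑ c ∈ adm, N * val c [] ≤ ∑ c ∈ adm, (h - h / 2 - 1) :=
      Finset.sum_le_sum fun c hc => by have := hcon c hc; omega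
    rw [← Finset.mul_sum, Finset.sum_const, smul_eq_mul] at h1
    have h2 : N * ∑ c ∈ adm, val c [] ≤ N * (h - h / 2 - 1) := h1.trans (Nat.mul_le_mul_right _ hcard)
    have h3 := Nat.le_of_mul_le_mul_left h2 hNpos
    omega
  obtain ⟨c, hc, hval⟩ := hex
  simp only [adm, Finset.mem_filter, Finset.mem_univ, true_and] at hc
  refine ⟨c.1, potMs c.2, potLam h B (2 ^ (c.1 : ℕ)) lv (potMs c.2) [], ?_, pot_pow c.2, hc, ?_, ?_, pot_spec (by simp)⟩
  · unfold potMs
    rw [List.length_ofFn]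
  · by_contra h0
    have h1 : potLam h B (2 ^ (c.1 : ℕ)) lv (potMs c.2) [] = 0 := by omega
    simp only [val] at hval
    rw [h1] at hval
    simp at hval
    omega
  · simp only [val] at hval
    rw [← hN]
    omega

end Pool.Agent.H41.Ex
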