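import Mathlib
import Pool.Agent.H41.Ex.Potential

set_option autoImplicit false

/-!
The uniformisation lemma.

PROOF.  Induction on `B`.
`B = 0`: `Ms = [2 ^ Nat.log 2 h]`, `σ = id`: `h < 2 * 2 ^ log2 h`; `lv ≤ 0`, and
`lvM [M] x y = 0` for `x, y < M`.
`B → B + 1`: let `lv ≤ B + 1` be an ultrametric on the tree of height `h`.
We may assume that `lv v v ≤ B` for all nodes: replace `lv` by
`lv' u w = if u = w then 0 else lv u w`; this is again `Ultra` and `≤ B + 1`, and the conclusion
only speaks of pairs `σ u ≠ σ (u ++ s :: w)` (different lengths by `Emb.length_lt`).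
If `h < 4`: `Ms = List.replicate (B + 2) 1`, `Ms.prod = 1`, `σ x = x`, `h ≤ ZZ (B + 1) h` (there is
no pair of comparable nodes, as `(u ++ s :: w).length < 1` is impossible).
If `h ≥ 4`: apply `potential`.
First alternative: append the radix `1 = 2 ^ 0`: `Ms ++ [1]` (`lvM_append_of_lt`),
`8 * ZZ B h ≤ ZZ (B + 1) h`.
Second alternative: `L' = 2 ^ Nat.log 2 L ≤ L < 2 * L'`; `Lay.mono`, `lay_build` with `L'` (and
`v = []`) gives an embedding of the tree of height `Ms.prod * L' = (Ms ++ [L']).prod` with the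
right levels, and
`h ≤ 2 * (log2 h + 1) ^ (B + 2) * 2 ^ i * L ≤ 2 * (..) * (4 * ZZ B h * Ms.prod) * (2 * L')
  = ZZ (B + 1) h * (Ms ++ [L']).prod`.
-/

namespace Pool.Agent.H41.Ex

private lemma uniform_ZZ_pos (B h : ℕ) : 1 ≤ ZZ B h := by
  induction B with
  | zero => simp [ZZ]
  | succ B ih =>
    have : 0 < 16 * ZZ B h * (Nat.log 2 h + 1) ^ (B + 2) := by positivity
    exact this

theorem uniformise (B : ℕ) : Unif B := by
  induction B with
  | zero =>
    intro h lv hh hU hB
    have hle : 2 ^ Nat.log 2 h ≤ h := Nat.pow_log_le_self 2 (by omega)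
    refine ⟨[2 ^ Nat.log 2 h], rfl, ?_, ?_, fun x => x, ?_, ?_⟩
    · intro M hM
      rw [List.mem_singleton] at hM
      exact ⟨_, hM⟩
    · have h1 : h < 2 ^ (Nat.log 2 h + 1) := Nat.lt_pow_succ_log_self (by norm_num) h
      rw [pow_succ] at h1
      simp only [ZZ, List.prod_singleton]
      omega
    · rw [List.prod_singleton]
      exact (EmbIn.id h).mono le_rfl hle
    · intro u s w hw
      rw [List.prod_singleton] at hw
      have h1 := hB u (u ++ s :: w) (List.prefix_append _ _) (lt_of_lt_of_le hw hle)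
      have h2 : u.length < (u ++ s :: w).length := by simp
      have e1 : u.length / 2 ^ Nat.log 2 h = 0 := Nat.div_eq_of_lt (h2.trans hw)
      have e2 : (u ++ s :: w).length / 2 ^ Nat.log 2 h = 0 := Nat.div_eq_of_lt hw
      simp only [lvM, e1, e2, if_true]
      omega
  | succ B hUn =>
    intro h lv hh hU hB
    by_cases h4 : h < 4
    · refine ⟨List.replicate (B + 2) 1, by simp, ?_, ?_, fun x => x, ?_, ?_⟩
      · intro M hM
        exact ⟨0, by rw [List.eq_of_mem_replicate hM, pow_zero]⟩
      · simp only [List.prod_replicate, one_pow, mul_one, ZZ]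
        have h1 := uniform_ZZ_pos B h
        have h2 : 1 ≤ (Nat.log 2 h + 1) ^ (B + 2) := Nat.one_le_pow _ _ (by omega)
        have h3 : 16 * 1 * 1 ≤ 16 * ZZ B h * (Nat.log 2 h + 1) ^ (B + 2) :=
          Nat.mul_le_mul (Nat.mul_le_mul_left _ h1) h2
        omega
      · simp only [List.prod_replicate, one_pow]
        exact (EmbIn.id h).mono le_rfl hh
      · intro u s w hw
        simp only [List.prod_replicate, one_pow, List.length_append, List.length_cons] at hw
        omega
    push Not at h4
    set lv' : List Bool → List Bool → ℕ := fun u w => if u = w then 0 else lv u w with hlv'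
    have hU' : Ultra h lv' := by
      intro u v w huv hvw hw
      simp only [hlv']
      by_cases h1 : u = v
      · subst h1
        simp
      by_cases h2 : v = w
      · subst h2
        simp
      have h3 : u ≠ w := by
        rintro rfl
        exact h1 (huv.eq_of_length_le hvw.length_le)
      rw [if_neg h1, if_neg h2, if_neg h3]
      exact hU u v w huv hvw hw
    have hB' : ∀ u w : List Bool, u <+: w → w.length < h → lv' u w ≤ B + 1 := by
      intro u w huw hw
      simp only [hlv']
      split_ifs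
      · omega
      · exact hB u w huw hw
    have hself : ∀ v : List Bool, v.length < h → lv' v v ≤ B := by
      intro v _
      simp [hlv']
    have hback : ∀ {n : ℕ} {σ : List Bool → List Bool}, Emb n σ → ∀ (u : List Bool) (s : Bool) (w : List Bool),
        (u ++ s :: w).length < n → lv (σ u) (σ (u ++ s :: w)) = lv' (σ u) (σ (u ++ s :: w)) := by
      intro n σ hσ u s w hw
      have h1 : σ u ≠ σ (u ++ s :: w) := by
        intro he
        have := hσ.length_lt u s w hw.le
        rw [← he] at this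
        exact lt_irrefl _ this
      simp only [hlv', if_neg h1]
    have hpos' : ∀ {Ms : List ℕ}, (∀ M ∈ Ms, ∃ e : ℕ, M = 2 ^ e) → ∀ M ∈ Ms, 1 ≤ M := by
      intro Ms hMs M hM
      obtain ⟨e, rfl⟩ := hMs M hM
      exact Nat.one_le_two_pow
    have hZ : ZZ (B + 1) h = 16 * ZZ B h * (Nat.log 2 h + 1) ^ (B + 2) := rfl
    rcases potential h4 hUn hU' hself with ⟨Ms, hlen, hpow, hle, σ, hσ, hl⟩ | ⟨i, Ms, L, hlen, hpow, hi, hL, hle, hLay⟩
    · have hprod : (Ms ++ [1]).prod = Ms.prod := by simp
      have hne : Ms ≠ [] := by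
        rintro rfl
        simp at hlen
      refine ⟨Ms ++ [1], by simp [hlen], ?_, ?_, σ, ?_, ?_⟩
      · intro M hM
        rw [List.mem_append, List.mem_singleton] at hM
        rcases hM with hM | hM
        · exact hpow M hM
        · exact ⟨0, by rw [hM, pow_zero]⟩
      · rw [hprod, hZ]
        have h2 : 1 ≤ (Nat.log 2 h + 1) ^ (B + 2) := Nat.one_le_pow _ _ (by omega)
        calc h ≤ 8 * (ZZ B h * Ms.prod) := hle
          _ ≤ 16 * (ZZ B h * Ms.prod) := Nat.mul_le_mul_right _ (by norm_num)
          _ = 16 * ZZ B h * 1 * Ms.prod := by ring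
          _ ≤ 16 * ZZ B h * (Nat.log 2 h + 1) ^ (B + 2) * Ms.prod :=
            Nat.mul_le_mul_right _ (Nat.mul_le_mul_left _ h2)
      · rw [hprod]
        exact hσ
      · intro u s w hw
        rw [hprod] at hw
        rw [hback hσ.1 u s w hw, hl u s w hw]
        have h2 : u.length < (u ++ s :: w).length := by simp
        exact (lvM_append_of_lt hne (hpos' hpow) [1] (h2.trans hw) hw).symm
    · have hL0 : L ≠ 0 := by omega
      have hL1 : 2 ^ Nat.log 2 L ≤ L := Nat.pow_log_le_self 2 hL0
      have hL2 : L < 2 ^ (Nat.log 2 L + 1) := Nat.lt_pow_succ_log_self (by norm_num) L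
      have hL3 : 1 ≤ 2 ^ Nat.log 2 L := Nat.one_le_two_pow
      obtain ⟨σ, hσ, hσ2, hl⟩ := lay_build hU' hB' hlen (hpos' hpow) hL3 (hLay.mono (hpos' hpow) hL1)
      have hprod : (Ms ++ [2 ^ Nat.log 2 L]).prod = Ms.prod * 2 ^ Nat.log 2 L := by
        rw [List.prod_append, List.prod_singleton]
      refine ⟨Ms ++ [2 ^ Nat.log 2 L], by simp [hlen], ?_, ?_, σ, ?_, ?_⟩
      · intro M hM
        rw [List.mem_append, List.mem_singleton] at hM
        rcases hM with hM | hM
        · exact hpow M hM
        · exact ⟨_, hM⟩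
      · rw [hprod, hZ]
        rw [pow_succ] at hL2
        have h5 : 2 ^ i * L ≤ 4 * (ZZ B h * Ms.prod) * (2 ^ Nat.log 2 L * 2) := Nat.mul_le_mul hi hL2.le
        calc h ≤ 2 * ((Nat.log 2 h + 1) ^ (B + 2) * (2 ^ i * L)) := hle
          _ ≤ 2 * ((Nat.log 2 h + 1) ^ (B + 2) * (4 * (ZZ B h * Ms.prod) * (2 ^ Nat.log 2 L * 2))) :=
            Nat.mul_le_mul_left _ (Nat.mul_le_mul_left _ h5)
          _ = 16 * ZZ B h * (Nat.log 2 h + 1) ^ (B + 2) * (Ms.prod * 2 ^ Nat.log 2 L) := by ring
      · rw [hprod]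
        exact ⟨hσ, fun x hx => (hσ2 x hx).2⟩
      · intro u s w hw
        rw [hprod] at hw
        rw [hback hσ u s w hw]
        exact hl u s w hw

end Pool.Agent.H41.Ex
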