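import Mathlib
import Pool.Agent.H41.Ex.Profile
import Pool.Agent.H41.Ex.Uniform
import Pool.Agent.H41.Ex.Sublevels
import Pool.Agent.H41.Ex.GeoEmb
import Pool.Agent.H41.Ex.SignChanges
import Pool.Agent.H41.Ex.Forcing
import Pool.Agent.H41.Ex.Types
import Pool.Agent.H41.Ex.Skip
import Pool.Agent.H41.Ex.Closing

set_option autoImplicit false

/-!
The large `3 q`-convex set inside a tree.

PROOF.  `sign_changes`: `SignC h (2 * k) lab`.  `profile` (with `N = 2 * k`) gives `B ≤ 4 * k`, `X`,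
`lvd`, `σ₁` (`EmbIn h m σ₁`).  `uniformise B` for the height `m` and
`lv u w = lvd (σ₁ u).length (σ₁ w).length` (`Ultra m lv` by `Emb.pre`, monotone lengths) gives
`Ms` (length `B + 1`, powers of `2`), `m ≤ ZZ B m * Ms.prod`, `σ₂` (`EmbIn m Ms.prod σ₂`).
Let `Λ₀ = Ms.mapIdx (fun i M => (M, X i))`: `tot Λ₀ = Ms.prod`; for the labels
`lab₂ = lab ∘ σ₁ ∘ σ₂`, `HomF Ms.prod lab₂ (flev Λ₀)` by `flev_eq`.
Let `Λ₁ = Λ₀.filter (fun p => 5 ≤ p.1)`, `T = tot Λ₁`: the dropped radices are powers of `2` less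
than `5`, so `≤ 4`, and there are at most `B + 1` of them: `tot Λ₀ ≤ 4 ^ (B + 1) * T`.  So
`m ≤ ZZ B m * (4 ^ (B + 1) * T) ≤ ZZ (4 * k) m * (4 ^ (4 * k + 1) * T)` (`ZZ` is monotone in `B`).
Assume `2 ≤ T`.  `sub_levels`, `index_emb` give an embedding of the tree of height `T` in the tree
of height `tot Λ₀`, `GeoF.emb` (after `EmbIn.pad` for `σ₁ ∘ σ₂`), `HomF.emb`, `HomF.congr`: the new
tree has `GeoF T φ₃ lab₃`, `HomF T lab₃ (flev Λ₁)`.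
`forcing`: `altL (Fw Λ₁ [] []) ≤ 2 * k`.  `types` and `good_of_alt`: `Good (k / 3) Λ₁`.
`skip`: `Λ'`, `Good q Λ'`, `T ^ eexp (k / 3) q ≤ tot Λ'`; as `T ≥ 2`, `tot Λ' > 1`, so `Λ' ≠ []`.  Embed again
(`sub_levels`, `index_emb`, ...).  `tree_close` for `Λ'`.
-/

namespace Pool.Agent.H41.Ex

open Pool.Agent.H41.Kc

lemma TreeMain_ZZ_mono {B B' : ℕ} (hB : B ≤ B') (m : ℕ) : ZZ B m ≤ ZZ B' m := by
  induction hB with
  | refl => exact le_rfl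
  | @step B' _ ih =>
    refine ih.trans ?_
    show ZZ B' m ≤ 16 * ZZ B' m * (Nat.log 2 m + 1) ^ (B' + 2)
    have h1 : 1 ≤ (Nat.log 2 m + 1) ^ (B' + 2) := Nat.one_le_pow _ _ (by omega)
    calc ZZ B' m ≤ 16 * ZZ B' m * 1 := by omega
      _ ≤ _ := Nat.mul_le_mul_left _ h1

lemma TreeMain_tot_cons (p : ℕ × (Bool → Bool)) (Λ : Lev) : tot (p :: Λ) = p.1 * tot Λ := by
  simp [tot]

lemma TreeMain_filter (Λ : Lev) :
    tot Λ ≤ 4 ^ Λ.length * tot (Λ.filter (fun p => decide (5 ≤ p.1))) := by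
  induction Λ with
  | nil => simp [tot]
  | cons p Λ ih =>
    rw [TreeMain_tot_cons, List.length_cons, pow_succ]
    by_cases hp : 5 ≤ p.1
    · rw [List.filter_cons_of_pos (by simpa using hp), TreeMain_tot_cons]
      calc p.1 * tot Λ ≤ p.1 * (4 ^ Λ.length * tot (Λ.filter (fun p => decide (5 ≤ p.1)))) :=
            Nat.mul_le_mul_left _ ih
        _ = 4 ^ Λ.length * 1 * (p.1 * tot (Λ.filter (fun p => decide (5 ≤ p.1)))) := by ring
        _ ≤ _ := Nat.mul_le_mul_right _ (Nat.mul_le_mul_left _ (by norm_num))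
    · rw [List.filter_cons_of_neg (by simpa using hp)]
      have h4 : p.1 ≤ 4 := by omega
      calc p.1 * tot Λ ≤ 4 * (4 ^ Λ.length * tot (Λ.filter (fun p => decide (5 ≤ p.1)))) :=
            Nat.mul_le_mul h4 ih
        _ = _ := by ring

lemma TreeMain_shrink {φ : List Bool → ℝ × ℝ} {lab : List Bool → ℝ} {Λ Λ' : Lev}
    {P : Set (ℝ × ℝ)} (hG : GeoF (tot Λ) φ lab) (hH : HomF (tot Λ) lab (flev Λ))
    (hφ : ∀ x : List Bool, x.length = tot Λ → φ x ∈ P) (hsub : Λ'.Sublist Λ)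
    (hpos : ∀ p ∈ Λ, 1 ≤ p.1) :
    ∃ (φ' : List Bool → ℝ × ℝ) (lab' : List Bool → ℝ), GeoF (tot Λ') φ' lab' ∧
      HomF (tot Λ') lab' (flev Λ') ∧ ∀ x : List Bool, x.length = tot Λ' → φ' x ∈ P := by
  obtain ⟨g, hg, hgn, hgf⟩ := sub_levels hsub hpos
  obtain ⟨σ, h1, h2, h3⟩ := index_emb hg hgn
  exact ⟨_, _, hG.emb h1 h3, (hH.emb h1 h2).congr (fun x y s hxy hy => hgf x y s hxy hy),
    fun x hx => hφ _ (h3 x hx)⟩

theorem tree_main {k q h m Λ A : ℕ} (hk : 3 ≤ k) (hq : 1 ≤ q) (hΛ : 2 ≤ Λ) (hA : h ≤ Λ ^ A)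
    (hA1 : 1 ≤ A) (hm1 : 1 ≤ m) (hm : 4 * A ^ (4 * k) * (m * (2 * Λ) ^ (4 * k)) ≤ h)
    {P : Set (ℝ × ℝ)} {φ : List Bool → ℝ × ℝ} {lab : List Bool → ℝ} (hP : GeneralPosition P)
    (hN : LineAlt (2 * k) P) (hG : GeoF h φ lab) (hφ : ∀ x : List Bool, x.length = h → φ x ∈ P) :
    ∃ T : ℕ, m ≤ ZZ (4 * k) m * (4 ^ (4 * k + 1) * T) ∧
      (2 ≤ T → ∀ c : ℕ, 3 ≤ c → (c : ℝ) ≤ (2 : ℝ) ^ ((T : ℝ) ^ (eexp (k / 3) q) / 2) →
        ∃ Q : Set (ℝ × ℝ), Q ⊆ P ∧ KConvexSet (3 * q) Q ∧ Q.ncard = c) := by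
  have hS : SignC h (2 * k) lab := sign_changes hG hφ hN
  obtain ⟨B, X, lvd, σ₁, hB, hlB, hlU, hσ₁, hrel⟩ := profile hΛ hA hA1 hm1 (N := 2 * k)
    (by rw [show 2 * (2 * k) = 4 * k by ring]; exact hm) lab hS
  have hlen : ∀ u v : List Bool, u <+: v → v.length ≤ m → (σ₁ u).length ≤ (σ₁ v).length :=
    fun u v huv hv => (hσ₁.1.pre huv hv).length_le
  obtain ⟨Ms, hMs1, hMs2, hMs3, σ₂, hσ₂, hlev⟩ := uniformise B m
    (fun u w => lvd (σ₁ u).length (σ₁ w).length) hm1 (by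
      intro u v w huv hvw hw
      exact hlU _ _ _ (hlen u v huv ((hvw.length_le).trans hw.le)) (hlen v w hvw hw.le)) (by
      intro u w _ _
      exact hlB _ _)
  have hMpos : ∀ M ∈ Ms, 1 ≤ M := by
    intro M hM
    obtain ⟨e, rfl⟩ := hMs2 M hM
    exact Nat.one_le_two_pow
  have hMne : Ms ≠ [] := by
    intro h0
    rw [h0] at hMs1
    simp at hMs1
  set Λ₀ : Lev := Ms.mapIdx (fun i M => (M, X i)) with hΛ₀
  have htot : tot Λ₀ = Ms.prod := tot_mapIdx Ms X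
  have hlen₀ : Λ₀.length = B + 1 := by rw [hΛ₀, List.length_mapIdx, hMs1]
  have hpos₀ : ∀ p ∈ Λ₀, 1 ≤ p.1 := by
    intro p hp
    rw [hΛ₀, List.mem_mapIdx] at hp
    obtain ⟨i, hi, rfl⟩ := hp
    exact hMpos _ (List.getElem_mem hi)
  -- the embedded tree of height `tot Λ₀`
  obtain ⟨σ, hσ, hσ1, -, hσ3⟩ := (hσ₁.comp hσ₂).pad
  have hG₀ : GeoF (tot Λ₀) (fun x => φ (σ x)) (fun x => lab (σ x)) := by
    rw [htot]
    exact hG.emb hσ hσ3
  have hH₀ : HomF (tot Λ₀) (fun x => lab (σ x)) (flev Λ₀) := by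
    rw [htot]
    intro v s w hw
    have hv : v.length < Ms.prod := by simp at hw; omega
    have h1 := hσ1 _ hw
    have h2 := hσ1 _ hv
    show decide (lab (σ v) < lab (σ (v ++ s :: w))) = _
    rw [h1, h2]
    obtain ⟨w', hw'⟩ := hσ₂.1.cons v s w hw.le
    have h3 := hσ₂.length_lt hw
    rw [hΛ₀, flev_eq Ms hMpos X s hv hw hMne, ← hlev v s w hw]
    show decide (lab (σ₁ (σ₂ v)) < lab (σ₁ (σ₂ (v ++ s :: w)))) =
      X (lvd (σ₁ (σ₂ v)).length (σ₁ (σ₂ (v ++ s :: w))).length) s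
    rw [hw'] at h3 ⊢
    exact hrel (σ₂ v) s w' h3
  have hφ₀ : ∀ x : List Bool, x.length = tot Λ₀ → (fun x => φ (σ x)) x ∈ P := by
    intro x hx
    rw [htot] at hx
    exact hφ _ (hσ3 x hx)
  set Λ₁ : Lev := Λ₀.filter (fun p => decide (5 ≤ p.1)) with hΛ₁
  have h5 : ∀ p ∈ Λ₁, 5 ≤ p.1 := by
    intro p hp
    rw [hΛ₁, List.mem_filter] at hp
    simpa using hp.2
  refine ⟨tot Λ₁, ?_, ?_⟩
  · have h1 := TreeMain_filter Λ₀
    rw [htot, hlen₀] at h1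
    have h2 : ZZ B m ≤ ZZ (4 * k) m := TreeMain_ZZ_mono (by omega) m
    have h3 : 4 ^ (B + 1) ≤ 4 ^ (4 * k + 1) := Nat.pow_le_pow_right (by norm_num) (by omega)
    calc m ≤ ZZ B m * Ms.prod := hMs3
      _ ≤ ZZ (4 * k) m * (4 ^ (B + 1) * tot Λ₁) := Nat.mul_le_mul h2 h1
      _ ≤ _ := Nat.mul_le_mul_left _ (Nat.mul_le_mul_right _ h3)
  · intro hT c hc hc'
    obtain ⟨φ₁, lab₁, hG₁, hH₁, hφ₁⟩ := TreeMain_shrink hG₀ hH₀ hφ₀
      (Λ' := Λ₁) List.filter_sublist hpos₀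
    have hF := forcing hG₁ hH₁ rfl h5 hφ₁ hN
    obtain ⟨p, Y, d, ht1, ht2⟩ := types hH₁ rfl (fun p hp => le_trans (by norm_num) (h5 p hp))
    have hgood : Good (k / 3) Λ₁ := good_of_alt hk ht1 ht2 hF
    obtain ⟨Λ', hsub, hgood', hpow⟩ := skip hq (fun p hp => le_trans (by norm_num) (h5 p hp)) hgood
    obtain ⟨φ₂, lab₂, hG₂, hH₂, hφ₂⟩ := TreeMain_shrink hG₁ hH₁ hφ₁ hsub
      (fun p hp => le_trans (by norm_num) (h5 p hp))
    have hne : Λ' ≠ [] := by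
      intro h0
      rw [h0] at hpow
      have h1 : (1 : ℝ) < (tot Λ₁ : ℝ) ^ (eexp (k / 3) q) := by
        apply Real.one_lt_rpow
        · have : (2 : ℝ) ≤ (tot Λ₁ : ℝ) := by exact_mod_cast hT
          linarith
        · exact lt_of_lt_of_le (by norm_num) (eexp_pos hq)
      have h2 : ((tot ([] : Lev) : ℕ) : ℝ) = 1 := by simp [tot]
      rw [h2] at hpow
      linarith
    refine tree_close hq hG₂ hH₂ rfl (fun p hp => le_trans (by norm_num) (h5 p (hsub.subset hp)))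
      hne hgood' hP hφ₂ hc (hc'.trans ?_)
    apply Real.rpow_le_rpow_of_exponent_le (by norm_num)
    linarith

end Pool.Agent.H41.Ex
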