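import Mathlib
import Pool.Agent.H41.Kc.Lower3
import Pool.Agent.H41.Ex.TreeMain
import Pool.Agent.H41.Ex.FromTree
import Pool.Agent.H41.Ex.Asym
import Pool.Agent.H41.Ex.SharpUp

set_option autoImplicit false

/-!
The exact exponent.
-/

namespace Pool.Agent.H41.Ex

open Pool.Agent.H41.Kc Filter Topology

/-- Lower bound: large `j`-convex subsets of every size. -/
theorem lower_main {k j : ℕ} (hj : 3 ≤ j) (hjk : j < k) :
    ∃ C : ℝ, ∃ n₀ : ℕ, ∀ n ≥ n₀, ∀ P : Set (ℝ × ℝ), P.ncard = n → KConvexSet k P → ∀ c : ℕ, 3 ≤ c →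
      (c : ℝ) ≤ Real.exp (Real.log n ^ (eexp (k / 3) (j / 3)) / Real.log (Real.log n) ^ C) →
      ∃ Q : Set (ℝ × ℝ), Q ⊆ P ∧ KConvexSet j Q ∧ Q.ncard = c := by
  have hq : 1 ≤ j / 3 := by omega
  have he0 : 0 < eexp (k / 3) (j / 3) := lt_of_lt_of_le (by norm_num) (eexp_pos hq)
  obtain ⟨C, n₀, hn₀⟩ := asym k he0 (eexp_le_one hq)
  refine ⟨C, n₀, fun n hn P hPn hP c hc hc' => ?_⟩
  obtain ⟨h, Λ, A, m, h1, h2, h3, h4, h4', h5, h6, h7⟩ := hn₀ n hn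
  refine from_tree (k := k) (j := j) (h := h) h1 ?_ hP (by rw [hPn]; exact h2)
  intro P₁ φ lab _ hg hN hG hφ
  obtain ⟨T, hT1, hT2⟩ := tree_main (by omega) hq h3 h4 h4' h5 h6 hg hN hG hφ
  obtain ⟨hT3, hT4⟩ := h7 T hT1
  obtain ⟨Q, hQ1, hQ2, hQ3⟩ := hT2 hT3 c hc (hc'.trans hT4)
  exact ⟨Q, hQ1, kconvex_mono' (by omega) hQ2, hQ3⟩

end Pool.Agent.H41.Ex
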