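import Mathlib
import Pool.Agent.H41.Ex.Final

set_option autoImplicit false

/-!
Limits.
-/

namespace Pool.Agent.H41.Ex

open Pool.Agent.H41.Kc Filter Topology

lemma Lim_aux {e : ℝ} (he : 0 < e) (F : ℕ → ℕ)
    (h : ∀ ε : ℝ, 0 < ε → ∃ n₀ : ℕ, ∀ n ≥ n₀,
      (∀ c : ℕ, 3 ≤ c → (c : ℝ) ≤ Real.exp (Real.log n ^ (e - ε)) → c ≤ F n) ∧
      (F n : ℝ) ≤ Real.exp (Real.log n ^ (e + ε))) :
    Tendsto (fun n : ℕ => Real.log (Real.log (F n)) / Real.log (Real.log n)) atTop (𝓝 e) := by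
  have hlog : Tendsto (fun n : ℕ => Real.log (n : ℝ)) atTop atTop :=
    Real.tendsto_log_atTop.comp tendsto_natCast_atTop_atTop
  have hloglog : Tendsto (fun n : ℕ => Real.log (Real.log (n : ℝ))) atTop atTop :=
    Real.tendsto_log_atTop.comp hlog
  rw [Metric.tendsto_atTop]
  intro δ hδ
  -- choose `ε = min (δ / 2) (e / 2)`
  set ε : ℝ := min (δ / 2) (e / 2) with hε
  have hε0 : 0 < ε := lt_min (by linarith) (by linarith)
  have hεδ : ε ≤ δ / 2 := min_le_left _ _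
  have hεe : ε ≤ e / 2 := min_le_right _ _
  obtain ⟨n₀, hn₀⟩ := h ε hε0
  have hpow : Tendsto (fun n : ℕ => Real.log (n : ℝ) ^ (e - ε)) atTop atTop :=
    (tendsto_rpow_atTop (by linarith)).comp hlog
  have hev := ((eventually_ge_atTop n₀).and ((hlog.eventually_gt_atTop 1).and
    ((hloglog.eventually_gt_atTop (4 * Real.log 2 / δ)).and
      (hpow.eventually_ge_atTop 4)))).exists_forall_of_atTop
  obtain ⟨N, hN⟩ := hev
  refine ⟨N, fun n hn => ?_⟩
  obtain ⟨h1, h2, h3, h4⟩ := hN n hn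
  obtain ⟨hlow, hup⟩ := hn₀ n h1
  set L := Real.log (n : ℝ) with hL
  have hL0 : 0 < L := by linarith
  have hlog2 : 0 < Real.log 2 := Real.log_pos (by norm_num)
  have hLL : 0 < Real.log L := Real.log_pos h2
  set x := L ^ (e - ε) with hx
  -- the integer
  have hexp : Real.exp 4 ≤ Real.exp x := Real.exp_le_exp.mpr h4
  have he4 : (5 : ℝ) ≤ Real.exp 4 := by
    have := Real.add_one_le_exp (4 : ℝ)
    linarith
  set c := ⌊Real.exp x⌋₊ with hc
  have hc1 : (c : ℝ) ≤ Real.exp x := Nat.floor_le (Real.exp_pos _).le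
  have hc2 : Real.exp x < c + 1 := Nat.lt_floor_add_one _
  have hc3 : 3 ≤ c := by
    have : (3 : ℝ) < c := by linarith
    exact_mod_cast this.le
  have hF : (c : ℝ) ≤ F n := by exact_mod_cast hlow c hc3 hc1
  have hFpos : (0 : ℝ) < F n := by
    have : (3 : ℝ) ≤ c := by exact_mod_cast hc3
    linarith
  -- lower bound for the logarithm
  have hlow2 : x / 2 ≤ Real.log (F n) := by
    rw [Real.le_log_iff_exp_le hFpos]
    refine le_trans ?_ hF
    have h5 : Real.exp (x / 2) * Real.exp (x / 2) = Real.exp x := by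
      rw [← Real.exp_add]; congr 1; ring
    have h6 : x / 2 + 1 ≤ Real.exp (x / 2) := Real.add_one_le_exp _
    have h7 : 3 ≤ Real.exp (x / 2) := by linarith
    nlinarith
  have hlogF : 0 < Real.log (F n) := by linarith
  have hup2 : Real.log (F n) ≤ L ^ (e + ε) := by
    rw [Real.log_le_iff_le_exp hFpos]
    exact hup
  have hxlog : Real.log x = (e - ε) * Real.log L := by
    rw [hx, Real.log_rpow hL0]
  have h8 : (e - ε) * Real.log L - Real.log 2 ≤ Real.log (Real.log (F n)) := by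
    rw [← hxlog, ← Real.log_div (by linarith) (by norm_num)]
    exact Real.log_le_log (by linarith) hlow2
  have h9 : Real.log (Real.log (F n)) ≤ (e + ε) * Real.log L := by
    rw [← Real.log_rpow hL0]
    exact Real.log_le_log hlogF hup2
  have h10 : Real.log 2 < δ / 4 * Real.log L := by
    rw [div_lt_iff₀ hδ] at h3
    linarith
  rw [Real.dist_eq, abs_lt]
  constructor
  · rw [lt_sub_iff_add_lt, lt_div_iff₀ hLL]
    nlinarith
  · rw [sub_lt_iff_lt_add, div_lt_iff₀ hLL]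
    nlinarith

/-- `log n ^ δ` beats `K * log log n ^ C` -/
lemma Lim_beat {δ : ℝ} (hδ : 0 < δ) (C K : ℝ) (hK : 0 < K) : ∃ n₀ : ℕ, ∀ n ≥ n₀,
    1 < Real.log n ∧ 2 ≤ Real.log (Real.log n) ∧
      K * Real.log (Real.log n) ^ C ≤ Real.log n ^ δ := by
  have hlog : Tendsto (fun n : ℕ => Real.log (n : ℝ)) atTop atTop :=
    Real.tendsto_log_atTop.comp tendsto_natCast_atTop_atTop
  have hloglog : Tendsto (fun n : ℕ => Real.log (Real.log (n : ℝ))) atTop atTop :=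
    Real.tendsto_log_atTop.comp hlog
  have h1 := (isLittleO_log_rpow_rpow_atTop C hδ).def (show (0 : ℝ) < K⁻¹ by positivity)
  obtain ⟨N, hN⟩ := ((hlog.eventually h1).and ((hlog.eventually_gt_atTop 1).and
    (hloglog.eventually_ge_atTop 2))).exists_forall_of_atTop
  refine ⟨N, fun n hn => ?_⟩
  obtain ⟨h2, h3, h4⟩ := hN n hn
  refine ⟨h3, h4, ?_⟩
  have h5 : 0 ≤ Real.log (Real.log (n : ℝ)) ^ C := Real.rpow_nonneg (by linarith) _
  have h6 : 0 ≤ Real.log (n : ℝ) ^ δ := Real.rpow_nonneg (by linarith) _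
  rw [Real.norm_of_nonneg h5, Real.norm_of_nonneg h6] at h2
  calc K * Real.log (Real.log n) ^ C ≤ K * (K⁻¹ * Real.log n ^ δ) :=
        mul_le_mul_of_nonneg_left h2 hK.le
    _ = Real.log n ^ δ := by field_simp

/-- rounding -/
lemma Lim_round {e : ℝ} (he : 0 < e) (C : ℝ) : ∃ n₀ : ℕ, ∀ n ≥ n₀, ∃ c : ℕ, 3 ≤ c ∧
    (c : ℝ) ≤ Real.exp (Real.log n ^ e / Real.log (Real.log n) ^ C) ∧
    Real.exp (Real.log n ^ e / Real.log (Real.log n) ^ (C + 1)) ≤ c := by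
  obtain ⟨N, hN⟩ := Lim_beat he C 4 (by norm_num)
  refine ⟨N, fun n hn => ?_⟩
  obtain ⟨h1, h2, h3⟩ := hN n hn
  set L := Real.log (n : ℝ) with hL
  set x := L ^ e / Real.log L ^ C with hx
  have hLL : 0 < Real.log L := by linarith
  have hp : 0 < Real.log L ^ C := Real.rpow_pos_of_pos hLL _
  have hx4 : 4 ≤ x := by
    rw [hx, le_div_iff₀ hp]; exact h3
  have hexp : Real.exp 4 ≤ Real.exp x := Real.exp_le_exp.mpr hx4
  have he4 : (5 : ℝ) ≤ Real.exp 4 := by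
    have := Real.add_one_le_exp (4 : ℝ)
    linarith
  have hc1 : ((⌊Real.exp x⌋₊ : ℕ) : ℝ) ≤ Real.exp x := Nat.floor_le (Real.exp_pos _).le
  have hc2 : Real.exp x < (⌊Real.exp x⌋₊ : ℕ) + 1 := Nat.lt_floor_add_one _
  refine ⟨⌊Real.exp x⌋₊, ?_, hc1, ?_⟩
  · have : (3 : ℝ) < (⌊Real.exp x⌋₊ : ℕ) := by linarith
    exact_mod_cast this.le
  · have h5 : Real.exp (x / 2) * Real.exp (x / 2) = Real.exp x := by
      rw [← Real.exp_add]; congr 1; ring
    have h6 : x / 2 + 1 ≤ Real.exp (x / 2) := Real.add_one_le_exp _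
    have h7 : L ^ e / Real.log L ^ (C + 1) ≤ x / 2 := by
      rw [Real.rpow_add hLL, Real.rpow_one, ← div_div, ← hx]
      exact div_le_div_of_nonneg_left (by linarith) (by norm_num) h2
    have h8 : Real.exp (L ^ e / Real.log L ^ (C + 1)) ≤ Real.exp (x / 2) :=
      Real.exp_le_exp.mpr h7
    nlinarith

/-- `f(k,j,n)`: the largest `m` such that every `k`-convex set of `n` points contains a `j`-convex
subset of size `m`. -/
noncomputable def f (k j n : ℕ) : ℕ :=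
  sSup {m : ℕ | ∀ P : Set (ℝ × ℝ), P.ncard = n → KConvexSet k P →
    ∃ Q : Set (ℝ × ℝ), Q ⊆ P ∧ Q.ncard = m ∧ KConvexSet j Q}

/-- the minimum, over all `k`-convex sets `P` of `n` points, of the maximal size of a `j`-convex
subset of `P` -/
noncomputable def g (k j n : ℕ) : ℕ :=
  sInf {M : ℕ | ∃ P : Set (ℝ × ℝ), P.ncard = n ∧ KConvexSet k P ∧
    M = sSup {m : ℕ | ∃ Q : Set (ℝ × ℝ), Q ⊆ P ∧ Q.ncard = m ∧ KConvexSet j Q}}

/-- bounds for `f` and `g` -/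
theorem Lim_bounds {k j : ℕ} (hj : 3 ≤ j) (hjk : j < k) :
    ∃ C : ℝ, 0 < C ∧ ∃ n₀ : ℕ, ∀ n ≥ n₀, ∀ F : ℕ, (F = f k j n ∨ F = g k j n) →
      Real.exp (Real.log n ^ (eexp (k / 3) (j / 3)) / Real.log (Real.log n) ^ C) ≤ F ∧
      (F : ℝ) ≤ Real.exp (C * Real.log n ^ (eexp (k / 3) (j / 3)) * Real.log (Real.log n)) := by
  have hq : 1 ≤ j / 3 := by omega
  have he0 : 0 < eexp (k / 3) (j / 3) := lt_of_lt_of_le (by norm_num) (eexp_pos hq)
  set e := eexp (k / 3) (j / 3) with he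
  obtain ⟨C₁, n₁, h₁⟩ := lower_main hj hjk
  obtain ⟨C₂, n₂, h₂⟩ := upper_main hj hjk
  obtain ⟨n₃, h₃⟩ := Lim_round he0 C₁
  obtain ⟨n₄, h₄⟩ := Lim_beat (show (0 : ℝ) < 1 by norm_num) 1 1 (by norm_num)
  refine ⟨max (C₁ + 1) (max C₂ 1), lt_of_lt_of_le zero_lt_one
    ((le_max_right _ _).trans (le_max_right _ _)), max (max n₁ n₂) (max n₃ (max n₄ 1)), ?_⟩
  intro n hn F hF
  have hn1 : n₁ ≤ n := le_trans (le_trans (le_max_left _ _) (le_max_left _ _)) hn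
  have hn2 : n₂ ≤ n := le_trans (le_trans (le_max_right _ _) (le_max_left _ _)) hn
  have hn3 : n₃ ≤ n := le_trans (le_trans (le_max_left _ _) (le_max_right _ _)) hn
  have hn4 : n₄ ≤ n := le_trans (le_trans (le_trans (le_max_left _ _) (le_max_right _ _))
    (le_max_right _ _)) hn
  have hn5 : 1 ≤ n := le_trans (le_trans (le_trans (le_max_right _ _) (le_max_right _ _))
    (le_max_right _ _)) hn
  obtain ⟨hL1, hLL, -⟩ := h₄ n hn4
  obtain ⟨c, hc3, hc, hc'⟩ := h₃ n hn3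
  obtain ⟨P, hP1, hP2, hP3⟩ := h₂ n hn2
  set L := Real.log (n : ℝ) with hL
  set U := Real.exp (C₂ * L ^ e * Real.log L) with hU
  have hbdd : ∀ P' : Set (ℝ × ℝ), P'.ncard = n →
      BddAbove {m : ℕ | ∃ Q : Set (ℝ × ℝ), Q ⊆ P' ∧ Q.ncard = m ∧ KConvexSet j Q} := by
    intro P' hP'
    refine ⟨n, ?_⟩
    rintro m ⟨Q, hQ1, hQ2, -⟩
    rw [← hQ2, ← hP']
    exact Set.ncard_le_ncard hQ1 (Set.finite_of_ncard_pos (by omega))
  have key : c ≤ F ∧ (F : ℝ) ≤ U := by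
    rcases hF with rfl | rfl
    · set A := {m : ℕ | ∀ P : Set (ℝ × ℝ), P.ncard = n → KConvexSet k P →
        ∃ Q : Set (ℝ × ℝ), Q ⊆ P ∧ Q.ncard = m ∧ KConvexSet j Q} with hA
      have hA1 : ∀ m ∈ A, (m : ℝ) ≤ U := by
        intro m hm
        obtain ⟨Q, hQ1, hQ2, hQ3⟩ := hm P hP1 hP2
        rw [← hQ2]
        exact hP3 Q hQ1 hQ3
      have hbA : BddAbove A := by
        refine ⟨⌈U⌉₊, fun m hm => ?_⟩
        exact_mod_cast (hA1 m hm).trans (Nat.le_ceil _)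
      have hcA : c ∈ A := by
        intro P' hP'1 hP'2
        obtain ⟨Q, hQ1, hQ2, hQ3⟩ := h₁ n hn1 P' hP'1 hP'2 c hc3 hc
        exact ⟨Q, hQ1, hQ3, hQ2⟩
      exact ⟨le_csSup hbA hcA, hA1 _ (Nat.sSup_mem ⟨c, hcA⟩ hbA)⟩
    · set A := {M : ℕ | ∃ P : Set (ℝ × ℝ), P.ncard = n ∧ KConvexSet k P ∧
        M = sSup {m : ℕ | ∃ Q : Set (ℝ × ℝ), Q ⊆ P ∧ Q.ncard = m ∧ KConvexSet j Q}} with hA
      have hne : A.Nonempty := ⟨_, P, hP1, hP2, rfl⟩
      constructor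
      · obtain ⟨P', hP'1, hP'2, hP'3⟩ := Nat.sInf_mem hne
        show c ≤ sInf A
        rw [hP'3]
        apply le_csSup (hbdd P' hP'1)
        obtain ⟨Q, hQ1, hQ2, hQ3⟩ := h₁ n hn1 P' hP'1 hP'2 c hc3 hc
        exact ⟨Q, hQ1, hQ3, hQ2⟩
      · have h3 : g k j n ≤
            sSup {m : ℕ | ∃ Q : Set (ℝ × ℝ), Q ⊆ P ∧ Q.ncard = m ∧ KConvexSet j Q} :=
          Nat.sInf_le ⟨P, hP1, hP2, rfl⟩
        refine le_trans (Nat.cast_le.mpr h3) ?_
        have hne2 : {m : ℕ | ∃ Q : Set (ℝ × ℝ), Q ⊆ P ∧ Q.ncard = m ∧ KConvexSet j Q}.Nonempty := by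
          obtain ⟨Q, hQ1, hQ2, hQ3⟩ := h₁ n hn1 P hP1 hP2 c hc3 hc
          exact ⟨c, Q, hQ1, hQ3, hQ2⟩
        obtain ⟨Q, hQ1, hQ2, hQ3⟩ := Nat.sSup_mem hne2 (hbdd P hP1)
        rw [← hQ2]
        exact hP3 Q hQ1 hQ3
  have hLe : 0 ≤ L ^ e := Real.rpow_nonneg (by linarith) _
  constructor
  · refine le_trans ?_ (hc'.trans (Nat.cast_le.mpr key.1))
    apply Real.exp_le_exp.mpr
    apply div_le_div_of_nonneg_left hLe (Real.rpow_pos_of_pos (by linarith) _)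
    exact Real.rpow_le_rpow_of_exponent_le (by linarith) (le_max_left _ _)
  · refine key.2.trans ?_
    apply Real.exp_le_exp.mpr
    apply mul_le_mul_of_nonneg_right _ (by linarith)
    exact mul_le_mul_of_nonneg_right ((le_max_left _ _).trans (le_max_right _ _)) hLe

theorem Lim_tendsto {k j : ℕ} (hj : 3 ≤ j) (hjk : j < k) (F : ℕ → ℕ)
    (hF : ∀ n, F n = f k j n ∨ F n = g k j n) :
    Tendsto (fun n : ℕ => Real.log (Real.log (F n)) / Real.log (Real.log n)) atTop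
      (𝓝 (eexp (k / 3) (j / 3))) := by
  have hq : 1 ≤ j / 3 := by omega
  have he0 : 0 < eexp (k / 3) (j / 3) := lt_of_lt_of_le (by norm_num) (eexp_pos hq)
  obtain ⟨C, hC, n₀, hn₀⟩ := Lim_bounds hj hjk
  set e := eexp (k / 3) (j / 3) with he
  apply Lim_aux he0
  intro ε hε
  obtain ⟨n₁, h₁⟩ := Lim_beat hε C 1 (by norm_num)
  obtain ⟨n₂, h₂⟩ := Lim_beat hε 1 C hC
  refine ⟨max n₀ (max n₁ n₂), fun n hn => ?_⟩
  have hn0 : n₀ ≤ n := le_trans (le_max_left _ _) hn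
  have hn1 : n₁ ≤ n := le_trans (le_trans (le_max_left _ _) (le_max_right _ _)) hn
  have hn2 : n₂ ≤ n := le_trans (le_trans (le_max_right _ _) (le_max_right _ _)) hn
  obtain ⟨hL1, hLL, hb1⟩ := h₁ n hn1
  obtain ⟨-, -, hb2⟩ := h₂ n hn2
  obtain ⟨hlow, hup⟩ := hn₀ n hn0 (F n) (hF n)
  set L := Real.log (n : ℝ) with hL
  have hLpos : 0 < L := by linarith
  have hLe : 0 < L ^ e := Real.rpow_pos_of_pos hLpos _
  rw [one_mul] at hb1
  rw [Real.rpow_one] at hb2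
  constructor
  · intro c _ hc
    have h3 : L ^ (e - ε) ≤ L ^ e / Real.log L ^ C := by
      rw [Real.rpow_sub hLpos]
      exact div_le_div_of_nonneg_left hLe.le (Real.rpow_pos_of_pos (by linarith) _) hb1
    exact_mod_cast (hc.trans (Real.exp_le_exp.mpr h3)).trans hlow
  · refine hup.trans (Real.exp_le_exp.mpr ?_)
    rw [Real.rpow_add hLpos]
    calc C * L ^ e * Real.log L = L ^ e * (C * Real.log L) := by ring
      _ ≤ L ^ e * L ^ ε := mul_le_mul_of_nonneg_left hb2 hLe.le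

end Pool.Agent.H41.Ex
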