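import Mathlib
import Pool.Agent.H41.Kc.Lower3
import Pool.Agent.H41.Ex.Lim

set_option autoImplicit false

/-!
Growing `k`.
-/

namespace Pool.Agent.H41.Ex

open Pool.Agent.H41.Kc Filter Topology

lemma Grow_lower {ε : ℝ} (hε : 0 < ε) : ∃ n₀ : ℕ, ∀ n ≥ n₀,
    Real.log n ^ (1 / 2 - ε) ≤ Real.sqrt (Real.log n / Real.log (Real.log n)) / 30 := by
  obtain ⟨N, hN⟩ := Lim_beat hε (1 / 2) 30 (by norm_num)
  refine ⟨N, fun n hn => ?_⟩
  obtain ⟨h1, h2, h3⟩ := hN n hn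
  set L := Real.log (n : ℝ) with hL
  have hL0 : 0 < L := by linarith
  have hl0 : 0 < Real.log L := by linarith
  rw [← Real.sqrt_eq_rpow] at h3
  rw [Real.sqrt_div hL0.le, Real.rpow_sub hL0, ← Real.sqrt_eq_rpow, le_div_iff₀ (by norm_num),
    div_mul_eq_mul_div, div_le_div_iff₀ (by positivity) (by positivity)]
  calc Real.sqrt L * 30 * Real.sqrt (Real.log L) = Real.sqrt L * (30 * Real.sqrt (Real.log L)) := by
        ring
    _ ≤ Real.sqrt L * L ^ ε := mul_le_mul_of_nonneg_left h3 (Real.sqrt_nonneg _)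

lemma Grow_upper {ε : ℝ} (hε : 0 < ε) {e : ℝ} (he : e ≤ 1 / 2 + ε / 2) (C : ℝ) :
    ∃ n₀ : ℕ, ∀ n ≥ n₀,
      C * Real.log n ^ e * Real.log (Real.log n) ≤ Real.log n ^ (1 / 2 + ε) := by
  obtain ⟨N, hN⟩ := Lim_beat (show 0 < ε / 2 by linarith) 1 (max C 1)
    (lt_of_lt_of_le zero_lt_one (le_max_right _ _))
  refine ⟨N, fun n hn => ?_⟩
  obtain ⟨h1, h2, h3⟩ := hN n hn
  rw [Real.rpow_one] at h3
  set L := Real.log (n : ℝ) with hL
  have hL0 : 0 < L := by linarith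
  have hl0 : 0 < Real.log L := by linarith
  have h4 : 0 < L ^ e := Real.rpow_pos_of_pos hL0 _
  calc C * L ^ e * Real.log L = L ^ e * (C * Real.log L) := by ring
    _ ≤ L ^ e * (max C 1 * Real.log L) := by gcongr; exact le_max_left _ _
    _ ≤ L ^ e * L ^ (ε / 2) := mul_le_mul_of_nonneg_left h3 h4.le
    _ ≤ L ^ (1 / 2 + ε / 2) * L ^ (ε / 2) := by
        apply mul_le_mul_of_nonneg_right _ (Real.rpow_nonneg hL0.le _)
        exact Real.rpow_le_rpow_of_exponent_le h1.le he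
    _ = L ^ (1 / 2 + ε) := by
        rw [← Real.rpow_add hL0]
        congr 1
        ring

/-- growing `k`: the exponent is `1 / 2` -/
theorem Grow_tendsto {j : ℕ} (hj : 3 ≤ j) (κ : ℕ → ℕ) (hκ : Tendsto κ atTop atTop) :
    Tendsto (fun n : ℕ => Real.log (Real.log (g (κ n) j n)) / Real.log (Real.log n)) atTop
      (𝓝 (1 / 2)) := by
  apply Lim_aux (by norm_num) (fun n => g (κ n) j n)
  intro ε hε
  -- the parameter
  obtain ⟨D, hD⟩ : ∃ D : ℕ, (j : ℝ) / ε < D := exists_nat_gt _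
  have hD1 : 1 ≤ D := by
    have : (0 : ℝ) < D := lt_of_le_of_lt (by positivity) hD
    exact_mod_cast this
  have hD0 : (0 : ℝ) < D := by exact_mod_cast hD1
  have he : ((((D + j / 3) / 2 : ℕ) : ℝ) / D) ≤ 1 / 2 + ε / 2 := by
    have h1 : (((D + j / 3) / 2 : ℕ) : ℝ) ≤ ((D : ℝ) + j) / 2 := by
      have h2 : 2 * ((D + j / 3) / 2) ≤ D + j := by omega
      have h3 : (2 : ℝ) * (((D + j / 3) / 2 : ℕ) : ℝ) ≤ (D : ℝ) + j := by exact_mod_cast h2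
      linarith
    rw [div_le_iff₀ hD0]
    rw [div_lt_iff₀ hε] at hD
    nlinarith
  obtain ⟨P, hP1, hP2⟩ := sharpup_result D hD1
  obtain ⟨C, hC⟩ := hP2 j
  obtain ⟨n₁, h₁⟩ := Grow_lower hε
  obtain ⟨n₂, h₂⟩ := Grow_upper hε he C
  obtain ⟨n₃, h₃⟩ := every_lower
  obtain ⟨n₄, h₄⟩ := eventually_atTop.mp (hκ.eventually_ge_atTop (3 * D))
  refine ⟨max (max n₁ n₂) (max (max n₃ n₄) 3), fun n hn => ?_⟩
  have hn1 : n₁ ≤ n := le_trans (le_trans (le_max_left _ _) (le_max_left _ _)) hn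
  have hn2 : n₂ ≤ n := le_trans (le_trans (le_max_right _ _) (le_max_left _ _)) hn
  have hn3 : n₃ ≤ n := le_trans (le_trans (le_trans (le_max_left _ _) (le_max_left _ _))
    (le_max_right _ _)) hn
  have hn4 : n₄ ≤ n := le_trans (le_trans (le_trans (le_max_right _ _) (le_max_left _ _))
    (le_max_right _ _)) hn
  have hn5 : 3 ≤ n := le_trans (le_trans (le_max_right _ _) (le_max_right _ _)) hn
  have hbdd : ∀ P' : Set (ℝ × ℝ), P'.ncard = n →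
      BddAbove {m : ℕ | ∃ Q : Set (ℝ × ℝ), Q ⊆ P' ∧ Q.ncard = m ∧ KConvexSet j Q} := by
    intro P' hP'
    refine ⟨n, ?_⟩
    rintro m ⟨Q, hQ1, hQ2, -⟩
    rw [← hQ2, ← hP']
    exact Set.ncard_le_ncard hQ1 (Set.finite_of_ncard_pos (by omega))
  have hPn := (hP1 n hn5).1
  have hPk : KConvexSet (κ n) (P n) := (hP1 n hn5).2 _ (h₄ n hn4)
  set A := {M : ℕ | ∃ P : Set (ℝ × ℝ), P.ncard = n ∧ KConvexSet (κ n) P ∧
    M = sSup {m : ℕ | ∃ Q : Set (ℝ × ℝ), Q ⊆ P ∧ Q.ncard = m ∧ KConvexSet j Q}} with hA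
  have hne : A.Nonempty := ⟨_, P n, hPn, hPk, rfl⟩
  constructor
  · intro c _ hc
    obtain ⟨P', hP'1, hP'2, hP'3⟩ := Nat.sInf_mem hne
    show c ≤ sInf A
    rw [hP'3]
    obtain ⟨Q, hQ1, hQ2, hQ3⟩ := h₃ n hn3 P' hP'1 hP'2.1
    have h5 : (c : ℝ) ≤ Q.ncard := by
      refine hc.trans (le_trans ?_ hQ3)
      exact Real.exp_le_exp.mpr (h₁ n hn1)
    have h6 : c ≤ Q.ncard := by exact_mod_cast h5
    exact h6.trans (le_csSup (hbdd P' hP'1) ⟨Q, hQ1, rfl, hQ2 j hj⟩)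
  · have h5 : g (κ n) j n ≤
        sSup {m : ℕ | ∃ Q : Set (ℝ × ℝ), Q ⊆ P n ∧ Q.ncard = m ∧ KConvexSet j Q} :=
      Nat.sInf_le ⟨P n, hPn, hPk, rfl⟩
    refine le_trans (Nat.cast_le.mpr h5) ?_
    rcases Set.eq_empty_or_nonempty
      {m : ℕ | ∃ Q : Set (ℝ × ℝ), Q ⊆ P n ∧ Q.ncard = m ∧ KConvexSet j Q} with h0 | h0
    · rw [h0]
      simp only [csSup_empty, bot_eq_zero', Nat.cast_zero]
      exact (Real.exp_pos _).le
    · obtain ⟨Q, hQ1, hQ2, hQ3⟩ := Nat.sSup_mem h0 (hbdd (P n) hPn)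
      rw [← hQ2]
      exact (hC n hn5 Q hQ1 hQ3).trans (Real.exp_le_exp.mpr (h₂ n hn2))

end Pool.Agent.H41.Ex
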